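import Mathlib

set_option autoImplicit false

open Finset Classical

namespace Pool.Agent.GNet


/-- discrete data of a system of particles: positions and one-sided velocities at the times
`T 0 < T 1 < … < T n`, pair energies `lm`, `lp` before and after the events, and the derivatives
`qm`, `qp` of the pair distances before and after the events -/
structure Abs (E : Type*) [NormedAddCommGroup E] [NormedSpace ℝ E] (C m : ℝ) (ι : Type*)
    [Fintype ι] where
  n : ℕ
  T : ℕ → ℝ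
  pos : ℕ → ι → E
  um : ℕ → ι → E
  up : ℕ → ι → E
  lm : ℕ → ι → ι → ℝ
  lp : ℕ → ι → ι → ℝ
  qm : ℕ → ι → ι → ℝ
  qp : ℕ → ι → ι → ℝ
  mono : ∀ k < n, T k < T (k + 1)
  lm_ge : ∀ k, 0 < k → k ≤ n → ∀ i j,
    m * (‖um k j - um k i‖ ^ 2 + ‖pos k j - pos k i‖ ^ 2) ≤ lm k i j
  lm_le : ∀ k, 0 < k → k ≤ n → ∀ i j,
    lm k i j ≤ C * (‖um k j - um k i‖ ^ 2 + ‖pos k j - pos k i‖ ^ 2)
  lp_ge : ∀ k < n, ∀ i j,
    m * (‖up k j - up k i‖ ^ 2 + ‖pos k j - pos k i‖ ^ 2) ≤ lp k i j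
  lp_le : ∀ k < n, ∀ i j,
    lp k i j ≤ C * (‖up k j - up k i‖ ^ 2 + ‖pos k j - pos k i‖ ^ 2)
  /-- growth of the pair energies between two events -/
  grow : ∀ k < n, T (k + 1) - T k ≤ 1 → ∀ i j,
    lm (k + 1) i j ≤ Real.exp (C * (T (k + 1) - T k)) * lp k i j ∧
    lp k i j ≤ Real.exp (C * (T (k + 1) - T k)) * lm (k + 1) i j
  /-- motion of the relative positions -/
  move : ∀ k < n, T (k + 1) - T k ≤ 1 → ∀ i j,
    ‖(pos (k + 1) j - pos (k + 1) i) - (pos k j - pos k i)‖ ≤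
      C * (T (k + 1) - T k) * Real.sqrt (lp k i j)
  /-- motion of the relative velocities between two events -/
  acc : ∀ k < n, T (k + 1) - T k ≤ 1 → ∀ i j,
    ‖(um (k + 1) j - um (k + 1) i) - (up k j - up k i)‖ ≤
      C * (T (k + 1) - T k) * Real.sqrt (lp k i j)
  /-- the derivatives of the distances nearly increase between two events -/
  incr : ∀ k < n, T (k + 1) - T k ≤ 1 → ∀ i j,
    - (C * (T (k + 1) - T k) * Real.sqrt (lp k i j)) ≤ qm (k + 1) i j - qp k i j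
  qm_le : ∀ k, 0 < k → k ≤ n → ∀ i j, |qm k i j| ≤ C * Real.sqrt (lm k i j)
  qp_le : ∀ k < n, ∀ i j, |qp k i j| ≤ C * Real.sqrt (lp k i j)
  /-- the energy of a closed set does not change at an event -/
  energy : ∀ (S : Finset ι) (k : ℕ), 0 < k → k < n → (∀ i ∈ S, ∀ j ∉ S, pos k i ≠ pos k j) →
    ∑ i ∈ S, ∑ j ∈ S, lm k i j = ∑ i ∈ S, ∑ j ∈ S, lp k i j
  /-- the momentum of a closed set does not change at an event -/
  momentum : ∀ (S : Finset ι) (k : ℕ), 0 < k → k < n → (∀ i ∈ S, ∀ j ∉ S, pos k i ≠ pos k j) →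
    ∑ i ∈ S, um k i = ∑ i ∈ S, up k i
  /-- the sum of the derivatives of the distances increases at an event -/
  jump : ∀ (S : Finset ι) (k : ℕ), 0 < k → k < n → (∀ i ∈ S, ∀ j ∉ S, pos k i ≠ pos k j) →
    ∑ i ∈ S, ∑ j ∈ S with pos k i = pos k j, ‖um k j - um k i‖ ≤
      C * (∑ i ∈ S, ∑ j ∈ S, qp k i j - ∑ i ∈ S, ∑ j ∈ S, qm k i j)
  /-- two particles never coincide with the same velocity -/
  nondeg : ∀ k < n, ∀ i j, i ≠ j → pos k i ≠ pos k j ∨ up k i ≠ up k j

variable {E : Type*} [NormedAddCommGroup E] [NormedSpace ℝ E] {C m : ℝ} {ι : Type*} [Fintype ι]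

/-- the set `S` of particles does not meet the other ones at the events strictly between `a`
and `b` -/
def Abs.Closed (s : Abs E C m ι) (S : Finset ι) (a b : ℕ) : Prop :=
  ∀ k, a < k → k < b → ∀ i ∈ S, ∀ j ∉ S, s.pos k i ≠ s.pos k j

/-- the events strictly between `a` and `b` at which two particles of `S` meet -/
noncomputable def Abs.meets (s : Abs E C m ι) (S : Finset ι) (a b : ℕ) : Finset ℕ :=
  (Ioo a b).filter fun k => ∃ i ∈ S, ∃ j ∈ S, i ≠ j ∧ s.pos k i = s.pos k j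

/-- total energy of `S` after the event `k` -/
noncomputable def Abs.Lp (s : Abs E C m ι) (S : Finset ι) (k : ℕ) : ℝ :=
  ∑ i ∈ S, ∑ j ∈ S, s.lp k i j

/-- total energy of `S` before the event `k` -/
noncomputable def Abs.Lm (s : Abs E C m ι) (S : Finset ι) (k : ℕ) : ℝ :=
  ∑ i ∈ S, ∑ j ∈ S, s.lm k i j

end Pool.Agent.GNet
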