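import Mathlib
import Pool.Agent.Helper971.BK.DAbs

set_option autoImplicit false

open Finset Classical

namespace Pool.Agent.GNet

variable {E : Type*} [NormedAddCommGroup E] [NormedSpace ℝ E] {C m : ℝ} {ι : Type*} [Fintype ι]

theorem Abs.lp_nonneg (hm : 0 < m) (s : Abs E C m ι) {k : ℕ} (hk : k < s.n) (i j : ι) :
    0 ≤ s.lp k i j :=
  le_trans (by positivity) (s.lp_ge k hk i j)

theorem Abs.lm_nonneg (hm : 0 < m) (s : Abs E C m ι) {k : ℕ} (h0 : 0 < k) (hk : k ≤ s.n)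
    (i j : ι) : 0 ≤ s.lm k i j :=
  le_trans (by positivity) (s.lm_ge k h0 hk i j)

theorem Abs.Lp_nonneg (hm : 0 < m) (s : Abs E C m ι) (S : Finset ι) {k : ℕ} (hk : k < s.n) :
    0 ≤ s.Lp S k :=
  Finset.sum_nonneg fun i _ => Finset.sum_nonneg fun j _ => s.lp_nonneg hm hk i j

theorem Abs.Lm_nonneg (hm : 0 < m) (s : Abs E C m ι) (S : Finset ι) {k : ℕ} (h0 : 0 < k)
    (hk : k ≤ s.n) : 0 ≤ s.Lm S k :=
  Finset.sum_nonneg fun i _ => Finset.sum_nonneg fun j _ => s.lm_nonneg hm h0 hk i j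

theorem Abs.T_le (s : Abs E C m ι) {i j : ℕ} (hij : i ≤ j) (hj : j ≤ s.n) : s.T i ≤ s.T j := by
  induction j, hij using Nat.le_induction with
  | base => exact le_rfl
  | succ j hij ih => exact (ih (by omega)).trans (s.mono j (by omega)).le

theorem Abs.one_step (s : Abs E C m ι) (S : Finset ι) {k : ℕ} (hk : k < s.n)
    (hT : s.T (k + 1) - s.T k ≤ 1) :
    s.Lm S (k + 1) ≤ Real.exp (C * (s.T (k + 1) - s.T k)) * s.Lp S k ∧
    s.Lp S k ≤ Real.exp (C * (s.T (k + 1) - s.T k)) * s.Lm S (k + 1) := by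
  unfold Abs.Lm Abs.Lp
  constructor
  · rw [Finset.mul_sum]
    refine Finset.sum_le_sum fun i _ => ?_
    rw [Finset.mul_sum]
    exact Finset.sum_le_sum fun j _ => (s.grow k hk hT i j).1
  · rw [Finset.mul_sum]
    refine Finset.sum_le_sum fun i _ => ?_
    rw [Finset.mul_sum]
    exact Finset.sum_le_sum fun j _ => (s.grow k hk hT i j).2

/-- growth of the energy of a closed set -/
theorem Abs.growth (hC : 1 ≤ C) (hm : 0 < m) (s : Abs E C m ι) {S : Finset ι} {a b : ℕ}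
    (hb : b ≤ s.n) (hcl : s.Closed S a b) (hT : s.T b - s.T a ≤ 1) {k k' : ℕ} (h1 : a ≤ k)
    (h2 : k < k') (h3 : k' ≤ b) :
    s.Lm S k' ≤ Real.exp (C * (s.T k' - s.T k)) * s.Lp S k ∧
    s.Lp S k ≤ Real.exp (C * (s.T k' - s.T k)) * s.Lm S k' := by
  have hstep : ∀ l, a ≤ l → l + 1 ≤ b → s.T (l + 1) - s.T l ≤ 1 := by
    intro l hl1 hl2
    have e1 := s.T_le hl1 (by omega)
    have e2 := s.T_le hl2 hb
    linarith
  induction k', (show k + 1 ≤ k' from h2) using Nat.le_induction with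
  | base => exact s.one_step S (by omega) (hstep k h1 h3)
  | succ l hl ih =>
    obtain ⟨i1, i2⟩ := ih (by omega) (by omega)
    obtain ⟨j1, j2⟩ := s.one_step S (show l < s.n by omega) (hstep l (by omega) h3)
    have hE : s.Lm S l = s.Lp S l :=
      s.energy S l (by omega) (by omega) (hcl l (by omega) (by omega))
    have hexp : Real.exp (C * (s.T (l + 1) - s.T k)) =
        Real.exp (C * (s.T (l + 1) - s.T l)) * Real.exp (C * (s.T l - s.T k)) := by
      rw [← Real.exp_add]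
      congr 1
      ring
    rw [hexp]
    constructor
    · refine j1.trans ?_
      rw [← hE, mul_assoc]
      exact mul_le_mul_of_nonneg_left i1 (Real.exp_pos _).le
    · refine i2.trans ?_
      rw [hE, mul_comm (Real.exp (C * (s.T (l + 1) - s.T l))), mul_assoc]
      exact mul_le_mul_of_nonneg_left j2 (Real.exp_pos _).le

/-- all the energies of a closed set are comparable on a short interval -/
theorem Abs.comparable (hC : 1 ≤ C) (hm : 0 < m) (s : Abs E C m ι) {S : Finset ι} {a b : ℕ}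
    (hb : b ≤ s.n) (hab : a < b) (hcl : s.Closed S a b) (hT : C * (s.T b - s.T a) ≤ 1 / 2) :
    (∀ k, a ≤ k → k < b → s.Lp S k ≤ 2 * s.Lp S a ∧ s.Lp S a ≤ 2 * s.Lp S k) ∧
    (∀ k, a < k → k ≤ b → s.Lm S k ≤ 2 * s.Lp S a ∧ s.Lp S a ≤ 2 * s.Lm S k) := by
  have hTab := s.T_le hab.le hb
  have hT1 : s.T b - s.T a ≤ 1 := by nlinarith
  have hexp2 : Real.exp (1 / 2) ≤ 2 := by
    have h1 : Real.exp (1 / 2) ^ 2 = Real.exp 1 := by
      rw [← Real.exp_nat_mul]; norm_num
    have h2 := Real.exp_one_lt_d9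
    have h3 := Real.exp_pos (1 / 2 : ℝ)
    nlinarith
  have hm' : ∀ k, a < k → k ≤ b → s.Lm S k ≤ 2 * s.Lp S a ∧ s.Lp S a ≤ 2 * s.Lm S k := by
    intro k hk1 hk2
    obtain ⟨g1, g2⟩ := s.growth hC hm hb hcl hT1 le_rfl hk1 hk2
    have e1 : Real.exp (C * (s.T k - s.T a)) ≤ 2 := by
      refine le_trans (Real.exp_le_exp.2 ?_) hexp2
      have := s.T_le hk2 hb
      nlinarith
    exact ⟨g1.trans (mul_le_mul_of_nonneg_right e1 (s.Lp_nonneg hm S (by omega))),
      g2.trans (mul_le_mul_of_nonneg_right e1 (s.Lm_nonneg hm S (by omega) (by omega)))⟩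
  refine ⟨fun k hk1 hk2 => ?_, hm'⟩
  rcases Nat.eq_or_lt_of_le hk1 with rfl | hk1
  · have := s.Lp_nonneg hm S (show a < s.n by omega)
    constructor <;> linarith
  · have hE : s.Lm S k = s.Lp S k :=
      s.energy S k (by omega) (by omega) (hcl k hk1 hk2)
    rw [← hE]
    exact hm' k hk1 hk2.le

/-- the energy of at least two particles is positive -/
theorem Abs.Lp_pos (hm : 0 < m) (s : Abs E C m ι) {S : Finset ι} {k : ℕ} (hk : k < s.n)
    (hS : 2 ≤ #S) : 0 < s.Lp S k := by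
  obtain ⟨i, hi, j, hj, hij⟩ := Finset.one_lt_card.1 hS
  have h1 : 0 < s.lp k i j := by
    refine lt_of_lt_of_le ?_ (s.lp_ge k hk i j)
    apply mul_pos hm
    rcases s.nondeg k hk i j hij with h | h
    · have : 0 < ‖s.pos k j - s.pos k i‖ := norm_pos_iff.2 (sub_ne_zero.2 (Ne.symm h))
      positivity
    · have : 0 < ‖s.up k j - s.up k i‖ := norm_pos_iff.2 (sub_ne_zero.2 (Ne.symm h))
      positivity
  refine lt_of_lt_of_le h1 ?_
  unfold Abs.Lp
  have h2 : s.lp k i j ≤ ∑ j ∈ S, s.lp k i j :=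
    Finset.single_le_sum (f := fun j => s.lp k i j) (fun j _ => s.lp_nonneg hm hk i j) hj
  refine h2.trans ?_
  exact Finset.single_le_sum (f := fun i => ∑ j ∈ S, s.lp k i j)
    (fun i _ => Finset.sum_nonneg fun j _ => s.lp_nonneg hm hk i j) hi

end Pool.Agent.GNet
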