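import Mathlib
import Pool.Agent.Helper971.BK.DAbs
import Pool.Agent.Helper971.BK.A1

set_option autoImplicit false

open Finset Classical

namespace Pool.Agent.GNet

variable {E : Type*} [NormedAddCommGroup E] [NormedSpace ℝ E] {C m : ℝ} {ι : Type*} [Fintype ι]

theorem Abs.bka2_T (s : Abs E C m ι) {a k : ℕ} (h1 : a ≤ k) (h2 : k ≤ s.n) : s.T a ≤ s.T k := by
  induction k, h1 using Nat.le_induction with
  | base => exact le_rfl
  | succ k hk ih => exact (ih (by omega)).trans (s.mono k (by omega)).le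

theorem Abs.bka2_step (hC : 1 ≤ C) (s : Abs E C m ι) {a b : ℕ} (hb : b ≤ s.n)
    (hT : C * (s.T b - s.T a) ≤ 1 / 2) {k : ℕ} (h1 : a ≤ k) (h2 : k < b) :
    s.T (k + 1) - s.T k ≤ 1 := by
  have h3 := s.bka2_T h1 (by omega)
  have h4 := s.bka2_T (show k + 1 ≤ b by omega) hb
  have h5 := s.bka2_T (show a ≤ b by omega) hb
  have h6 : s.T b - s.T a ≤ C * (s.T b - s.T a) := le_mul_of_one_le_left (by linarith) hC
  linarith

theorem Abs.bka2_lp (hC : 1 ≤ C) (hm : 0 < m) (s : Abs E C m ι) {S : Finset ι} {a b : ℕ}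
    (hb : b ≤ s.n) (hab : a < b) (hcl : s.Closed S a b) (hT : C * (s.T b - s.T a) ≤ 1 / 2)
    {i j : ι} (hi : i ∈ S) (hj : j ∈ S) {k : ℕ} (h1 : a ≤ k) (h2 : k < b) :
    Real.sqrt (s.lp k i j) ≤ Real.sqrt (2 * s.Lp S a) := by
  apply Real.sqrt_le_sqrt
  refine le_trans ?_ ((s.comparable hC hm hb hab hcl hT).1 k h1 h2).1
  have hnn : ∀ i j, 0 ≤ s.lp k i j := fun i j => s.lp_nonneg hm (by omega) i j
  refine le_trans ?_ (Finset.single_le_sum (f := fun i => ∑ j ∈ S, s.lp k i j)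
    (fun i _ => Finset.sum_nonneg (fun j _ => hnn i j)) hi)
  exact Finset.single_le_sum (f := fun j => s.lp k i j) (fun j _ => hnn i j) hj

/-- the relative positions of a closed set -/
theorem Abs.positions (hC : 1 ≤ C) (hm : 0 < m) (s : Abs E C m ι) {S : Finset ι} {a b : ℕ}
    (hb : b ≤ s.n) (hab : a < b) (hcl : s.Closed S a b) (hT : C * (s.T b - s.T a) ≤ 1 / 2)
    {i j : ι} (hi : i ∈ S) (hj : j ∈ S) {k : ℕ} (h1 : a ≤ k) (h2 : k ≤ b) :
    ‖(s.pos k j - s.pos k i) - (s.pos a j - s.pos a i)‖ ≤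
      C * (s.T b - s.T a) * Real.sqrt (2 * s.Lp S a) := by
  have key : ∀ k, a ≤ k → k ≤ b → ‖(s.pos k j - s.pos k i) - (s.pos a j - s.pos a i)‖ ≤
      C * (s.T k - s.T a) * Real.sqrt (2 * s.Lp S a) := by
    intro k h1
    induction k, h1 using Nat.le_induction with
    | base => intro _; simp
    | succ k hk ih =>
      intro h2
      have h3 := ih (by omega)
      have h4 := s.move k (by omega) (s.bka2_step hC hb hT hk (by omega)) i j
      have h5 := s.bka2_lp hC hm hb hab hcl hT hi hj hk (show k < b by omega)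
      have h6 : 0 ≤ C * (s.T (k + 1) - s.T k) :=
        mul_nonneg (by linarith) (by linarith [s.mono k (by omega)])
      have h7 := mul_le_mul_of_nonneg_left h5 h6
      have h8 : (s.pos (k + 1) j - s.pos (k + 1) i) - (s.pos a j - s.pos a i) =
          ((s.pos (k + 1) j - s.pos (k + 1) i) - (s.pos k j - s.pos k i)) +
          ((s.pos k j - s.pos k i) - (s.pos a j - s.pos a i)) := by abel
      rw [h8]
      refine (norm_add_le _ _).trans ?_
      calc _ ≤ C * (s.T (k + 1) - s.T k) * Real.sqrt (2 * s.Lp S a) +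
          C * (s.T k - s.T a) * Real.sqrt (2 * s.Lp S a) := add_le_add (h4.trans h7) h3
        _ = _ := by ring
  refine (key k h1 h2).trans ?_
  apply mul_le_mul_of_nonneg_right _ (Real.sqrt_nonneg _)
  apply mul_le_mul_of_nonneg_left _ (by linarith)
  linarith [s.bka2_T h2 hb]

theorem Abs.bka2_double (S₁ S₂ : Finset ι) (u : ι → E) :
    ∑ i ∈ S₁, ∑ j ∈ S₂, (u j - u i) = #S₁ • ∑ j ∈ S₂, u j - #S₂ • ∑ i ∈ S₁, u i := by
  simp only [Finset.sum_sub_distrib, Finset.sum_const, Finset.smul_sum]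

/-- the mean relative velocity of two closed subsets -/
theorem Abs.means (hC : 1 ≤ C) (hm : 0 < m) (s : Abs E C m ι) {S S₁ S₂ : Finset ι} {a b : ℕ}
    (hb : b ≤ s.n) (hab : a < b) (hcl : s.Closed S a b) (hT : C * (s.T b - s.T a) ≤ 1 / 2)
    (hS₁ : S₁ ⊆ S) (hS₂ : S₂ ⊆ S) (hc1 : s.Closed S₁ a b) (hc2 : s.Closed S₂ a b) :
    ‖∑ i ∈ S₁, ∑ j ∈ S₂, (s.um b j - s.um b i) - ∑ i ∈ S₁, ∑ j ∈ S₂, (s.up a j - s.up a i)‖ ≤
      C * (s.T b - s.T a) * ((#S₁ : ℝ) * #S₂) * Real.sqrt (2 * s.Lp S a) := by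
  have one : ∀ k, a ≤ k → k < b →
      ‖∑ i ∈ S₁, ∑ j ∈ S₂, (s.um (k + 1) j - s.um (k + 1) i) -
        ∑ i ∈ S₁, ∑ j ∈ S₂, (s.up k j - s.up k i)‖ ≤
      C * (s.T (k + 1) - s.T k) * ((#S₁ : ℝ) * #S₂) * Real.sqrt (2 * s.Lp S a) := by
    intro k h1 h2
    rw [← Finset.sum_sub_distrib]
    have h6 : 0 ≤ C * (s.T (k + 1) - s.T k) :=
      mul_nonneg (by linarith) (by linarith [s.mono k (by omega)])
    have h9 : ∀ i ∈ S₁, ‖∑ j ∈ S₂, (s.um (k + 1) j - s.um (k + 1) i) -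
        ∑ j ∈ S₂, (s.up k j - s.up k i)‖ ≤
        (#S₂ : ℝ) * (C * (s.T (k + 1) - s.T k) * Real.sqrt (2 * s.Lp S a)) := by
      intro i hi
      rw [← Finset.sum_sub_distrib]
      have h10 : ∀ j ∈ S₂, ‖(s.um (k + 1) j - s.um (k + 1) i) - (s.up k j - s.up k i)‖ ≤
          C * (s.T (k + 1) - s.T k) * Real.sqrt (2 * s.Lp S a) := by
        intro j hj
        have h4 := s.acc k (by omega) (s.bka2_step hC hb hT h1 h2) i j
        have h5 := s.bka2_lp hC hm hb hab hcl hT (hS₁ hi) (hS₂ hj) h1 h2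
        exact h4.trans (mul_le_mul_of_nonneg_left h5 h6)
      refine (norm_sum_le_of_le _ h10).trans ?_
      rw [Finset.sum_const, nsmul_eq_mul]
    refine (norm_sum_le_of_le _ h9).trans ?_
    rw [Finset.sum_const, nsmul_eq_mul]
    apply le_of_eq
    ring
  have key : ∀ k, a + 1 ≤ k → k ≤ b →
      ‖∑ i ∈ S₁, ∑ j ∈ S₂, (s.um k j - s.um k i) - ∑ i ∈ S₁, ∑ j ∈ S₂, (s.up a j - s.up a i)‖ ≤
      C * (s.T k - s.T a) * ((#S₁ : ℝ) * #S₂) * Real.sqrt (2 * s.Lp S a) := by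
    intro k h1
    induction k, h1 using Nat.le_induction with
    | base => intro h; exact one a le_rfl (by omega)
    | succ k hk ih =>
      intro h2
      have h3 := ih (by omega)
      have h4 := one k (by omega) (by omega)
      have h5 : ∑ i ∈ S₁, ∑ j ∈ S₂, (s.up k j - s.up k i) = ∑ i ∈ S₁, ∑ j ∈ S₂, (s.um k j - s.um k i) := by
        rw [Abs.bka2_double, Abs.bka2_double,
          s.momentum S₁ k (by omega) (by omega) (hc1 k (by omega) (by omega)),
          s.momentum S₂ k (by omega) (by omega) (hc2 k (by omega) (by omega))]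
      rw [h5] at h4
      have h8 : ∑ i ∈ S₁, ∑ j ∈ S₂, (s.um (k + 1) j - s.um (k + 1) i) -
          ∑ i ∈ S₁, ∑ j ∈ S₂, (s.up a j - s.up a i) =
          (∑ i ∈ S₁, ∑ j ∈ S₂, (s.um (k + 1) j - s.um (k + 1) i) -
            ∑ i ∈ S₁, ∑ j ∈ S₂, (s.um k j - s.um k i)) +
          (∑ i ∈ S₁, ∑ j ∈ S₂, (s.um k j - s.um k i) -
            ∑ i ∈ S₁, ∑ j ∈ S₂, (s.up a j - s.up a i)) := by abel
      rw [h8]
      refine (norm_add_le _ _).trans ?_
      refine (add_le_add h4 h3).trans (le_of_eq ?_)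
      ring
  exact key b (by omega) le_rfl

end Pool.Agent.GNet
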