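import Mathlib
import Pool.Agent.Helper971.BK.DAbs
import Pool.Agent.Helper971.BK.A1

set_option autoImplicit false

open Finset Classical

namespace Pool.Agent.GNet

variable {E : Type*} [NormedAddCommGroup E] [NormedSpace ℝ E] {C m : ℝ} {ι : Type*} [Fintype ι]

theorem total_Tmono (s : Abs E C m ι) {k k' : ℕ} (h1 : k ≤ k') (h2 : k' ≤ s.n) :
    s.T k ≤ s.T k' := by
  induction k', h1 using Nat.le_induction with
  | base => exact le_rfl
  | succ c hc ih => exact (ih (by omega)).trans (s.mono c (by omega)).le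

theorem total_sum_bound {ι : Type*} (f : ι → ι → ℝ) (S : Finset ι) (B : ℝ)
    (h : ∀ i ∈ S, ∀ j ∈ S, f i j ≤ B) : ∑ i ∈ S, ∑ j ∈ S, f i j ≤ (#S : ℝ) ^ 2 * B := by
  calc ∑ i ∈ S, ∑ j ∈ S, f i j ≤ ∑ i ∈ S, ∑ j ∈ S, B :=
        Finset.sum_le_sum fun i hi => Finset.sum_le_sum fun j hj => h i hi j hj
    _ = (#S : ℝ) ^ 2 * B := by
        simp only [Finset.sum_const, nsmul_eq_mul]; ring

theorem total_le_sum {ι : Type*} (f : ι → ι → ℝ) (S : Finset ι) (h : ∀ i j, 0 ≤ f i j) {i j : ι}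
    (hi : i ∈ S) (hj : j ∈ S) : f i j ≤ ∑ i ∈ S, ∑ j ∈ S, f i j :=
  (Finset.single_le_sum (f := fun j => f i j) (fun j _ => h i j) hj).trans
    (Finset.single_le_sum (f := fun i => ∑ j ∈ S, f i j)
      (fun i _ => Finset.sum_nonneg fun j _ => h i j) hi)

theorem total_telescope (Qp Qm T : ℕ → ℝ) (D : ℝ) (a b : ℕ)
    (h : ∀ k, a ≤ k → k < b → Qp k - Qm (k + 1) ≤ D * (T (k + 1) - T k)) :
    ∀ c, a < c → c ≤ b →
      ∑ k ∈ Ioo a c, (Qp k - Qm k) + Qp a - Qm c ≤ D * (T c - T a) := by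
  intro c hc
  induction c, hc using Nat.le_induction with
  | base =>
    intro hb
    have e : Ioo a (a + 1) = ∅ := by
      ext x; simp only [mem_Ioo, Finset.notMem_empty, iff_false]; omega
    have h1 := h a le_rfl (by omega)
    rw [Nat.succ_eq_add_one, e, Finset.sum_empty]
    linarith
  | succ c hc ih =>
    intro hb
    have h0 := ih (by omega)
    have h1 := h c (by omega) (by omega)
    have e : Ioo a (c + 1) = insert c (Ioo a c) := by
      ext x; simp only [mem_Ioo, Finset.mem_insert]; omega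
    rw [e, Finset.sum_insert (by simp)]
    linarith

/-- total variation of the velocities of a closed set at its events -/
theorem Abs.total (hC : 1 ≤ C) (hm : 0 < m) (s : Abs E C m ι) {S : Finset ι} {a b : ℕ}
    (hb : b ≤ s.n) (hab : a < b) (hcl : s.Closed S a b) (hT : C * (s.T b - s.T a) ≤ 1 / 2) :
    ∑ k ∈ Ioo a b, ∑ i ∈ S, ∑ j ∈ S with s.pos k i = s.pos k j, ‖s.um k j - s.um k i‖ ≤
      4 * C ^ 2 * (#S : ℝ) ^ 2 * Real.sqrt (2 * s.Lp S a) := by
  have hC0 : 0 < C := by linarith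
  obtain ⟨R, hR⟩ : ∃ R, R = Real.sqrt (2 * s.Lp S a) := ⟨_, rfl⟩
  have hR0 : 0 ≤ R := by rw [hR]; exact Real.sqrt_nonneg _
  obtain ⟨hc1, hc2⟩ := s.comparable hC hm hb hab hcl hT
  have hTab : s.T b - s.T a ≤ 1 := by
    have h0 : 0 ≤ s.T b - s.T a := sub_nonneg.2 (total_Tmono s hab.le hb)
    nlinarith
  have F1 : ∀ k, a ≤ k → k < b → ∀ i ∈ S, ∀ j ∈ S, Real.sqrt (s.lp k i j) ≤ R := by
    intro k h1 h2 i hi j hj
    rw [hR]
    apply Real.sqrt_le_sqrt
    refine le_trans ?_ (hc1 k h1 h2).1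
    exact total_le_sum (s.lp k) S (fun i j => s.lp_nonneg hm (by omega) i j) hi hj
  have F2 : ∀ k, a < k → k ≤ b → ∀ i ∈ S, ∀ j ∈ S, Real.sqrt (s.lm k i j) ≤ R := by
    intro k h1 h2 i hi j hj
    rw [hR]
    apply Real.sqrt_le_sqrt
    refine le_trans ?_ (hc2 k h1 h2).1
    exact total_le_sum (s.lm k) S (fun i j => s.lm_nonneg hm (by omega) (by omega) i j) hi hj
  obtain ⟨Qp, hQp⟩ : ∃ Q : ℕ → ℝ, Q = fun k => ∑ i ∈ S, ∑ j ∈ S, s.qp k i j := ⟨_, rfl⟩
  obtain ⟨Qm, hQm⟩ : ∃ Q : ℕ → ℝ, Q = fun k => ∑ i ∈ S, ∑ j ∈ S, s.qm k i j := ⟨_, rfl⟩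
  have F4 : ∀ k, a ≤ k → k < b → Qp k - Qm (k + 1) ≤
      ((#S : ℝ) ^ 2 * (C * R)) * (s.T (k + 1) - s.T k) := by
    intro k h1 h2
    have hT1 : s.T (k + 1) - s.T k ≤ 1 := by
      have h3 := total_Tmono s h1 (show k ≤ s.n by omega)
      have h4 := total_Tmono s (show k + 1 ≤ b by omega) hb
      linarith
    have hT0 : 0 ≤ s.T (k + 1) - s.T k := sub_nonneg.2 (s.mono k (by omega)).le
    have e1 : Qp k - Qm (k + 1) = ∑ i ∈ S, ∑ j ∈ S, (s.qp k i j - s.qm (k + 1) i j) := by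
      rw [hQp, hQm]
      simp only [Finset.sum_sub_distrib]
    rw [e1]
    have h5 := total_sum_bound (fun i j => s.qp k i j - s.qm (k + 1) i j) S
      (C * (s.T (k + 1) - s.T k) * R) (by
        intro i hi j hj
        have h6 := s.incr k (by omega) hT1 i j
        have h7 : C * (s.T (k + 1) - s.T k) * Real.sqrt (s.lp k i j) ≤
            C * (s.T (k + 1) - s.T k) * R :=
          mul_le_mul_of_nonneg_left (F1 k h1 h2 i hi j hj) (by positivity)
        show s.qp k i j - s.qm (k + 1) i j ≤ _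
        linarith)
    refine h5.trans (le_of_eq ?_)
    ring
  have tel := total_telescope Qp Qm s.T ((#S : ℝ) ^ 2 * (C * R)) a b F4 b hab le_rfl
  have F5 : Qm b ≤ (#S : ℝ) ^ 2 * (C * R) := by
    rw [hQm]
    refine total_sum_bound (fun i j => s.qm b i j) S (C * R) ?_
    intro i hi j hj
    have h6 := (le_abs_self _).trans (s.qm_le b (by omega) hb i j)
    exact h6.trans (mul_le_mul_of_nonneg_left (F2 b hab le_rfl i hi j hj) hC0.le)
  have F6 : -Qp a ≤ (#S : ℝ) ^ 2 * (C * R) := by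
    have e1 : -Qp a = ∑ i ∈ S, ∑ j ∈ S, (-s.qp a i j) := by
      rw [hQp]
      simp only [Finset.sum_neg_distrib]
    rw [e1]
    refine total_sum_bound (fun i j => -s.qp a i j) S (C * R) ?_
    intro i hi j hj
    have h6 := (neg_le_abs _).trans (s.qp_le a (by omega) i j)
    exact h6.trans (mul_le_mul_of_nonneg_left (F1 a le_rfl hab i hi j hj) hC0.le)
  have hjump : ∑ k ∈ Ioo a b, ∑ i ∈ S, ∑ j ∈ S with s.pos k i = s.pos k j,
      ‖s.um k j - s.um k i‖ ≤ ∑ k ∈ Ioo a b, C * (Qp k - Qm k) := by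
    refine Finset.sum_le_sum fun k hk => ?_
    rw [mem_Ioo] at hk
    have h6 := s.jump S k (by omega) (by omega) (hcl k hk.1 hk.2)
    rw [hQp, hQm]
    exact h6
  refine hjump.trans ?_
  rw [← Finset.mul_sum, ← hR]
  obtain ⟨W, hW⟩ : ∃ W, W = (#S : ℝ) ^ 2 * (C * R) := ⟨_, rfl⟩
  rw [← hW] at tel F5 F6
  have hW0 : 0 ≤ W := by rw [hW]; positivity
  have h7 : W * (s.T b - s.T a) ≤ W / C * (1 / 2) := by
    have e1 : W * (s.T b - s.T a) = W / C * (C * (s.T b - s.T a)) := by field_simp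
    rw [e1]
    exact mul_le_mul_of_nonneg_left hT (by positivity)
  have h8 : W / C ≤ W := div_le_self hW0 hC
  have h9 : ∑ k ∈ Ioo a b, (Qp k - Qm k) ≤ 4 * W := by linarith
  calc C * ∑ k ∈ Ioo a b, (Qp k - Qm k) ≤ C * (4 * W) := mul_le_mul_of_nonneg_left h9 hC0.le
    _ = 4 * C ^ 2 * (#S : ℝ) ^ 2 * R := by rw [hW]; ring

end Pool.Agent.GNet
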