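import Mathlib
import Pool.Agent.Helper971.BK.DAbs

set_option autoImplicit false

open Finset Classical

namespace Pool.Agent.GNet

variable {E : Type*} [NormedAddCommGroup E] [NormedSpace ℝ E] {C m : ℝ} {ι : Type*} [Fintype ι]

/-- pigeonhole: some gap of the scales contains no value -/
theorem exists_gap {ι : Type*} (S : Finset ι) (p : ℕ) (hS : #S ≤ p) (f : ι → ι → ℝ)
    (κ : ℕ → ℝ) (hκ : Antitone κ) :
    ∃ j ≤ p ^ 2, ∀ i ∈ S, ∀ l ∈ S, f i l ≤ κ (j + 1) ∨ κ j < f i l := by
  by_contra hcon
  push Not at hcon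
  have hne : Nonempty ι := by
    obtain ⟨i0, _⟩ := hcon 0 (Nat.zero_le _)
    exact ⟨i0⟩
  choose! F hF using hcon
  choose! H hH using fun j hj => (hF j hj).2
  have hmaps : ∀ j ∈ Finset.range (p ^ 2 + 1), (F j, H j) ∈ S ×ˢ S := by
    intro j hj
    have hj' : j ≤ p ^ 2 := by
      have := Finset.mem_range.1 hj
      omega
    exact Finset.mem_product.2 ⟨(hF j hj').1, (hH j hj').1⟩
  have hcard : #(S ×ˢ S) < #(Finset.range (p ^ 2 + 1)) := by
    rw [Finset.card_product, Finset.card_range]
    have : #S * #S ≤ p * p := Nat.mul_le_mul hS hS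
    have e : p ^ 2 = p * p := sq p
    omega
  obtain ⟨x, hx, y, hy, hxy, he⟩ := Finset.exists_ne_map_eq_of_card_lt_of_maps_to hcard hmaps
  have key : ∀ x y, x ≤ p ^ 2 → y ≤ p ^ 2 → x < y → (F x, H x) = (F y, H y) → False := by
    intro x y hx hy hlt he
    have h1 := (hH x hx).2.1
    have h2 := (hH y hy).2.2
    have h3 : κ y ≤ κ (x + 1) := hκ (by omega)
    have e1 : F x = F y := (Prod.mk.inj he).1
    have e2 : H x = H y := (Prod.mk.inj he).2
    rw [e1, e2] at h1
    linarith
  have hx' : x ≤ p ^ 2 := by have := Finset.mem_range.1 hx; omega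
  have hy' : y ≤ p ^ 2 := by have := Finset.mem_range.1 hy; omega
  rcases lt_or_gt_of_ne hxy with hlt | hlt
  · exact key x y hx' hy' hlt he
  · exact key y x hy' hx' hlt he.symm

theorem card_le_of_gaps_aux (q : ℕ) : ∀ (n : ℕ) (M B : Finset ℕ) (a b : ℕ), #B = n → a < b →
    (∀ k ∈ M, a < k ∧ k < b) → (∀ k ∈ B, a < k ∧ k < b) →
    (∀ a' b', a ≤ a' → a' < b' → b' ≤ b → (∀ k ∈ B, ¬ (a' < k ∧ k < b')) →
      #(M.filter fun k => a' < k ∧ k < b') ≤ q) →
    #M ≤ n + (n + 1) * q := by
  intro n
  induction n with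
  | zero =>
    intro M B a b hB0 hab hM hB h
    have hBe : B = ∅ := Finset.card_eq_zero.1 hB0
    have h1 := h a b le_rfl hab le_rfl (by rw [hBe]; simp)
    have e : (M.filter fun k => a < k ∧ k < b) = M := Finset.filter_true_of_mem hM
    rw [e] at h1
    omega
  | succ n ih =>
    intro M B a b hBn hab hM hB h
    have hne : B.Nonempty := by
      rw [← Finset.card_pos]; omega
    set c := B.max' hne with hc
    have hcB : c ∈ B := Finset.max'_mem B hne
    have hac := (hB c hcB).1
    have hcb := (hB c hcB).2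
    have hmax : ∀ k ∈ B, k ≤ c := fun k hk => Finset.le_max' B k hk
    have h1 : #(M.filter fun k => c < k ∧ k < b) ≤ q := by
      apply h c b hac.le hcb le_rfl
      intro k hk hk2
      have := hmax k hk
      omega
    have h2 : #(M.filter fun k => k < c) ≤ n + (n + 1) * q := by
      apply ih (M.filter fun k => k < c) (B.erase c) a c
      · rw [Finset.card_erase_of_mem hcB]; omega
      · exact hac
      · intro k hk
        rw [Finset.mem_filter] at hk
        exact ⟨(hM k hk.1).1, hk.2⟩
      · intro k hk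
        rw [Finset.mem_erase] at hk
        exact ⟨(hB k hk.2).1, lt_of_le_of_ne (hmax k hk.2) hk.1⟩
      · intro a' b' ha' hab' hb' hk
        refine le_trans (Finset.card_le_card ?_) (h a' b' ha' hab' (by omega) ?_)
        · intro k hk
          simp only [Finset.mem_filter] at hk ⊢
          exact ⟨hk.1.1, hk.2⟩
        · intro k hkB
          by_cases hkc : k = c
          · omega
          · exact hk k (Finset.mem_erase.2 ⟨hkc, hkB⟩)
    have h3 : M ⊆ ((M.filter fun k => k < c) ∪ (M.filter fun k => c < k ∧ k < b)) ∪ {c} := by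
      intro k hk
      simp only [Finset.mem_union, Finset.mem_filter, Finset.mem_singleton]
      rcases lt_trichotomy k c with hlt | heq | hgt
      · left; left; exact ⟨hk, hlt⟩
      · right; exact heq
      · left; right; exact ⟨hk, hgt, (hM k hk).2⟩
    have h4 := Finset.card_le_card h3
    have h5 := Finset.card_union_le ((M.filter fun k => k < c) ∪ (M.filter fun k => c < k ∧ k < b)) {c}
    have h6 := Finset.card_union_le (M.filter fun k => k < c) (M.filter fun k => c < k ∧ k < b)
    rw [Finset.card_singleton] at h5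
    have e : (n + 1 + 1) * q = (n + 1) * q + q := by ring
    omega

/-- counting with few exceptional elements -/
theorem card_le_of_gaps (M B : Finset ℕ) (q : ℕ) (a b : ℕ) (hab : a < b)
    (hM : ∀ k ∈ M, a < k ∧ k < b) (hB : ∀ k ∈ B, a < k ∧ k < b)
    (h : ∀ a' b', a ≤ a' → a' < b' → b' ≤ b → (∀ k ∈ B, ¬ (a' < k ∧ k < b')) →
      #(M.filter fun k => a' < k ∧ k < b') ≤ q) :
    #M ≤ #B + (#B + 1) * q := by
  refine card_le_of_gaps_aux q #B M B a b rfl hab hM hB ?_
  intro a' b' ha' hab' hb' hk
  convert h a' b' ha' hab' hb' hk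

end Pool.Agent.GNet
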