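import Mathlib
import Pool.Agent.Helper971.BK.DAbs
import Pool.Agent.Helper971.BK.A1
import Pool.Agent.Helper971.BK.A2
import Pool.Agent.Helper971.BK.A4

set_option autoImplicit false

open Finset Classical

namespace Pool.Agent.GNet

variable {E : Type*} [NormedAddCommGroup E] [NormedSpace ℝ E] {C m : ℝ} {ι : Type*} [Fintype ι]

/-- splitting in classes: if the classes of an equivalence relation do not meet each other and
every class has at most `q` meetings, then there are at most `#S * q` meetings -/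
theorem Abs.meets_le_of_classes (s : Abs E C m ι) {S : Finset ι} {a b : ℕ} (q : ℕ)
    (r : ι → ι → Prop) (hrefl : ∀ i ∈ S, r i i)
    (hsep : ∀ k, a < k → k < b → ∀ i ∈ S, ∀ j ∈ S, ¬ r i j → s.pos k i ≠ s.pos k j)
    (hq : ∀ i ∈ S, #(s.meets (S.filter fun j => r i j) a b) ≤ q) :
    #(s.meets S a b) ≤ #S * q := by
  have hsub : s.meets S a b ⊆ S.biUnion fun i => s.meets (S.filter fun j => r i j) a b := by
    intro k hk
    unfold Abs.meets at hk
    rw [Finset.mem_filter] at hk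
    obtain ⟨hk1, i, hi, j, hj, hij, hpos⟩ := hk
    rw [Finset.mem_Ioo] at hk1
    have hr : r i j := by
      by_contra hn
      exact hsep k hk1.1 hk1.2 i hi j hj hn hpos
    rw [Finset.mem_biUnion]
    refine ⟨i, hi, ?_⟩
    unfold Abs.meets
    rw [Finset.mem_filter, Finset.mem_Ioo]
    exact ⟨hk1, i, Finset.mem_filter.mpr ⟨hi, hrefl i hi⟩, j, Finset.mem_filter.mpr ⟨hj, hr⟩,
      hij, hpos⟩
  calc #(s.meets S a b) ≤ #(S.biUnion fun i => s.meets (S.filter fun j => r i j) a b) :=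
        Finset.card_le_card hsub
    _ ≤ ∑ i ∈ S, #(s.meets (S.filter fun j => r i j) a b) := Finset.card_biUnion_le
    _ ≤ #S • q := Finset.sum_le_card_nsmul _ _ _ hq
    _ = #S * q := by rw [smul_eq_mul]

/-- The case in which the positions are spread: the particles split in groups which do not meet. -/
theorem Abs.position_case (hC : 1 ≤ C) (hm : 0 < m) (p q : ℕ) (lam : ℝ) (hlam : 0 < lam) :
    ∃ τ : ℝ, 0 < τ ∧ ∀ (ι : Type) [Fintype ι] (s : Abs E C m ι) (S : Finset ι) (a b : ℕ),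
      #S = p → a < b → b ≤ s.n →
      s.Closed S a b → s.T b - s.T a ≤ τ →
      (∃ i ∈ S, ∃ j ∈ S, lam * Real.sqrt (s.Lp S a) < ‖s.pos a j - s.pos a i‖) →
      (∀ S' ⊆ S, #S' < p → s.Closed S' a b → #(s.meets S' a b) ≤ q) →
      #(s.meets S a b) ≤ p * q := by
  have hC0 : 0 < C := by linarith
  refine ⟨min (lam * (1 / 4) ^ (p ^ 2) / (8 * C)) (1 / (2 * C)), lt_min (by positivity)
    (by positivity), ?_⟩
  intro ι _ s S a b hS hab hb hcl hT hex hq
  obtain ⟨i0, hi0, l0, hl0, hil⟩ := hex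
  have hT1 : s.T b - s.T a ≤ lam * (1 / 4) ^ (p ^ 2) / (8 * C) := hT.trans (min_le_left _ _)
  have hT2 : C * (s.T b - s.T a) ≤ 1 / 2 := by
    have h1 : s.T b - s.T a ≤ 1 / (2 * C) := hT.trans (min_le_right _ _)
    calc C * (s.T b - s.T a) ≤ C * (1 / (2 * C)) := by gcongr
      _ = 1 / 2 := by field_simp
  have hT3 : C * (s.T b - s.T a) ≤ lam * (1 / 4) ^ (p ^ 2) / 8 := by
    calc C * (s.T b - s.T a) ≤ C * (lam * (1 / 4) ^ (p ^ 2) / (8 * C)) := by gcongr
      _ = lam * (1 / 4) ^ (p ^ 2) / 8 := by field_simp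
  obtain ⟨R, hR⟩ : ∃ R : ℝ, R = Real.sqrt (s.Lp S a) := ⟨_, rfl⟩
  have hR0 : 0 ≤ R := by rw [hR]; exact Real.sqrt_nonneg _
  rw [← hR] at hil
  obtain ⟨κ, hκ⟩ : ∃ κ : ℕ → ℝ, κ = fun l => lam * R * (1 / 4) ^ l := ⟨_, rfl⟩
  have hκanti : Antitone κ := by
    intro x y hxy
    rw [hκ]
    have h1 : ((1 : ℝ) / 4) ^ y ≤ (1 / 4) ^ x :=
      pow_le_pow_of_le_one (by norm_num) (by norm_num) hxy
    have h2 : 0 ≤ lam * R := by positivity
    exact mul_le_mul_of_nonneg_left h1 h2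
  have hκ0 : κ 0 = lam * R := by rw [hκ]; simp
  have hκs : ∀ l, κ (l + 1) = κ l / 4 := by
    intro l; rw [hκ]; simp only [pow_succ]; ring
  have hκn : ∀ l, 0 ≤ κ l := by
    intro l; rw [hκ]; positivity
  obtain ⟨j, hj, hgap⟩ := exists_gap S p hS.le (fun i l => ‖s.pos a l - s.pos a i‖) κ hκanti
  obtain ⟨r, hr⟩ : ∃ r : ι → ι → Prop, r = fun i l => ‖s.pos a l - s.pos a i‖ ≤ κ (j + 1) :=
    ⟨_, rfl⟩
  have hrdef : ∀ i l, r i l ↔ ‖s.pos a l - s.pos a i‖ ≤ κ (j + 1) := by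
    intro i l; rw [hr]
  have hrefl : ∀ i ∈ S, r i i := by
    intro i _
    rw [hrdef, sub_self, norm_zero]
    exact hκn _
  have hsymm : ∀ i l, r i l → r l i := by
    intro i l h
    rw [hrdef] at h ⊢
    rwa [norm_sub_rev]
  have htrans : ∀ i ∈ S, ∀ l, ∀ x ∈ S, r i l → r l x → r i x := by
    intro i hi l x hx h1 h2
    rw [hrdef] at h1 h2 ⊢
    have h3 : ‖s.pos a x - s.pos a i‖ ≤ κ j := by
      have h4 : s.pos a x - s.pos a i = (s.pos a x - s.pos a l) + (s.pos a l - s.pos a i) := by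
        abel
      calc ‖s.pos a x - s.pos a i‖ ≤ ‖s.pos a x - s.pos a l‖ + ‖s.pos a l - s.pos a i‖ := by
            rw [h4]; exact norm_add_le _ _
        _ ≤ κ (j + 1) + κ (j + 1) := add_le_add h2 h1
        _ ≤ κ j := by rw [hκs]; linarith [hκn j]
    rcases hgap i hi x hx with h | h
    · exact h
    · exact absurd h3 (not_le.mpr h)
  have hsmall : C * (s.T b - s.T a) * Real.sqrt (2 * s.Lp S a) ≤ κ j := by
    have h1 : Real.sqrt (2 * s.Lp S a) ≤ 2 * R := by
      rw [Real.sqrt_mul (by norm_num : (0 : ℝ) ≤ 2), ← hR]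
      have : Real.sqrt 2 ≤ 2 := by
        rw [Real.sqrt_le_left (by norm_num)]; norm_num
      gcongr
    calc C * (s.T b - s.T a) * Real.sqrt (2 * s.Lp S a)
        ≤ (lam * (1 / 4) ^ (p ^ 2) / 8) * Real.sqrt (2 * s.Lp S a) := by
          gcongr
      _ ≤ (lam * (1 / 4) ^ (p ^ 2) / 8) * (2 * R) := by
          gcongr
      _ ≤ κ (p ^ 2) := by
          rw [hκ]
          have : 0 ≤ lam * R * (1 / 4) ^ (p ^ 2) := by positivity
          simp only
          linarith
      _ ≤ κ j := hκanti hj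
  have hsep : ∀ k, a < k → k < b → ∀ i ∈ S, ∀ l ∈ S, ¬ r i l → s.pos k i ≠ s.pos k l := by
    intro k hk1 hk2 i hi l hl hn heq
    rw [hrdef] at hn
    have h1 := s.positions hC hm hb hab hcl hT2 hi hl hk1.le hk2.le
    rw [heq, sub_self, zero_sub, norm_neg] at h1
    rcases hgap i hi l hl with h | h
    · exact hn h
    · exact absurd (h1.trans hsmall) (not_le.mpr h)
  have h0 : ¬ r i0 l0 := by
    rw [hrdef, not_le]
    calc κ (j + 1) ≤ κ 0 := hκanti (Nat.zero_le _)
      _ = lam * R := hκ0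
      _ < _ := hil
  have hfin := s.meets_le_of_classes q r hrefl hsep (fun i hi => by
    apply hq
    · exact Finset.filter_subset _ _
    · rw [← hS]
      apply Finset.card_lt_card
      refine ⟨Finset.filter_subset _ _, fun hsub => ?_⟩
      have h1 := (Finset.mem_filter.mp (hsub hi0)).2
      have h2 := (Finset.mem_filter.mp (hsub hl0)).2
      exact h0 (htrans i0 hi0 i l0 hl0 (hsymm _ _ h1) h2)
    · intro k hk1 hk2 x hx y hy
      rw [Finset.mem_filter] at hx hy
      by_cases hyS : y ∈ S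
      · have h1 : ¬ r i y := fun h => hy ⟨hyS, h⟩
        exact hsep k hk1 hk2 x hx.1 y hyS (fun h => h1 (htrans i hi x y hyS hx.2 h))
      · exact hcl k hk1 hk2 x hx.1 y hyS)
  rwa [hS] at hfin

end Pool.Agent.GNet
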