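import Mathlib
import Pool.Agent.Helper971.BK.DAbs
import Pool.Agent.Helper971.BK.A1
import Pool.Agent.Helper971.BK.A2
import Pool.Agent.Helper971.BK.A4
import Pool.Agent.Helper971.BK.A5

set_option autoImplicit false

open Finset Classical

namespace Pool.Agent.GNet

variable {E : Type*} [NormedAddCommGroup E] [NormedSpace ℝ E] {C m : ℝ} {ι : Type*} [Fintype ι]

theorem Abs.T_mono_a6 (s : Abs E C m ι) {i j : ℕ} (hij : i ≤ j) (hj : j ≤ s.n) :
    s.T i ≤ s.T j := by
  induction j, hij using Nat.le_induction with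
  | base => exact le_rfl
  | succ j hij ih => exact (ih (by omega)).trans (s.mono j (by omega)).le

theorem avg_bound {ι : Type*} (S₁ S₂ : Finset ι) (x : ι → E) (i0 l0 : ι) (d : ℝ)
    (h1 : ∀ i ∈ S₁, ‖x i0 - x i‖ ≤ d) (h2 : ∀ l ∈ S₂, ‖x l0 - x l‖ ≤ d) :
    ‖((#S₁ : ℝ) * #S₂) • (x l0 - x i0) - ∑ i ∈ S₁, ∑ l ∈ S₂, (x l - x i)‖ ≤
      ((#S₁ : ℝ) * #S₂) * (2 * d) := by
  have e : ((#S₁ : ℝ) * #S₂) • (x l0 - x i0) - ∑ i ∈ S₁, ∑ l ∈ S₂, (x l - x i) =
      ∑ i ∈ S₁, ∑ l ∈ S₂, ((x l0 - x i0) - (x l - x i)) := by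
    have e1 : ((#S₁ : ℝ) * #S₂) • (x l0 - x i0) = ∑ i ∈ S₁, ∑ l ∈ S₂, (x l0 - x i0) := by
      rw [Finset.sum_const, Finset.sum_const, ← Nat.cast_smul_eq_nsmul ℝ,
        ← Nat.cast_smul_eq_nsmul ℝ, smul_smul]
    rw [e1, ← Finset.sum_sub_distrib]
    apply Finset.sum_congr rfl
    intro i _
    rw [← Finset.sum_sub_distrib]
  rw [e]
  have hb : ∀ i ∈ S₁, ∀ l ∈ S₂, ‖(x l0 - x i0) - (x l - x i)‖ ≤ 2 * d := by
    intro i hi l hl
    have e2 : (x l0 - x i0) - (x l - x i) = (x l0 - x l) - (x i0 - x i) := by abel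
    rw [e2]
    have := norm_sub_le (x l0 - x l) (x i0 - x i)
    linarith [h1 i hi, h2 l hl]
  calc ‖∑ i ∈ S₁, ∑ l ∈ S₂, ((x l0 - x i0) - (x l - x i))‖
      ≤ ∑ i ∈ S₁, ‖∑ l ∈ S₂, ((x l0 - x i0) - (x l - x i))‖ := norm_sum_le _ _
    _ ≤ ∑ i ∈ S₁, ∑ l ∈ S₂, ‖(x l0 - x i0) - (x l - x i)‖ :=
        Finset.sum_le_sum fun i _ => norm_sum_le _ _
    _ ≤ ∑ i ∈ S₁, ∑ l ∈ S₂, 2 * d :=
        Finset.sum_le_sum fun i hi => Finset.sum_le_sum fun l hl => hb i hi l hl
    _ = _ := by rw [Finset.sum_const, Finset.sum_const, nsmul_eq_mul, nsmul_eq_mul]; ring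

/-- upper bound for the energy of a set of particles -/
theorem Abs.Lp_le (hC : 1 ≤ C) (s : Abs E C m ι) {S : Finset ι} {k p : ℕ} (hk : k < s.n)
    (hS : #S ≤ p) (u v : ℝ) (hu : ∀ i ∈ S, ∀ j ∈ S, ‖s.up k j - s.up k i‖ ≤ u)
    (hv : ∀ i ∈ S, ∀ j ∈ S, ‖s.pos k j - s.pos k i‖ ≤ v) :
    s.Lp S k ≤ C * (p : ℝ) ^ 2 * (u ^ 2 + v ^ 2) := by
  have h1 : ∀ i ∈ S, ∀ j ∈ S, s.lp k i j ≤ C * (u ^ 2 + v ^ 2) := by
    intro i hi j hj
    refine (s.lp_le k hk i j).trans ?_
    have a1 : ‖s.up k j - s.up k i‖ ^ 2 ≤ u ^ 2 := pow_le_pow_left₀ (norm_nonneg _) (hu i hi j hj) 2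
    have a2 : ‖s.pos k j - s.pos k i‖ ^ 2 ≤ v ^ 2 :=
      pow_le_pow_left₀ (norm_nonneg _) (hv i hi j hj) 2
    exact mul_le_mul_of_nonneg_left (add_le_add a1 a2) (by linarith)
  have h0 : 0 ≤ C * (u ^ 2 + v ^ 2) := by positivity
  calc s.Lp S k ≤ ∑ i ∈ S, ∑ j ∈ S, C * (u ^ 2 + v ^ 2) :=
        Finset.sum_le_sum fun i hi => Finset.sum_le_sum fun j hj => h1 i hi j hj
    _ = (#S : ℝ) ^ 2 * (C * (u ^ 2 + v ^ 2)) := by
        rw [Finset.sum_const, Finset.sum_const, nsmul_eq_mul, nsmul_eq_mul]; ring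
    _ ≤ (p : ℝ) ^ 2 * (C * (u ^ 2 + v ^ 2)) := by
        apply mul_le_mul_of_nonneg_right _ h0
        have : (#S : ℝ) ≤ p := by exact_mod_cast hS
        exact pow_le_pow_left₀ (by positivity) this 2
    _ = _ := by ring

/-- velocities before an event are controlled by the energy -/
theorem Abs.um_le (hm : 0 < m) (s : Abs E C m ι) {S : Finset ι} {k : ℕ} (h0 : 0 < k)
    (hk : k ≤ s.n) {i j : ι} (hi : i ∈ S) (hj : j ∈ S) :
    m * ‖s.um k j - s.um k i‖ ^ 2 ≤ s.Lm S k := by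
  have h1 := s.lm_ge k h0 hk i j
  have h2 : s.lm k i j ≤ ∑ j ∈ S, s.lm k i j :=
    Finset.single_le_sum (f := fun j => s.lm k i j)
      (fun j _ => Abs.lm_nonneg hm s h0 hk i j) hj
  have h3 : ∑ j ∈ S, s.lm k i j ≤ s.Lm S k :=
    Finset.single_le_sum (f := fun i => ∑ j ∈ S, s.lm k i j)
      (fun i _ => Finset.sum_nonneg fun j _ => Abs.lm_nonneg hm s h0 hk i j) hi
  nlinarith [sq_nonneg ‖s.pos k j - s.pos k i‖]

set_option maxHeartbeats 4000000 in
/-- The case in which the velocities are spread, without large jump: the particles split in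
groups which do not meet. -/
theorem Abs.velocity_case (hC : 1 ≤ C) (hm : 0 < m) (hm1 : m ≤ 1) (p q : ℕ) (hp : 2 ≤ p) :
    ∃ lam β τ : ℝ, 0 < lam ∧ 0 < β ∧ 0 < τ ∧
      ∀ (ι : Type) [Fintype ι] (s : Abs E C m ι) (S : Finset ι) (a b : ℕ),
      #S = p → a < b → b ≤ s.n →
      s.Closed S a b → s.T b - s.T a ≤ τ →
      (∀ i ∈ S, ∀ j ∈ S, ‖s.pos a j - s.pos a i‖ ≤ lam * Real.sqrt (s.Lp S a)) →
      ∀ a' b', a ≤ a' → a' < b' → b' ≤ b →
      (∀ k, a' < k → k < b' → ∀ i ∈ S, ∀ j ∈ S, s.pos k i = s.pos k j →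
        ‖s.um k j - s.um k i‖ ≤ β * Real.sqrt (s.Lp S a)) →
      (∀ S' ⊆ S, #S' < p → s.Closed S' a' b' → #(s.meets S' a' b') ≤ q) →
      #(s.meets S a' b') ≤ p * q := by
  have hp0 : (2 : ℝ) ≤ p := by exact_mod_cast hp
  have hC0 : (0 : ℝ) < C := by linarith
  have hpp : (0 : ℝ) < p := by linarith
  have hCp : (2 : ℝ) ≤ C * p := by nlinarith
  set κ0 : ℝ := 1 / (4 * C * p) with hκ0
  set η : ℝ := m / (40 * C * p) with hη
  have hκ00 : 0 < κ0 := by positivity
  have hη0 : 0 < η := by positivity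
  have hη40 : η ≤ 1 / 40 := by
    rw [hη, div_le_div_iff₀ (by positivity) (by norm_num)]
    nlinarith
  set κ : ℕ → ℝ := fun l => κ0 * η ^ l with hκ
  have hκpos : ∀ l, 0 < κ l := fun l => by positivity
  have hκs : ∀ l, κ (l + 1) = η * κ l := fun l => by simp only [hκ, pow_succ]; ring
  have hκle : ∀ l, κ (l + 1) ≤ κ l / 40 := by
    intro l
    rw [hκs]
    nlinarith [hκpos l]
  have hanti : Antitone κ := antitone_nat_of_succ_le fun l => by
    have := hκle l
    have := hκpos l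
    linarith
  have hkey : ∀ l, C * p / m * κ (l + 1) = κ l / 40 := by
    intro l
    rw [hκs, hη]
    field_simp
  set lam : ℝ := κ (p ^ 2 + 2) with hlam
  have hlam0 : 0 < lam := hκpos _
  refine ⟨lam, κ (p ^ 2 + 1), lam / (8 * C), hlam0, hκpos _, by positivity, ?_⟩
  intro ι _ s S a b hSp hab hbn hcl hT hpos a' b' haa hab' hbb hjump hsub
  have ha'n : a' < s.n := by omega
  have han : a < s.n := by omega
  have hT2 : C * (s.T b - s.T a) ≤ lam / 8 := by
    calc C * (s.T b - s.T a) ≤ C * (lam / (8 * C)) := mul_le_mul_of_nonneg_left hT hC0.le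
      _ = lam / 8 := by field_simp
  have hlam1 : lam ≤ κ0 / 1600 := by
    have h1 : κ (p ^ 2 + 2) ≤ κ 2 := hanti (by omega)
    have h2 := hκle 1
    have h3 := hκle 0
    have h4 : κ 0 = κ0 := by simp [hκ]
    norm_num at h2 h3
    rw [h4] at h3
    linarith
  have hκ01 : κ0 ≤ 1 / 8 := by
    rw [hκ0, div_le_div_iff₀ (by positivity) (by norm_num)]
    nlinarith
  have hT3 : C * (s.T b - s.T a) ≤ 1 / 2 := by linarith
  have hL0 : 0 < s.Lp S a := Abs.Lp_pos hm s han (by omega)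
  set R : ℝ := Real.sqrt (s.Lp S a) with hR
  have hR0 : 0 < R := Real.sqrt_pos.2 hL0
  have hR2 : R ^ 2 = s.Lp S a := Real.sq_sqrt hL0.le
  have hs2 : Real.sqrt (2 * s.Lp S a) ≤ 2 * R := by
    rw [Real.sqrt_le_left (by positivity), mul_pow, hR2]
    linarith
  -- positions
  have hposk : ∀ k, a ≤ k → k ≤ b → ∀ i ∈ S, ∀ j ∈ S, ‖s.pos k j - s.pos k i‖ ≤ 2 * lam * R := by
    intro k h1 h2 i hi j hj
    have h3 := Abs.positions hC hm s hbn hab hcl hT3 hi hj h1 h2
    have h4 := hpos i hi j hj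
    have h5 : C * (s.T b - s.T a) * Real.sqrt (2 * s.Lp S a) ≤ lam / 8 * (2 * R) :=
      mul_le_mul hT2 hs2 (Real.sqrt_nonneg _) (by positivity)
    have h6 : ‖s.pos k j - s.pos k i‖ ≤ ‖(s.pos k j - s.pos k i) - (s.pos a j - s.pos a i)‖ +
        ‖s.pos a j - s.pos a i‖ := by
      have := norm_add_le ((s.pos k j - s.pos k i) - (s.pos a j - s.pos a i))
        (s.pos a j - s.pos a i)
      rwa [sub_add_cancel] at this
    nlinarith [mul_pos hlam0 hR0]
  have hcomp := Abs.comparable hC hm s hbn hab hcl hT3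
  -- some pair is spread
  have hspread : ∃ i ∈ S, ∃ l ∈ S, κ0 * R < ‖s.up a' l - s.up a' i‖ := by
    by_contra hcon
    push Not at hcon
    have h1 := Abs.Lp_le hC s ha'n hSp.le (κ0 * R) (2 * lam * R) hcon
      (hposk a' haa (by omega))
    have h2 := (hcomp.1 a' haa (by omega)).2
    have h3 : C * (p : ℝ) ^ 2 * ((κ0 * R) ^ 2 + (2 * lam * R) ^ 2) ≤ R ^ 2 / 8 := by
      have e1 : (2 * lam * R) ^ 2 ≤ (κ0 * R) ^ 2 := by
        apply pow_le_pow_left₀ (by positivity)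
        apply mul_le_mul_of_nonneg_right _ hR0.le
        linarith
      have e2 : C * (p : ℝ) ^ 2 * (κ0 * R) ^ 2 = R ^ 2 / (16 * C) := by
        rw [hκ0]; field_simp; norm_num
      have e3 : R ^ 2 / (16 * C) ≤ R ^ 2 / 16 := by
        apply div_le_div_of_nonneg_left (by positivity) (by norm_num)
        linarith
      calc C * (p : ℝ) ^ 2 * ((κ0 * R) ^ 2 + (2 * lam * R) ^ 2)
          ≤ C * (p : ℝ) ^ 2 * ((κ0 * R) ^ 2 + (κ0 * R) ^ 2) := by gcongr
        _ = 2 * (R ^ 2 / (16 * C)) := by rw [← e2]; ring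
        _ ≤ 2 * (R ^ 2 / 16) := by linarith
        _ = R ^ 2 / 8 := by ring
    have h4 : 0 < R ^ 2 := by positivity
    rw [← hR2] at h2
    linarith
  -- the gap
  have hκR : Antitone fun l => κ l * R := fun x y hxy =>
    mul_le_mul_of_nonneg_right (hanti hxy) hR0.le
  obtain ⟨j, hj, hgap⟩ := exists_gap S p hSp.le (fun i l => ‖s.up a' l - s.up a' i‖)
    (fun l => κ l * R) hκR
  set r : ι → ι → Prop := fun i l => ‖s.up a' l - s.up a' i‖ ≤ κ (j + 1) * R with hr
  have hrefl : ∀ i, r i i := by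
    intro i
    simp only [hr, sub_self, norm_zero]
    exact (mul_pos (hκpos _) hR0).le
  have hrsymm : ∀ i l, r i l → r l i := by
    intro i l h
    simp only [hr] at h ⊢
    rwa [norm_sub_rev]
  have hrtrans : ∀ i ∈ S, ∀ x ∈ S, ∀ l ∈ S, r i x → r x l → r i l := by
    intro i hi x hx l hl h1 h2
    simp only [hr] at h1 h2 ⊢
    have h3 : ‖s.up a' l - s.up a' i‖ ≤ 2 * (κ (j + 1) * R) := by
      have e : s.up a' l - s.up a' i = (s.up a' l - s.up a' x) + (s.up a' x - s.up a' i) := by abel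
      rw [e]
      have := norm_add_le (s.up a' l - s.up a' x) (s.up a' x - s.up a' i)
      linarith
    rcases hgap i hi l hl with h | h
    · exact h
    · exfalso
      have h4 := hκle j
      have h5 := hκpos j
      nlinarith
  have hlamj : lam ≤ κ (j + 1) / 40 := by
    have h1 : κ (p ^ 2 + 2) ≤ κ (j + 2) := hanti (by omega)
    have h2 := hκle (j + 1)
    linarith
  have hβj : κ (p ^ 2 + 1) ≤ κ (j + 1) := hanti (by omega)
  have hκj := hκle j
  have hκj0 := hκpos j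
  have hκj1 := hκpos (j + 1)
  -- the classes do not meet
  have hsep : ∀ k, a' < k → k < b' → ∀ i ∈ S, ∀ l ∈ S, ¬ r i l → s.pos k i ≠ s.pos k l := by
    intro k
    induction k using Nat.strong_induction_on with
    | _ k ih =>
    intro hk1 hk2 i0 hi0 l0 hl0 hnr hmeet
    have hkn : k ≤ s.n := by omega
    have hclass : ∀ i ∈ S, s.Closed (S.filter fun x => r i x) a' k := by
      intro i hi k' hk1' hk2' x hx y hy
      rw [Finset.mem_filter] at hx
      by_cases hyS : y ∈ S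
      · have hny : ¬ r i y := fun h => hy (Finset.mem_filter.2 ⟨hyS, h⟩)
        apply ih k' hk2' hk1' (by omega) x hx.1 y hyS
        intro h
        exact hny (hrtrans i hi x hx.1 y hyS hx.2 h)
      · exact hcl k' (by omega) (by omega) x hx.1 y hyS
    have hTk : s.T k - s.T a' ≤ s.T b - s.T a := by
      have h1 := s.T_mono_a6 haa ha'n.le
      have h2 := s.T_mono_a6 (show k ≤ b by omega) hbn
      linarith
    have hTk0 : 0 ≤ s.T k - s.T a' := by
      have := s.T_mono_a6 hk1.le hkn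
      linarith
    have hCTk : C * (s.T k - s.T a') ≤ lam / 8 :=
      (mul_le_mul_of_nonneg_left hTk hC0.le).trans hT2
    have hCTk2 : C * (s.T k - s.T a') ≤ 1 / 2 := by linarith
    -- velocities in a class before the meeting
    have hvel : ∀ i ∈ S, ∀ x ∈ S.filter (fun x => r i x),
        ‖s.um k i - s.um k x‖ ≤ κ j / 20 * R := by
      intro i hi x hx
      have h1 := (Abs.comparable hC hm s hkn hk1 (hclass i hi) hCTk2).2 k hk1 le_rfl
      have h2 : s.Lp (S.filter fun x => r i x) a' ≤ C * (p : ℝ) ^ 2 *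
          ((κ (j + 1) * R) ^ 2 + (2 * lam * R) ^ 2) := by
        apply Abs.Lp_le hC s ha'n ((Finset.card_filter_le _ _).trans hSp.le)
        · intro y hy z hz
          rw [Finset.mem_filter] at hy hz
          exact hrtrans y hy.1 i hi z hz.1 (hrsymm _ _ hy.2) hz.2
        · intro y hy z hz
          rw [Finset.mem_filter] at hy hz
          exact hposk a' haa (by omega) y hy.1 z hz.1
      have h3 : (2 * lam * R) ^ 2 ≤ (κ (j + 1) * R) ^ 2 := by
        apply pow_le_pow_left₀ (by positivity)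
        apply mul_le_mul_of_nonneg_right _ hR0.le
        linarith
      have h4 : s.Lm (S.filter fun x => r i x) k ≤ 4 * (C * (p : ℝ) ^ 2 * (κ (j + 1) * R) ^ 2) := by
        have e : C * (p : ℝ) ^ 2 * ((κ (j + 1) * R) ^ 2 + (2 * lam * R) ^ 2) ≤
            C * (p : ℝ) ^ 2 * ((κ (j + 1) * R) ^ 2 + (κ (j + 1) * R) ^ 2) := by gcongr
        linarith [h1.1]
      have hii : i ∈ S.filter (fun x => r i x) := Finset.mem_filter.2 ⟨hi, hrefl i⟩
      have h5 := Abs.um_le hm s (by omega) hkn hx hii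
      have h6 : ‖s.um k i - s.um k x‖ ^ 2 ≤ (2 * (C * p / m * κ (j + 1)) * R) ^ 2 := by
        have e1 : ‖s.um k i - s.um k x‖ ^ 2 ≤ 4 * (C * (p : ℝ) ^ 2 * (κ (j + 1) * R) ^ 2) / m := by
          rw [le_div_iff₀ hm]; linarith
        refine e1.trans ?_
        have e2 : (2 * (C * p / m * κ (j + 1)) * R) ^ 2 =
            (C / m) * (4 * (C * (p : ℝ) ^ 2 * (κ (j + 1) * R) ^ 2) / m) := by
          ring
        rw [e2]
        have e3 : 1 ≤ C / m := by rw [le_div_iff₀ hm]; linarith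
        have e4 : 0 ≤ 4 * (C * (p : ℝ) ^ 2 * (κ (j + 1) * R) ^ 2) / m := by positivity
        exact le_mul_of_one_le_left e4 e3
      rw [hkey] at h6
      have h7 := (pow_le_pow_iff_left₀ (norm_nonneg _) (by positivity) two_ne_zero).1 h6
      linarith
    have hm1' := Abs.means hC hm s hkn hk1
      (fun k' h1 h2 => hcl k' (by omega) (by omega)) hCTk2
      (Finset.filter_subset (fun x => r i0 x) S) (Finset.filter_subset (fun x => r l0 x) S)
      (hclass i0 hi0) (hclass l0 hl0)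
    set S₁ := S.filter (fun x => r i0 x) with hS₁
    set S₂ := S.filter (fun x => r l0 x) with hS₂
    have hA := avg_bound S₁ S₂ (s.up a') i0 l0 (κ (j + 1) * R)
      (fun i hi => by
        rw [hS₁, Finset.mem_filter] at hi
        exact hrsymm _ _ hi.2)
      (fun l hl => by
        rw [hS₂, Finset.mem_filter] at hl
        exact hrsymm _ _ hl.2)
    have hB := avg_bound S₁ S₂ (s.um k) i0 l0 (κ j / 20 * R) (hvel i0 hi0) (hvel l0 hl0)
    have hLa' : Real.sqrt (2 * s.Lp S a') ≤ 2 * R := by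
      rw [Real.sqrt_le_left (by positivity), mul_pow, hR2]
      have := (hcomp.1 a' haa (by omega)).1
      linarith
    have hN1 : (1 : ℝ) ≤ #S₁ := by
      have : 0 < #S₁ := Finset.card_pos.2 ⟨i0, Finset.mem_filter.2 ⟨hi0, hrefl i0⟩⟩
      exact_mod_cast this
    have hN2 : (1 : ℝ) ≤ #S₂ := by
      have : 0 < #S₂ := Finset.card_pos.2 ⟨l0, Finset.mem_filter.2 ⟨hl0, hrefl l0⟩⟩
      exact_mod_cast this
    have hN : (1 : ℝ) ≤ (#S₁ : ℝ) * #S₂ := by nlinarith
    have hM : C * (s.T k - s.T a') * ((#S₁ : ℝ) * #S₂) * Real.sqrt (2 * s.Lp S a') ≤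
        ((#S₁ : ℝ) * #S₂) * (lam / 4 * R) := by
      calc C * (s.T k - s.T a') * ((#S₁ : ℝ) * #S₂) * Real.sqrt (2 * s.Lp S a')
          ≤ lam / 8 * ((#S₁ : ℝ) * #S₂) * (2 * R) := by gcongr
        _ = _ := by ring
    set N : ℝ := (#S₁ : ℝ) * #S₂ with hNdef
    set sU := ∑ i ∈ S₁, ∑ l ∈ S₂, (s.up a' l - s.up a' i) with hsU
    set sW := ∑ i ∈ S₁, ∑ l ∈ S₂, (s.um k l - s.um k i) with hsW
    have hmain : N * ‖s.up a' l0 - s.up a' i0‖ ≤ N * ‖s.um k l0 - s.um k i0‖ +
        N * (2 * (κ (j + 1) * R)) + N * (2 * (κ j / 20 * R)) + N * (lam / 4 * R) := by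
      have e0 : N • (s.up a' l0 - s.up a' i0) = N • (s.um k l0 - s.um k i0) +
          (N • (s.up a' l0 - s.up a' i0) - sU) - (N • (s.um k l0 - s.um k i0) - sW) -
          (sW - sU) := by abel
      have e1 : ‖N • (s.up a' l0 - s.up a' i0)‖ = N * ‖s.up a' l0 - s.up a' i0‖ := by
        rw [norm_smul, Real.norm_of_nonneg (by linarith)]
      have e2 : ‖N • (s.um k l0 - s.um k i0)‖ = N * ‖s.um k l0 - s.um k i0‖ := by
        rw [norm_smul, Real.norm_of_nonneg (by linarith)]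
      rw [← e1, ← e2]
      have t1 := norm_sub_le (N • (s.um k l0 - s.um k i0) +
          (N • (s.up a' l0 - s.up a' i0) - sU) - (N • (s.um k l0 - s.um k i0) - sW)) (sW - sU)
      have t2 := norm_sub_le (N • (s.um k l0 - s.um k i0) +
          (N • (s.up a' l0 - s.up a' i0) - sU)) (N • (s.um k l0 - s.um k i0) - sW)
      have t3 := norm_add_le (N • (s.um k l0 - s.um k i0))
          (N • (s.up a' l0 - s.up a' i0) - sU)
      rw [← e0] at t1
      linarith
    have hmain2 : ‖s.up a' l0 - s.up a' i0‖ ≤ ‖s.um k l0 - s.um k i0‖ +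
        2 * (κ (j + 1) * R) + 2 * (κ j / 20 * R) + lam / 4 * R := by
      have hN0 : 0 < N := by linarith
      have : N * ‖s.up a' l0 - s.up a' i0‖ ≤ N * (‖s.um k l0 - s.um k i0‖ +
        2 * (κ (j + 1) * R) + 2 * (κ j / 20 * R) + lam / 4 * R) := by linarith
      exact le_of_mul_le_mul_left this hN0
    have hbig : κ j * R < ‖s.up a' l0 - s.up a' i0‖ := by
      rcases hgap i0 hi0 l0 hl0 with h | h
      · exact absurd h hnr
      · exact h
    have hsmall := hjump k hk1 hk2 i0 hi0 l0 hl0 hmeet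
    have c1 : κ (p ^ 2 + 1) * R ≤ κ j / 40 * R := by
      apply mul_le_mul_of_nonneg_right _ hR0.le
      linarith
    have c2 : κ (j + 1) * R ≤ κ j / 40 * R := mul_le_mul_of_nonneg_right hκj hR0.le
    have c3 : lam / 4 * R ≤ κ j / 40 * R := by
      apply mul_le_mul_of_nonneg_right _ hR0.le
      linarith
    have c4 : 0 < κ j * R := mul_pos hκj0 hR0
    linarith
  -- conclusion
  obtain ⟨i1, hi1, l1, hl1, hil⟩ := hspread
  have hκ0j : κ (j + 1) ≤ κ0 := by
    have h1 : κ (j + 1) ≤ κ 0 := hanti (by omega)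
    have h4 : κ 0 = κ0 := by simp [hκ]
    linarith
  have hfin := s.meets_le_of_classes (S := S) (a := a') (b := b') q r (fun i _ => hrefl i) hsep
    (fun i hi => ?_)
  · rw [hSp] at hfin
    exact hfin
  · apply hsub _ (Finset.filter_subset _ _)
    · rw [← hSp]
      apply Finset.card_lt_card
      refine ⟨Finset.filter_subset _ _, fun hss => ?_⟩
      have h1 := (Finset.mem_filter.1 (hss hi1)).2
      have h2 := (Finset.mem_filter.1 (hss hl1)).2
      have h3 := hrtrans i1 hi1 i hi l1 hl1 (hrsymm _ _ h1) h2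
      simp only [hr] at h3
      have h4 : κ (j + 1) * R ≤ κ0 * R := mul_le_mul_of_nonneg_right hκ0j hR0.le
      linarith
    · intro k hk1 hk2 x hx y hy
      rw [Finset.mem_filter] at hx
      by_cases hyS : y ∈ S
      · have hny : ¬ r i y := fun h => hy (Finset.mem_filter.2 ⟨hyS, h⟩)
        apply hsep k hk1 hk2 x hx.1 y hyS
        intro h
        exact hny (hrtrans i hi x hx.1 y hyS hx.2 h)
      · exact hcl k (by omega) (by omega) x hx.1 y hyS

end Pool.Agent.GNet
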