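import Mathlib
import Pool.Agent.Helper971.BK.DAbs
import Pool.Agent.Helper971.BK.A1
import Pool.Agent.Helper971.BK.A2
import Pool.Agent.Helper971.BK.A3
import Pool.Agent.Helper971.BK.A4
import Pool.Agent.Helper971.BK.A5
import Pool.Agent.Helper971.BK.A6

set_option autoImplicit false

open Finset Classical

namespace Pool.Agent.GNet

variable {E : Type*} [NormedAddCommGroup E] [NormedSpace ℝ E] {C m : ℝ} {ι : Type*} [Fintype ι]

lemma Abs.T_mono_a7 (s : Abs E C m ι) {i j : ℕ} (hij : i ≤ j) (hj : j ≤ s.n) : s.T i ≤ s.T j := by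
  induction j, hij using Nat.le_induction with
  | base => exact le_rfl
  | succ j hij ih => exact (ih (by omega)).trans (s.mono j (by omega)).le

/-- **Theorem P** (discrete form): the number of meeting events of `p` particles on a short time
interval is bounded. -/
theorem Abs.main (hC : 1 ≤ C) (hm : 0 < m) (hm1 : m ≤ 1) (p : ℕ) :
    ∃ N : ℕ, ∃ τ : ℝ, 0 < τ ∧ ∀ (ι : Type) [Fintype ι] (s : Abs E C m ι) (S : Finset ι)
      (a b : ℕ), #S ≤ p → a < b → b ≤ s.n → s.Closed S a b → s.T b - s.T a ≤ τ → #(s.meets S a b) ≤ N := by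
  have small : ∀ (ι : Type) [Fintype ι] (s : Abs E C m ι) (S : Finset ι) (a b : ℕ), #S ≤ 1 →
      #(s.meets S a b) = 0 := by
    intro ι _ s S a b hS
    rw [Finset.card_eq_zero]
    unfold Abs.meets
    rw [Finset.filter_eq_empty_iff]
    rintro k - ⟨i, hi, j, hj, hij, -⟩
    exact hij (Finset.card_le_one.1 hS i hi j hj)
  induction p with
  | zero =>
    refine ⟨0, 1, one_pos, ?_⟩
    intro ι _ s S a b hS _ _ _ _
    rw [small ι s S a b (by omega)]
  | succ p ih =>
    by_cases hp : p = 0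
    · refine ⟨0, 1, one_pos, ?_⟩
      intro ι _ s S a b hS _ _ _ _
      rw [small ι s S a b (by omega)]
    obtain ⟨q, τ0, hτ0, IH⟩ := ih
    obtain ⟨lam, β, τ1, hlam, hβ, hτ1, HV⟩ :=
      Abs.velocity_case (E := E) hC hm hm1 (p + 1) q (by omega)
    obtain ⟨τ2, hτ2, HP⟩ := Abs.position_case (E := E) hC hm (p + 1) q lam hlam
    have hC0 : 0 < C := by linarith
    refine ⟨q + (p + 1) * q + (⌈8 * C ^ 2 * ((p + 1 : ℕ) : ℝ) ^ 2 / β⌉₊ +
      (⌈8 * C ^ 2 * ((p + 1 : ℕ) : ℝ) ^ 2 / β⌉₊ + 1) * ((p + 1) * q)),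
      min (min τ0 τ1) (min τ2 (1 / (2 * C))), ?_, ?_⟩
    · refine lt_min (lt_min hτ0 hτ1) (lt_min hτ2 (by positivity))
    intro ι _ s S a b hS hab hb hcl hT
    have hT0 : s.T b - s.T a ≤ τ0 := hT.trans ((min_le_left _ _).trans (min_le_left _ _))
    have hT1 : s.T b - s.T a ≤ τ1 := hT.trans ((min_le_left _ _).trans (min_le_right _ _))
    have hT2 : s.T b - s.T a ≤ τ2 := hT.trans ((min_le_right _ _).trans (min_le_left _ _))
    have hT3 : s.T b - s.T a ≤ 1 / (2 * C) :=
      hT.trans ((min_le_right _ _).trans (min_le_right _ _))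
    have hT4 : C * (s.T b - s.T a) ≤ 1 / 2 := by
      have := mul_le_mul_of_nonneg_left hT3 hC0.le
      refine this.trans (le_of_eq ?_)
      field_simp
    by_cases hSp : #S ≤ p
    · have := IH ι s S a b hSp hab hb hcl hT0
      omega
    have hSP : #S = p + 1 := by omega
    have hsub : ∀ a' b', a ≤ a' → a' < b' → b' ≤ b → ∀ S' ⊆ S, #S' < p + 1 →
        s.Closed S' a' b' → #(s.meets S' a' b') ≤ q := by
      intro a' b' ha' hab' hb' S' _ hS' hcl'
      refine IH ι s S' a' b' (by omega) hab' (hb'.trans hb) hcl' ?_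
      have h1 : s.T a ≤ s.T a' := s.T_mono_a7 ha' (by omega)
      have h2 : s.T b' ≤ s.T b := s.T_mono_a7 hb' hb
      linarith
    by_cases hpos : ∃ i ∈ S, ∃ j ∈ S, lam * Real.sqrt (s.Lp S a) < ‖s.pos a j - s.pos a i‖
    · have := HP ι s S a b hSP hab hb hcl hT2 hpos (hsub a b le_rfl hab le_rfl)
      omega
    push Not at hpos
    set R := Real.sqrt (s.Lp S a) with hR
    have hRpos : 0 < R := Real.sqrt_pos.2 (s.Lp_pos hm (by omega) (by omega))
    set B : Finset ℕ := (Ioo a b).filter (fun k => ∃ i ∈ S, ∃ j ∈ S, s.pos k i = s.pos k j ∧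
      β * R < ‖s.um k j - s.um k i‖) with hB
    have hBcard : (#B : ℝ) * (β * R) ≤ 4 * C ^ 2 * (#S : ℝ) ^ 2 * Real.sqrt (2 * s.Lp S a) := by
      refine le_trans ?_ (s.total hC hm hb hab hcl hT4)
      have h1 : (#B : ℝ) * (β * R) ≤ ∑ k ∈ B, ∑ i ∈ S, ∑ j ∈ S with s.pos k i = s.pos k j,
          ‖s.um k j - s.um k i‖ := by
        rw [← nsmul_eq_mul]
        refine Finset.card_nsmul_le_sum _ _ _ ?_
        intro k hk
        rw [hB, Finset.mem_filter] at hk
        obtain ⟨-, i, hi, j, hj, hpos', hlt⟩ := hk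
        refine hlt.le.trans ?_
        have h2 : ‖s.um k j - s.um k i‖ ≤ ∑ j ∈ S with s.pos k i = s.pos k j,
            ‖s.um k j - s.um k i‖ := by
          refine Finset.single_le_sum (f := fun j => ‖s.um k j - s.um k i‖)
            (fun _ _ => norm_nonneg _) ?_
          rw [Finset.mem_filter]
          exact ⟨hj, hpos'⟩
        refine h2.trans ?_
        exact Finset.single_le_sum
          (f := fun i => ∑ j ∈ S with s.pos k i = s.pos k j, ‖s.um k j - s.um k i‖)
          (fun _ _ => Finset.sum_nonneg (fun _ _ => norm_nonneg _)) hi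
      refine h1.trans ?_
      refine Finset.sum_le_sum_of_subset_of_nonneg (Finset.filter_subset _ _) ?_
      intro k _ _
      exact Finset.sum_nonneg (fun _ _ => Finset.sum_nonneg (fun _ _ => norm_nonneg _))
    have hK : #B ≤ ⌈8 * C ^ 2 * ((p + 1 : ℕ) : ℝ) ^ 2 / β⌉₊ := by
      have h1 : (#B : ℝ) ≤ 8 * C ^ 2 * ((p + 1 : ℕ) : ℝ) ^ 2 / β := by
        rw [le_div_iff₀ hβ]
        have h2 : Real.sqrt (2 * s.Lp S a) ≤ 2 * R := by
          rw [Real.sqrt_mul (by norm_num)]
          have h3 : Real.sqrt 2 ≤ 2 := by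
            rw [Real.sqrt_le_left (by norm_num)]
            norm_num
          exact mul_le_mul_of_nonneg_right h3 hRpos.le
        have h4 : (#B : ℝ) * (β * R) ≤ 4 * C ^ 2 * (#S : ℝ) ^ 2 * (2 * R) :=
          hBcard.trans (mul_le_mul_of_nonneg_left h2 (by positivity))
        rw [hSP] at h4
        have h5 : ((#B : ℝ) * β) * R ≤ (8 * C ^ 2 * ((p + 1 : ℕ) : ℝ) ^ 2) * R := by
          calc ((#B : ℝ) * β) * R = (#B : ℝ) * (β * R) := by ring
            _ ≤ _ := h4
            _ = _ := by ring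
        exact le_of_mul_le_mul_right h5 hRpos
      exact_mod_cast h1.trans (Nat.le_ceil _)
    have hgap : #(s.meets S a b) ≤ #B + (#B + 1) * ((p + 1) * q) := by
      refine card_le_of_gaps (s.meets S a b) B ((p + 1) * q) a b hab ?_ ?_ ?_
      · intro k hk
        unfold Abs.meets at hk
        rw [Finset.mem_filter, Finset.mem_Ioo] at hk
        exact hk.1
      · intro k hk
        rw [hB, Finset.mem_filter, Finset.mem_Ioo] at hk
        exact hk.1
      · intro a' b' ha' hab' hb' hBn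
        have h1 : ((s.meets S a b).filter fun k => a' < k ∧ k < b') ⊆ s.meets S a' b' := by
          intro k hk
          unfold Abs.meets at hk ⊢
          rw [Finset.mem_filter, Finset.mem_filter] at hk
          rw [Finset.mem_filter, Finset.mem_Ioo]
          exact ⟨hk.2, hk.1.2⟩
        refine (Finset.card_le_card h1).trans ?_
        refine HV ι s S a b hSP hab hb hcl hT1 hpos a' b' ha' hab' hb' ?_ (hsub a' b' ha' hab' hb')
        intro k hk1 hk2 i hi j hj hij
        by_contra hlt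
        push Not at hlt
        refine hBn k ?_ ⟨hk1, hk2⟩
        rw [hB, Finset.mem_filter, Finset.mem_Ioo]
        exact ⟨⟨by omega, by omega⟩, i, hi, j, hj, hij, hlt⟩
    have h6 : (#B + 1) * ((p + 1) * q) ≤ (⌈8 * C ^ 2 * ((p + 1 : ℕ) : ℝ) ^ 2 / β⌉₊ + 1) *
        ((p + 1) * q) := Nat.mul_le_mul_right _ (by omega)
    omega

end Pool.Agent.GNet
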