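import Mathlib

set_option autoImplicit false

open Finset Classical MeasureTheory

namespace Pool.Agent.GNet


/-- A local net: a finite family of oriented arcs (darts) in the coordinate space `E`, each one
together with the reversed arc. `x d` is the arc, `u d` its velocity and `a d` its acceleration.
At every point of the ball of radius `8 R` the sum of the velocities of the darts which start there
vanishes. -/
structure LNet (E : Type*) [NormedAddCommGroup E] [InnerProductSpace ℝ E] (o : E) (R K : ℝ) where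
  D : Type
  [fin : Fintype D]
  rev : D → D
  len : D → ℝ
  x : D → ℝ → E
  u : D → ℝ → E
  a : D → ℝ → E
  rev_rev : ∀ d, rev (rev d) = d
  len_pos : ∀ d, 0 < len d
  len_rev : ∀ d, len (rev d) = len d
  x_rev : ∀ d s, x (rev d) s = x d (len d - s)
  u_rev : ∀ d s, u (rev d) s = - u d (len d - s)
  hx : ∀ d, ∀ s ∈ Set.Icc 0 (len d), HasDerivAt (x d) (u d s) s
  hu : ∀ d, ∀ s ∈ Set.Icc 0 (len d), HasDerivAt (u d) (a d s) s
  ac : ∀ d, ContinuousOn (a d) (Set.Icc 0 (len d))
  u_le : ∀ d, ∀ s ∈ Set.Icc 0 (len d), ‖u d s‖ ≤ K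
  u_ge : ∀ d, ∀ s ∈ Set.Icc 0 (len d), 1 ≤ K * ‖u d s‖
  a_le : ∀ d, ∀ s ∈ Set.Icc 0 (len d), ‖a d s‖ ≤ K
  bal : ∀ z ∈ Metric.ball o (8 * R), ∑ d with x d 0 = z, u d 0 = 0

attribute [instance] LNet.fin

/-- total length of the darts -/
noncomputable def LNet.length {E : Type*} [NormedAddCommGroup E] [InnerProductSpace ℝ E] {o : E}
    {R K : ℝ} (N : LNet E o R K) : ℝ := ∑ d, N.len d

/-- A cutoff function which is `1` on the ball of radius `5 R` and `0` outside the ball of radius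
`7 R`, with its derivatives. -/
structure Cut (E : Type*) [NormedAddCommGroup E] [InnerProductSpace ℝ E] (o : E) (R M : ℝ) where
  f : E → ℝ
  f' : E → E →L[ℝ] ℝ
  f'' : E → E →L[ℝ] E →L[ℝ] ℝ
  hf : ∀ x, HasFDerivAt f (f' x) x
  hf' : ∀ x, HasFDerivAt f' (f'' x) x
  cont : Continuous f''
  nonneg : ∀ x, 0 ≤ f x
  le_one : ∀ x, f x ≤ 1
  one : ∀ x ∈ Metric.ball o (5 * R), f x = 1
  zero : ∀ x, x ∉ Metric.ball o (8 * R) → f x = 0
  zero' : ∀ x, x ∉ Metric.ball o (8 * R) → f' x = 0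
  f'_le : ∀ x u, |f' x u| ≤ M * ‖u‖
  f''_le : ∀ x u v, |f'' x u v| ≤ M * ‖u‖ * ‖v‖

section kernels

variable {E : Type*} [NormedAddCommGroup E] [InnerProductSpace ℝ E]

/-- square of the regularised distance -/
noncomputable def NN (ε : ℝ) (x y : E) : ℝ := ε ^ 2 + inner ℝ (y - x) (y - x)

/-- regularised distance -/
noncomputable def HH (ε : ℝ) (x y : E) : ℝ := Real.sqrt (NN ε x y)

/-- derivative of the regularised distance with respect to the first point -/
noncomputable def Fs (ε : ℝ) (x u y : E) : ℝ := - inner ℝ (y - x) u / HH ε x y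

/-- derivative of the regularised distance with respect to the second point -/
noncomputable def Ft (ε : ℝ) (x y v : E) : ℝ := inner ℝ (y - x) v / HH ε x y

/-- tangential part of the second derivative -/
noncomputable def aa (ε : ℝ) (x u y : E) : ℝ :=
  (inner ℝ u u - inner ℝ (y - x) u ^ 2 / NN ε x y) / HH ε x y

noncomputable def Fss (ε : ℝ) (x u a y : E) : ℝ := aa ε x u y - inner ℝ (y - x) a / HH ε x y

noncomputable def Ftt (ε : ℝ) (x y v b : E) : ℝ := aa ε x v y + inner ℝ (y - x) b / HH ε x y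

noncomputable def Fst (ε : ℝ) (x u y v : E) : ℝ :=
  (- inner ℝ u v + inner ℝ (y - x) u * inner ℝ (y - x) v / NN ε x y) / HH ε x y

/-- third derivative -/
noncomputable def Fsst (ε : ℝ) (x u a y v : E) : ℝ :=
  - inner ℝ a v / HH ε x y - inner ℝ u v * inner ℝ (y - x) u / HH ε x y ^ 3 +
    ((- inner ℝ u u + inner ℝ (y - x) a) * inner ℝ (y - x) v -
      inner ℝ (y - x) u * inner ℝ u v) / HH ε x y ^ 3 +
    3 * inner ℝ (y - x) u ^ 2 * inner ℝ (y - x) v / HH ε x y ^ 5

/-- third derivative -/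
noncomputable def Fstt (ε : ℝ) (x u y v b : E) : ℝ :=
  - inner ℝ u b / HH ε x y + inner ℝ u v * inner ℝ (y - x) v / HH ε x y ^ 3 +
    (inner ℝ u v * inner ℝ (y - x) v +
      inner ℝ (y - x) u * (inner ℝ v v + inner ℝ (y - x) b)) / HH ε x y ^ 3 -
    3 * inner ℝ (y - x) u * inner ℝ (y - x) v ^ 2 / HH ε x y ^ 5

/-- square of the area of the parallelogram spanned by two vectors -/
noncomputable def wsq (u v : E) : ℝ := inner ℝ u u * inner ℝ v v - inner ℝ u v ^ 2

/-- the angle density -/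
noncomputable def WW (ε : ℝ) (x u y v : E) : ℝ := ε ^ 2 * wsq u v / NN ε x y ^ 2

/-- the angle weight of a pair of vectors -/
noncomputable def jj (u v : E) : ℝ :=
  wsq u v + if 0 < (inner ℝ u v : ℝ) then Real.sqrt (wsq u v) else 0

variable {o : E} {R M : ℝ}

/-- first flux -/
noncomputable def PP (c : Cut E o R M) (ε : ℝ) (x u y v b : E) : ℝ :=
  1 / 2 * (c.f x * c.f y * (Fs ε x u y * Ftt ε x y v b - Ft ε x y v * Fst ε x u y v) +
    c.f' x u * c.f y * Ft ε x y v ^ 2 - c.f x * c.f' y v * Fs ε x u y * Ft ε x y v)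

/-- second flux -/
noncomputable def PQ (c : Cut E o R M) (ε : ℝ) (x u a y v : E) : ℝ :=
  1 / 2 * (c.f x * c.f y * (Ft ε x y v * Fss ε x u a y - Fs ε x u y * Fst ε x u y v) +
    c.f x * c.f' y v * Fs ε x u y ^ 2 - c.f' x u * c.f y * Fs ε x u y * Ft ε x y v)

/-- derivative of the first flux -/
noncomputable def DP1 (c : Cut E o R M) (ε : ℝ) (x u a y v b : E) : ℝ :=
  1 / 2 * (c.f' x u * c.f y * (Fs ε x u y * Ftt ε x y v b - Ft ε x y v * Fst ε x u y v) +
    c.f x * c.f y * (Fss ε x u a y * Ftt ε x y v b + Fs ε x u y * Fstt ε x u y v b -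
      Fst ε x u y v ^ 2 - Ft ε x y v * Fsst ε x u a y v) +
    (c.f'' x u u + c.f' x a) * c.f y * Ft ε x y v ^ 2 +
    2 * c.f' x u * c.f y * Ft ε x y v * Fst ε x u y v -
    c.f' x u * c.f' y v * Fs ε x u y * Ft ε x y v -
    c.f x * c.f' y v * Fss ε x u a y * Ft ε x y v -
    c.f x * c.f' y v * Fs ε x u y * Fst ε x u y v)

/-- derivative of the second flux -/
noncomputable def DP2 (c : Cut E o R M) (ε : ℝ) (x u a y v b : E) : ℝ :=
  1 / 2 * (c.f x * c.f' y v * (Ft ε x y v * Fss ε x u a y - Fs ε x u y * Fst ε x u y v) +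
    c.f x * c.f y * (Ftt ε x y v b * Fss ε x u a y + Ft ε x y v * Fsst ε x u a y v -
      Fst ε x u y v ^ 2 - Fs ε x u y * Fstt ε x u y v b) +
    c.f x * (c.f'' y v v + c.f' y b) * Fs ε x u y ^ 2 +
    2 * c.f x * c.f' y v * Fs ε x u y * Fst ε x u y v -
    c.f' x u * c.f' y v * Fs ε x u y * Ft ε x y v -
    c.f' x u * c.f y * Fst ε x u y v * Ft ε x y v -
    c.f' x u * c.f y * Fs ε x u y * Ftt ε x y v b)

/-- the bounded terms -/
noncomputable def RR (c : Cut E o R M) (ε : ℝ) (x u a y v b : E) : ℝ :=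
  c.f' x u * c.f' y v * Fs ε x u y * Ft ε x y v -
    1 / 2 * (c.f'' x u u + c.f' x a) * c.f y * Ft ε x y v ^ 2 -
    1 / 2 * c.f x * (c.f'' y v v + c.f' y b) * Fs ε x u y ^ 2

end kernels

end Pool.Agent.GNet
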