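import Mathlib

set_option autoImplicit false

open Finset Classical

namespace Pool.Agent.GNet


/-- Bounded local geometry: on the convex set `B` of coordinates, `G` are the coefficients of a
Riemannian metric, `G'` their derivative, and `A x u` is the acceleration (in the coordinates) of
the geodesic through `x` with unit velocity `u`. -/
structure Geom (E : Type*) [NormedAddCommGroup E] [InnerProductSpace ℝ E] where
  B : Set E
  G : E → E →L[ℝ] E →L[ℝ] ℝ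
  G' : E → E →L[ℝ] E →L[ℝ] E →L[ℝ] ℝ
  A : E → E → E
  K : ℝ
  conv : Convex ℝ B
  one_le : 1 ≤ K
  symm : ∀ x ∈ B, ∀ u v, G x u v = G x v u
  lower : ∀ x ∈ B, ∀ u, ‖u‖ ^ 2 ≤ K * G x u u
  upper : ∀ x ∈ B, ∀ u v, |G x u v| ≤ K * ‖u‖ * ‖v‖
  deriv : ∀ x ∈ B, HasFDerivAt G (G' x) x
  G'_le : ∀ x ∈ B, ∀ w u v, |G' x w u v| ≤ K * ‖w‖ * ‖u‖ * ‖v‖
  G'_lip : ∀ x ∈ B, ∀ y ∈ B, ∀ w u v,
    |G' x w u v - G' y w u v| ≤ K * ‖x - y‖ * ‖w‖ * ‖u‖ * ‖v‖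
  A_le : ∀ x ∈ B, ∀ u, ‖u‖ ≤ K → ‖A x u‖ ≤ K
  A_lip : ∀ x ∈ B, ∀ y ∈ B, ∀ u v, ‖u‖ ≤ K → ‖v‖ ≤ K →
    ‖A x u - A y v‖ ≤ K * (‖x - y‖ + ‖u - v‖)

variable {E : Type*} [NormedAddCommGroup E] [InnerProductSpace ℝ E]

/-- a particle on the time interval `[a, b]`: a geodesic parametrised by the time `ℓ`, `x` is the
position and `u` the unit tangent vector, which points upwards -/
structure Ptc (Γ : Geom E) (ℓ : E →L[ℝ] ℝ) (c a b : ℝ) (x u : ℝ → E) : Prop where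
  xc : ContinuousOn x (Set.Icc a b)
  uc : ContinuousOn u (Set.Icc a b)
  xd : ∀ t ∈ Set.Ioo a b, HasDerivAt x ((ℓ (u t))⁻¹ • u t) t
  ud : ∀ t ∈ Set.Ioo a b, HasDerivAt u ((ℓ (u t))⁻¹ • Γ.A (x t) (u t)) t
  mem : ∀ t ∈ Set.Icc a b, x t ∈ Γ.B
  unit : ∀ t ∈ Set.Icc a b, Γ.G (x t) (u t) (u t) = 1
  up : ∀ t ∈ Set.Icc a b, c ≤ ℓ (u t)

/-- energy of a pair of particles -/
noncomputable def Geom.en (Γ : Geom E) (x u y v : E) : ℝ :=
  1 - 1 / 2 * (Γ.G x u v + Γ.G y u v)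

/-- modified energy of a pair of particles -/
noncomputable def Geom.lam (Γ : Geom E) (x u y v : E) : ℝ :=
  Γ.en x u y v + Γ.K ^ 5 * ‖y - x‖ ^ 2

/-- relative velocity, up to a positive factor -/
noncomputable def wv (ℓ : E →L[ℝ] ℝ) (u v : E) : E := ℓ u • v - ℓ v • u

/-- derivative of the distance of two particles, up to a positive factor -/
noncomputable def qq (ℓ : E →L[ℝ] ℝ) (x u y v : E) : ℝ :=
  (inner ℝ (y - x) (wv ℓ u v) : ℝ) / ‖y - x‖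

end Pool.Agent.GNet
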