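import Mathlib
import Pool.Agent.Helper971.BK.DGeom

set_option autoImplicit false

open Finset Classical

namespace Pool.Agent.GNet

variable {E : Type*} [NormedAddCommGroup E] [InnerProductSpace ℝ E]

/-- A system of particles: geodesics which are graphs over the time `ℓ`, on the time intervals
`[T k, T (k + 1)]`, `k < n`; at the times `T 1, …, T (n - 1)` particles may meet, and then the sum
of the velocities of the particles at each point is preserved. -/
structure Sys (Γ : Geom E) (ℓ : E →L[ℝ] ℝ) (c : ℝ) (ι : Type) [Fintype ι] where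
  n : ℕ
  T : ℕ → ℝ
  X : ℕ → ι → ℝ → E
  U : ℕ → ι → ℝ → E
  mono : ∀ k < n, T k < T (k + 1)
  ptc : ∀ k < n, ∀ i, Ptc Γ ℓ c (T k) (T (k + 1)) (X k i) (U k i)
  glue : ∀ k, k + 1 < n → ∀ i, X (k + 1) i (T (k + 1)) = X k i (T (k + 1))
  bal : ∀ k, k + 1 < n → ∀ i,
    ∑ j with X k j (T (k + 1)) = X k i (T (k + 1)), U (k + 1) j (T (k + 1)) =
    ∑ j with X k j (T (k + 1)) = X k i (T (k + 1)), U k j (T (k + 1))
  disj : ∀ k < n, ∀ i j, i ≠ j → ∀ t ∈ Set.Ioo (T k) (T (k + 1)), X k i t ≠ X k j t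

end Pool.Agent.GNet
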