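import Mathlib
import Pool.Agent.Helper971.BK.DSys

set_option autoImplicit false

open Finset Classical

namespace Pool.Agent.GNet

variable {E : Type*} [NormedAddCommGroup E] [InnerProductSpace ℝ E]

/-- A train track in the time slab `(a, b)`: finitely many particles `d`, living on the time
intervals `[s0 d, s1 d]`; `h` is a gauge function which varies slowly, `g t` bounds the variation of
`h` at the vertices at time `t`. At the vertices (times `s0 d`, `s1 d`) where `h < 5 / 2` the number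
and the sum of the velocities of the incoming and outgoing particles agree. -/
structure Track (Γ : Geom E) (ℓ : E →L[ℝ] ℝ) (c a b κ : ℝ) where
  D : Type
  [fin : Fintype D]
  s0 : D → ℝ
  s1 : D → ℝ
  X : D → ℝ → E
  U : D → ℝ → E
  h : D → ℝ → ℝ
  g : ℝ → ℝ
  lt : ∀ d, s0 d < s1 d
  ptc : ∀ d, Ptc Γ ℓ c (s0 d) (s1 d) (X d) (U d)
  hc : ∀ d, ContinuousOn (h d) (Set.Icc (s0 d) (s1 d))
  emb : ∀ d e, d ≠ e → ∀ t ∈ Set.Ioo (s0 d) (s1 d), t ∈ Set.Icc (s0 e) (s1 e) → X d t ≠ X e t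
  g_nonneg : ∀ t, 0 ≤ g t
  g_sum : ∀ F : Finset ℝ, (∀ t ∈ F, a < t ∧ t < b) → ∑ t ∈ F, g t ≤ κ
  hlip : ∀ d, ∀ t ∈ Set.Icc (s0 d) (s1 d), ∀ t' ∈ Set.Icc (s0 d) (s1 d), a < t → t < b →
    a < t' → t' < b → |h d t - h d t'| * (b - a) ≤ κ * |t - t'|
  vert : ∀ t, a < t → t < b → ∀ d, (t = s0 d ∨ t = s1 d) → h d t < 5 / 2 →
    #(univ.filter fun e => s0 e = t ∧ X e t = X d t) =
      #(univ.filter fun e => s1 e = t ∧ X e t = X d t) ∧
    ∑ e with s0 e = t ∧ X e t = X d t, U e t = ∑ e with s1 e = t ∧ X e t = X d t, U e t ∧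
    ∀ e, (t = s0 e ∨ t = s1 e) → X e t = X d t → |h e t - h d t| ≤ g t

attribute [instance] Track.fin

/-- a subdivision of the slab adapted to the track -/
structure Track.Sub {Γ : Geom E} {ℓ : E →L[ℝ] ℝ} {c a b κ : ℝ} (τ : Track Γ ℓ c a b κ) where
  n : ℕ
  T : ℕ → ℝ
  n_pos : 0 < n
  mono : ∀ k < n, T k < T (k + 1)
  T0 : a < T 0
  Tn : T n < b
  s0_mem : ∀ d, a < τ.s0 d → τ.s0 d < b → ∃ k, 0 < k ∧ k < n ∧ τ.s0 d = T k
  s1_mem : ∀ d, a < τ.s1 d → τ.s1 d < b → ∃ k, 0 < k ∧ k < n ∧ τ.s1 d = T k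

/-- the particles which live during the phase `k` -/
noncomputable def Track.Sub.V {Γ : Geom E} {ℓ : E →L[ℝ] ℝ} {c a b κ : ℝ} {τ : Track Γ ℓ c a b κ}
    (σ : τ.Sub) (k : ℕ) : Finset τ.D :=
  univ.filter fun d => τ.s0 d ≤ σ.T k ∧ σ.T (k + 1) ≤ τ.s1 d

/-- `θ` is a gap of the gauge function: no value near `θ` occurs -/
def Track.Sub.Gap {Γ : Geom E} {ℓ : E →L[ℝ] ℝ} {c a b κ : ℝ} {τ : Track Γ ℓ c a b κ}
    (σ : τ.Sub) (θ : ℝ) : Prop :=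
  1 < θ ∧ θ < 2 ∧ ∀ k < σ.n, ∀ d ∈ σ.V k, ∀ t ∈ Set.Icc (σ.T k) (σ.T (k + 1)),
    τ.h d t ≤ θ - 2 * κ ∨ θ + 2 * κ ≤ τ.h d t

/-- the particles of the phase `k` below the gap -/
noncomputable def Track.Sub.A {Γ : Geom E} {ℓ : E →L[ℝ] ℝ} {c a b κ : ℝ} {τ : Track Γ ℓ c a b κ}
    (σ : τ.Sub) (θ : ℝ) (k : ℕ) : Finset τ.D :=
  (σ.V k).filter fun d => τ.h d (σ.T k) < θ

/-- the vertices with at least two incoming particles, inside the slab, with gauge `< 1` -/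
noncomputable def Track.verts {Γ : Geom E} {ℓ : E →L[ℝ] ℝ} {c a b κ : ℝ}
    (τ : Track Γ ℓ c a b κ) : Finset E :=
  (univ.filter fun d => a < τ.s1 d ∧ τ.s1 d < b ∧ τ.h d (τ.s1 d) < 1 ∧
    ∃ e, e ≠ d ∧ τ.s1 e = τ.s1 d ∧ τ.X e (τ.s1 d) = τ.X d (τ.s1 d)).image fun d =>
      τ.X d (τ.s1 d)

end Pool.Agent.GNet
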