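import Mathlib
import Pool.Agent.Helper971.BK.DLNet
import Pool.Agent.Helper971.BK.DTrack

set_option autoImplicit false

open Finset Classical MeasureTheory

namespace Pool.Agent.GNet

variable {E : Type*} [NormedAddCommGroup E] [InnerProductSpace ℝ E]

/-- A local geodesic net: a local net whose darts are geodesics parametrised by arc length, which
do not meet outside their end points. -/
structure GeoNet (Γ : Geom E) (o : E) (R : ℝ) extends LNet E o R Γ.K where
  geo : ∀ d, ∀ s ∈ Set.Icc 0 (len d), a d s = Γ.A (x d s) (u d s)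
  unit : ∀ d, ∀ s ∈ Set.Icc 0 (len d), Γ.G (x d s) (u d s) (u d s) = 1
  mem : ∀ d, ∀ s ∈ Set.Icc 0 (len d), x d s ∈ Γ.B
  emb : ∀ d e, ∀ s ∈ Set.Ioo 0 (len d), ∀ t ∈ Set.Icc 0 (len e), x d s = x e t →
    (e = d ∧ t = s) ∨ (e = rev d ∧ t = len d - s)

/-- the end points of the darts -/
noncomputable def LNet.starts {o : E} {R K : ℝ} (N : LNet E o R K) : Finset E :=
  univ.image fun d => N.x d 0

/-- number of darts which start at `z` -/
noncomputable def LNet.deg {o : E} {R K : ℝ} (N : LNet E o R K) (z : E) : ℕ :=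
  #(univ.filter fun d => N.x d 0 = z)

/-- total angle weight at `z` -/
noncomputable def LNet.J {o : E} {R K : ℝ} (N : LNet E o R K) (z : E) : ℝ :=
  ∑ d with N.x d 0 = z, ∑ e with N.x e 0 = z, jj (N.u d 0) (N.u e 0)

/-- the gauge function: deviation of the direction `u` from `w`, and of the position `x` from the
ball of radius `R` -/
noncomputable def gauge (w o : E) (R : ℝ) (x u : E) : ℝ :=
  max ‖(inner ℝ w u : ℝ)⁻¹ • u - w‖ (‖x - o‖ / R)

end Pool.Agent.GNet
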