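import Mathlib

set_option autoImplicit false

open Finset Classical
open scoped Manifold ContDiff

namespace Pool.Agent.GNet

/-- A smooth Riemannian metric on the smooth manifold `M` modelled on the finite-dimensional inner
product space `E` (for example `ℝⁿ`): a smooth family of inner products on the tangent spaces. -/
abbrev RMetric (E : Type*) [NormedAddCommGroup E] [InnerProductSpace ℝ E] (M : Type*)
    [TopologicalSpace M] [ChartedSpace E M] [IsManifold 𝓘(ℝ, E) ∞ M] : Type _ :=
  Bundle.ContMDiffRiemannianMetric 𝓘(ℝ, E) ∞ E (fun p : M => TangentSpace 𝓘(ℝ, E) p)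

variable {E : Type*} [NormedAddCommGroup E] [InnerProductSpace ℝ E] {M : Type*}
  [TopologicalSpace M] [ChartedSpace E M] [IsManifold 𝓘(ℝ, E) ∞ M]

/-- The inner product of the metric `g` on the tangent space of `M` at `p` (the underlying vector
space of `TangentSpace 𝓘(ℝ, E) p` is `E`). -/
noncomputable def RMetric.form (g : RMetric E M) (p : M) : E →L[ℝ] E →L[ℝ] ℝ := g.inner p

/-- The derivative of the inverse of the chart `e` at the coordinate point `x`: it maps a coordinate
vector to the tangent vector of `M` at the point `e.symm x` which it represents. -/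
noncomputable def chartDeriv (e : OpenPartialHomeomorph M E) (x : E) : E →L[ℝ] E :=
  mfderiv 𝓘(ℝ, E) 𝓘(ℝ, E) e.symm x

/-- The coefficients of the Riemannian metric `g` in the chart `e`: for a point `x` of the
coordinate domain `e.target` this is the inner product of the tangent vectors of `M` at
`e.symm x` which are represented in the chart by the coordinate vectors `u` and `w`. -/
noncomputable def coeff (g : RMetric E M) (e : OpenPartialHomeomorph M E) (x u w : E) : ℝ :=
  RMetric.form g (e.symm x) (chartDeriv e x u) (chartDeriv e x w)

/-- The velocity at `s` of the curve `γ : ℝ → M`, expressed in the chart `e`. -/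
noncomputable def vel (e : OpenPartialHomeomorph M E) (γ : ℝ → M) (s : ℝ) : E :=
  deriv (fun t => e (γ t)) s

/-- The curve `γ : ℝ → M` is, at the parameter `s`, a geodesic of the metric `g` parametrised by
arc length: it is continuous at `s` and in every chart `e` of the atlas around `γ s` the coordinate
curve `c = e ∘ γ` is `C²` at `s`, has speed `1` at `s`, and satisfies at `s` the geodesic equation
(the Euler-Lagrange equation of the energy `1/2 ∫ G_c(c', c')`)
`d/dt (G_{c t} (c' t, w)) = 1/2 (D_w G)_{c s} (c' s, c' s)` for all coordinate vectors `w`,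
where `G = coeff g e`. -/
structure IsUnitGeodesicAt (g : RMetric E M) (γ : ℝ → M) (s : ℝ) : Prop where
  cont : ContinuousAt γ s
  smooth : ∀ e ∈ atlas E M, γ s ∈ e.source → ContDiffAt ℝ 2 (fun t => e (γ t)) s
  speed : ∀ e ∈ atlas E M, γ s ∈ e.source →
    coeff g e (e (γ s)) (vel e γ s) (vel e γ s) = 1
  eq : ∀ e ∈ atlas E M, γ s ∈ e.source → ∀ w : E,
    HasDerivAt (fun t => coeff g e (e (γ t)) (vel e γ t) w)
      (1 / 2 * fderiv ℝ (fun x => coeff g e x (vel e γ s) (vel e γ s)) (e (γ s)) w) s

/-- A **closed geodesic net** on the Riemannian manifold `(M, g)`: a finite set `V` of vertices and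
finitely many edges; the edge `i` is the geodesic segment `γ i` on `[0, len i]`, parametrised by
arc length, which starts and ends at vertices. Edges do not self-intersect and distinct edges meet
only at common end points (an interior point of an edge is no other point of any edge). Every
vertex has degree at least three (edges which start and end at the same vertex are allowed, they
count twice) and at every vertex the sum of the unit tangent vectors which point into the edges is
zero: an edge contributes its velocity at its start and minus its velocity at its end; the sum is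
expressed in the charts of the atlas. -/
structure ClosedGeodesicNet (g : RMetric E M) where
  /-- the vertices -/
  V : Finset M
  /-- the number of edges -/
  m : ℕ
  /-- the edges -/
  γ : Fin m → ℝ → M
  /-- the lengths of the edges -/
  len : Fin m → ℝ
  len_pos : ∀ i, 0 < len i
  geodesic : ∀ i, ∀ s ∈ Set.Icc 0 (len i), IsUnitGeodesicAt g (γ i) s
  start_mem : ∀ i, γ i 0 ∈ V
  end_mem : ∀ i, γ i (len i) ∈ V
  embedded : ∀ i j, ∀ s ∈ Set.Ioo 0 (len i), ∀ t ∈ Set.Icc 0 (len j), γ i s = γ j t →
    i = j ∧ s = t
  degree : ∀ v ∈ V, 3 ≤ #(univ.filter fun i => γ i 0 = v) + #(univ.filter fun i => γ i (len i) = v)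
  balanced : ∀ v ∈ V, ∀ e ∈ atlas E M, v ∈ e.source →
    ∑ i with γ i 0 = v, vel e (γ i) 0 - ∑ i with γ i (len i) = v, vel e (γ i) (len i) = 0

/-- the length of a net is the sum of the lengths of its edges -/
noncomputable def ClosedGeodesicNet.length {g : RMetric E M} (N : ClosedGeodesicNet g) : ℝ :=
  ∑ i, N.len i

end Pool.Agent.GNet
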