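import Mathlib
import Pool.Agent.Helper971.BK.DGeo
import Pool.Agent.Helper971.BK.Net

set_option autoImplicit false

open Finset Classical MeasureTheory
open scoped Manifold ContDiff

namespace Pool.Agent.GNet

variable {E : Type*} [NormedAddCommGroup E] [InnerProductSpace ℝ E] {M : Type*}
  [TopologicalSpace M] [ChartedSpace E M] [IsManifold 𝓘(ℝ, E) ∞ M]

theorem RMetric.form_symm (g : RMetric E M) (p : M) (u w : E) :
    RMetric.form g p u w = RMetric.form g p w u := g.symm p u w

theorem coeff_symm (g : RMetric E M) (e : OpenPartialHomeomorph M E) (x u w : E) :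
    coeff g e x u w = coeff g e x w u :=
  RMetric.form_symm g _ _ _

/-- the coefficients of the metric in a chart, as bilinear form -/
noncomputable def GG (g : RMetric E M) (e : OpenPartialHomeomorph M E) (x : E) :
    E →L[ℝ] E →L[ℝ] ℝ :=
  (RMetric.form g (e.symm x)).bilinearComp (chartDeriv e x) (chartDeriv e x)

theorem GG_apply (g : RMetric E M) (e : OpenPartialHomeomorph M E) (x u w : E) :
    GG g e x u w = coeff g e x u w := rfl

/-- the geometry `Γ` represents the metric `g` in the chart `e` -/
structure IsChartGeom (g : RMetric E M) (e : OpenPartialHomeomorph M E) (Γ : Geom E) : Prop where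
  mem : e ∈ atlas E M
  sub : Γ.B ⊆ e.target
  hG : Γ.G = GG g e
  hG' : Γ.G' = fderiv ℝ (GG g e)
  hA : ∀ x ∈ Γ.B, ∀ u, GG g e x u u = 1 → ∀ w,
    GG g e x (Γ.A x u) w = 1 / 2 * fderiv ℝ (GG g e) x w u u - fderiv ℝ (GG g e) x u u w

end Pool.Agent.GNet
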