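import Mathlib
import Pool.Agent.Helper971.BK.DGeom

set_option autoImplicit false

open Finset Classical

namespace Pool.Agent.GNet

variable {E : Type*} [NormedAddCommGroup E] [InnerProductSpace ℝ E]

/-- the metric is Lipschitz -/
theorem Geom.G_lip (Γ : Geom E) {x y : E} (hx : x ∈ Γ.B) (hy : y ∈ Γ.B) (u v : E) :
    |Γ.G y u v - Γ.G x u v| ≤ Γ.K * ‖y - x‖ * ‖u‖ * ‖v‖ := by
  have hK : 0 ≤ Γ.K := zero_le_one.trans Γ.one_le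
  have hd : ∀ z ∈ Γ.B, HasFDerivAt (fun z => Γ.G z u v)
      ((((Γ.G z).comp (0 : E →L[ℝ] E) + (Γ.G' z).flip u).flip v)) z := by
    intro z hz
    have h1 := ((Γ.deriv z hz).clm_apply (hasFDerivAt_const u z)).clm_apply
      (hasFDerivAt_const v z)
    refine h1.congr_fderiv ?_
    ext w
    simp
  have h := Convex.norm_image_sub_le_of_norm_hasFDerivWithin_le (𝕜 := ℝ)
    (f := fun z => Γ.G z u v)
    (f' := fun z => (((Γ.G z).comp (0 : E →L[ℝ] E) + (Γ.G' z).flip u).flip v)) (s := Γ.B)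
    (C := Γ.K * ‖u‖ * ‖v‖) (x := x) (y := y)
    (fun z hz => (hd z hz).hasFDerivWithinAt)
    (fun z hz => by
      refine ContinuousLinearMap.opNorm_le_bound _ (by positivity) (fun w => ?_)
      have := Γ.G'_le z hz w u v
      have e : ((((Γ.G z).comp (0 : E →L[ℝ] E) + (Γ.G' z).flip u).flip v)) w = Γ.G' z w u v := by
        simp
      rw [e, Real.norm_eq_abs]
      linarith [this, show Γ.K * ‖w‖ * ‖u‖ * ‖v‖ = Γ.K * ‖u‖ * ‖v‖ * ‖w‖ by ring])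
    Γ.conv hx hy
  simp only [Real.norm_eq_abs] at h
  linarith [show Γ.K * ‖y - x‖ * ‖u‖ * ‖v‖ = Γ.K * ‖u‖ * ‖v‖ * ‖y - x‖ by ring]

theorem Geom.norm_le (Γ : Geom E) {x u : E} (hx : x ∈ Γ.B) (hu : Γ.G x u u = 1) : ‖u‖ ≤ Γ.K := by
  have h := Γ.lower x hx u
  rw [hu, mul_one] at h
  have h1 := Γ.one_le
  nlinarith [norm_nonneg u]

/-- second form of the energy -/
theorem Geom.en_eq (Γ : Geom E) {x u y v : E} (hx : x ∈ Γ.B) (hy : y ∈ Γ.B)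
    (hu : Γ.G x u u = 1) (hv : Γ.G y v v = 1) :
    Γ.en x u y v = 1 / 2 * (Γ.G x (v - u) (v - u) + (Γ.G y (v - u) v - Γ.G x (v - u) v)) := by
  have h := Γ.symm x hx u v
  have hy' := hy
  simp only [Geom.en, map_sub, sub_apply, hu, hv]
  rw [h]
  ring

theorem Geom.est (Γ : Geom E) {x u y v : E} (hx : x ∈ Γ.B) (hy : y ∈ Γ.B)
    (hv : Γ.G y v v = 1) :
    |Γ.G y (v - u) v - Γ.G x (v - u) v| ≤ Γ.K ^ 2 * ‖y - x‖ * ‖v - u‖ := by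
  have h1 := Γ.G_lip hx hy (v - u) v
  have h2 := Γ.norm_le hy hv
  have hK : 0 ≤ Γ.K := zero_le_one.trans Γ.one_le
  refine h1.trans ?_
  calc Γ.K * ‖y - x‖ * ‖v - u‖ * ‖v‖ ≤ Γ.K * ‖y - x‖ * ‖v - u‖ * Γ.K := by gcongr
    _ = _ := by ring

theorem Geom.lam_ge (Γ : Geom E) {x u y v : E} (hx : x ∈ Γ.B) (hy : y ∈ Γ.B)
    (hu : Γ.G x u u = 1) (hv : Γ.G y v v = 1) :
    1 / (4 * Γ.K) * (‖v - u‖ ^ 2 + ‖y - x‖ ^ 2) ≤ Γ.lam x u y v := by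
  have hK1 := Γ.one_le
  have hK : 0 < Γ.K := zero_lt_one.trans_le hK1
  have h0 := Γ.en_eq hx hy hu hv
  have h1 := abs_le.1 (Γ.est (u := u) hx hy hv)
  have h2 := Γ.lower x hx (v - u)
  rw [Geom.lam, h0]
  set a := Γ.G x (v - u) (v - u)
  set b := Γ.G y (v - u) v - Γ.G x (v - u) v
  set d := ‖v - u‖ with hd
  set z := ‖y - x‖ with hz
  have hd0 : 0 ≤ d := norm_nonneg _
  have hz0 : 0 ≤ z := norm_nonneg _
  rw [div_mul_eq_mul_div, one_mul, div_le_iff₀ (by positivity)]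
  -- d^2+z^2 ≤ (1/2 (a+b) + K^5 z^2) * (4 K)
  have k2 : 2 * (Γ.K * b) ≥ -(2 * Γ.K ^ 3 * z * d) := by
    have := mul_le_mul_of_nonneg_left h1.1 (show (0:ℝ) ≤ 2 * Γ.K by positivity)
    nlinarith [this]
  have k3 : 2 * Γ.K ^ 3 * z * d ≤ d ^ 2 + Γ.K ^ 6 * z ^ 2 := by
    nlinarith [sq_nonneg (d - Γ.K ^ 3 * z)]
  have k4 : (1:ℝ) ≤ Γ.K ^ 6 := one_le_pow₀ hK1
  have k5 : z ^ 2 ≤ Γ.K ^ 6 * z ^ 2 := by nlinarith [sq_nonneg z]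
  have k6 : 0 ≤ Γ.K ^ 6 * z ^ 2 := by positivity
  have e : (1 / 2 * (a + b) + Γ.K ^ 5 * z ^ 2) * (4 * Γ.K) =
    2 * (Γ.K * a) + 2 * (Γ.K * b) + 4 * (Γ.K ^ 6 * z ^ 2) := by ring
  rw [e]
  linarith

theorem Geom.lam_le (Γ : Geom E) {x u y v : E} (hx : x ∈ Γ.B) (hy : y ∈ Γ.B)
    (hu : Γ.G x u u = 1) (hv : Γ.G y v v = 1) :
    Γ.lam x u y v ≤ 2 * Γ.K ^ 5 * (‖v - u‖ ^ 2 + ‖y - x‖ ^ 2) := by
  have hK1 := Γ.one_le
  have hK : 0 < Γ.K := zero_lt_one.trans_le hK1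
  have h0 := Γ.en_eq hx hy hu hv
  have h1 := abs_le.1 (Γ.est (u := u) hx hy hv)
  have h2 := le_of_abs_le (Γ.upper x hx (v - u) (v - u))
  rw [Geom.lam, h0]
  set a := Γ.G x (v - u) (v - u)
  set b := Γ.G y (v - u) v - Γ.G x (v - u) v
  set d := ‖v - u‖ with hd
  set z := ‖y - x‖ with hz
  have hd0 : 0 ≤ d := norm_nonneg _
  have hz0 : 0 ≤ z := norm_nonneg _
  have k1 : Γ.K ≤ Γ.K ^ 5 := le_self_pow₀ hK1 (by norm_num)
  have k2 : Γ.K ^ 2 ≤ Γ.K ^ 5 := pow_le_pow_right₀ hK1 (by norm_num)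
  have k3 : Γ.K * d * d ≤ Γ.K ^ 5 * d ^ 2 := by nlinarith [sq_nonneg d]
  have k4 : Γ.K ^ 2 * z * d ≤ Γ.K ^ 5 * (z * d) := by nlinarith [mul_nonneg hz0 hd0]
  have k5 : Γ.K ^ 5 * (z * d) ≤ Γ.K ^ 5 * ((z ^ 2 + d ^ 2) / 2) := by
    apply mul_le_mul_of_nonneg_left _ (by positivity)
    nlinarith [sq_nonneg (z - d)]
  have k6 : 0 ≤ Γ.K ^ 5 * z ^ 2 := by positivity
  have k7 : 0 ≤ Γ.K ^ 5 * d ^ 2 := by positivity
  nlinarith [h1.2, h2, k3, k4, k5, k6, k7]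

end Pool.Agent.GNet
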