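import Mathlib
import Pool.Agent.Helper971.BK.DGeom
import Pool.Agent.Helper971.BK.G1

set_option autoImplicit false

open Finset Classical

namespace Pool.Agent.GNet

variable {E : Type*} [NormedAddCommGroup E] [InnerProductSpace ℝ E]

theorem G2_inv_diff (ℓ : E →L[ℝ] ℝ) {c : ℝ} (hc : 0 < c) {u v : E} (hu : c ≤ ℓ u) (hv : c ≤ ℓ v) :
    |(ℓ v)⁻¹ - (ℓ u)⁻¹| ≤ ‖ℓ‖ * ‖v - u‖ / c ^ 2 := by
  have hu0 : 0 < ℓ u := lt_of_lt_of_le hc hu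
  have hv0 : 0 < ℓ v := lt_of_lt_of_le hc hv
  have h1 : (ℓ v)⁻¹ - (ℓ u)⁻¹ = (ℓ u - ℓ v) / (ℓ u * ℓ v) := by
    field_simp
  have h2 : |ℓ u - ℓ v| ≤ ‖ℓ‖ * ‖v - u‖ := by
    rw [← map_sub, ← Real.norm_eq_abs, norm_sub_rev v u]
    exact ℓ.le_opNorm _
  rw [h1, abs_div, abs_of_pos (mul_pos hu0 hv0)]
  have h3 : c ^ 2 ≤ ℓ u * ℓ v := by nlinarith
  exact div_le_div₀ (by positivity) h2 (by positivity) h3

theorem G2_diff_bound (ℓ : E →L[ℝ] ℝ) {c K Z : ℝ} (hc : 0 < c) (hK : 1 ≤ K) (hZ : 0 ≤ Z)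
    {u v a b : E} (hu : c ≤ ℓ u) (hv : c ≤ ℓ v) (ha : ‖a‖ ≤ K)
    (hab : ‖b - a‖ ≤ K * (Z + ‖v - u‖)) :
    ‖(ℓ v)⁻¹ • b - (ℓ u)⁻¹ • a‖ ≤ (K / c + K * ‖ℓ‖ / c ^ 2) * (Z + ‖v - u‖) := by
  have hv0 : 0 < ℓ v := lt_of_lt_of_le hc hv
  have e : (ℓ v)⁻¹ • b - (ℓ u)⁻¹ • a = (ℓ v)⁻¹ • (b - a) + ((ℓ v)⁻¹ - (ℓ u)⁻¹) • a := by
    rw [smul_sub, sub_smul]; abel
  have h1 : ‖(ℓ v)⁻¹ • (b - a)‖ ≤ c⁻¹ * (K * (Z + ‖v - u‖)) := by
    rw [norm_smul, Real.norm_eq_abs, abs_of_pos (inv_pos.2 hv0)]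
    exact mul_le_mul (inv_anti₀ hc hv) hab (norm_nonneg _) (by positivity)
  have h2 : ‖((ℓ v)⁻¹ - (ℓ u)⁻¹) • a‖ ≤ (‖ℓ‖ * ‖v - u‖ / c ^ 2) * K := by
    rw [norm_smul, Real.norm_eq_abs]
    exact mul_le_mul (G2_inv_diff ℓ hc hu hv) ha (norm_nonneg _) (by positivity)
  have h3 : (‖ℓ‖ * ‖v - u‖ / c ^ 2) * K ≤ (K * ‖ℓ‖ / c ^ 2) * (Z + ‖v - u‖) := by
    have : (‖ℓ‖ * ‖v - u‖ / c ^ 2) * K = (K * ‖ℓ‖ / c ^ 2) * ‖v - u‖ := by ring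
    rw [this]
    exact mul_le_mul_of_nonneg_left (by linarith) (by positivity)
  calc ‖(ℓ v)⁻¹ • b - (ℓ u)⁻¹ • a‖ ≤ ‖(ℓ v)⁻¹ • (b - a)‖ + ‖((ℓ v)⁻¹ - (ℓ u)⁻¹) • a‖ := by
        rw [e]; exact norm_add_le _ _
    _ ≤ c⁻¹ * (K * (Z + ‖v - u‖)) + (K * ‖ℓ‖ / c ^ 2) * (Z + ‖v - u‖) := by linarith
    _ = (K / c + K * ‖ℓ‖ / c ^ 2) * (Z + ‖v - u‖) := by
        rw [div_eq_mul_inv K c]; ring

theorem G2_comp (Γ : Geom E) (x : ℝ → E) (x' : E) (t : ℝ) (hB : x t ∈ Γ.B)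
    (hx : HasDerivAt x x' t) : HasDerivAt (fun s => Γ.G (x s)) (Γ.G' (x t) x') t := by
  have h := Γ.deriv (x t) hB
  have h1 := HasFDerivAt.comp_hasDerivAt (𝕜 := ℝ) (F := E) (E := E →L[ℝ] E →L[ℝ] ℝ)
    (l := Γ.G) (l' := Γ.G' (x t)) (f := x) t h hx
  exact h1

/-- the logarithmic derivative of the modified energy of two particles is bounded -/
theorem lam_deriv (Γ : Geom E) (ℓ : E →L[ℝ] ℝ) {c : ℝ} (hc : 0 < c) :
    ∃ C : ℝ, 0 < C ∧ ∀ (a b : ℝ) (x u y v : ℝ → E), Ptc Γ ℓ c a b x u → Ptc Γ ℓ c a b y v →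
      ∀ t ∈ Set.Ioo a b, ∃ D : ℝ, HasDerivAt (fun t => Γ.lam (x t) (u t) (y t) (v t)) D t ∧
        |D| ≤ C * Γ.lam (x t) (u t) (y t) (v t) := by
  have hK := Γ.one_le
  set K := Γ.K with hKdef
  have hK0 : 0 < K := by linarith
  set M : ℝ := K / c + K * ‖ℓ‖ / c ^ 2 with hM
  have hM0 : 0 < M := by positivity
  refine ⟨8 * K * (M * (2 * K + 2 * K ^ 2 + 2 * K ^ 5)), by positivity, ?_⟩
  intro a b x u y v hx hy t ht
  have htI : t ∈ Set.Icc a b := Set.Ioo_subset_Icc_self ht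
  have hxB := hx.mem t htI
  have hyB := hy.mem t htI
  have hu1 := hx.unit t htI
  have hv1 := hy.unit t htI
  have huc := hx.up t htI
  have hvc := hy.up t htI
  have huK : ‖u t‖ ≤ K := Γ.norm_le hxB hu1
  have hvK : ‖v t‖ ≤ K := Γ.norm_le hyB hv1
  have hxd := hx.xd t ht
  have hyd := hy.xd t ht
  have hud := hx.ud t ht
  have hvd := hy.ud t ht
  have hAu : ‖Γ.A (x t) (u t)‖ ≤ K := Γ.A_le _ hxB _ huK
  have hAv : ‖Γ.A (y t) (v t)‖ ≤ K := Γ.A_le _ hyB _ hvK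
  have hAd : ‖Γ.A (y t) (v t) - Γ.A (x t) (u t)‖ ≤ K * (‖y t - x t‖ + ‖v t - u t‖) :=
    Γ.A_lip _ hyB _ hxB _ _ hvK huK
  set Z : ℝ := ‖y t - x t‖ with hZ
  set Δ : ℝ := ‖v t - u t‖ with hΔ
  have hZ0 : 0 ≤ Z := norm_nonneg _
  have hΔ0 : 0 ≤ Δ := norm_nonneg _
  set x' : E := (ℓ (u t))⁻¹ • u t with hx'
  set y' : E := (ℓ (v t))⁻¹ • v t with hy'
  set u' : E := (ℓ (u t))⁻¹ • Γ.A (x t) (u t) with hu'
  set v' : E := (ℓ (v t))⁻¹ • Γ.A (y t) (v t) with hv'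
  -- bounds on derivatives
  have hz'b : ‖y' - x'‖ ≤ M * (Z + Δ) :=
    G2_diff_bound ℓ hc hK hZ0 huc hvc huK (by
      have : ‖v t - u t‖ ≤ 1 * (Z + ‖v t - u t‖) := by linarith
      exact this.trans (mul_le_mul_of_nonneg_right hK (by positivity)))
  have hd'b : ‖v' - u'‖ ≤ M * (Z + Δ) := G2_diff_bound ℓ hc hK hZ0 huc hvc hAu hAd
  have hMc : K / c ≤ M := by rw [hM]; linarith [show 0 ≤ K * ‖ℓ‖ / c ^ 2 by positivity]
  have hsm : ∀ (w e : E), c ≤ ℓ w → ‖e‖ ≤ K → ‖(ℓ w)⁻¹ • e‖ ≤ M := by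
    intro w e hw he
    have hw0 : 0 < ℓ w := lt_of_lt_of_le hc hw
    refine le_trans ?_ hMc
    rw [norm_smul, Real.norm_eq_abs, abs_of_pos (inv_pos.2 hw0), div_eq_inv_mul]
    exact mul_le_mul (inv_anti₀ hc hw) he (norm_nonneg _) (by positivity)
  have hx'b : ‖x'‖ ≤ M := hsm _ _ huc huK
  have hy'b : ‖y'‖ ≤ M := hsm _ _ hvc hvK
  have hv'b : ‖v'‖ ≤ M := hsm _ _ hvc hAv
  -- derivatives of the coefficients
  have hGx : HasDerivAt (fun s => Γ.G (x s)) (Γ.G' (x t) x') t :=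
    G2_comp Γ x x' t hxB hxd
  have hGy : HasDerivAt (fun s => Γ.G (y s)) (Γ.G' (y t) y') t :=
    G2_comp Γ y y' t hyB hyd
  have hd : HasDerivAt (fun s => v s - u s) (v' - u') t := hvd.sub hud
  have hz : HasDerivAt (fun s => y s - x s) (y' - x') t := hyd.sub hxd
  have h1 := (hGx.clm_apply hd).clm_apply hd
  have h2 := (hGy.clm_apply hd).clm_apply hvd
  have h3 := (hGx.clm_apply hd).clm_apply hvd
  have h4 := hz.norm_sq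
  have hψ := ((h1.add (h2.sub h3)).const_mul (1 / 2 : ℝ)).add (h4.const_mul (K ^ 5))
  refine ⟨_, hψ.congr_of_eventuallyEq ?_, ?_⟩
  · filter_upwards [Ioo_mem_nhds ht.1 ht.2] with s hs
    have hsI : s ∈ Set.Icc a b := Set.Ioo_subset_Icc_self hs
    rw [Geom.lam, Γ.en_eq (hx.mem s hsI) (hy.mem s hsI) (hx.unit s hsI) (hy.unit s hsI)]
    rfl
  · -- the estimate
    set d : E := v t - u t with hdd
    set z : E := y t - x t with hzz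
    set d' : E := v' - u' with hd'd
    set z' : E := y' - x' with hz'd
    have hlam := Γ.lam_ge hxB hyB hu1 hv1
    rw [← hdd, ← hzz, ← hKdef] at hlam
    set S : ℝ := Z + Δ with hS
    have hS0 : 0 ≤ S := by positivity
    have hZS : Z ≤ S := by rw [hS]; linarith
    have hΔS : Δ ≤ S := by rw [hS]; linarith
    have hS2 : S ^ 2 ≤ 8 * K * Γ.lam (x t) (u t) (y t) (v t) := by
      have e1 : S ^ 2 ≤ 2 * (Δ ^ 2 + Z ^ 2) := by rw [hS]; nlinarith [sq_nonneg (Z - Δ)]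
      have e2 : Δ ^ 2 + Z ^ 2 ≤ 4 * K * Γ.lam (x t) (u t) (y t) (v t) := by
        rw [div_mul_eq_mul_div, div_le_iff₀ (by positivity), one_mul] at hlam
        linarith
      linarith
    -- the individual terms
    have t1 : |Γ.G' (x t) x' d d| ≤ K * M * S ^ 2 := by
      refine (Γ.G'_le _ hxB _ _ _).trans ?_
      calc Γ.K * ‖x'‖ * ‖d‖ * ‖d‖ ≤ K * M * S * S := by gcongr
        _ = K * M * S ^ 2 := by ring
    have t2 : |Γ.G (x t) d' d| ≤ K * M * S ^ 2 := by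
      refine (Γ.upper _ hxB _ _).trans ?_
      calc Γ.K * ‖d'‖ * ‖d‖ ≤ K * (M * S) * S := by gcongr
        _ = K * M * S ^ 2 := by ring
    have t3 : |Γ.G (x t) d d'| ≤ K * M * S ^ 2 := by
      refine (Γ.upper _ hxB _ _).trans ?_
      calc Γ.K * ‖d‖ * ‖d'‖ ≤ K * S * (M * S) := by gcongr
        _ = K * M * S ^ 2 := by ring
    have t4 : |Γ.G' (y t) y' d (v t) - Γ.G' (x t) y' d (v t)| ≤ K ^ 2 * M * S ^ 2 := by
      refine (Γ.G'_lip _ hyB _ hxB _ _ _).trans ?_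
      calc Γ.K * ‖y t - x t‖ * ‖y'‖ * ‖d‖ * ‖v t‖ ≤ K * S * M * S * K := by gcongr
        _ = K ^ 2 * M * S ^ 2 := by ring
    have t5 : |Γ.G' (x t) z' d (v t)| ≤ K ^ 2 * M * S ^ 2 := by
      refine (Γ.G'_le _ hxB _ _ _).trans ?_
      calc Γ.K * ‖z'‖ * ‖d‖ * ‖v t‖ ≤ K * (M * S) * S * K := by gcongr
        _ = K ^ 2 * M * S ^ 2 := by ring
    have t6 : |Γ.G (y t) d' (v t) - Γ.G (x t) d' (v t)| ≤ K ^ 2 * M * S ^ 2 := by
      refine (Γ.G_lip hxB hyB _ _).trans ?_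
      calc Γ.K * ‖y t - x t‖ * ‖d'‖ * ‖v t‖ ≤ K * S * (M * S) * K := by gcongr
        _ = K ^ 2 * M * S ^ 2 := by ring
    have t7 : |Γ.G (y t) d v' - Γ.G (x t) d v'| ≤ K * M * S ^ 2 := by
      refine (Γ.G_lip hxB hyB _ _).trans ?_
      calc Γ.K * ‖y t - x t‖ * ‖d‖ * ‖v'‖ ≤ K * S * S * M := by gcongr
        _ = K * M * S ^ 2 := by ring
    have t8 : |(inner ℝ z z' : ℝ)| ≤ M * S ^ 2 := by
      refine (abs_real_inner_le_norm _ _).trans ?_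
      calc ‖z‖ * ‖z'‖ ≤ S * (M * S) := by gcongr
        _ = M * S ^ 2 := by ring
    have t5' : Γ.G' (x t) z' d (v t) = Γ.G' (x t) y' d (v t) - Γ.G' (x t) x' d (v t) := by
      have e : Γ.G' (x t) z' = Γ.G' (x t) y' - Γ.G' (x t) x' := by
        rw [hz'd]; exact map_sub (Γ.G' (x t)) _ _
      rw [e]; rfl
    have hmain : |1 / 2 *
        ((Γ.G' (x t) x' d + Γ.G (x t) d') d + Γ.G (x t) d d' +
          ((Γ.G' (y t) y' d + Γ.G (y t) d') (v t) + Γ.G (y t) d v' -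
            ((Γ.G' (x t) x' d + Γ.G (x t) d') (v t) + Γ.G (x t) d v'))) +
        K ^ 5 * (2 * inner ℝ z z')| ≤ M * (2 * K + 2 * K ^ 2 + 2 * K ^ 5) * S ^ 2 := by
      simp only [add_apply]
      rw [abs_le] at *
      have hK5 : 0 ≤ K ^ 5 := by positivity
      have h8a := mul_le_mul_of_nonneg_left t8.1 hK5
      have h8b := mul_le_mul_of_nonneg_left t8.2 hK5
      have hp : 0 ≤ K ^ 2 * M * S ^ 2 := by positivity
      constructor <;> nlinarith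
    calc _ ≤ M * (2 * K + 2 * K ^ 2 + 2 * K ^ 5) * S ^ 2 := hmain
      _ ≤ M * (2 * K + 2 * K ^ 2 + 2 * K ^ 5) * (8 * K * Γ.lam (x t) (u t) (y t) (v t)) :=
          mul_le_mul_of_nonneg_left hS2 (by positivity)
      _ = _ := by ring

end Pool.Agent.GNet
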