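import Mathlib
import Pool.Agent.Helper971.BK.DGeom
import Pool.Agent.Helper971.BK.G1
import Pool.Agent.Helper971.BK.G2

set_option autoImplicit false

open Finset Classical

namespace Pool.Agent.GNet

variable {E : Type*} [NormedAddCommGroup E] [InnerProductSpace ℝ E]

theorem lam_nonneg (Γ : Geom E) {x u y v : E} (hx : x ∈ Γ.B) (hy : y ∈ Γ.B)
    (hu : Γ.G x u u = 1) (hv : Γ.G y v v = 1) : 0 ≤ Γ.lam x u y v := by
  have h := Γ.lam_ge hx hy hu hv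
  have hK : 0 < Γ.K := lt_of_lt_of_le one_pos Γ.one_le
  refine le_trans ?_ h
  positivity

theorem lam_cont (Γ : Geom E) {ℓ : E →L[ℝ] ℝ} {c a b : ℝ} {x u y v : ℝ → E}
    (h1 : Ptc Γ ℓ c a b x u) (h2 : Ptc Γ ℓ c a b y v) :
    ContinuousOn (fun t => Γ.lam (x t) (u t) (y t) (v t)) (Set.Icc a b) := by
  unfold Geom.lam Geom.en
  have hGx : ContinuousOn (fun t => Γ.G (x t)) (Set.Icc a b) := by
    intro t ht
    exact (Γ.deriv _ (h1.mem t ht)).continuousAt.comp_continuousWithinAt (h1.xc t ht)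
  have hGy : ContinuousOn (fun t => Γ.G (y t)) (Set.Icc a b) := by
    intro t ht
    exact (Γ.deriv _ (h2.mem t ht)).continuousAt.comp_continuousWithinAt (h2.xc t ht)
  have c1 : ContinuousOn (fun t => Γ.G (x t) (u t) (v t)) (Set.Icc a b) :=
    (hGx.clm_apply h1.uc).clm_apply h2.uc
  have c2 : ContinuousOn (fun t => Γ.G (y t) (u t) (v t)) (Set.Icc a b) :=
    (hGy.clm_apply h1.uc).clm_apply h2.uc
  have c3 : ContinuousOn (fun t => ‖y t - x t‖ ^ 2) (Set.Icc a b) :=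
    ((h2.xc.sub h1.xc).norm).pow 2
  exact (continuousOn_const.sub (continuousOn_const.mul (c1.add c2))).add
    (continuousOn_const.mul c3)

/-- Gronwall in both directions -/
theorem gron {F : ℝ → ℝ} {a b C : ℝ} (hF : ContinuousOn F (Set.Icc a b))
    (hd : ∀ t ∈ Set.Ioo a b, ∃ D : ℝ, HasDerivAt F D t ∧ |D| ≤ C * F t) :
    ∀ s ∈ Set.Icc a b, ∀ t ∈ Set.Icc a b, F t ≤ Real.exp (C * |t - s|) * F s := by
  have hanti : AntitoneOn (fun t => F t * Real.exp (-(C * t))) (Set.Icc a b) := by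
    apply antitoneOn_of_deriv_nonpos (convex_Icc a b)
    · exact hF.mul (by fun_prop)
    · intro t ht
      rw [interior_Icc] at ht
      obtain ⟨D, hD, _⟩ := hd t ht
      have h2 : HasDerivAt (fun t => Real.exp (-(C * t))) (Real.exp (-(C * t)) * -(C * 1)) t :=
        (((hasDerivAt_id t).const_mul C).neg).exp
      exact (hD.mul h2).differentiableAt.differentiableWithinAt
    · intro t ht
      rw [interior_Icc] at ht
      obtain ⟨D, hD, hDl⟩ := hd t ht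
      have h2 : HasDerivAt (fun t => Real.exp (-(C * t))) (Real.exp (-(C * t)) * -(C * 1)) t :=
        (((hasDerivAt_id t).const_mul C).neg).exp
      have h3 := (hD.mul h2).deriv
      have h4 : deriv (fun t => F t * Real.exp (-(C * t))) t = (D - C * F t) * Real.exp (-(C * t)) := by
        refine Eq.trans h3 ?_
        ring
      rw [h4]
      apply mul_nonpos_of_nonpos_of_nonneg _ (Real.exp_pos _).le
      have := le_abs_self D
      linarith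
  have hmono : MonotoneOn (fun t => F t * Real.exp (C * t)) (Set.Icc a b) := by
    apply monotoneOn_of_deriv_nonneg (convex_Icc a b)
    · exact hF.mul (by fun_prop)
    · intro t ht
      rw [interior_Icc] at ht
      obtain ⟨D, hD, _⟩ := hd t ht
      have h2 : HasDerivAt (fun t => Real.exp (C * t)) (Real.exp (C * t) * (C * 1)) t :=
        ((hasDerivAt_id t).const_mul C).exp
      exact (hD.mul h2).differentiableAt.differentiableWithinAt
    · intro t ht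
      rw [interior_Icc] at ht
      obtain ⟨D, hD, hDl⟩ := hd t ht
      have h2 : HasDerivAt (fun t => Real.exp (C * t)) (Real.exp (C * t) * (C * 1)) t :=
        ((hasDerivAt_id t).const_mul C).exp
      have h3 := (hD.mul h2).deriv
      have h4 : deriv (fun t => F t * Real.exp (C * t)) t = (D + C * F t) * Real.exp (C * t) := by
        refine Eq.trans h3 ?_
        ring
      rw [h4]
      apply mul_nonneg _ (Real.exp_pos _).le
      have := neg_abs_le D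
      linarith
  intro s hs t ht
  rcases le_total s t with h | h
  · have h1 := hanti hs ht h
    simp only at h1
    rw [abs_of_nonneg (by linarith)]
    have h2 : F t = (F t * Real.exp (-(C * t))) * Real.exp (C * t) := by
      rw [mul_assoc, ← Real.exp_add]
      simp
    have h3 : Real.exp (C * (t - s)) * F s = (F s * Real.exp (-(C * s))) * Real.exp (C * t) := by
      rw [mul_assoc, ← Real.exp_add, mul_comm]
      congr 2
      ring
    rw [h2, h3]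
    exact mul_le_mul_of_nonneg_right h1 (Real.exp_pos _).le
  · have h1 := hmono ht hs h
    simp only at h1
    rw [abs_of_nonpos (by linarith)]
    have h2 : F t = (F t * Real.exp (C * t)) * Real.exp (-(C * t)) := by
      rw [mul_assoc, ← Real.exp_add]
      simp
    have h3 : Real.exp (C * -(t - s)) * F s = (F s * Real.exp (C * s)) * Real.exp (-(C * t)) := by
      rw [mul_assoc, ← Real.exp_add, mul_comm]
      congr 2
      ring
    rw [h2, h3]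
    exact mul_le_mul_of_nonneg_right h1 (Real.exp_pos _).le

/-- growth of the energy of two particles -/
theorem lam_growth (Γ : Geom E) (ℓ : E →L[ℝ] ℝ) {c : ℝ} (hc : 0 < c) :
    ∃ C : ℝ, 0 < C ∧ ∀ (a b : ℝ) (x u y v : ℝ → E), a ≤ b → Ptc Γ ℓ c a b x u →
      Ptc Γ ℓ c a b y v → ∀ s ∈ Set.Icc a b, ∀ t ∈ Set.Icc a b,
      Γ.lam (x t) (u t) (y t) (v t) ≤ Real.exp (C * |t - s|) * Γ.lam (x s) (u s) (y s) (v s) := by
  obtain ⟨C, hC, h⟩ := lam_deriv Γ ℓ hc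
  refine ⟨C, hC, ?_⟩
  intro a b x u y v _ h1 h2
  exact gron (lam_cont Γ h1 h2) (h a b x u y v h1 h2)

/-- mean value inequality -/
theorem mvi {z z' : ℝ → E} {a b M : ℝ} (hab : a ≤ b) (hz : ContinuousOn z (Set.Icc a b))
    (hd : ∀ t ∈ Set.Ioo a b, HasDerivAt z (z' t) t) (hM : ∀ t ∈ Set.Ioo a b, ‖z' t‖ ≤ M) :
    ‖z b - z a‖ ≤ M * (b - a) := by
  rcases hab.eq_or_lt with h | h
  · rw [h]
    simp
  · obtain ⟨e, he⟩ : ∃ e : E, e = z b - z a := ⟨_, rfl⟩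
    obtain ⟨ξ, hξ, hs⟩ := exists_hasDerivAt_eq_slope (fun t => (inner ℝ (z t) e : ℝ))
      (fun t => (inner ℝ (z' t) e : ℝ)) h (hz.inner continuousOn_const) (by
        intro t ht
        have := (hd t ht).inner ℝ (hasDerivAt_const t e)
        simpa using this)
    rw [← inner_sub_left, ← he, real_inner_self_eq_norm_sq] at hs
    have hba : 0 < b - a := by linarith
    have h1 : ‖e‖ ^ 2 ≤ (M * (b - a)) * ‖e‖ := by
      have h2 : ‖e‖ ^ 2 = inner ℝ (z' ξ) e * (b - a) := by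
        rw [hs]
        field_simp
      rw [h2]
      have h3 : inner ℝ (z' ξ) e ≤ M * ‖e‖ :=
        (real_inner_le_norm _ _).trans (mul_le_mul_of_nonneg_right (hM ξ hξ) (norm_nonneg _))
      calc inner ℝ (z' ξ) e * (b - a) ≤ M * ‖e‖ * (b - a) := mul_le_mul_of_nonneg_right h3 hba.le
        _ = _ := by ring
    rw [← he]
    rcases (norm_nonneg e).eq_or_lt with h4 | h4
    · rw [← h4]
      have h5 : 0 ≤ M := (norm_nonneg _).trans (hM ξ hξ)
      positivity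
    · rw [pow_two] at h1
      exact le_of_mul_le_mul_right h1 h4

theorem inv_diff (ℓ : E →L[ℝ] ℝ) {c : ℝ} (hc : 0 < c) {u v : E} (hu : c ≤ ℓ u) (hv : c ≤ ℓ v) :
    |(ℓ v)⁻¹ - (ℓ u)⁻¹| ≤ ‖ℓ‖ / c ^ 2 * ‖v - u‖ := by
  have hu0 : 0 < ℓ u := lt_of_lt_of_le hc hu
  have hv0 : 0 < ℓ v := lt_of_lt_of_le hc hv
  have e : (ℓ v)⁻¹ - (ℓ u)⁻¹ = (ℓ u - ℓ v) / (ℓ u * ℓ v) := by
    field_simp
  rw [e, abs_div, abs_of_pos (mul_pos hu0 hv0)]
  have h1 : |ℓ u - ℓ v| ≤ ‖ℓ‖ * ‖v - u‖ := by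
    rw [← map_sub, norm_sub_rev v u]
    exact ℓ.le_opNorm _
  have h2 : c ^ 2 ≤ ℓ u * ℓ v := by
    rw [pow_two]
    exact mul_le_mul hu hv hc.le hu0.le
  calc |ℓ u - ℓ v| / (ℓ u * ℓ v) ≤ (‖ℓ‖ * ‖v - u‖) / c ^ 2 := by
        apply div_le_div₀ (by positivity) h1 (by positivity) h2
    _ = _ := by ring

theorem inv_le (ℓ : E →L[ℝ] ℝ) {c : ℝ} (hc : 0 < c) {v : E} (hv : c ≤ ℓ v) :
    |(ℓ v)⁻¹| ≤ c⁻¹ := by
  have hv0 : 0 < ℓ v := lt_of_lt_of_le hc hv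
  rw [abs_of_pos (inv_pos.2 hv0)]
  exact inv_anti₀ hc hv

/-- both distances are bounded by the square root of the energy -/
theorem dist_le (Γ : Geom E) {x u y v : E} (hx : x ∈ Γ.B) (hy : y ∈ Γ.B)
    (hu : Γ.G x u u = 1) (hv : Γ.G y v v = 1) :
    ‖v - u‖ ≤ Real.sqrt (4 * Γ.K) * Real.sqrt (Γ.lam x u y v) ∧
      ‖y - x‖ ≤ Real.sqrt (4 * Γ.K) * Real.sqrt (Γ.lam x u y v) := by
  have h := Γ.lam_ge hx hy hu hv
  have hK : 0 < Γ.K := lt_of_lt_of_le one_pos Γ.one_le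
  have h2 : ‖v - u‖ ^ 2 + ‖y - x‖ ^ 2 ≤ 4 * Γ.K * Γ.lam x u y v := by
    rw [div_mul_eq_mul_div, div_le_iff₀ (by positivity)] at h
    linarith
  rw [← Real.sqrt_mul (by positivity)]
  constructor
  · apply Real.le_sqrt_of_sq_le
    have := sq_nonneg ‖y - x‖
    linarith
  · apply Real.le_sqrt_of_sq_le
    have := sq_nonneg ‖v - u‖
    linarith

/-- both distances on a short time interval -/
theorem dist_growth (Γ : Geom E) (ℓ : E →L[ℝ] ℝ) {c : ℝ} (hc : 0 < c) :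
    ∃ C : ℝ, 0 < C ∧ ∀ (a b : ℝ) (x u y v : ℝ → E), a ≤ b → b - a ≤ 1 → Ptc Γ ℓ c a b x u →
      Ptc Γ ℓ c a b y v → ∀ t ∈ Set.Icc a b,
        ‖v t - u t‖ ≤ C * Real.sqrt (Γ.lam (x a) (u a) (y a) (v a)) ∧
        ‖y t - x t‖ ≤ C * Real.sqrt (Γ.lam (x a) (u a) (y a) (v a)) := by
  obtain ⟨C, hC, h⟩ := lam_growth Γ ℓ hc
  have hK : 0 < Γ.K := lt_of_lt_of_le one_pos Γ.one_le
  refine ⟨Real.sqrt (4 * Γ.K) * Real.sqrt (Real.exp C), by positivity, ?_⟩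
  intro a b x u y v hab hb1 h1 h2 t ht
  have ha : a ∈ Set.Icc a b := ⟨le_refl _, hab⟩
  have h3 := h a b x u y v hab h1 h2 a ha t ht
  have hl0 := lam_nonneg Γ (h1.mem a ha) (h2.mem a ha) (h1.unit a ha) (h2.unit a ha)
  have h4 : Γ.lam (x t) (u t) (y t) (v t) ≤ Real.exp C * Γ.lam (x a) (u a) (y a) (v a) := by
    refine h3.trans (mul_le_mul_of_nonneg_right ?_ hl0)
    apply Real.exp_le_exp.2
    have h5 : |t - a| ≤ 1 := by
      rw [abs_of_nonneg (by linarith [ht.1])]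
      linarith [ht.2]
    calc C * |t - a| ≤ C * 1 := mul_le_mul_of_nonneg_left h5 hC.le
      _ = C := mul_one C
  have h5 : Real.sqrt (Γ.lam (x t) (u t) (y t) (v t)) ≤
      Real.sqrt (Real.exp C) * Real.sqrt (Γ.lam (x a) (u a) (y a) (v a)) := by
    rw [← Real.sqrt_mul (Real.exp_pos C).le]
    exact Real.sqrt_le_sqrt h4
  obtain ⟨h6, h7⟩ := dist_le Γ (h1.mem t ht) (h2.mem t ht) (h1.unit t ht) (h2.unit t ht)
  have h8 := mul_le_mul_of_nonneg_left h5 (Real.sqrt_nonneg (4 * Γ.K))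
  rw [← mul_assoc] at h8
  exact ⟨h6.trans h8, h7.trans h8⟩

/-- motion of the relative position -/
theorem pos_move (Γ : Geom E) (ℓ : E →L[ℝ] ℝ) {c : ℝ} (hc : 0 < c) :
    ∃ C : ℝ, 0 < C ∧ ∀ (a b : ℝ) (x u y v : ℝ → E), a ≤ b → b - a ≤ 1 → Ptc Γ ℓ c a b x u →
      Ptc Γ ℓ c a b y v → ‖(y b - x b) - (y a - x a)‖ ≤
        C * (b - a) * Real.sqrt (Γ.lam (x a) (u a) (y a) (v a)) := by
  obtain ⟨C, hC, h⟩ := dist_growth Γ ℓ hc
  have hK : 0 < Γ.K := lt_of_lt_of_le one_pos Γ.one_le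
  refine ⟨(c⁻¹ + ‖ℓ‖ / c ^ 2 * Γ.K) * C, by positivity, ?_⟩
  intro a b x u y v hab hb1 h1 h2
  have hm := mvi (z := fun t => y t - x t)
    (z' := fun t => (ℓ (v t))⁻¹ • v t - (ℓ (u t))⁻¹ • u t)
    (M := (c⁻¹ + ‖ℓ‖ / c ^ 2 * Γ.K) * C * Real.sqrt (Γ.lam (x a) (u a) (y a) (v a))) hab
    (h2.xc.sub h1.xc) (fun t ht => (h2.xd t ht).sub (h1.xd t ht)) (by
      intro t ht
      have ht' : t ∈ Set.Icc a b := ⟨ht.1.le, ht.2.le⟩
      obtain ⟨h3, h4⟩ := h a b x u y v hab hb1 h1 h2 t ht'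
      have hun := Γ.norm_le (h1.mem t ht') (h1.unit t ht')
      have e : (ℓ (v t))⁻¹ • v t - (ℓ (u t))⁻¹ • u t =
          (ℓ (v t))⁻¹ • (v t - u t) + ((ℓ (v t))⁻¹ - (ℓ (u t))⁻¹) • u t := by
        rw [smul_sub, sub_smul]
        abel
      rw [e]
      have h5 : ‖(ℓ (v t))⁻¹ • (v t - u t)‖ ≤ c⁻¹ * ‖v t - u t‖ := by
        rw [norm_smul, Real.norm_eq_abs]
        exact mul_le_mul_of_nonneg_right (inv_le ℓ hc (h2.up t ht')) (norm_nonneg _)
      have h6 : ‖((ℓ (v t))⁻¹ - (ℓ (u t))⁻¹) • u t‖ ≤ ‖ℓ‖ / c ^ 2 * ‖v t - u t‖ * Γ.K := by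
        rw [norm_smul, Real.norm_eq_abs]
        exact mul_le_mul (inv_diff ℓ hc (h1.up t ht') (h2.up t ht')) hun (norm_nonneg _)
          (by positivity)
      refine (norm_add_le _ _).trans ((add_le_add h5 h6).trans ?_)
      calc c⁻¹ * ‖v t - u t‖ + ‖ℓ‖ / c ^ 2 * ‖v t - u t‖ * Γ.K =
          (c⁻¹ + ‖ℓ‖ / c ^ 2 * Γ.K) * ‖v t - u t‖ := by ring
        _ ≤ (c⁻¹ + ‖ℓ‖ / c ^ 2 * Γ.K) * (C * Real.sqrt (Γ.lam (x a) (u a) (y a) (v a))) :=
            mul_le_mul_of_nonneg_left h3 (by positivity)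
        _ = _ := by ring)
  refine hm.trans (le_of_eq ?_)
  ring

/-- motion of the relative velocity -/
theorem vel_move (Γ : Geom E) (ℓ : E →L[ℝ] ℝ) {c : ℝ} (hc : 0 < c) :
    ∃ C : ℝ, 0 < C ∧ ∀ (a b : ℝ) (x u y v : ℝ → E), a ≤ b → b - a ≤ 1 → Ptc Γ ℓ c a b x u →
      Ptc Γ ℓ c a b y v → ‖(v b - u b) - (v a - u a)‖ ≤
        C * (b - a) * Real.sqrt (Γ.lam (x a) (u a) (y a) (v a)) := by
  obtain ⟨C, hC, h⟩ := dist_growth Γ ℓ hc
  have hK : 0 < Γ.K := lt_of_lt_of_le one_pos Γ.one_le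
  refine ⟨(c⁻¹ * Γ.K * 2 + ‖ℓ‖ / c ^ 2 * Γ.K) * C, by positivity, ?_⟩
  intro a b x u y v hab hb1 h1 h2
  have hm := mvi (z := fun t => v t - u t)
    (z' := fun t => (ℓ (v t))⁻¹ • Γ.A (y t) (v t) - (ℓ (u t))⁻¹ • Γ.A (x t) (u t))
    (M := (c⁻¹ * Γ.K * 2 + ‖ℓ‖ / c ^ 2 * Γ.K) * C * Real.sqrt (Γ.lam (x a) (u a) (y a) (v a))) hab
    (h2.uc.sub h1.uc) (fun t ht => (h2.ud t ht).sub (h1.ud t ht)) (by
      intro t ht
      have ht' : t ∈ Set.Icc a b := ⟨ht.1.le, ht.2.le⟩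
      obtain ⟨h3, h4⟩ := h a b x u y v hab hb1 h1 h2 t ht'
      have hun := Γ.norm_le (h1.mem t ht') (h1.unit t ht')
      have hvn := Γ.norm_le (h2.mem t ht') (h2.unit t ht')
      have hA := Γ.A_le (x t) (h1.mem t ht') (u t) hun
      have hAl := Γ.A_lip (y t) (h2.mem t ht') (x t) (h1.mem t ht') (v t) (u t) hvn hun
      have e : (ℓ (v t))⁻¹ • Γ.A (y t) (v t) - (ℓ (u t))⁻¹ • Γ.A (x t) (u t) =
          (ℓ (v t))⁻¹ • (Γ.A (y t) (v t) - Γ.A (x t) (u t)) +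
            ((ℓ (v t))⁻¹ - (ℓ (u t))⁻¹) • Γ.A (x t) (u t) := by
        rw [smul_sub, sub_smul]
        abel
      rw [e]
      have h5 : ‖(ℓ (v t))⁻¹ • (Γ.A (y t) (v t) - Γ.A (x t) (u t))‖ ≤
          c⁻¹ * (Γ.K * (‖y t - x t‖ + ‖v t - u t‖)) := by
        rw [norm_smul, Real.norm_eq_abs]
        exact mul_le_mul (inv_le ℓ hc (h2.up t ht')) hAl (norm_nonneg _) (by positivity)
      have h6 : ‖((ℓ (v t))⁻¹ - (ℓ (u t))⁻¹) • Γ.A (x t) (u t)‖ ≤ ‖ℓ‖ / c ^ 2 * ‖v t - u t‖ * Γ.K := by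
        rw [norm_smul, Real.norm_eq_abs]
        exact mul_le_mul (inv_diff ℓ hc (h1.up t ht') (h2.up t ht')) hA (norm_nonneg _)
          (by positivity)
      refine (norm_add_le _ _).trans ((add_le_add h5 h6).trans ?_)
      obtain ⟨S, hS⟩ : ∃ S : ℝ, S = C * Real.sqrt (Γ.lam (x a) (u a) (y a) (v a)) := ⟨_, rfl⟩
      rw [← hS] at h3 h4
      calc c⁻¹ * (Γ.K * (‖y t - x t‖ + ‖v t - u t‖)) + ‖ℓ‖ / c ^ 2 * ‖v t - u t‖ * Γ.K
          ≤ c⁻¹ * (Γ.K * (S + S)) + ‖ℓ‖ / c ^ 2 * S * Γ.K := by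
            gcongr
        _ = (c⁻¹ * Γ.K * 2 + ‖ℓ‖ / c ^ 2 * Γ.K) * S := by ring
        _ = _ := by rw [hS]; ring)
  refine hm.trans (le_of_eq ?_)
  ring

end Pool.Agent.GNet
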