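import Mathlib
import Pool.Agent.Helper971.BK.DGeom
import Pool.Agent.Helper971.BK.G1

set_option autoImplicit false

open Finset Classical

namespace Pool.Agent.GNet

variable {E : Type*} [NormedAddCommGroup E] [InnerProductSpace ℝ E]

theorem wv_le (Γ : Geom E) (ℓ : E →L[ℝ] ℝ) :
    ∃ C : ℝ, 0 < C ∧ ∀ x u y v : E, x ∈ Γ.B → y ∈ Γ.B → Γ.G x u u = 1 → Γ.G y v v = 1 →
      ‖wv ℓ u v‖ ≤ C * Real.sqrt (Γ.lam x u y v) := by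
  have hK1 := Γ.one_le
  have hK : (0 : ℝ) < Γ.K := by linarith
  refine ⟨2 * ‖ℓ‖ * Γ.K * Real.sqrt (4 * Γ.K) + 1, by positivity, ?_⟩
  intro x u y v hx hy hu hv
  have hun := Γ.norm_le hx hu
  have hlam := Γ.lam_ge hx hy hu hv
  obtain ⟨d, hd⟩ : ∃ d, d = v - u := ⟨_, rfl⟩
  have hv' : v = u + d := by rw [hd]; abel
  have hw : wv ℓ u v = ℓ u • d - ℓ d • u := by
    rw [hv', wv, map_add, smul_add, add_smul]; abel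
  have h1 : ‖wv ℓ u v‖ ≤ 2 * ‖ℓ‖ * Γ.K * ‖d‖ := by
    rw [hw]
    calc ‖ℓ u • d - ℓ d • u‖ ≤ ‖ℓ u • d‖ + ‖ℓ d • u‖ := norm_sub_le _ _
      _ = ‖ℓ u‖ * ‖d‖ + ‖ℓ d‖ * ‖u‖ := by rw [norm_smul, norm_smul]
      _ ≤ (‖ℓ‖ * ‖u‖) * ‖d‖ + (‖ℓ‖ * ‖d‖) * ‖u‖ := by
        gcongr <;> exact ℓ.le_opNorm _
      _ = 2 * ‖ℓ‖ * ‖u‖ * ‖d‖ := by ring
      _ ≤ _ := by gcongr
  have h2 : ‖d‖ ^ 2 ≤ 4 * Γ.K * Γ.lam x u y v := by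
    rw [← hd] at hlam
    have h3 : ‖d‖ ^ 2 + ‖y - x‖ ^ 2 ≤ 4 * Γ.K * Γ.lam x u y v := by
      rw [one_div, inv_mul_le_iff₀ (by positivity)] at hlam
      exact hlam
    nlinarith [sq_nonneg ‖y - x‖]
  have h4 : ‖d‖ ≤ Real.sqrt (4 * Γ.K) * Real.sqrt (Γ.lam x u y v) := by
    rw [← Real.sqrt_mul (by positivity)]
    exact Real.le_sqrt_of_sq_le h2
  have h5 := Real.sqrt_nonneg (Γ.lam x u y v)
  calc ‖wv ℓ u v‖ ≤ 2 * ‖ℓ‖ * Γ.K * ‖d‖ := h1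
    _ ≤ 2 * ‖ℓ‖ * Γ.K * (Real.sqrt (4 * Γ.K) * Real.sqrt (Γ.lam x u y v)) := by gcongr
    _ ≤ _ := by nlinarith

/-- two different directions at the same point have different slopes -/
theorem wv_ge (Γ : Geom E) (ℓ : E →L[ℝ] ℝ) {c : ℝ} (hc : 0 < c) :
    ∃ C : ℝ, 0 < C ∧ ∀ x u v : E, x ∈ Γ.B → Γ.G x u u = 1 → Γ.G x v v = 1 → c ≤ ℓ u → c ≤ ℓ v →
      ‖v - u‖ ≤ C * ‖wv ℓ u v‖ := by
  have hK1 := Γ.one_le
  have hK : (0 : ℝ) < Γ.K := by linarith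
  obtain ⟨R, hR⟩ : ∃ R : ℝ, R = ‖ℓ‖ * Γ.K / c := ⟨_, rfl⟩
  have hR0 : 0 ≤ R := by rw [hR]; positivity
  obtain ⟨S, hS⟩ : ∃ S : ℝ, S = 2 * R * Γ.K * Γ.K + Γ.K * (Γ.K + R * Γ.K) := ⟨_, rfl⟩
  have hS0 : 0 ≤ S := by rw [hS]; positivity
  refine ⟨(S * Γ.K + 1) / c, by positivity, ?_⟩
  intro x u v hx hu hv hcu hcv
  have hun := Γ.norm_le hx hu
  have hvn := Γ.norm_le hx hv
  have hu0 : 0 < ℓ u := by linarith
  have hv0 : 0 < ℓ v := by linarith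
  obtain ⟨r, hr⟩ : ∃ r : ℝ, r = ℓ v / ℓ u := ⟨_, rfl⟩
  have hr0 : 0 < r := by rw [hr]; positivity
  have hrR : r ≤ R := by
    rw [hr, hR]
    have h1 : ℓ v ≤ ‖ℓ‖ * Γ.K := by
      calc ℓ v ≤ ‖ℓ v‖ := Real.le_norm_self _
        _ ≤ ‖ℓ‖ * ‖v‖ := ℓ.le_opNorm _
        _ ≤ _ := by gcongr
    calc ℓ v / ℓ u ≤ (‖ℓ‖ * Γ.K) / ℓ u := by gcongr
      _ ≤ _ := by gcongr
  obtain ⟨w, hw⟩ : ∃ w : E, w = v - r • u := ⟨_, rfl⟩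
  have hww : wv ℓ u v = ℓ u • w := by
    rw [hw, wv, smul_sub, smul_smul, hr, mul_div_cancel₀ _ hu0.ne']
  have hv' : v = r • u + w := by rw [hw]; abel
  have hwn : c * ‖w‖ ≤ ‖wv ℓ u v‖ := by
    rw [hww, norm_smul, Real.norm_of_nonneg hu0.le]
    gcongr
  have hwW : ‖w‖ ≤ Γ.K + R * Γ.K := by
    rw [hw]
    calc ‖v - r • u‖ ≤ ‖v‖ + ‖r • u‖ := norm_sub_le _ _
      _ = ‖v‖ + r * ‖u‖ := by rw [norm_smul, Real.norm_of_nonneg hr0.le]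
      _ ≤ _ := by gcongr
  have hexp : 1 = r ^ 2 + 2 * r * Γ.G x u w + Γ.G x w w := by
    have h1 := hv
    rw [hv'] at h1
    simp only [map_add, map_smul, add_apply, smul_apply,
      smul_eq_mul] at h1
    rw [hu, Γ.symm x hx w u] at h1
    linarith
  have h2 : |Γ.G x u w| ≤ Γ.K * Γ.K * ‖w‖ := (Γ.upper x hx u w).trans (by gcongr)
  have h3 : |Γ.G x w w| ≤ Γ.K * (Γ.K + R * Γ.K) * ‖w‖ :=
    (Γ.upper x hx w w).trans (by gcongr)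
  have h4 : |1 - r| ≤ S * ‖w‖ := by
    have h5 : (1 - r) * (1 + r) = 2 * r * Γ.G x u w + Γ.G x w w := by linarith
    have h6 : |1 - r| ≤ |(1 - r) * (1 + r)| := by
      rw [abs_mul, abs_of_pos (by linarith : (0 : ℝ) < 1 + r)]
      nlinarith [abs_nonneg (1 - r)]
    calc |1 - r| ≤ |(1 - r) * (1 + r)| := h6
      _ = |2 * r * Γ.G x u w + Γ.G x w w| := by rw [h5]
      _ ≤ |2 * r * Γ.G x u w| + |Γ.G x w w| := abs_add_le _ _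
      _ = 2 * r * |Γ.G x u w| + |Γ.G x w w| := by
        rw [abs_mul, abs_of_pos (by positivity : (0 : ℝ) < 2 * r)]
      _ ≤ 2 * R * (Γ.K * Γ.K * ‖w‖) + Γ.K * (Γ.K + R * Γ.K) * ‖w‖ := by gcongr
      _ = S * ‖w‖ := by rw [hS]; ring
  have h7 : ‖v - u‖ ≤ (S * Γ.K + 1) * ‖w‖ := by
    have h8 : v - u = w - (1 - r) • u := by rw [hw, sub_smul, one_smul]; abel
    rw [h8]
    calc ‖w - (1 - r) • u‖ ≤ ‖w‖ + ‖(1 - r) • u‖ := norm_sub_le _ _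
      _ = ‖w‖ + |1 - r| * ‖u‖ := by rw [norm_smul, Real.norm_eq_abs]
      _ ≤ ‖w‖ + (S * ‖w‖) * Γ.K := by gcongr
      _ = _ := by ring
  calc ‖v - u‖ ≤ (S * Γ.K + 1) * ‖w‖ := h7
    _ = (S * Γ.K + 1) / c * (c * ‖w‖) := by field_simp
    _ ≤ _ := by gcongr

end Pool.Agent.GNet
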