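import Mathlib
import Pool.Agent.Helper971.BK.DGeom
import Pool.Agent.Helper971.BK.G1
import Pool.Agent.Helper971.BK.G3
import Pool.Agent.Helper971.BK.G4

set_option autoImplicit false

open Finset Classical

namespace Pool.Agent.GNet

variable {E : Type*} [NormedAddCommGroup E] [InnerProductSpace ℝ E]

open Filter Topology Set

theorem g5_deriv {z w : ℝ → E} {z' w' : E} {t : ℝ} (hz : HasDerivAt z z' t)
    (hw : HasDerivAt w w' t) (h0 : z t ≠ 0) :
    HasDerivAt (fun s => (inner ℝ (z s) (w s) : ℝ) / ‖z s‖)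
      ((((inner ℝ (z t) w' : ℝ) + inner ℝ z' (w t)) * ‖z t‖ -
        inner ℝ (z t) (w t) * (2 * inner ℝ (z t) z' / (2 * ‖z t‖))) / ‖z t‖ ^ 2) t := by
  have hn : ‖z t‖ ≠ 0 := norm_ne_zero_iff.2 h0
  have h1 : HasDerivAt (fun s => ‖z s‖) (2 * inner ℝ (z t) z' / (2 * ‖z t‖)) t := by
    have h2 := (hz.norm_sq).sqrt (by positivity)
    simpa only [Real.sqrt_sq (norm_nonneg _)] using h2
  exact (hz.inner ℝ hw).div h1 hn

theorem g5_lower {z w : E} {w' : E} {m : ℝ} (hm : 0 ≤ m) (h0 : z ≠ 0) :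
    - ‖w'‖ ≤ (((inner ℝ z w' : ℝ) + inner ℝ (m • w) w) * ‖z‖ -
        inner ℝ z w * (2 * inner ℝ z (m • w) / (2 * ‖z‖))) / ‖z‖ ^ 2 := by
  have hn : 0 < ‖z‖ := norm_pos_iff.2 h0
  rw [le_div_iff₀ (by positivity), inner_smul_left, inner_smul_right, real_inner_self_eq_norm_sq]
  simp only [conj_trivial]
  have e : (2 * (m * (inner ℝ z w : ℝ)) / (2 * ‖z‖)) = m * inner ℝ z w / ‖z‖ := by
    field_simp
  rw [e]
  have h1 : (inner ℝ z w : ℝ) ^ 2 ≤ ‖z‖ ^ 2 * ‖w‖ ^ 2 := by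
    have := abs_real_inner_le_norm z w
    rw [← mul_pow, ← sq_abs]
    exact pow_le_pow_left₀ (abs_nonneg _) this 2
  have h2 : - (‖z‖ * ‖w'‖) ≤ (inner ℝ z w' : ℝ) := (abs_le.1 (abs_real_inner_le_norm z w')).1
  have h3 : (inner ℝ z w : ℝ) * (m * inner ℝ z w / ‖z‖) ≤ m * ‖w‖ ^ 2 * ‖z‖ := by
    rw [mul_div_assoc', div_le_iff₀ hn]
    nlinarith [mul_le_mul_of_nonneg_left h1 hm]
  nlinarith [mul_le_mul_of_nonneg_right h2 hn.le]

theorem g5_abs (z w : E) : |(inner ℝ z w : ℝ) / ‖z‖| ≤ ‖w‖ := by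
  by_cases h : z = 0
  · simp [h]
  have hn : 0 < ‖z‖ := norm_pos_iff.2 h
  rw [abs_div, abs_norm, div_le_iff₀ hn]
  have := abs_real_inner_le_norm z w
  linarith [mul_comm ‖z‖ ‖w‖]

theorem g5_limA {z w : ℝ → E} {m : ℝ → ℝ} {a b : ℝ} (hab : a < b)
    (hz : ContinuousWithinAt z (Icc a b) a) (hw : ContinuousWithinAt w (Icc a b) a)
    (hm : ContinuousWithinAt m (Icc a b) a) (hma : 0 < m a)
    (hd : ∀ t ∈ Ioo a b, HasDerivAt z (m t • w t) t) (h0 : z a = 0) :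
    Tendsto (fun s => (inner ℝ (z s) (w s) : ℝ) / ‖z s‖) (𝓝[>] a) (𝓝 ‖w a‖) := by
  have hIoo : Ioo a b ∈ 𝓝[>] a := Ioo_mem_nhdsGT hab
  have hle : 𝓝[>] a ≤ 𝓝[Icc a b] a := by
    refine nhdsWithin_le_of_mem ?_
    exact mem_of_superset hIoo Ioo_subset_Icc_self
  have hw' : Tendsto w (𝓝[>] a) (𝓝 (w a)) := hw.mono_left hle
  have hm' : Tendsto m (𝓝[>] a) (𝓝 (m a)) := hm.mono_left hle
  by_cases hwa : w a = 0
  · rw [hwa, norm_zero]
    have h1 : Tendsto (fun s => ‖w s‖) (𝓝[>] a) (𝓝 0) := by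
      have := hw'.norm
      rwa [hwa, norm_zero] at this
    refine squeeze_zero_norm (fun s => ?_) h1
    rw [Real.norm_eq_abs]
    exact g5_abs _ _
  · have hL : HasDerivWithinAt z (m a • w a) (Ici a) a := by
      refine hasDerivWithinAt_Ici_of_tendsto_deriv (s := Ioo a b) ?_ ?_ hIoo ?_
      · intro t ht
        exact (hd t ht).differentiableAt.differentiableWithinAt
      · exact hz.mono Ioo_subset_Icc_self
      · have h2 : Tendsto (fun t => m t • w t) (𝓝[>] a) (𝓝 (m a • w a)) := hm'.smul hw'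
        refine h2.congr' ?_
        filter_upwards [hIoo] with t ht
        exact (hd t ht).deriv.symm
    have hs : Tendsto (fun t => (t - a)⁻¹ • z t) (𝓝[>] a) (𝓝 (m a • w a)) := by
      have h3 := hasDerivWithinAt_iff_tendsto_slope.1 hL
      have e : Ici a \ {a} = Ioi a := by
        ext t
        constructor
        · rintro ⟨h, h'⟩
          have h1 : a ≤ t := h
          have h2 : t ≠ a := fun h3 => h' (by rw [h3]; exact rfl)
          exact lt_of_le_of_ne h1 (Ne.symm h2)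
        · intro h
          have h1 : a < t := h
          exact ⟨h1.le, fun h3 => h1.ne' h3⟩
      rw [e] at h3
      refine h3.congr fun t => ?_
      simp [slope, h0]
    have hne : m a • w a ≠ 0 := smul_ne_zero hma.ne' hwa
    have h4 : Tendsto (fun t => (inner ℝ ((t - a)⁻¹ • z t) (w t) : ℝ) / ‖(t - a)⁻¹ • z t‖)
        (𝓝[>] a) (𝓝 ((inner ℝ (m a • w a) (w a) : ℝ) / ‖m a • w a‖)) :=
      (hs.inner hw').div hs.norm (norm_ne_zero_iff.2 hne)
    have e : (inner ℝ (m a • w a) (w a) : ℝ) / ‖m a • w a‖ = ‖w a‖ := by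
      rw [inner_smul_left, real_inner_self_eq_norm_sq, norm_smul, Real.norm_eq_abs,
        abs_of_pos hma]
      have : ‖w a‖ ≠ 0 := norm_ne_zero_iff.2 hwa
      simp only [conj_trivial]
      field_simp
    rw [e] at h4
    refine h4.congr' ?_
    filter_upwards [hIoo] with t ht
    have hta : 0 < (t - a)⁻¹ := inv_pos.2 (sub_pos.2 ht.1)
    rw [inner_smul_left, norm_smul, Real.norm_eq_abs, abs_of_pos hta]
    simp only [conj_trivial]
    rw [mul_div_mul_left _ _ hta.ne']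

theorem g5_limB {z w : ℝ → E} {m : ℝ → ℝ} {a b : ℝ} (hab : a < b)
    (hz : ContinuousWithinAt z (Icc a b) b) (hw : ContinuousWithinAt w (Icc a b) b)
    (hm : ContinuousWithinAt m (Icc a b) b) (hmb : 0 < m b)
    (hd : ∀ t ∈ Ioo a b, HasDerivAt z (m t • w t) t) (h0 : z b = 0) :
    Tendsto (fun s => (inner ℝ (z s) (w s) : ℝ) / ‖z s‖) (𝓝[<] b) (𝓝 (-‖w b‖)) := by
  have hneg : ContinuousWithinAt (fun t : ℝ => -t) (Icc (-b) (-a)) (-b) :=
    continuous_neg.continuousWithinAt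
  have hmaps : MapsTo (fun t : ℝ => -t) (Icc (-b) (-a)) (Icc a b) := by
    intro t ht
    exact ⟨by linarith [ht.2], by linarith [ht.1]⟩
  have key := g5_limA (z := fun t => z (-t)) (w := fun t => - w (-t)) (m := fun t => m (-t))
    (a := -b) (b := -a) (by linarith)
    (ContinuousWithinAt.comp (g := z) (by simpa using hz) hneg hmaps)
    (ContinuousWithinAt.comp (g := w) (by simpa using hw) hneg hmaps).neg
    (ContinuousWithinAt.comp (g := m) (by simpa using hm) hneg hmaps)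
    (by simpa using hmb) ?_ (by simpa using h0)
  · have h1 : Tendsto (fun t : ℝ => -t) (𝓝[<] b) (𝓝[>] (-b)) := tendsto_neg_nhdsLT
    have h2 := (key.comp h1).neg
    simp only [neg_neg, norm_neg] at h2
    refine h2.congr fun t => ?_
    simp only [Function.comp, neg_neg, inner_neg_right]
    ring
  · intro t ht
    have h3 := hd (-t) ⟨by linarith [ht.2], by linarith [ht.1]⟩
    have h4 := HasDerivAt.scomp t h3 (hasDerivAt_neg t)
    have h5 : HasDerivAt (fun t => z (-t)) ((-1 : ℝ) • (m (-t) • w (-t))) t := h4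
    refine h5.congr_deriv ?_
    simp

/-- bound for the derivative of the relative velocity -/
theorem g5_wd (Γ : Geom E) (ℓ : E →L[ℝ] ℝ) {c : ℝ} (hc : 0 < c) {C1 : ℝ}
    (hC1 : C1 = ‖ℓ‖ * (Γ.K / c) * 1 + (2 * ‖ℓ‖ * Γ.K) * (‖ℓ‖ / c ^ 2 * Γ.K + 1 / c * Γ.K) +
      ‖ℓ‖ * (Γ.K / c)) {a b : ℝ} {x u y v : ℝ → E} (hx : Ptc Γ ℓ c a b x u)
    (hy : Ptc Γ ℓ c a b y v) {t : ℝ} (ht : t ∈ Ioo a b) :
    ∃ w' : E, HasDerivAt (fun t => wv ℓ (u t) (v t)) w' t ∧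
      ‖w'‖ ≤ C1 * (‖x t - y t‖ + ‖u t - v t‖) := by
  have hK := Γ.one_le
  have hK0 : 0 < Γ.K := by linarith
  set N : ℝ := ‖ℓ‖ with hN
  have hN0 : 0 ≤ N := norm_nonneg _
  have hC10 : 0 ≤ C1 := by rw [hC1]; positivity
  have hup : ∀ t ∈ Icc a b, 0 < ℓ (u t) := fun t ht => lt_of_lt_of_le hc (hx.up t ht)
  have hvp : ∀ t ∈ Icc a b, 0 < ℓ (v t) := fun t ht => lt_of_lt_of_le hc (hy.up t ht)
  have hnu : ∀ t ∈ Icc a b, ‖u t‖ ≤ Γ.K := fun t ht => Γ.norm_le (hx.mem t ht) (hx.unit t ht)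
  have hnv : ∀ t ∈ Icc a b, ‖v t‖ ≤ Γ.K := fun t ht => Γ.norm_le (hy.mem t ht) (hy.unit t ht)
  have ht' := Ioo_subset_Icc_self ht
  set u' : E := (ℓ (u t))⁻¹ • Γ.A (x t) (u t) with hu'
  set v' : E := (ℓ (v t))⁻¹ • Γ.A (y t) (v t) with hv'
  have hud := hx.ud t ht
  have hvd := hy.ud t ht
  have hlu : HasDerivAt (fun t => ℓ (u t)) (ℓ u') t := ℓ.hasFDerivAt.comp_hasDerivAt t hud
  have hlv : HasDerivAt (fun t => ℓ (v t)) (ℓ v') t := ℓ.hasFDerivAt.comp_hasDerivAt t hvd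
  refine ⟨(ℓ (u t) • v' + ℓ u' • v t) - (ℓ (v t) • u' + ℓ v' • u t),
    (hlu.smul hvd).sub (hlv.smul hud), ?_⟩
  have hlpos := hup t ht'
  have hlpos' := hvp t ht'
  have hic : (ℓ (u t))⁻¹ ≤ 1 / c := by
    rw [one_div]; exact inv_anti₀ hc (hx.up t ht')
  have hic' : (ℓ (v t))⁻¹ ≤ 1 / c := by
    rw [one_div]; exact inv_anti₀ hc (hy.up t ht')
  have hAu : ‖Γ.A (x t) (u t)‖ ≤ Γ.K := Γ.A_le _ (hx.mem t ht') _ (hnu t ht')
  have hAv : ‖Γ.A (y t) (v t)‖ ≤ Γ.K := Γ.A_le _ (hy.mem t ht') _ (hnv t ht')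
  have hAl := Γ.A_lip _ (hx.mem t ht') _ (hy.mem t ht') _ _ (hnu t ht') (hnv t ht')
  set D : ℝ := ‖x t - y t‖ + ‖u t - v t‖ with hD
  have hD0 : 0 ≤ D := by positivity
  have huvD : ‖u t - v t‖ ≤ D := by
    have := norm_nonneg (x t - y t)
    linarith
  have hnu' : ‖u'‖ ≤ Γ.K / c := by
    rw [hu', norm_smul, Real.norm_eq_abs, abs_of_pos (inv_pos.2 hlpos)]
    calc _ ≤ 1 / c * Γ.K := mul_le_mul hic hAu (norm_nonneg _) (by positivity)
      _ = Γ.K / c := by ring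
  have hll : ‖ℓ (u t) - ℓ (v t)‖ ≤ N * D := by
    rw [← map_sub]
    exact (ℓ.le_opNorm _).trans (mul_le_mul_of_nonneg_left huvD hN0)
  have hd' : ‖v' - u'‖ ≤ (N / c ^ 2 * Γ.K + 1 / c * Γ.K) * D := by
    have e : v' - u' = ((ℓ (v t))⁻¹ - (ℓ (u t))⁻¹) • Γ.A (y t) (v t) -
        (ℓ (u t))⁻¹ • (Γ.A (x t) (u t) - Γ.A (y t) (v t)) := by
      rw [hu', hv', sub_smul, smul_sub]; abel
    have e2 : (ℓ (v t))⁻¹ - (ℓ (u t))⁻¹ =
        (ℓ (v t))⁻¹ * (ℓ (u t))⁻¹ * (ℓ (u t) - ℓ (v t)) := by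
      field_simp
    have h1 : ‖(ℓ (v t))⁻¹ - (ℓ (u t))⁻¹‖ ≤ N / c ^ 2 * D := by
      rw [e2, norm_mul, norm_mul, Real.norm_eq_abs, Real.norm_eq_abs,
        abs_of_pos (inv_pos.2 hlpos), abs_of_pos (inv_pos.2 hlpos')]
      calc (ℓ (v t))⁻¹ * (ℓ (u t))⁻¹ * ‖ℓ (u t) - ℓ (v t)‖
          ≤ (1 / c * (1 / c)) * (N * D) := by
            refine mul_le_mul (mul_le_mul hic' hic (inv_pos.2 hlpos).le (by positivity)) hll
              (norm_nonneg _) (by positivity)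
        _ = N / c ^ 2 * D := by ring
    rw [e]
    refine (norm_sub_le _ _).trans ?_
    rw [norm_smul, norm_smul]
    have h2 : ‖(ℓ (v t))⁻¹ - (ℓ (u t))⁻¹‖ * ‖Γ.A (y t) (v t)‖ ≤ N / c ^ 2 * D * Γ.K :=
      mul_le_mul h1 hAv (norm_nonneg _) (by positivity)
    have h3 : ‖(ℓ (u t))⁻¹‖ * ‖Γ.A (x t) (u t) - Γ.A (y t) (v t)‖ ≤ 1 / c * (Γ.K * D) := by
      refine mul_le_mul ?_ hAl (norm_nonneg _) (by positivity)
      rw [Real.norm_eq_abs, abs_of_pos (inv_pos.2 hlpos)]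
      exact hic
    calc _ ≤ N / c ^ 2 * D * Γ.K + 1 / c * (Γ.K * D) := add_le_add h2 h3
      _ = _ := by ring
  show ‖(ℓ (u t) • v' + ℓ u' • v t) - (ℓ (v t) • u' + ℓ v' • u t)‖ ≤ C1 * D
  have e : (ℓ (u t) • v' + ℓ u' • v t) - (ℓ (v t) • u' + ℓ v' • u t) =
      ℓ u' • (v t - u t) - ℓ (v' - u') • u t + ℓ (u t) • (v' - u') +
        (ℓ (u t) - ℓ (v t)) • u' := by
    rw [map_sub, sub_smul, sub_smul, smul_sub, smul_sub]; abel
  rw [e]
  have h1 : ‖ℓ u' • (v t - u t)‖ ≤ N * (Γ.K / c) * D := by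
    rw [norm_smul]
    refine mul_le_mul ?_ ?_ (norm_nonneg _) (by positivity)
    · exact (ℓ.le_opNorm _).trans (mul_le_mul_of_nonneg_left hnu' hN0)
    · rw [norm_sub_rev]; exact huvD
  have h2 : ‖ℓ (v' - u') • u t‖ ≤
      (N * ((N / c ^ 2 * Γ.K + 1 / c * Γ.K) * D)) * Γ.K := by
    rw [norm_smul]
    refine mul_le_mul ?_ (hnu t ht') (norm_nonneg _) (by positivity)
    exact (ℓ.le_opNorm _).trans (mul_le_mul_of_nonneg_left hd' hN0)
  have h3 : ‖ℓ (u t) • (v' - u')‖ ≤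
      (N * Γ.K) * ((N / c ^ 2 * Γ.K + 1 / c * Γ.K) * D) := by
    rw [norm_smul]
    refine mul_le_mul ?_ hd' (norm_nonneg _) (by positivity)
    exact (ℓ.le_opNorm _).trans (mul_le_mul_of_nonneg_left (hnu t ht') hN0)
  have h4 : ‖(ℓ (u t) - ℓ (v t)) • u'‖ ≤ (N * D) * (Γ.K / c) := by
    rw [norm_smul]
    exact mul_le_mul hll hnu' (norm_nonneg _) (by positivity)
  calc _ ≤ ‖ℓ u' • (v t - u t)‖ + ‖ℓ (v' - u') • u t‖ + ‖ℓ (u t) • (v' - u')‖ +
        ‖(ℓ (u t) - ℓ (v t)) • u'‖ :=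
        (norm_add_le _ _).trans (add_le_add_left ((norm_add_le _ _).trans
          (add_le_add_left (norm_sub_le _ _) _)) _)
    _ ≤ N * (Γ.K / c) * D + (N * ((N / c ^ 2 * Γ.K + 1 / c * Γ.K) * D)) * Γ.K +
        (N * Γ.K) * ((N / c ^ 2 * Γ.K + 1 / c * Γ.K) * D) + (N * D) * (Γ.K / c) := by
        gcongr
    _ = C1 * D := by rw [hC1]; ring

/-- the derivative of the distance nearly increases while the particles do not meet -/
theorem qq_incr (Γ : Geom E) (ℓ : E →L[ℝ] ℝ) {c : ℝ} (hc : 0 < c) :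
    ∃ C : ℝ, 0 < C ∧ ∀ (a b : ℝ) (x u y v : ℝ → E), a < b → b - a ≤ 1 → Ptc Γ ℓ c a b x u →
      Ptc Γ ℓ c a b y v → (∀ t ∈ Set.Ioo a b, x t ≠ y t) →
      - (C * (b - a) * Real.sqrt (Γ.lam (x a) (u a) (y a) (v a))) ≤
        (if x b = y b then - ‖wv ℓ (u b) (v b)‖ else qq ℓ (x b) (u b) (y b) (v b)) -
        (if x a = y a then ‖wv ℓ (u a) (v a)‖ else qq ℓ (x a) (u a) (y a) (v a)) := by
  obtain ⟨C2, hC2, hgrow⟩ := lam_growth Γ ℓ hc
  have hK := Γ.one_le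
  have hK0 : 0 < Γ.K := by linarith
  -- the constant for `w'`
  set N : ℝ := ‖ℓ‖ with hN
  have hN0 : 0 ≤ N := norm_nonneg _
  set C1 : ℝ := N * (Γ.K / c) * 1 + (2 * N * Γ.K) * (N / c ^ 2 * Γ.K + 1 / c * Γ.K) + N * (Γ.K / c)
    with hC1
  have hC10 : 0 ≤ C1 := by positivity
  set C : ℝ := (C1 + 1) * Real.sqrt (8 * Γ.K * Real.exp C2) with hC
  have hCpos : 0 < C := by positivity
  refine ⟨C, hCpos, ?_⟩
  intro a b x u y v hab hab1 hx hy hne
  set R := Real.sqrt (Γ.lam (x a) (u a) (y a) (v a)) with hR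
  have hR0 : 0 ≤ R := Real.sqrt_nonneg _
  set z : ℝ → E := fun t => y t - x t with hz
  set w : ℝ → E := fun t => wv ℓ (u t) (v t) with hw
  set m : ℝ → ℝ := fun t => (ℓ (u t))⁻¹ * (ℓ (v t))⁻¹ with hm
  have hup : ∀ t ∈ Icc a b, 0 < ℓ (u t) := fun t ht => lt_of_lt_of_le hc (hx.up t ht)
  have hvp : ∀ t ∈ Icc a b, 0 < ℓ (v t) := fun t ht => lt_of_lt_of_le hc (hy.up t ht)
  have hmpos : ∀ t ∈ Icc a b, 0 < m t := fun t ht =>
    mul_pos (inv_pos.2 (hup t ht)) (inv_pos.2 (hvp t ht))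
  have hzc : ContinuousOn z (Icc a b) := hy.xc.sub hx.xc
  have hluc : ContinuousOn (fun t => ℓ (u t)) (Icc a b) := ℓ.continuous.comp_continuousOn hx.uc
  have hlvc : ContinuousOn (fun t => ℓ (v t)) (Icc a b) := ℓ.continuous.comp_continuousOn hy.uc
  have hwc : ContinuousOn w (Icc a b) := (hluc.smul hy.uc).sub (hlvc.smul hx.uc)
  have hmc : ContinuousOn m (Icc a b) :=
    (hluc.inv₀ fun t ht => (hup t ht).ne').mul (hlvc.inv₀ fun t ht => (hvp t ht).ne')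
  have hzd : ∀ t ∈ Ioo a b, HasDerivAt z (m t • w t) t := by
    intro t ht
    have ht' := Ioo_subset_Icc_self ht
    have h1 := (hy.xd t ht).sub (hx.xd t ht)
    refine h1.congr_deriv ?_
    simp only [hm, hw, wv]
    have e1 := (hup t ht').ne'
    have e2 := (hvp t ht').ne'
    rw [smul_sub, smul_smul, smul_smul]
    congr 2
    · field_simp
    · field_simp
  have hnu : ∀ t ∈ Icc a b, ‖u t‖ ≤ Γ.K := fun t ht => Γ.norm_le (hx.mem t ht) (hx.unit t ht)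
  have hnv : ∀ t ∈ Icc a b, ‖v t‖ ≤ Γ.K := fun t ht => Γ.norm_le (hy.mem t ht) (hy.unit t ht)
  -- derivative of `w`
  have hwd : ∀ t ∈ Ioo a b, ∃ w' : E, HasDerivAt w w' t ∧ ‖w'‖ ≤ C * R := by
    intro t ht
    have ht' := Ioo_subset_Icc_self ht
    obtain ⟨w', hw1', hw1⟩ := g5_wd Γ ℓ hc hC1 hx hy ht
    refine ⟨w', hw1', ?_⟩
    set D : ℝ := ‖x t - y t‖ + ‖u t - v t‖ with hD
    have hD0 : 0 ≤ D := by positivity
    have hlam0 : 0 ≤ Γ.lam (x a) (u a) (y a) (v a) := by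
      have haa : a ∈ Icc a b := ⟨le_rfl, hab.le⟩
      refine le_trans ?_ (Γ.lam_ge (hx.mem a haa) (hy.mem a haa) (hx.unit a haa) (hy.unit a haa))
      positivity
    have hDR : D ≤ Real.sqrt (8 * Γ.K * Real.exp C2) * R := by
      rw [hR, ← Real.sqrt_mul (by positivity)]
      apply Real.le_sqrt_of_sq_le
      have haa : a ∈ Icc a b := ⟨le_rfl, hab.le⟩
      have h1 := Γ.lam_ge (hx.mem t ht') (hy.mem t ht') (hx.unit t ht') (hy.unit t ht')
      have h2 := hgrow a b x u y v hab.le hx hy a haa t ht'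
      have h3 : Real.exp (C2 * |t - a|) ≤ Real.exp C2 := by
        apply Real.exp_le_exp.2
        have : |t - a| ≤ 1 := by
          rw [abs_of_pos (sub_pos.2 ht.1)]; linarith [ht.2]
        nlinarith
      have h4 : Γ.lam (x t) (u t) (y t) (v t) ≤ Real.exp C2 * Γ.lam (x a) (u a) (y a) (v a) :=
        h2.trans (mul_le_mul_of_nonneg_right h3 hlam0)
      have h5 : ‖v t - u t‖ ^ 2 + ‖y t - x t‖ ^ 2 ≤
          4 * Γ.K * Γ.lam (x t) (u t) (y t) (v t) := by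
        rw [div_mul_eq_mul_div, one_mul, div_le_iff₀ (by positivity)] at h1
        linarith
      have h6 : D ^ 2 ≤ 2 * (‖v t - u t‖ ^ 2 + ‖y t - x t‖ ^ 2) := by
        rw [hD, norm_sub_rev (v t), norm_sub_rev (y t)]
        nlinarith [sq_nonneg (‖x t - y t‖ - ‖u t - v t‖)]
      calc D ^ 2 ≤ 2 * (‖v t - u t‖ ^ 2 + ‖y t - x t‖ ^ 2) := h6
        _ ≤ 2 * (4 * Γ.K * Γ.lam (x t) (u t) (y t) (v t)) := by linarith
        _ ≤ 2 * (4 * Γ.K * (Real.exp C2 * Γ.lam (x a) (u a) (y a) (v a))) := by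
            gcongr
        _ = 8 * Γ.K * Real.exp C2 * Γ.lam (x a) (u a) (y a) (v a) := by ring
    calc _ ≤ C1 * D := hw1
      _ ≤ (C1 + 1) * D := by nlinarith
      _ ≤ (C1 + 1) * (Real.sqrt (8 * Γ.K * Real.exp C2) * R) :=
          mul_le_mul_of_nonneg_left hDR (by positivity)
      _ = C * R := by rw [hC]; ring
  -- monotonicity
  set f : ℝ → ℝ := fun s => (inner ℝ (z s) (w s) : ℝ) / ‖z s‖ with hf
  have hz0 : ∀ t ∈ Ioo a b, z t ≠ 0 := fun t ht h => hne t ht (sub_eq_zero.1 h).symm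
  have hfd : ∀ t ∈ Ioo a b, ∃ f' : ℝ, HasDerivAt (fun s => f s + C * R * s) f' t ∧ 0 ≤ f' := by
    intro t ht
    obtain ⟨w', hw', hwb⟩ := hwd t ht
    have h1 := g5_deriv (hzd t ht) hw' (hz0 t ht)
    have h2 := h1.add ((hasDerivAt_id t).const_mul (C * R))
    refine ⟨_, h2, ?_⟩
    have h3 := g5_lower (w := w t) (w' := w') (hmpos t (Ioo_subset_Icc_self ht)).le (hz0 t ht)
    rw [mul_one]
    linarith
  have hmono : MonotoneOn (fun s => f s + C * R * s) (Ioo a b) := by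
    refine monotoneOn_of_deriv_nonneg (convex_Ioo a b) ?_ ?_ ?_
    · intro t ht
      obtain ⟨f', hf', -⟩ := hfd t ht
      exact hf'.continuousAt.continuousWithinAt
    · rw [interior_Ioo]
      intro t ht
      obtain ⟨f', hf', -⟩ := hfd t ht
      exact hf'.differentiableAt.differentiableWithinAt
    · rw [interior_Ioo]
      intro t ht
      obtain ⟨f', hf', h0⟩ := hfd t ht
      rw [hf'.deriv]; exact h0
  have haa : a ∈ Icc a b := ⟨le_rfl, hab.le⟩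
  have hbb : b ∈ Icc a b := ⟨hab.le, le_rfl⟩
  have hIa : Ioo a b ∈ 𝓝[>] a := Ioo_mem_nhdsGT hab
  have hIb : Ioo a b ∈ 𝓝[<] b := Ioo_mem_nhdsLT hab
  -- limit at `a`
  have hlimA : Tendsto f (𝓝[>] a)
      (𝓝 (if x a = y a then ‖wv ℓ (u a) (v a)‖ else qq ℓ (x a) (u a) (y a) (v a))) := by
    split_ifs with h
    · exact g5_limA hab (hzc a haa) (hwc a haa) (hmc a haa) (hmpos a haa) hzd
        (by simp [hz, h])
    · have hle : 𝓝[>] a ≤ 𝓝[Icc a b] a :=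
        nhdsWithin_le_of_mem (mem_of_superset hIa Ioo_subset_Icc_self)
      have hz1 : Tendsto z (𝓝[>] a) (𝓝 (z a)) := (hzc a haa).mono_left hle
      have hw1 : Tendsto w (𝓝[>] a) (𝓝 (w a)) := (hwc a haa).mono_left hle
      exact (hz1.inner hw1).div hz1.norm
        (norm_ne_zero_iff.2 fun h0 => h (sub_eq_zero.1 h0).symm)
  have hlimB : Tendsto f (𝓝[<] b)
      (𝓝 (if x b = y b then - ‖wv ℓ (u b) (v b)‖ else qq ℓ (x b) (u b) (y b) (v b))) := by
    split_ifs with h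
    · exact g5_limB hab (hzc b hbb) (hwc b hbb) (hmc b hbb) (hmpos b hbb) hzd
        (by simp [hz, h])
    · have hle : 𝓝[<] b ≤ 𝓝[Icc a b] b :=
        nhdsWithin_le_of_mem (mem_of_superset hIb Ioo_subset_Icc_self)
      have hz1 : Tendsto z (𝓝[<] b) (𝓝 (z b)) := (hzc b hbb).mono_left hle
      have hw1 : Tendsto w (𝓝[<] b) (𝓝 (w b)) := (hwc b hbb).mono_left hle
      exact (hz1.inner hw1).div hz1.norm
        (norm_ne_zero_iff.2 fun h0 => h (sub_eq_zero.1 h0).symm)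
  set qa := (if x a = y a then ‖wv ℓ (u a) (v a)‖ else qq ℓ (x a) (u a) (y a) (v a)) with hqa
  set qb := (if x b = y b then - ‖wv ℓ (u b) (v b)‖ else qq ℓ (x b) (u b) (y b) (v b)) with hqb
  have hlinA : Tendsto (fun s => f s + C * R * s) (𝓝[>] a) (𝓝 (qa + C * R * a)) := by
    refine hlimA.add ?_
    have : Tendsto (fun s : ℝ => C * R * s) (𝓝 a) (𝓝 (C * R * a)) :=
      (continuous_const.mul continuous_id).tendsto a
    exact this.mono_left nhdsWithin_le_nhds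
  have hlinB : Tendsto (fun s => f s + C * R * s) (𝓝[<] b) (𝓝 (qb + C * R * b)) := by
    refine hlimB.add ?_
    have : Tendsto (fun s : ℝ => C * R * s) (𝓝 b) (𝓝 (C * R * b)) :=
      (continuous_const.mul continuous_id).tendsto b
    exact this.mono_left nhdsWithin_le_nhds
  have h1 : ∀ t ∈ Ioo a b, qa + C * R * a ≤ f t + C * R * t := by
    intro t ht
    refine le_of_tendsto hlinA ?_
    filter_upwards [Ioo_mem_nhdsGT ht.1] with s hs
    exact hmono ⟨hs.1, hs.2.trans ht.2⟩ ht hs.2.le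
  have h2 : qa + C * R * a ≤ qb + C * R * b := by
    refine ge_of_tendsto hlinB ?_
    filter_upwards [hIb] with t ht
    exact h1 t ht
  nlinarith

end Pool.Agent.GNet
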