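import Mathlib
import Pool.Agent.Helper971.BK.DGeom
import Pool.Agent.Helper971.BK.G1
import Pool.Agent.Helper971.BK.G4

set_option autoImplicit false

open Finset Classical

namespace Pool.Agent.GNet

variable {E : Type*} [NormedAddCommGroup E] [InnerProductSpace ℝ E]

/-- linear sums over a closed set of particles are preserved at an event -/
theorem sum_fiber {ι F : Type*} [Fintype ι] [AddCommGroup F] [Module ℝ F] (P um up : ι → E)
    (hbal : ∀ i, ∑ j with P j = P i, up j = ∑ j with P j = P i, um j) (S : Finset ι)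
    (hS : ∀ i ∈ S, ∀ j ∉ S, P i ≠ P j) (f : E → E →ₗ[ℝ] F) :
    ∑ i ∈ S, f (P i) (up i) = ∑ i ∈ S, f (P i) (um i) := by
  have key : ∀ i0 ∈ S, ∀ u : ι → E, ∑ x ∈ S with P x = P i0, f (P x) (u x) =
      f (P i0) (∑ j with P j = P i0, u j) := by
    intro i0 hi0 u
    rw [map_sum]
    have h1 : (S.filter fun x => P x = P i0) = Finset.univ.filter fun x => P x = P i0 := by
      ext x
      simp only [Finset.mem_filter, Finset.mem_univ, true_and, and_iff_right_iff_imp]
      intro hx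
      by_contra hxS
      exact hS i0 hi0 x hxS hx.symm
    rw [h1]
    refine Finset.sum_congr rfl fun x hx => ?_
    rw [(Finset.mem_filter.mp hx).2]
  have hmaps : ∀ x ∈ S, P x ∈ S.image P := fun x hx => Finset.mem_image_of_mem P hx
  rw [← Finset.sum_fiberwise_of_maps_to hmaps (fun i => f (P i) (up i)),
    ← Finset.sum_fiberwise_of_maps_to hmaps (fun i => f (P i) (um i))]
  refine Finset.sum_congr rfl fun y hy => ?_
  obtain ⟨i0, hi0, rfl⟩ := Finset.mem_image.mp hy
  rw [key i0 hi0 up, key i0 hi0 um, hbal]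

private theorem bil_event {ι : Type*} [Fintype ι] (P um up : ι → E)
    (hbal : ∀ i, ∑ j with P j = P i, up j = ∑ j with P j = P i, um j) (S : Finset ι)
    (hS : ∀ i ∈ S, ∀ j ∉ S, P i ≠ P j) (b : E → E → E →ₗ[ℝ] E →ₗ[ℝ] ℝ) :
    ∑ i ∈ S, ∑ j ∈ S, b (P i) (P j) (up i) (up j) =
      ∑ i ∈ S, ∑ j ∈ S, b (P i) (P j) (um i) (um j) := by
  calc ∑ i ∈ S, ∑ j ∈ S, b (P i) (P j) (up i) (up j)
      = ∑ i ∈ S, ∑ j ∈ S, b (P i) (P j) (up i) (um j) := by
        refine Finset.sum_congr rfl fun i _ => ?_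
        exact sum_fiber P um up hbal S hS (fun p => b (P i) p (up i))
    _ = ∑ j ∈ S, ∑ i ∈ S, b (P i) (P j) (up i) (um j) := Finset.sum_comm
    _ = ∑ j ∈ S, ∑ i ∈ S, b (P i) (P j) (um i) (um j) := by
        refine Finset.sum_congr rfl fun j _ => ?_
        exact sum_fiber P um up hbal S hS (fun p => (b p (P j)).flip (um j))
    _ = ∑ i ∈ S, ∑ j ∈ S, b (P i) (P j) (um i) (um j) := Finset.sum_comm

theorem energy_event {ι : Type*} [Fintype ι] (Γ : Geom E) (P um up : ι → E)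
    (hbal : ∀ i, ∑ j with P j = P i, up j = ∑ j with P j = P i, um j) (S : Finset ι)
    (hS : ∀ i ∈ S, ∀ j ∉ S, P i ≠ P j) :
    ∑ i ∈ S, ∑ j ∈ S, Γ.lam (P i) (um i) (P j) (um j) =
      ∑ i ∈ S, ∑ j ∈ S, Γ.lam (P i) (up i) (P j) (up j) := by
  let b : E → E → E →ₗ[ℝ] E →ₗ[ℝ] ℝ := fun p q =>
    LinearMap.mk₂ ℝ (fun u v => Γ.G p u v + Γ.G q u v)
      (fun u u' v => by simp; ring) (fun c u v => by simp; ring)
      (fun u v v' => by simp; ring) (fun c u v => by simp; ring)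
  have hb : ∀ p q u v, b p q u v = Γ.G p u v + Γ.G q u v := fun p q u v => rfl
  have key := bil_event P um up hbal S hS b
  have hl : ∀ w : ι → E, ∑ i ∈ S, ∑ j ∈ S, Γ.lam (P i) (w i) (P j) (w j) =
      (∑ i ∈ S, ∑ j ∈ S, (1 + Γ.K ^ 5 * ‖P j - P i‖ ^ 2)) -
        1 / 2 * ∑ i ∈ S, ∑ j ∈ S, b (P i) (P j) (w i) (w j) := by
    intro w
    rw [Finset.mul_sum, ← Finset.sum_sub_distrib]
    refine Finset.sum_congr rfl fun i _ => ?_
    rw [Finset.mul_sum, ← Finset.sum_sub_distrib]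
    refine Finset.sum_congr rfl fun j _ => ?_
    rw [hb, Geom.lam, Geom.en]
    ring
  rw [hl um, hl up, key]

theorem jump_event (Γ : Geom E) (ℓ : E →L[ℝ] ℝ) {c : ℝ} (hc : 0 < c) :
    ∃ C : ℝ, 0 < C ∧ ∀ (ι : Type) [Fintype ι] (P um up : ι → E), (∀ i, P i ∈ Γ.B) →
      (∀ i, Γ.G (P i) (um i) (um i) = 1) → (∀ i, c ≤ ℓ (um i)) →
      (∀ i, ∑ j with P j = P i, up j = ∑ j with P j = P i, um j) → ∀ S : Finset ι,
      (∀ i ∈ S, ∀ j ∉ S, P i ≠ P j) →
      ∑ i ∈ S, ∑ j ∈ S with P i = P j, ‖um j - um i‖ ≤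
        C * (∑ i ∈ S, ∑ j ∈ S,
            (if P i = P j then ‖wv ℓ (up i) (up j)‖ else qq ℓ (P i) (up i) (P j) (up j)) -
          ∑ i ∈ S, ∑ j ∈ S,
            (if P i = P j then - ‖wv ℓ (um i) (um j)‖ else qq ℓ (P i) (um i) (P j) (um j))) := by
  obtain ⟨C, hC, hCw⟩ := wv_ge Γ ℓ hc
  refine ⟨C, hC, fun ι _ P um up hB hG hl hbal S hS => ?_⟩
  let b : E → E → E →ₗ[ℝ] E →ₗ[ℝ] ℝ := fun p q =>
    LinearMap.mk₂ ℝ (fun u v => if p = q then 0 else qq ℓ p u q v)
      (fun u u' v => by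
        split_ifs
        · simp
        · simp only [qq, wv, map_add, add_smul, smul_add, inner_sub_right, inner_add_right]
          ring)
      (fun r u v => by
        split_ifs
        · simp
        · simp only [qq, wv, map_smul, smul_eq_mul, inner_sub_right, inner_smul_right,
            smul_smul]
          ring)
      (fun u v v' => by
        split_ifs
        · simp
        · simp only [qq, wv, map_add, add_smul, smul_add, inner_sub_right, inner_add_right]
          ring)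
      (fun r u v => by
        split_ifs
        · simp
        · simp only [qq, wv, map_smul, smul_eq_mul, inner_sub_right, inner_smul_right,
            smul_smul]
          ring)
  have hb : ∀ p q u v, b p q u v = if p = q then 0 else qq ℓ p u q v := fun p q u v => rfl
  have key := bil_event P um up hbal S hS b
  have h1 : ∑ i ∈ S, ∑ j ∈ S,
      (if P i = P j then ‖wv ℓ (up i) (up j)‖ else qq ℓ (P i) (up i) (P j) (up j)) =
      ∑ i ∈ S, ∑ j ∈ S, (if P i = P j then ‖wv ℓ (up i) (up j)‖ else 0) +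
        ∑ i ∈ S, ∑ j ∈ S, b (P i) (P j) (up i) (up j) := by
    rw [← Finset.sum_add_distrib]
    refine Finset.sum_congr rfl fun i _ => ?_
    rw [← Finset.sum_add_distrib]
    refine Finset.sum_congr rfl fun j _ => ?_
    rw [hb]
    split_ifs <;> simp
  have h2 : ∑ i ∈ S, ∑ j ∈ S,
      (if P i = P j then - ‖wv ℓ (um i) (um j)‖ else qq ℓ (P i) (um i) (P j) (um j)) =
      - ∑ i ∈ S, ∑ j ∈ S, (if P i = P j then ‖wv ℓ (um i) (um j)‖ else 0) +
        ∑ i ∈ S, ∑ j ∈ S, b (P i) (P j) (um i) (um j) := by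
    rw [← Finset.sum_neg_distrib, ← Finset.sum_add_distrib]
    refine Finset.sum_congr rfl fun i _ => ?_
    rw [← Finset.sum_neg_distrib, ← Finset.sum_add_distrib]
    refine Finset.sum_congr rfl fun j _ => ?_
    rw [hb]
    split_ifs <;> simp
  rw [h1, h2, key]
  have h3 : 0 ≤ ∑ i ∈ S, ∑ j ∈ S, (if P i = P j then ‖wv ℓ (up i) (up j)‖ else 0) := by
    refine Finset.sum_nonneg fun i _ => Finset.sum_nonneg fun j _ => ?_
    split_ifs
    · exact norm_nonneg _
    · exact le_refl _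
  have h4 : ∑ i ∈ S, ∑ j ∈ S with P i = P j, ‖um j - um i‖ ≤
      C * ∑ i ∈ S, ∑ j ∈ S, (if P i = P j then ‖wv ℓ (um i) (um j)‖ else 0) := by
    rw [Finset.mul_sum]
    refine Finset.sum_le_sum fun i _ => ?_
    rw [Finset.mul_sum, Finset.sum_filter]
    refine Finset.sum_le_sum fun j _ => ?_
    split_ifs with h
    · exact hCw (P i) (um i) (um j) (hB i) (hG i) (by rw [h]; exact hG j) (hl i) (hl j)
    · simp
  refine h4.trans (mul_le_mul_of_nonneg_left ?_ hC.le)
  linarith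

end Pool.Agent.GNet
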