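import Mathlib
import Pool.Agent.Helper971.BK.DAbs
import Pool.Agent.Helper971.BK.DSys
import Pool.Agent.Helper971.BK.G1
import Pool.Agent.Helper971.BK.G2
import Pool.Agent.Helper971.BK.G3
import Pool.Agent.Helper971.BK.G4
import Pool.Agent.Helper971.BK.G5
import Pool.Agent.Helper971.BK.G6

set_option autoImplicit false

open Finset Classical

namespace Pool.Agent.GNet

variable {E : Type*} [NormedAddCommGroup E] [InnerProductSpace ℝ E]

section aux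

variable {Γ : Geom E} {ℓ : E →L[ℝ] ℝ} {c : ℝ} {ι : Type} [Fintype ι]

noncomputable def Sys.pos (s : Sys Γ ℓ c ι) (k : ℕ) (i : ι) : E :=
  if k < s.n then s.X k i (s.T k) else s.X (k - 1) i (s.T k)

def Sys.um (s : Sys Γ ℓ c ι) (k : ℕ) (i : ι) : E := s.U (k - 1) i (s.T k)

def Sys.up (s : Sys Γ ℓ c ι) (k : ℕ) (i : ι) : E := s.U k i (s.T k)

noncomputable def Sys.lm (s : Sys Γ ℓ c ι) (k : ℕ) (i j : ι) : ℝ :=
  Γ.lam (s.pos k i) (s.um k i) (s.pos k j) (s.um k j)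

noncomputable def Sys.lp (s : Sys Γ ℓ c ι) (k : ℕ) (i j : ι) : ℝ :=
  Γ.lam (s.pos k i) (s.up k i) (s.pos k j) (s.up k j)

noncomputable def Sys.qm (s : Sys Γ ℓ c ι) (k : ℕ) (i j : ι) : ℝ :=
  if s.pos k i = s.pos k j then - ‖wv ℓ (s.um k i) (s.um k j)‖
    else qq ℓ (s.pos k i) (s.um k i) (s.pos k j) (s.um k j)

noncomputable def Sys.qp (s : Sys Γ ℓ c ι) (k : ℕ) (i j : ι) : ℝ :=
  if s.pos k i = s.pos k j then ‖wv ℓ (s.up k i) (s.up k j)‖
    else qq ℓ (s.pos k i) (s.up k i) (s.pos k j) (s.up k j)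

theorem Sys.pos_lt (s : Sys Γ ℓ c ι) {k : ℕ} (h : k < s.n) (i : ι) :
    s.pos k i = s.X k i (s.T k) := if_pos h

theorem Sys.pos_succ (s : Sys Γ ℓ c ι) {k : ℕ} (h : k + 1 ≤ s.n) (i : ι) :
    s.pos (k + 1) i = s.X k i (s.T (k + 1)) := by
  unfold Sys.pos
  split_ifs with h1
  · exact s.glue k h1 i
  · rfl

theorem Sys.um_succ (s : Sys Γ ℓ c ι) (k : ℕ) (i : ι) : s.um (k + 1) i = s.U k i (s.T (k + 1)) :=
  rfl

theorem Sys.T_le (s : Sys Γ ℓ c ι) {k : ℕ} (h : k < s.n) : s.T k ≤ s.T (k + 1) := (s.mono k h).le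

theorem Sys.memA (s : Sys Γ ℓ c ι) {k : ℕ} (h : k < s.n) (i : ι) : s.pos k i ∈ Γ.B := by
  rw [s.pos_lt h]
  exact (s.ptc k h i).mem _ (Set.left_mem_Icc.2 (s.T_le h))

theorem Sys.unitA (s : Sys Γ ℓ c ι) {k : ℕ} (h : k < s.n) (i : ι) :
    Γ.G (s.pos k i) (s.up k i) (s.up k i) = 1 := by
  rw [s.pos_lt h]
  exact (s.ptc k h i).unit _ (Set.left_mem_Icc.2 (s.T_le h))

theorem Sys.memB (s : Sys Γ ℓ c ι) {k : ℕ} (h : k + 1 ≤ s.n) (i : ι) : s.pos (k + 1) i ∈ Γ.B := by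
  rw [s.pos_succ h]
  exact (s.ptc k h i).mem _ (Set.right_mem_Icc.2 (s.T_le h))

theorem Sys.unitB (s : Sys Γ ℓ c ι) {k : ℕ} (h : k + 1 ≤ s.n) (i : ι) :
    Γ.G (s.pos (k + 1) i) (s.um (k + 1) i) (s.um (k + 1) i) = 1 := by
  rw [s.pos_succ h]
  exact (s.ptc k h i).unit _ (Set.right_mem_Icc.2 (s.T_le h))

theorem Sys.upB (s : Sys Γ ℓ c ι) {k : ℕ} (h : k + 1 ≤ s.n) (i : ι) :
    c ≤ ℓ (s.um (k + 1) i) :=
  (s.ptc k h i).up _ (Set.right_mem_Icc.2 (s.T_le h))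

theorem lam_nonneg' (Γ : Geom E) {x u y v : E} (hx : x ∈ Γ.B) (hy : y ∈ Γ.B)
    (hu : Γ.G x u u = 1) (hv : Γ.G y v v = 1) : 0 ≤ Γ.lam x u y v := by
  have h := Γ.lam_ge hx hy hu hv
  have hK := Γ.one_le
  have : 0 ≤ 1 / (4 * Γ.K) * (‖v - u‖ ^ 2 + ‖y - x‖ ^ 2) := by positivity
  linarith

theorem Sys.bal' (s : Sys Γ ℓ c ι) {k : ℕ} (h : k + 1 < s.n) (i : ι) :
    ∑ j with s.pos (k + 1) j = s.pos (k + 1) i, s.up (k + 1) j =
      ∑ j with s.pos (k + 1) j = s.pos (k + 1) i, s.um (k + 1) j := by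
  have h1 := s.bal k h i
  simp only [s.pos_succ h.le]
  exact h1

theorem wv_self (ℓ : E →L[ℝ] ℝ) (u : E) : wv ℓ u u = 0 := sub_self _

theorem abs_qq_le (ℓ : E →L[ℝ] ℝ) (x u y v : E) : |qq ℓ x u y v| ≤ ‖wv ℓ u v‖ := by
  unfold qq
  rw [abs_div, abs_norm]
  rcases eq_or_ne ‖y - x‖ 0 with h | h
  · rw [h, div_zero]; exact norm_nonneg _
  · have h0 : 0 < ‖y - x‖ := lt_of_le_of_ne (norm_nonneg _) (Ne.symm h)
    rw [div_le_iff₀ h0, mul_comm]
    exact abs_real_inner_le_norm _ _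

theorem Sys.abs_qm_le (s : Sys Γ ℓ c ι) (k : ℕ) (i j : ι) :
    |s.qm k i j| ≤ ‖wv ℓ (s.um k i) (s.um k j)‖ := by
  unfold Sys.qm
  split_ifs with h
  · rw [abs_neg, abs_norm]
  · exact abs_qq_le _ _ _ _ _

theorem Sys.abs_qp_le (s : Sys Γ ℓ c ι) (k : ℕ) (i j : ι) :
    |s.qp k i j| ≤ ‖wv ℓ (s.up k i) (s.up k j)‖ := by
  unfold Sys.qp
  split_ifs with h
  · rw [abs_norm]
  · exact abs_qq_le _ _ _ _ _

end aux

/-- a system of particles gives the discrete data -/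
theorem Sys.exists_abs (Γ : Geom E) (ℓ : E →L[ℝ] ℝ) {c : ℝ} (hc : 0 < c) :
    ∃ C m : ℝ, 1 ≤ C ∧ 0 < m ∧ m ≤ 1 ∧ ∀ (ι : Type) [Fintype ι] (s : Sys Γ ℓ c ι),
      ∃ t : Abs E C m ι, t.n = s.n ∧ t.T = s.T ∧ ∀ k, k < s.n → ∀ i, t.pos k i = s.X k i (s.T k) := by
  obtain ⟨C1, hC1, hgrow⟩ := lam_growth Γ ℓ hc
  obtain ⟨C2, hC2, hmove⟩ := pos_move Γ ℓ hc
  obtain ⟨C3, hC3, hacc⟩ := vel_move Γ ℓ hc
  obtain ⟨C4, hC4, hwv⟩ := wv_le Γ ℓ
  obtain ⟨C5, hC5, hincr⟩ := qq_incr Γ ℓ hc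
  obtain ⟨C6, hC6, hjump⟩ := jump_event Γ ℓ hc
  have hK := Γ.one_le
  have hK0 : 0 < Γ.K := by linarith
  have hK5 : 0 < 2 * Γ.K ^ 5 := by positivity
  set C : ℝ := 1 + C1 + C2 + C3 + C4 + C5 + C6 + 2 * Γ.K ^ 5 with hC
  have hCpos : 0 < C := by positivity
  refine ⟨C, 1 / (4 * Γ.K), by linarith, by positivity, ?_, ?_⟩
  · rw [div_le_iff₀ (by positivity)]
    linarith
  intro ι _ s
  refine ⟨{
    n := s.n
    T := s.T
    pos := s.pos
    um := s.um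
    up := s.up
    lm := s.lm
    lp := s.lp
    qm := s.qm
    qp := s.qp
    mono := s.mono
    lm_ge := ?_
    lm_le := ?_
    lp_ge := ?_
    lp_le := ?_
    grow := ?_
    move := ?_
    acc := ?_
    incr := ?_
    qm_le := ?_
    qp_le := ?_
    energy := ?_
    momentum := ?_
    jump := ?_
    nondeg := ?_ }, rfl, rfl, fun k hk i => s.pos_lt hk i⟩
  · intro k hk hkn i j
    obtain ⟨k, rfl⟩ : ∃ k', k = k' + 1 := ⟨k - 1, by omega⟩
    exact Γ.lam_ge (s.memB hkn i) (s.memB hkn j) (s.unitB hkn i) (s.unitB hkn j)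
  · intro k hk hkn i j
    obtain ⟨k, rfl⟩ : ∃ k', k = k' + 1 := ⟨k - 1, by omega⟩
    refine (Γ.lam_le (s.memB hkn i) (s.memB hkn j) (s.unitB hkn i) (s.unitB hkn j)).trans ?_
    apply mul_le_mul_of_nonneg_right _ (by positivity)
    linarith
  · intro k hk i j
    exact Γ.lam_ge (s.memA hk i) (s.memA hk j) (s.unitA hk i) (s.unitA hk j)
  · intro k hk i j
    refine (Γ.lam_le (s.memA hk i) (s.memA hk j) (s.unitA hk i) (s.unitA hk j)).trans ?_
    apply mul_le_mul_of_nonneg_right _ (by positivity)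
    linarith
  · intro k hk _ i j
    have hT := s.T_le hk
    have hlp : 0 ≤ s.lp k i j :=
      lam_nonneg' Γ (s.memA hk i) (s.memA hk j) (s.unitA hk i) (s.unitA hk j)
    have hlm : 0 ≤ s.lm (k + 1) i j :=
      lam_nonneg' Γ (s.memB hk i) (s.memB hk j) (s.unitB hk i) (s.unitB hk j)
    have h1 := hgrow (s.T k) (s.T (k + 1)) (s.X k i) (s.U k i) (s.X k j) (s.U k j) hT
      (s.ptc k hk i) (s.ptc k hk j)
    have h2 := h1 (s.T k) (Set.left_mem_Icc.2 hT) (s.T (k + 1)) (Set.right_mem_Icc.2 hT)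
    have h3 := h1 (s.T (k + 1)) (Set.right_mem_Icc.2 hT) (s.T k) (Set.left_mem_Icc.2 hT)
    rw [abs_of_nonneg (by linarith)] at h2
    rw [abs_of_nonpos (by linarith)] at h3
    have e1 : s.lm (k + 1) i j = Γ.lam (s.X k i (s.T (k + 1))) (s.U k i (s.T (k + 1)))
        (s.X k j (s.T (k + 1))) (s.U k j (s.T (k + 1))) := by
      unfold Sys.lm
      rw [s.pos_succ hk, s.pos_succ hk]
      rfl
    have e2 : s.lp k i j = Γ.lam (s.X k i (s.T k)) (s.U k i (s.T k))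
        (s.X k j (s.T k)) (s.U k j (s.T k)) := by
      unfold Sys.lp
      rw [s.pos_lt hk, s.pos_lt hk]
      rfl
    rw [← e1, ← e2] at h2 h3
    have h4 : Real.exp (C1 * (s.T (k + 1) - s.T k)) ≤ Real.exp (C * (s.T (k + 1) - s.T k)) := by
      apply Real.exp_le_exp.2
      apply mul_le_mul_of_nonneg_right _ (by linarith)
      linarith
    constructor
    · exact h2.trans (mul_le_mul_of_nonneg_right h4 hlp)
    · refine h3.trans (mul_le_mul_of_nonneg_right ?_ hlm)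
      rw [neg_sub]
      exact h4
  · intro k hk h1 i j
    have hT := s.T_le hk
    have h2 := hmove (s.T k) (s.T (k + 1)) (s.X k i) (s.U k i) (s.X k j) (s.U k j) hT h1
      (s.ptc k hk i) (s.ptc k hk j)
    have e2 : s.lp k i j = Γ.lam (s.X k i (s.T k)) (s.U k i (s.T k))
        (s.X k j (s.T k)) (s.U k j (s.T k)) := by
      unfold Sys.lp
      rw [s.pos_lt hk, s.pos_lt hk]
      rfl
    rw [← e2, ← s.pos_lt hk, ← s.pos_lt hk, ← s.pos_succ hk, ← s.pos_succ hk] at h2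
    refine h2.trans ?_
    have : 0 ≤ s.T (k + 1) - s.T k := by linarith
    have hCC : C2 ≤ C := by linarith
    gcongr
  · intro k hk h1 i j
    have hT := s.T_le hk
    have h2 := hacc (s.T k) (s.T (k + 1)) (s.X k i) (s.U k i) (s.X k j) (s.U k j) hT h1
      (s.ptc k hk i) (s.ptc k hk j)
    have e2 : s.lp k i j = Γ.lam (s.X k i (s.T k)) (s.U k i (s.T k))
        (s.X k j (s.T k)) (s.U k j (s.T k)) := by
      unfold Sys.lp
      rw [s.pos_lt hk, s.pos_lt hk]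
      rfl
    rw [← e2] at h2
    refine (show ‖(s.um (k + 1) j - s.um (k + 1) i) - (s.up k j - s.up k i)‖ ≤ _ from h2).trans ?_
    have : 0 ≤ s.T (k + 1) - s.T k := by linarith
    have hCC : C3 ≤ C := by linarith
    gcongr
  · intro k hk h1 i j
    have hT := s.T_le hk
    have hT0 : 0 ≤ s.T (k + 1) - s.T k := by linarith
    rcases eq_or_ne i j with rfl | hij
    · have e1 : s.qm (k + 1) i i = 0 := by
        unfold Sys.qm
        rw [if_pos rfl, wv_self, norm_zero, neg_zero]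
      have e2 : s.qp k i i = 0 := by
        unfold Sys.qp
        rw [if_pos rfl, wv_self, norm_zero]
      rw [e1, e2, sub_zero]
      have : 0 ≤ C * (s.T (k + 1) - s.T k) * Real.sqrt (s.lp k i i) := by positivity
      linarith
    · have h2 := hincr (s.T k) (s.T (k + 1)) (s.X k i) (s.U k i) (s.X k j) (s.U k j)
        (s.mono k hk) h1 (s.ptc k hk i) (s.ptc k hk j) (s.disj k hk i j hij)
      have e2 : s.lp k i j = Γ.lam (s.X k i (s.T k)) (s.U k i (s.T k))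
          (s.X k j (s.T k)) (s.U k j (s.T k)) := by
        unfold Sys.lp
        rw [s.pos_lt hk, s.pos_lt hk]
        rfl
      rw [← e2, ← s.pos_lt hk, ← s.pos_lt hk, ← s.pos_succ hk, ← s.pos_succ hk] at h2
      have h3 : C5 * (s.T (k + 1) - s.T k) * Real.sqrt (s.lp k i j) ≤
          C * (s.T (k + 1) - s.T k) * Real.sqrt (s.lp k i j) := by
        have hCC : C5 ≤ C := by linarith
        gcongr
      have h4 : - (C5 * (s.T (k + 1) - s.T k) * Real.sqrt (s.lp k i j)) ≤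
          s.qm (k + 1) i j - s.qp k i j := h2
      linarith
  · intro k hk hkn i j
    obtain ⟨k, rfl⟩ : ∃ k', k = k' + 1 := ⟨k - 1, by omega⟩
    refine (s.abs_qm_le (k + 1) i j).trans ?_
    refine (hwv _ _ _ _ (s.memB hkn i) (s.memB hkn j) (s.unitB hkn i) (s.unitB hkn j)).trans ?_
    apply mul_le_mul_of_nonneg_right _ (Real.sqrt_nonneg _)
    linarith
  · intro k hk i j
    refine (s.abs_qp_le k i j).trans ?_
    refine (hwv _ _ _ _ (s.memA hk i) (s.memA hk j) (s.unitA hk i) (s.unitA hk j)).trans ?_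
    apply mul_le_mul_of_nonneg_right _ (Real.sqrt_nonneg _)
    linarith
  · intro S k hk hkn hS
    obtain ⟨k, rfl⟩ : ∃ k', k = k' + 1 := ⟨k - 1, by omega⟩
    exact energy_event Γ (s.pos (k + 1)) (s.um (k + 1)) (s.up (k + 1)) (s.bal' hkn) S hS
  · intro S k hk hkn hS
    obtain ⟨k, rfl⟩ : ∃ k', k = k' + 1 := ⟨k - 1, by omega⟩
    exact (sum_fiber (s.pos (k + 1)) (s.um (k + 1)) (s.up (k + 1)) (s.bal' hkn) S hS
      (fun _ => LinearMap.id)).symm
  · intro S k hk hkn hS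
    obtain ⟨k, rfl⟩ : ∃ k', k = k' + 1 := ⟨k - 1, by omega⟩
    have h := hjump ι (s.pos (k + 1)) (s.um (k + 1)) (s.up (k + 1)) (s.memA hkn)
      (s.unitB hkn.le) (s.upB hkn.le) (s.bal' hkn) S hS
    have h0 : 0 ≤ ∑ i ∈ S, ∑ j ∈ S with s.pos (k + 1) i = s.pos (k + 1) j,
        ‖s.um (k + 1) j - s.um (k + 1) i‖ :=
      Finset.sum_nonneg fun i _ => Finset.sum_nonneg fun j _ => norm_nonneg _
    have h' : ∑ i ∈ S, ∑ j ∈ S with s.pos (k + 1) i = s.pos (k + 1) j,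
        ‖s.um (k + 1) j - s.um (k + 1) i‖ ≤
        C6 * (∑ i ∈ S, ∑ j ∈ S, s.qp (k + 1) i j - ∑ i ∈ S, ∑ j ∈ S, s.qm (k + 1) i j) := h
    have h1 : 0 ≤ ∑ i ∈ S, ∑ j ∈ S, s.qp (k + 1) i j - ∑ i ∈ S, ∑ j ∈ S, s.qm (k + 1) i j := by
      by_contra hcon
      push Not at hcon
      have := mul_neg_of_pos_of_neg hC6 hcon
      linarith
    refine h'.trans (mul_le_mul_of_nonneg_right ?_ h1)
    linarith
  · intro k hk i j hij
    by_contra hcon
    push Not at hcon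
    obtain ⟨hp, hu⟩ := hcon
    have hT := s.mono k hk
    set τ := (s.T k + s.T (k + 1)) / 2 with hτ
    have hτ1 : τ ∈ Set.Ioo (s.T k) (s.T (k + 1)) := ⟨by rw [hτ]; linarith, by rw [hτ]; linarith⟩
    have hτ2 : τ ∈ Set.Icc (s.T k) (s.T (k + 1)) := Set.Ioo_subset_Icc_self hτ1
    have h1 := hgrow (s.T k) (s.T (k + 1)) (s.X k i) (s.U k i) (s.X k j) (s.U k j) hT.le
      (s.ptc k hk i) (s.ptc k hk j) (s.T k) (Set.left_mem_Icc.2 hT.le) τ hτ2
    have h2 := Γ.lam_le (s.memA hk i) (s.memA hk j) (s.unitA hk i) (s.unitA hk j)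
    rw [hp, hu, sub_self, sub_self, norm_zero] at h2
    have h3 : Γ.lam (s.X k i (s.T k)) (s.U k i (s.T k)) (s.X k j (s.T k)) (s.U k j (s.T k)) ≤ 0 := by
      have e : Γ.lam (s.X k i (s.T k)) (s.U k i (s.T k)) (s.X k j (s.T k)) (s.U k j (s.T k)) =
          Γ.lam (s.pos k j) (s.up k j) (s.pos k j) (s.up k j) := by
        rw [← s.pos_lt hk i, ← s.pos_lt hk j, hp]
        have hu' : s.U k i (s.T k) = s.up k j := hu
        rw [hu']
        rfl
      rw [e]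
      refine h2.trans ?_
      norm_num
    have h4 : Γ.lam (s.X k i τ) (s.U k i τ) (s.X k j τ) (s.U k j τ) ≤ 0 :=
      h1.trans (mul_nonpos_of_nonneg_of_nonpos (Real.exp_pos _).le h3)
    have h5 := Γ.lam_ge ((s.ptc k hk i).mem τ hτ2) ((s.ptc k hk j).mem τ hτ2)
      ((s.ptc k hk i).unit τ hτ2) ((s.ptc k hk j).unit τ hτ2)
    have h6 : 0 < 1 / (4 * Γ.K) := by positivity
    have h7 : ‖s.U k j τ - s.U k i τ‖ ^ 2 + ‖s.X k j τ - s.X k i τ‖ ^ 2 ≤ 0 := by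
      by_contra hcon
      push Not at hcon
      have := mul_pos h6 hcon
      linarith
    have h8 : ‖s.X k j τ - s.X k i τ‖ ^ 2 ≤ 0 := by
      have : 0 ≤ ‖s.U k j τ - s.U k i τ‖ ^ 2 := by positivity
      linarith
    have h9 : ‖s.X k j τ - s.X k i τ‖ = 0 := by
      have := le_antisymm h8 (sq_nonneg _)
      exact pow_eq_zero_iff (two_ne_zero) |>.1 this
    exact s.disj k hk i j hij τ hτ1 (sub_eq_zero.1 (norm_eq_zero.1 h9)).symm

end Pool.Agent.GNet
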