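import Mathlib
import Pool.Agent.Helper971.BK.DAbs
import Pool.Agent.Helper971.BK.DSys
import Pool.Agent.Helper971.BK.A7
import Pool.Agent.Helper971.BK.G7

set_option autoImplicit false

open Finset Classical

namespace Pool.Agent.GNet

variable {E : Type*} [NormedAddCommGroup E] [InnerProductSpace ℝ E]

/-- **Theorem P**: the number of times at which particles meet is bounded, on short time
intervals. -/
theorem Sys.main (Γ : Geom E) (ℓ : E →L[ℝ] ℝ) {c : ℝ} (hc : 0 < c) (p : ℕ) :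
    ∃ N : ℕ, ∃ τ : ℝ, 0 < τ ∧ ∀ (ι : Type) [Fintype ι] (s : Sys Γ ℓ c ι), Fintype.card ι ≤ p →
      s.T s.n - s.T 0 ≤ τ →
      #((Ioo 0 s.n).filter fun k => ∃ i j, i ≠ j ∧ s.X k i (s.T k) = s.X k j (s.T k)) ≤ N := by
  obtain ⟨C, m, hC, hm, hm1, hex⟩ := Sys.exists_abs Γ ℓ hc
  obtain ⟨N, τ, hτ, hN⟩ := Abs.main (E := E) hC hm hm1 p
  refine ⟨N, τ, hτ, ?_⟩
  intro ι _ s hcard hT
  obtain ⟨t, htn, htT, htp⟩ := hex ι s
  rcases Nat.eq_zero_or_pos s.n with h0 | h0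
  · simp [h0]
  · have h1 := hN ι t univ 0 t.n (by simpa using hcard) (by omega) le_rfl
      (fun k _ _ i _ j hj => absurd (mem_univ j) hj) (by rw [htT, htn]; exact hT)
    refine le_trans (card_le_card ?_) h1
    intro k hk
    rw [mem_filter, mem_Ioo] at hk
    obtain ⟨⟨hk0, hkn⟩, i, j, hij, hx⟩ := hk
    unfold Abs.meets
    rw [mem_filter, mem_Ioo]
    refine ⟨⟨hk0, by omega⟩, i, mem_univ i, j, mem_univ j, hij, ?_⟩
    rw [htp k hkn, htp k hkn]
    exact hx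

end Pool.Agent.GNet
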