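import Mathlib
import Pool.Agent.Helper971.BK.DLNet

set_option autoImplicit false

open Finset Classical MeasureTheory

namespace Pool.Agent.GNet

theorem bd_aux (E F : Type*) [NormedAddCommGroup E] [NormedAddCommGroup F] (g : E → F)
    (hg : Continuous g) (hs : HasCompactSupport g) : ∃ C, ∀ x, ‖g x‖ ≤ C :=
  hg.bounded_above_of_compact_support hs

theorem exists_bump (E : Type*) [NormedAddCommGroup E] [InnerProductSpace ℝ E]
    [FiniteDimensional ℝ E] (o : E) {R : ℝ} (hR : 0 < R) :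
    ∃ f : E → ℝ, ContDiff ℝ 2 f ∧ HasCompactSupport f ∧ (∀ x, 0 ≤ f x) ∧ (∀ x, f x ≤ 1) ∧
      (∀ x ∈ Metric.ball o (5 * R), f x = 1) ∧ (∀ x, 7 * R ≤ dist x o → f x = 0) := by
  obtain ⟨φ, h5, h7⟩ : ∃ φ : ContDiffBump o, φ.rIn = 5 * R ∧ φ.rOut = 7 * R :=
    ⟨⟨5 * R, 7 * R, by positivity, by linarith⟩, rfl, rfl⟩
  refine ⟨φ, φ.contDiff, φ.hasCompactSupport, fun x => φ.nonneg, fun x => φ.le_one, ?_, ?_⟩
  · intro x hx
    rw [← h5] at hx
    exact φ.one_of_mem_closedBall (Metric.ball_subset_closedBall hx)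
  · intro x hx
    rw [← h7] at hx
    exact φ.zero_of_le_dist hx

theorem exists_cut (E : Type*) [NormedAddCommGroup E] [InnerProductSpace ℝ E]
    [FiniteDimensional ℝ E] (o : E) {R : ℝ} (hR : 0 < R) :
    ∃ M : ℝ, 0 ≤ M ∧ Nonempty (Cut E o R M) := by
  obtain ⟨f, h1, hs, hnn, hle, hone, hzero⟩ := exists_bump E o hR
  have h2 : ContDiff ℝ 1 (fderiv ℝ f) := h1.fderiv_right (by norm_num)
  have h3 : ContDiff ℝ 0 (fderiv ℝ (fderiv ℝ f)) := h2.fderiv_right (by norm_num)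
  have hs1 : HasCompactSupport (fderiv ℝ f) := hs.fderiv ℝ
  have hs2 : HasCompactSupport (fderiv ℝ (fderiv ℝ f)) := hs1.fderiv ℝ
  obtain ⟨C1, hC1⟩ := bd_aux E (E →L[ℝ] ℝ) (fderiv ℝ f) h2.continuous hs1
  obtain ⟨C2, hC2⟩ := bd_aux E (E →L[ℝ] E →L[ℝ] ℝ) (fderiv ℝ (fderiv ℝ f)) h3.continuous hs2
  have hC10 : 0 ≤ C1 := (norm_nonneg _).trans (hC1 o)
  have hf : ∀ x, HasFDerivAt f (fderiv ℝ f x) x :=
    fun x => ((h1.differentiable (by norm_num)) x).hasFDerivAt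
  have hf' : ∀ x, HasFDerivAt (fderiv ℝ f) (fderiv ℝ (fderiv ℝ f) x) x :=
    fun x => ((h2.differentiable (by norm_num)) x).hasFDerivAt
  have hz : ∀ x, x ∉ Metric.ball o (8 * R) → f x = 0 := by
    intro x hx
    apply hzero
    rw [Metric.mem_ball, not_lt] at hx
    linarith
  have hz' : ∀ x, x ∉ Metric.ball o (8 * R) → fderiv ℝ f x = 0 := by
    intro x hx
    rw [Metric.mem_ball, not_lt] at hx
    have hopen : IsOpen {y : E | 7 * R < dist y o} :=
      isOpen_lt continuous_const (continuous_id.dist continuous_const)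
    have hmem : x ∈ {y : E | 7 * R < dist y o} := by
      show 7 * R < dist x o
      linarith
    have hev : f =ᶠ[nhds x] fun _ => 0 := by
      filter_upwards [hopen.mem_nhds hmem] with y hy
      exact hzero y (le_of_lt hy)
    rw [hev.fderiv_eq]
    simp
  have hb1 : ∀ x u, |fderiv ℝ f x u| ≤ max C1 C2 * ‖u‖ := by
    intro x u
    rw [← Real.norm_eq_abs]
    refine ((fderiv ℝ f x).le_opNorm u).trans ?_
    exact mul_le_mul_of_nonneg_right ((hC1 x).trans (le_max_left _ _)) (norm_nonneg _)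
  have hb2 : ∀ x u v, |fderiv ℝ (fderiv ℝ f) x u v| ≤ max C1 C2 * ‖u‖ * ‖v‖ := by
    intro x u v
    rw [← Real.norm_eq_abs]
    refine ((fderiv ℝ (fderiv ℝ f) x).le_opNorm₂ u v).trans ?_
    have := (hC2 x).trans (le_max_right C1 C2)
    gcongr
  exact ⟨max C1 C2, hC10.trans (le_max_left _ _),
    ⟨⟨f, fderiv ℝ f, fderiv ℝ (fderiv ℝ f), hf, hf', h3.continuous, hnn, hle, hone, hz, hz',
      hb1, hb2⟩⟩⟩

end Pool.Agent.GNet
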