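import Mathlib
import Pool.Agent.Helper971.BK.DLNet

set_option autoImplicit false

open Finset Classical MeasureTheory

namespace Pool.Agent.GNet

namespace FVAux

section kern

variable {E : Type*} [NormedAddCommGroup E] [InnerProductSpace ℝ E]

theorem NN_pos_l2 {ε : ℝ} (hε : 0 < ε) (x y : E) : 0 < NN ε x y := by
  unfold NN
  have : (0 : ℝ) ≤ inner ℝ (y - x) (y - x) := real_inner_self_nonneg
  positivity

theorem HH_pos_l2 {ε : ℝ} (hε : 0 < ε) (x y : E) : 0 < HH ε x y := Real.sqrt_pos.2 (NN_pos_l2 hε x y)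

theorem HH_sq_l2 {ε : ℝ} (hε : 0 < ε) (x y : E) : HH ε x y ^ 2 = NN ε x y :=
  Real.sq_sqrt (NN_pos_l2 hε x y).le

theorem norm_le_HH_l2 {ε : ℝ} (x y : E) : ‖y - x‖ ≤ HH ε x y := by
  unfold HH NN
  refine Real.le_sqrt_of_sq_le ?_
  rw [real_inner_self_eq_norm_sq]
  nlinarith [sq_nonneg ε]

theorem inner_div_le_l2 {ε : ℝ} (hε : 0 < ε) (x y w : E) :
    |(inner ℝ (y - x) w : ℝ) / HH ε x y| ≤ ‖w‖ := by
  rw [abs_div, abs_of_pos (HH_pos_l2 hε x y), div_le_iff₀ (HH_pos_l2 hε x y)]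
  calc |(inner ℝ (y - x) w : ℝ)| ≤ ‖y - x‖ * ‖w‖ := abs_real_inner_le_norm _ _
    _ ≤ HH ε x y * ‖w‖ := mul_le_mul_of_nonneg_right (norm_le_HH_l2 x y) (norm_nonneg _)
    _ = _ := mul_comm _ _

theorem abs_Fs_le {ε : ℝ} (hε : 0 < ε) (x u y : E) : |Fs ε x u y| ≤ ‖u‖ := by
  unfold Fs
  rw [neg_div, abs_neg]
  exact inner_div_le_l2 hε x y u

theorem hasDerivAt_NN {ε : ℝ} {x : ℝ → E} {u : E} {s : ℝ} (hx : HasDerivAt x u s) (y : E) :
    HasDerivAt (fun t => NN ε (x t) y) (-2 * inner ℝ (y - x s) u) s := by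
  unfold NN
  have h1 : HasDerivAt (fun t => y - x t) (-u) s := by
    simpa using hx.const_sub y
  have h2 := (HasDerivAt.inner ℝ h1 h1).const_add (ε ^ 2)
  refine h2.congr_deriv ?_
  rw [inner_neg_right, inner_neg_left, real_inner_comm]
  ring

theorem hasDerivAt_Fs {ε : ℝ} (hε : 0 < ε) {x u : ℝ → E} {a : E} {s : ℝ}
    (hx : HasDerivAt x (u s) s) (hu : HasDerivAt u a s) (y : E) :
    HasDerivAt (fun t => Fs ε (x t) (u t) y) (Fss ε (x s) (u s) a y) s := by
  have hN := NN_pos_l2 hε (x s) y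
  have hH := HH_pos_l2 hε (x s) y
  have hHsq := HH_sq_l2 hε (x s) y
  have h1 : HasDerivAt (fun t => y - x t) (-(u s)) s := by
    simpa using hx.const_sub y
  have h2 : HasDerivAt (fun t => -(inner ℝ (y - x t) (u t) : ℝ))
      (-(inner ℝ (y - x s) a + inner ℝ (-(u s)) (u s))) s := (HasDerivAt.inner ℝ h1 hu).neg
  have h3 : HasDerivAt (fun t => HH ε (x t) y)
      ((-2 * inner ℝ (y - x s) (u s)) / (2 * HH ε (x s) y)) s := by
    unfold HH
    exact (hasDerivAt_NN hx y).sqrt hN.ne'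
  have h4 := h2.div h3 hH.ne'
  unfold Fs
  refine h4.congr_deriv ?_
  unfold Fss aa
  rw [inner_neg_left, ← hHsq]
  field_simp
  ring

theorem continuousOn_inner' {s : Set ℝ} {f g : ℝ → E} (hf : ContinuousOn f s)
    (hg : ContinuousOn g s) : ContinuousOn (fun t => (inner ℝ (f t) (g t) : ℝ)) s := hf.inner hg

theorem contOn_NN {ε : ℝ} {s : Set ℝ} {x : ℝ → E} (hx : ContinuousOn x s) (y : E) :
    ContinuousOn (fun t => NN ε (x t) y) s := by
  unfold NN
  exact continuousOn_const.add ((continuousOn_const.sub hx).inner (continuousOn_const.sub hx))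

theorem contOn_HH {ε : ℝ} {s : Set ℝ} {x : ℝ → E} (hx : ContinuousOn x s) (y : E) :
    ContinuousOn (fun t => HH ε (x t) y) s := by
  unfold HH
  exact (contOn_NN hx y).sqrt

theorem contOn_Fs {ε : ℝ} (hε : 0 < ε) {s : Set ℝ} {x u : ℝ → E} (hx : ContinuousOn x s)
    (hu : ContinuousOn u s) (y : E) : ContinuousOn (fun t => Fs ε (x t) (u t) y) s := by
  unfold Fs
  exact ((continuousOn_const.sub hx).inner hu).neg.div (contOn_HH hx y)
    fun t _ => (HH_pos_l2 hε _ _).ne'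

theorem contOn_aa {ε : ℝ} (hε : 0 < ε) {s : Set ℝ} {x u : ℝ → E} (hx : ContinuousOn x s)
    (hu : ContinuousOn u s) (y : E) : ContinuousOn (fun t => aa ε (x t) (u t) y) s := by
  unfold aa
  exact ((hu.inner hu).sub ((((continuousOn_const.sub hx).inner hu).pow 2).div (contOn_NN hx y)
    fun t _ => (NN_pos_l2 hε _ _).ne')).div (contOn_HH hx y) fun t _ => (HH_pos_l2 hε _ _).ne'

theorem contOn_Fss {ε : ℝ} (hε : 0 < ε) {s : Set ℝ} {x u a : ℝ → E} (hx : ContinuousOn x s)
    (hu : ContinuousOn u s) (ha : ContinuousOn a s) (y : E) :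
    ContinuousOn (fun t => Fss ε (x t) (u t) (a t) y) s := by
  unfold Fss
  exact (contOn_aa hε hx hu y).sub (((continuousOn_const.sub hx).inner ha).div (contOn_HH hx y)
    fun t _ => (HH_pos_l2 hε _ _).ne')

end kern

/-- the estimate for one dart -/
theorem one_dart {E : Type*} [NormedAddCommGroup E] [InnerProductSpace ℝ E] {o : E}
    {R K M : ℝ} (hM : 0 ≤ M) (c : Cut E o R M) {ε : ℝ} (hε : 0 < ε) (y : E)
    {x u a : ℝ → E} {L : ℝ} (hL : 0 < L)
    (hx : ∀ s ∈ Set.Icc 0 L, HasDerivAt x (u s) s) (hu : ∀ s ∈ Set.Icc 0 L, HasDerivAt u (a s) s)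
    (ha : ContinuousOn a (Set.Icc 0 L)) (hu1 : ∀ s ∈ Set.Icc 0 L, ‖u s‖ ≤ K)
    (ha1 : ∀ s ∈ Set.Icc 0 L, ‖a s‖ ≤ K) :
    ∫ s in (0:ℝ)..L, c.f (x s) * aa ε (x s) (u s) y ≤
      (c.f (x L) * Fs ε (x L) (u L) y - c.f (x 0) * Fs ε (x 0) (u 0) y) +
        (K + M * K ^ 2) * L := by
  have hxc : ContinuousOn x (Set.Icc 0 L) := fun s hs => (hx s hs).continuousAt.continuousWithinAt
  have huc : ContinuousOn u (Set.Icc 0 L) := fun s hs => (hu s hs).continuousAt.continuousWithinAt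
  have hfc : Continuous c.f := continuous_iff_continuousAt.2 fun z => (c.hf z).continuousAt
  have hf'c : Continuous c.f' := continuous_iff_continuousAt.2 fun z => (c.hf' z).continuousAt
  have hcf : ContinuousOn (fun s => c.f (x s)) (Set.Icc 0 L) := hfc.comp_continuousOn hxc
  have hcf' : ContinuousOn (fun s => c.f' (x s) (u s)) (Set.Icc 0 L) :=
    (hf'c.comp_continuousOn hxc).clm_apply huc
  have hder : ∀ s ∈ Set.Icc 0 L, HasDerivAt (fun t => c.f (x t) * Fs ε (x t) (u t) y)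
      (c.f' (x s) (u s) * Fs ε (x s) (u s) y + c.f (x s) * Fss ε (x s) (u s) (a s) y) s := by
    intro s hs
    have h1 : HasDerivAt (fun t => c.f (x t)) (c.f' (x s) (u s)) s :=
      (c.hf (x s)).comp_hasDerivAt s (hx s hs)
    exact h1.mul (hasDerivAt_Fs hε (hx s hs) (hu s hs) y)
  have hcont : ContinuousOn (fun s => c.f' (x s) (u s) * Fs ε (x s) (u s) y +
      c.f (x s) * Fss ε (x s) (u s) (a s) y) (Set.Icc 0 L) :=
    (hcf'.mul (contOn_Fs hε hxc huc y)).add (hcf.mul (contOn_Fss hε hxc huc ha y))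
  have hII : IntervalIntegrable (fun s => c.f' (x s) (u s) * Fs ε (x s) (u s) y +
      c.f (x s) * Fss ε (x s) (u s) (a s) y) volume 0 L := by
    apply ContinuousOn.intervalIntegrable
    rwa [Set.uIcc_of_le hL.le]
  have hFTC := intervalIntegral.integral_eq_sub_of_hasDerivAt (a := 0) (b := L)
    (f := fun t => c.f (x t) * Fs ε (x t) (u t) y) (by
      intro s hs
      rw [Set.uIcc_of_le hL.le] at hs
      exact hder s hs) hII
  have hIaa : IntervalIntegrable (fun s => c.f (x s) * aa ε (x s) (u s) y) volume 0 L := by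
    apply ContinuousOn.intervalIntegrable
    rw [Set.uIcc_of_le hL.le]
    exact hcf.mul (contOn_aa hε hxc huc y)
  have hIc : IntervalIntegrable (fun _ : ℝ => K + M * K ^ 2) volume 0 L :=
    intervalIntegrable_const
  have hle : ∫ s in (0:ℝ)..L, c.f (x s) * aa ε (x s) (u s) y ≤
      ∫ s in (0:ℝ)..L, ((c.f' (x s) (u s) * Fs ε (x s) (u s) y +
        c.f (x s) * Fss ε (x s) (u s) (a s) y) + (K + M * K ^ 2)) := by
    refine intervalIntegral.integral_mono_on hL.le hIaa (hII.add hIc) ?_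
    intro s hs
    have hK0 : 0 ≤ K := (norm_nonneg _).trans (hu1 s hs)
    have e : Fss ε (x s) (u s) (a s) y = aa ε (x s) (u s) y -
      inner ℝ (y - x s) (a s) / HH ε (x s) y := rfl
    rw [e]
    have b1 : |c.f' (x s) (u s) * Fs ε (x s) (u s) y| ≤ M * K ^ 2 := by
      rw [abs_mul]
      calc |c.f' (x s) (u s)| * |Fs ε (x s) (u s) y| ≤ (M * ‖u s‖) * ‖u s‖ :=
            mul_le_mul (c.f'_le _ _) (abs_Fs_le hε _ _ _) (abs_nonneg _) (by positivity)
        _ = M * ‖u s‖ ^ 2 := by ring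
        _ ≤ M * K ^ 2 := mul_le_mul_of_nonneg_left
            (pow_le_pow_left₀ (norm_nonneg _) (hu1 s hs) 2) hM
    have b2 : |c.f (x s) * (inner ℝ (y - x s) (a s) / HH ε (x s) y)| ≤ K := by
      rw [abs_mul, abs_of_nonneg (c.nonneg _)]
      calc c.f (x s) * |(inner ℝ (y - x s) (a s) : ℝ) / HH ε (x s) y| ≤ 1 * ‖a s‖ :=
            mul_le_mul (c.le_one _) (inner_div_le_l2 hε _ _ _) (abs_nonneg _) zero_le_one
        _ ≤ K := by rw [one_mul]; exact ha1 s hs
    have b1' := (abs_le.1 b1).1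
    have b2' := (abs_le.1 b2).2
    have e2 : c.f (x s) * (aa ε (x s) (u s) y - inner ℝ (y - x s) (a s) / HH ε (x s) y) =
      c.f (x s) * aa ε (x s) (u s) y -
        c.f (x s) * (inner ℝ (y - x s) (a s) / HH ε (x s) y) := mul_sub _ _ _
    rw [e2]
    linarith
  refine hle.trans (le_of_eq ?_)
  rw [intervalIntegral.integral_add hII hIc, hFTC, intervalIntegral.integral_const, sub_zero,
    smul_eq_mul]
  ring

end FVAux

/-- first variation: the boundary terms cancel -/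
theorem LNet.fv {E : Type*} [NormedAddCommGroup E] [InnerProductSpace ℝ E] {o : E} {R K : ℝ}
    (N : LNet E o R K) (f : E → E → ℝ) (hadd : ∀ z u v, f z (u + v) = f z u + f z v)
    (hsmul : ∀ z (r : ℝ) u, f z (r • u) = r * f z u)
    (h0 : ∀ z, z ∉ Metric.ball o (8 * R) → ∀ u, f z u = 0) :
    ∑ d, (f (N.x d (N.len d)) (N.u d (N.len d)) - f (N.x d 0) (N.u d 0)) = 0 := by
  have hneg : ∀ z u, f z (-u) = - f z u := by
    intro z u
    have := hsmul z (-1) u
    rw [neg_one_smul, neg_one_mul] at this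
    exact this
  have hzero : ∀ z, f z 0 = 0 := by
    intro z
    have := hsmul z 0 0
    rw [zero_smul, zero_mul] at this
    exact this
  have hS0 : ∑ d, f (N.x d 0) (N.u d 0) = 0 := by
    rw [← Finset.sum_fiberwise_of_maps_to (s := Finset.univ)
      (t := Finset.univ.image fun d => N.x d 0) (g := fun d => N.x d 0)
      (fun d _ => Finset.mem_image_of_mem _ (Finset.mem_univ d))]
    refine Finset.sum_eq_zero fun z _ => ?_
    have h1 : ∑ d with N.x d 0 = z, f (N.x d 0) (N.u d 0) =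
        ∑ d with N.x d 0 = z, f z (N.u d 0) := by
      refine Finset.sum_congr rfl fun d hd => ?_
      rw [(Finset.mem_filter.1 hd).2]
    rw [h1]
    by_cases hz : z ∈ Metric.ball o (8 * R)
    · have h2 := map_sum (AddMonoidHom.mk' (f z) (hadd z)) (fun d => N.u d 0)
        (Finset.univ.filter fun d => N.x d 0 = z)
      simp only [AddMonoidHom.mk'_apply] at h2
      rw [← h2, N.bal z hz, hzero]
    · exact Finset.sum_eq_zero fun d _ => h0 z hz _
  have hS1 : ∑ d, f (N.x d (N.len d)) (N.u d (N.len d)) = - ∑ d, f (N.x d 0) (N.u d 0) := by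
    have hinv : Function.Involutive N.rev := N.rev_rev
    rw [← Equiv.sum_comp hinv.toPerm (fun d => f (N.x d 0) (N.u d 0)), ← Finset.sum_neg_distrib]
    refine Finset.sum_congr rfl fun d _ => ?_
    show _ = - f (N.x (N.rev d) 0) (N.u (N.rev d) 0)
    rw [N.x_rev, N.u_rev, sub_zero, hneg, neg_neg]
  rw [Finset.sum_sub_distrib, hS1, hS0]
  simp

/-- first order estimate (monotonicity formula) -/
theorem LNet.first_order {E : Type*} [NormedAddCommGroup E] [InnerProductSpace ℝ E] {o : E}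
    {R K M : ℝ} (hK : 1 ≤ K) (hM : 0 ≤ M) (c : Cut E o R M) (N : LNet E o R K) {ε : ℝ}
    (hε : 0 < ε) (y : E) :
    ∑ d, ∫ s in (0:ℝ)..N.len d, c.f (N.x d s) * aa ε (N.x d s) (N.u d s) y ≤
      (K + M * K ^ 2) * N.length := by
  have hfv := N.fv (fun z u => c.f z * Fs ε z u y)
    (by
      intro z u v
      unfold Fs
      rw [inner_add_right]
      ring)
    (by
      intro z r u
      unfold Fs
      rw [inner_smul_right]
      ring)
    (by
      intro z hz u
      rw [c.zero z hz, zero_mul])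
  have h1 : ∑ d, ∫ s in (0:ℝ)..N.len d, c.f (N.x d s) * aa ε (N.x d s) (N.u d s) y ≤
      ∑ d, ((c.f (N.x d (N.len d)) * Fs ε (N.x d (N.len d)) (N.u d (N.len d)) y -
        c.f (N.x d 0) * Fs ε (N.x d 0) (N.u d 0) y) + (K + M * K ^ 2) * N.len d) :=
    Finset.sum_le_sum fun d _ => FVAux.one_dart hM c hε y (N.len_pos d) (N.hx d) (N.hu d)
      (N.ac d) (N.u_le d) (N.a_le d)
  refine h1.trans (le_of_eq ?_)
  rw [Finset.sum_add_distrib, hfv, zero_add, ← Finset.mul_sum]
  rfl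

end Pool.Agent.GNet
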