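import Mathlib
import Pool.Agent.Helper971.BK.DLNet

set_option autoImplicit false

open Finset Classical MeasureTheory

namespace Pool.Agent.GNet

section helpers49

variable {E : Type*} [NormedAddCommGroup E] [InnerProductSpace ℝ E]

theorem NN_pos49 {ε : ℝ} (hε : 0 < ε) (x y : E) : 0 < NN ε x y := by
  unfold NN
  have : 0 ≤ (inner ℝ (y - x) (y - x) : ℝ) := real_inner_self_nonneg
  positivity

theorem HH_pos49 {ε : ℝ} (hε : 0 < ε) (x y : E) : 0 < HH ε x y :=
  Real.sqrt_pos.2 (NN_pos49 hε x y)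

theorem NN_eq49 {ε : ℝ} (hε : 0 < ε) (x y : E) : NN ε x y = HH ε x y ^ 2 :=
  (Real.sq_sqrt (NN_pos49 hε x y).le).symm

section first

variable {ε : ℝ} (hε : 0 < ε) {x u : ℝ → E} {a y v b : E} {s : ℝ}
    (hx : HasDerivAt x (u s) s) (hu : HasDerivAt u a s)

include hx in
theorem zc_s49 (w : E) : HasDerivAt (fun s => (inner ℝ (y - x s) w : ℝ)) (- inner ℝ (u s) w) s := by
  have h := (hx.const_sub y).inner ℝ (hasDerivAt_const s w)
  refine h.congr_deriv ?_
  simp [inner_neg_left]

include hx hu in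
theorem zu_s49 : HasDerivAt (fun s => (inner ℝ (y - x s) (u s) : ℝ))
    (- inner ℝ (u s) (u s) + inner ℝ (y - x s) a) s := by
  have h := (hx.const_sub y).inner ℝ hu
  refine h.congr_deriv ?_
  rw [inner_neg_left]
  ring

include hu in
theorem uv_s49 : HasDerivAt (fun s => (inner ℝ (u s) v : ℝ)) (inner ℝ a v) s := by
  have h := hu.inner ℝ (hasDerivAt_const s v)
  refine h.congr_deriv ?_
  simp

include hx in
theorem NN_s49 : HasDerivAt (fun s => NN ε (x s) y) (-2 * inner ℝ (y - x s) (u s)) s := by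
  have h := ((hx.const_sub y).inner ℝ (hx.const_sub y)).const_add (ε ^ 2)
  refine h.congr_deriv ?_
  rw [inner_neg_left, inner_neg_right, real_inner_comm (y - x s) (u s)]
  ring

include hε hx in
theorem HH_s49 : HasDerivAt (fun s => HH ε (x s) y)
    (- inner ℝ (y - x s) (u s) / HH ε (x s) y) s := by
  have h := (NN_s49 (ε := ε) (y := y) hx).sqrt (NN_pos49 hε (x s) y).ne'
  refine h.congr_deriv ?_
  have hp := HH_pos49 hε (x s) y
  change -2 * inner ℝ (y - x s) (u s) / (2 * HH ε (x s) y) = _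
  field_simp

include hε hx hu in
theorem Fs_s49 : HasDerivAt (fun s => Fs ε (x s) (u s) y) (Fss ε (x s) (u s) a y) s := by
  have hp := HH_pos49 hε (x s) y
  have h := (zu_s49 (y := y) hx hu).neg.div (HH_s49 (y := y) hε hx) hp.ne'
  refine h.congr_deriv ?_
  unfold Fss aa
  rw [NN_eq49 hε]
  simp only [Pi.neg_apply]
  field_simp
  ring

include hε hx in
theorem Ft_s49 : HasDerivAt (fun s => Ft ε (x s) y v) (Fst ε (x s) (u s) y v) s := by
  have hp := HH_pos49 hε (x s) y
  have h := (zc_s49 (y := y) hx v).div (HH_s49 (y := y) hε hx) hp.ne'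
  refine h.congr_deriv ?_
  unfold Fst
  rw [NN_eq49 hε]
  field_simp
  ring

include hε hx hu in
theorem Fst_s49 : HasDerivAt (fun s => Fst ε (x s) (u s) y v) (Fsst ε (x s) (u s) a y v) s := by
  have hp := HH_pos49 hε (x s) y
  have hn := NN_pos49 hε (x s) y
  have h := ((uv_s49 (v := v) hu).neg.add (((zu_s49 (y := y) hx hu).mul
    (zc_s49 (y := y) hx v)).div (NN_s49 (ε := ε) (y := y) hx) hn.ne')).div
    (HH_s49 (y := y) hε hx) hp.ne'
  refine h.congr_deriv ?_
  unfold Fsst
  simp only [Pi.neg_apply, Pi.add_apply, Pi.mul_apply, Pi.div_apply]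
  rw [NN_eq49 hε]
  field_simp
  ring

include hε hx in
theorem Ftt_s49 : HasDerivAt (fun s => Ftt ε (x s) y v b) (Fstt ε (x s) (u s) y v b) s := by
  have hp := HH_pos49 hε (x s) y
  have hn := NN_pos49 hε (x s) y
  have h := (((((zc_s49 (y := y) hx v).pow 2).div (NN_s49 (ε := ε) (y := y) hx) hn.ne').const_sub
    (inner ℝ v v)).div (HH_s49 (y := y) hε hx) hp.ne').add
    ((zc_s49 (y := y) hx b).div (HH_s49 (y := y) hε hx) hp.ne')
  refine h.congr_deriv ?_
  unfold Fstt
  simp only [Pi.neg_apply, Pi.add_apply, Pi.mul_apply, Pi.div_apply, Pi.pow_apply]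
  rw [NN_eq49 hε]
  field_simp
  ring

end first

section second

variable {ε : ℝ} (hε : 0 < ε) {x u a : E} {y v : ℝ → E} {b : E} {t : ℝ}
    (hy : HasDerivAt y (v t) t) (hv : HasDerivAt v b t)

include hy in
theorem zc_t49 (w : E) : HasDerivAt (fun t => (inner ℝ (y t - x) w : ℝ)) (inner ℝ (v t) w) t := by
  have h := (hy.sub_const x).inner ℝ (hasDerivAt_const t w)
  refine h.congr_deriv ?_
  simp

include hy hv in
theorem zv_t49 : HasDerivAt (fun t => (inner ℝ (y t - x) (v t) : ℝ))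
    (inner ℝ (v t) (v t) + inner ℝ (y t - x) b) t := by
  have h := (hy.sub_const x).inner ℝ hv
  refine h.congr_deriv ?_
  ring

include hv in
theorem uv_t49 : HasDerivAt (fun t => (inner ℝ u (v t) : ℝ)) (inner ℝ u b) t := by
  have h := (hasDerivAt_const t u).inner ℝ hv
  refine h.congr_deriv ?_
  simp

include hy in
theorem NN_t49 : HasDerivAt (fun t => NN ε x (y t)) (2 * inner ℝ (y t - x) (v t)) t := by
  have h := ((hy.sub_const x).inner ℝ (hy.sub_const x)).const_add (ε ^ 2)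
  refine h.congr_deriv ?_
  rw [real_inner_comm (y t - x) (v t)]
  ring

include hε hy in
theorem HH_t49 : HasDerivAt (fun t => HH ε x (y t))
    (inner ℝ (y t - x) (v t) / HH ε x (y t)) t := by
  have h := (NN_t49 (ε := ε) (x := x) hy).sqrt (NN_pos49 hε x (y t)).ne'
  refine h.congr_deriv ?_
  have hp := HH_pos49 hε x (y t)
  change 2 * inner ℝ (y t - x) (v t) / (2 * HH ε x (y t)) = _
  field_simp

include hε hy in
theorem Fs_t49 : HasDerivAt (fun t => Fs ε x u (y t)) (Fst ε x u (y t) (v t)) t := by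
  have hp := HH_pos49 hε x (y t)
  have h := (zc_t49 (x := x) hy u).neg.div (HH_t49 (x := x) hε hy) hp.ne'
  refine h.congr_deriv ?_
  unfold Fst
  rw [NN_eq49 hε, real_inner_comm u (v t)]
  simp only [Pi.neg_apply]
  field_simp
  ring

include hε hy hv in
theorem Ft_t49 : HasDerivAt (fun t => Ft ε x (y t) (v t)) (Ftt ε x (y t) (v t) b) t := by
  have hp := HH_pos49 hε x (y t)
  have h := (zv_t49 (x := x) hy hv).div (HH_t49 (x := x) hε hy) hp.ne'
  refine h.congr_deriv ?_
  unfold Ftt aa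
  rw [NN_eq49 hε]
  field_simp
  ring

include hε hy hv in
theorem Fst_t49 : HasDerivAt (fun t => Fst ε x u (y t) (v t)) (Fstt ε x u (y t) (v t) b) t := by
  have hp := HH_pos49 hε x (y t)
  have hn := NN_pos49 hε x (y t)
  have h := ((uv_t49 (u := u) hv).neg.add (((zc_t49 (x := x) hy u).mul
    (zv_t49 (x := x) hy hv)).div (NN_t49 (ε := ε) (x := x) hy) hn.ne')).div
    (HH_t49 (x := x) hε hy) hp.ne'
  refine h.congr_deriv ?_
  unfold Fstt
  simp only [Pi.neg_apply, Pi.add_apply, Pi.mul_apply, Pi.div_apply]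
  rw [NN_eq49 hε, real_inner_comm u (v t)]
  field_simp
  ring

include hε hy in
theorem Fss_t49 : HasDerivAt (fun t => Fss ε x u a (y t)) (Fsst ε x u a (y t) (v t)) t := by
  have hp := HH_pos49 hε x (y t)
  have hn := NN_pos49 hε x (y t)
  have h := (((((zc_t49 (x := x) hy u).pow 2).div (NN_t49 (ε := ε) (x := x) hy) hn.ne').const_sub
    (inner ℝ u u)).div (HH_t49 (x := x) hε hy) hp.ne').sub
    ((zc_t49 (x := x) hy a).div (HH_t49 (x := x) hε hy) hp.ne')
  refine h.congr_deriv ?_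
  unfold Fsst
  simp only [Pi.neg_apply, Pi.add_apply, Pi.mul_apply, Pi.div_apply, Pi.pow_apply]
  rw [NN_eq49 hε, real_inner_comm u (v t), real_inner_comm a (v t)]
  field_simp
  ring

end second

end helpers49

/-- the null Lagrangian identity -/
theorem flux_sum {E : Type*} [NormedAddCommGroup E] [InnerProductSpace ℝ E] {o : E}
    {R M : ℝ} (c : Cut E o R M) (ε : ℝ) (x u a y v b : E) :
    DP1 c ε x u a y v b + DP2 c ε x u a y v b =
      c.f x * c.f y * (Fss ε x u a y * Ftt ε x y v b - Fst ε x u y v ^ 2) -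
        RR c ε x u a y v b := by
  unfold DP1 DP2 RR
  ring

/-- derivative of the first flux -/
theorem hasDerivAt_PP {E : Type*} [NormedAddCommGroup E] [InnerProductSpace ℝ E] {o : E}
    {R M : ℝ} (c : Cut E o R M) {ε : ℝ} (hε : 0 < ε) (x u : ℝ → E) (a y v b : E) (s : ℝ)
    (hx : HasDerivAt x (u s) s) (hu : HasDerivAt u a s) :
    HasDerivAt (fun s => PP c ε (x s) (u s) y v b) (DP1 c ε (x s) (u s) a y v b) s := by
  have hf : HasDerivAt (fun s => c.f (x s)) (c.f' (x s) (u s)) s :=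
    (c.hf (x s)).comp_hasDerivAt s hx
  have hf1 : HasDerivAt (fun s => c.f' (x s)) (c.f'' (x s) (u s)) s :=
    (c.hf' (x s)).comp_hasDerivAt s hx
  have hf' : HasDerivAt (fun s => c.f' (x s) (u s)) (c.f'' (x s) (u s) (u s) + c.f' (x s) a) s :=
    hf1.clm_apply hu
  have hFs := Fs_s49 (y := y) hε hx hu
  have hFt := Ft_s49 (y := y) (v := v) hε hx
  have hFst := Fst_s49 (y := y) (v := v) hε hx hu
  have hFtt := Ftt_s49 (y := y) (v := v) (b := b) hε hx
  have h := ((((hf.mul_const (c.f y)).mul ((hFs.mul hFtt).sub (hFt.mul hFst))).add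
    ((hf'.mul_const (c.f y)).mul (hFt.pow 2))).sub
    (((hf.mul_const (c.f' y v)).mul hFs).mul hFt)).const_mul (1 / 2)
  refine h.congr_deriv ?_
  unfold DP1
  simp only [Pi.neg_apply, Pi.add_apply, Pi.mul_apply, Pi.div_apply, Pi.pow_apply, Pi.sub_apply]
  push_cast
  ring

/-- derivative of the second flux -/
theorem hasDerivAt_PQ {E : Type*} [NormedAddCommGroup E] [InnerProductSpace ℝ E] {o : E}
    {R M : ℝ} (c : Cut E o R M) {ε : ℝ} (hε : 0 < ε) (x u a : E) (y v : ℝ → E) (b : E) (t : ℝ)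
    (hy : HasDerivAt y (v t) t) (hv : HasDerivAt v b t) :
    HasDerivAt (fun t => PQ c ε x u a (y t) (v t)) (DP2 c ε x u a (y t) (v t) b) t := by
  have hf : HasDerivAt (fun t => c.f (y t)) (c.f' (y t) (v t)) t :=
    (c.hf (y t)).comp_hasDerivAt t hy
  have hf1 : HasDerivAt (fun t => c.f' (y t)) (c.f'' (y t) (v t)) t :=
    (c.hf' (y t)).comp_hasDerivAt t hy
  have hf' : HasDerivAt (fun t => c.f' (y t) (v t)) (c.f'' (y t) (v t) (v t) + c.f' (y t) b) t :=
    hf1.clm_apply hv
  have hFs := Fs_t49 (x := x) (u := u) hε hy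
  have hFt := Ft_t49 (x := x) hε hy hv
  have hFst := Fst_t49 (x := x) (u := u) hε hy hv
  have hFss := Fss_t49 (x := x) (u := u) (a := a) hε hy
  have h := ((((hf.const_mul (c.f x)).mul ((hFt.mul hFss).sub (hFs.mul hFst))).add
    ((hf'.const_mul (c.f x)).mul (hFs.pow 2))).sub
    (((hf.const_mul (c.f' x u)).mul hFs).mul hFt)).const_mul (1 / 2)
  refine h.congr_deriv ?_
  unfold DP2
  simp only [Pi.neg_apply, Pi.add_apply, Pi.mul_apply, Pi.div_apply, Pi.pow_apply, Pi.sub_apply]
  push_cast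
  ring

end Pool.Agent.GNet
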