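import Mathlib
import Pool.Agent.Helper971.BK.DLNet
import Pool.Agent.Helper971.BK.L2
import Pool.Agent.Helper971.BK.L3

set_option autoImplicit false

open Finset Classical MeasureTheory

namespace Pool.Agent.GNet

section cont

variable {E : Type*} [NormedAddCommGroup E] [InnerProductSpace ℝ E] {T : Type*}
  [TopologicalSpace T] {ε : ℝ} {x u a y v b : T → E}

theorem l4_NN_pos (hε : 0 < ε) (x y : E) : 0 < NN ε x y := by
  unfold NN
  have := real_inner_self_nonneg (x := y - x)
  positivity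

theorem l4_HH_pos (hε : 0 < ε) (x y : E) : 0 < HH ε x y := Real.sqrt_pos.2 (l4_NN_pos hε x y)

theorem l4_NN (hx : Continuous x) (hy : Continuous y) : Continuous fun p => NN ε (x p) (y p) := by
  unfold NN
  exact continuous_const.add ((hy.sub hx).inner (hy.sub hx))

theorem l4_HH (hx : Continuous x) (hy : Continuous y) : Continuous fun p => HH ε (x p) (y p) :=
  (l4_NN hx hy).sqrt

theorem l4_Fs (hε : 0 < ε) (hx : Continuous x) (hu : Continuous u) (hy : Continuous y) :
    Continuous fun p => Fs ε (x p) (u p) (y p) :=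
  (((hy.sub hx).inner hu).neg).div (l4_HH hx hy) (fun _ => (l4_HH_pos hε _ _).ne')

theorem l4_Ft (hε : 0 < ε) (hx : Continuous x) (hy : Continuous y) (hv : Continuous v) :
    Continuous fun p => Ft ε (x p) (y p) (v p) :=
  ((hy.sub hx).inner hv).div (l4_HH hx hy) (fun _ => (l4_HH_pos hε _ _).ne')

theorem l4_aa (hε : 0 < ε) (hx : Continuous x) (hu : Continuous u) (hy : Continuous y) :
    Continuous fun p => aa ε (x p) (u p) (y p) :=
  ((hu.inner hu).sub ((((hy.sub hx).inner hu).pow 2).div (l4_NN hx hy)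
    (fun _ => (l4_NN_pos hε _ _).ne'))).div (l4_HH hx hy) (fun _ => (l4_HH_pos hε _ _).ne')

theorem l4_Fss (hε : 0 < ε) (hx : Continuous x) (hu : Continuous u) (ha : Continuous a)
    (hy : Continuous y) : Continuous fun p => Fss ε (x p) (u p) (a p) (y p) :=
  (l4_aa hε hx hu hy).sub
    (((hy.sub hx).inner ha).div (l4_HH hx hy) (fun _ => (l4_HH_pos hε _ _).ne'))

theorem l4_Ftt (hε : 0 < ε) (hx : Continuous x) (hy : Continuous y) (hv : Continuous v)
    (hb : Continuous b) : Continuous fun p => Ftt ε (x p) (y p) (v p) (b p) :=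
  (l4_aa hε hx hv hy).add
    (((hy.sub hx).inner hb).div (l4_HH hx hy) (fun _ => (l4_HH_pos hε _ _).ne'))

theorem l4_Fst (hε : 0 < ε) (hx : Continuous x) (hu : Continuous u) (hy : Continuous y)
    (hv : Continuous v) : Continuous fun p => Fst ε (x p) (u p) (y p) (v p) :=
  ((hu.inner hv).neg.add ((((hy.sub hx).inner hu).mul ((hy.sub hx).inner hv)).div (l4_NN hx hy)
    (fun _ => (l4_NN_pos hε _ _).ne'))).div (l4_HH hx hy) (fun _ => (l4_HH_pos hε _ _).ne')

theorem l4_Fsst (hε : 0 < ε) (hx : Continuous x) (hu : Continuous u) (ha : Continuous a)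
    (hy : Continuous y) (hv : Continuous v) :
    Continuous fun p => Fsst ε (x p) (u p) (a p) (y p) (v p) := by
  have hH := l4_HH (ε := ε) hx hy
  have hn : ∀ p, HH ε (x p) (y p) ≠ 0 := fun p => (l4_HH_pos hε _ _).ne'
  have hn3 : ∀ p, HH ε (x p) (y p) ^ 3 ≠ 0 := fun p => pow_ne_zero _ (hn p)
  have hn5 : ∀ p, HH ε (x p) (y p) ^ 5 ≠ 0 := fun p => pow_ne_zero _ (hn p)
  have h1 := hu.inner (𝕜 := ℝ) hv
  have h2 := (hy.sub hx).inner (𝕜 := ℝ) hu
  have h3 := (hy.sub hx).inner (𝕜 := ℝ) hv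
  have h4 := ha.inner (𝕜 := ℝ) hv
  have h5 := hu.inner (𝕜 := ℝ) hu
  have h6 := (hy.sub hx).inner (𝕜 := ℝ) ha
  exact (((h4.neg.div hH hn).sub ((h1.mul h2).div (hH.pow 3) hn3)).add
    ((((h5.neg.add h6).mul h3).sub (h2.mul h1)).div (hH.pow 3) hn3)).add
    (((continuous_const.mul (h2.pow 2)).mul h3).div (hH.pow 5) hn5)

theorem l4_Fstt (hε : 0 < ε) (hx : Continuous x) (hu : Continuous u)
    (hy : Continuous y) (hv : Continuous v) (hb : Continuous b) :
    Continuous fun p => Fstt ε (x p) (u p) (y p) (v p) (b p) := by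
  have hH := l4_HH (ε := ε) hx hy
  have hn : ∀ p, HH ε (x p) (y p) ≠ 0 := fun p => (l4_HH_pos hε _ _).ne'
  have hn3 : ∀ p, HH ε (x p) (y p) ^ 3 ≠ 0 := fun p => pow_ne_zero _ (hn p)
  have hn5 : ∀ p, HH ε (x p) (y p) ^ 5 ≠ 0 := fun p => pow_ne_zero _ (hn p)
  have h1 := hu.inner (𝕜 := ℝ) hv
  have h2 := (hy.sub hx).inner (𝕜 := ℝ) hu
  have h3 := (hy.sub hx).inner (𝕜 := ℝ) hv
  have h4 := hu.inner (𝕜 := ℝ) hb
  have h5 := hv.inner (𝕜 := ℝ) hv
  have h6 := (hy.sub hx).inner (𝕜 := ℝ) hb
  exact (((h4.neg.div hH hn).add ((h1.mul h3).div (hH.pow 3) hn3)).add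
    (((h1.mul h3).add (h2.mul (h5.add h6))).div (hH.pow 3) hn3)).sub
    (((continuous_const.mul h2).mul (h3.pow 2)).div (hH.pow 5) hn5)

variable {o : E} {R M : ℝ}

theorem l4_cf (c : Cut E o R M) (hx : Continuous x) : Continuous fun p => c.f (x p) :=
  (continuous_iff_continuousAt.2 fun z => (c.hf z).continuousAt).comp hx

theorem l4_cf' (c : Cut E o R M) (hx : Continuous x) (hu : Continuous u) :
    Continuous fun p => c.f' (x p) (u p) :=
  ((continuous_iff_continuousAt.2 fun z => (c.hf' z).continuousAt).comp hx).clm_apply hu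

theorem l4_cf'' (c : Cut E o R M) (hx : Continuous x) (hu : Continuous u) :
    Continuous fun p => c.f'' (x p) (u p) (u p) :=
  ((c.cont.comp hx).clm_apply hu).clm_apply hu

theorem l4_DP1 (c : Cut E o R M) (hε : 0 < ε) (hx : Continuous x) (hu : Continuous u)
    (ha : Continuous a) (hy : Continuous y) (hv : Continuous v) (hb : Continuous b) :
    Continuous fun p => DP1 c ε (x p) (u p) (a p) (y p) (v p) (b p) := by
  have e1 := l4_cf c hx
  have e2 := l4_cf c hy
  have e3 := l4_cf' c hx hu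
  have e4 := l4_cf' c hy hv
  have e5 := l4_cf' c hx ha
  have e6 := l4_cf'' c hx hu
  have s1 := l4_Fs hε hx hu hy
  have s2 := l4_Ft hε hx hy hv
  have s3 := l4_Fss hε hx hu ha hy
  have s4 := l4_Ftt hε hx hy hv hb
  have s5 := l4_Fst hε hx hu hy hv
  have s6 := l4_Fsst hε hx hu ha hy hv
  have s7 := l4_Fstt hε hx hu hy hv hb
  unfold DP1
  fun_prop

theorem l4_DP2 (c : Cut E o R M) (hε : 0 < ε) (hx : Continuous x) (hu : Continuous u)
    (ha : Continuous a) (hy : Continuous y) (hv : Continuous v) (hb : Continuous b) :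
    Continuous fun p => DP2 c ε (x p) (u p) (a p) (y p) (v p) (b p) := by
  have e1 := l4_cf c hx
  have e2 := l4_cf c hy
  have e3 := l4_cf' c hx hu
  have e4 := l4_cf' c hy hv
  have e5 := l4_cf' c hy hb
  have e6 := l4_cf'' c hy hv
  have s1 := l4_Fs hε hx hu hy
  have s2 := l4_Ft hε hx hy hv
  have s3 := l4_Fss hε hx hu ha hy
  have s4 := l4_Ftt hε hx hy hv hb
  have s5 := l4_Fst hε hx hu hy hv
  have s6 := l4_Fsst hε hx hu ha hy hv
  have s7 := l4_Fstt hε hx hu hy hv hb
  unfold DP2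
  fun_prop

theorem l4_PP_add (c : Cut E o R M) (x u u' y v b : E) :
    PP c ε x (u + u') y v b = PP c ε x u y v b + PP c ε x u' y v b := by
  unfold PP Fs Fst
  rw [map_add, inner_add_right, inner_add_left]
  ring

theorem l4_PP_smul (c : Cut E o R M) (r : ℝ) (x u y v b : E) :
    PP c ε x (r • u) y v b = r * PP c ε x u y v b := by
  unfold PP Fs Fst
  rw [map_smul, real_inner_smul_right, real_inner_smul_left, smul_eq_mul]
  ring

theorem l4_PQ_add (c : Cut E o R M) (x u a y v v' : E) :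
    PQ c ε x u a y (v + v') = PQ c ε x u a y v + PQ c ε x u a y v' := by
  unfold PQ Ft Fst
  rw [map_add, inner_add_right, inner_add_right]
  ring

theorem l4_PQ_smul (c : Cut E o R M) (r : ℝ) (x u a y v : E) :
    PQ c ε x u a y (r • v) = r * PQ c ε x u a y v := by
  unfold PQ Ft Fst
  rw [map_smul, real_inner_smul_right, real_inner_smul_right, smul_eq_mul]
  ring

end cont

/-- clamp -/
noncomputable def l4cl (L s : ℝ) : ℝ := max 0 (min s L)

theorem l4cl_cont (L : ℝ) : Continuous (l4cl L) := by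
  unfold l4cl
  fun_prop

theorem l4cl_mem {L : ℝ} (hL : 0 < L) (s : ℝ) : l4cl L s ∈ Set.Icc 0 L := by
  unfold l4cl
  refine ⟨le_max_left _ _, max_le hL.le (min_le_right _ _)⟩

theorem l4cl_eq {L s : ℝ} (hs : s ∈ Set.Icc 0 L) : l4cl L s = s := by
  unfold l4cl
  rw [min_eq_left hs.2, max_eq_right hs.1]

theorem l4_sum1 {D : Type} [Fintype D] (len : D → ℝ) (hlen : ∀ d, 0 < len d)
    (G : D → D → ℝ → ℝ → ℝ) (hG : ∀ d e, Continuous (Function.uncurry (G d e)))
    (h : ∀ d, ∀ s ∈ Set.Icc 0 (len d), ∑ e, ∫ t in (0:ℝ)..len e, G d e s t = 0) :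
    ∑ d, ∑ e, ∫ s in (0:ℝ)..len d, ∫ t in (0:ℝ)..len e, G d e s t = 0 := by
  refine Finset.sum_eq_zero fun d _ => ?_
  rw [← intervalIntegral.integral_finsetSum]
  · rw [intervalIntegral.integral_congr (g := fun _ => (0 : ℝ))]
    · simp
    · intro s hs
      rw [Set.uIcc_of_le (hlen d).le] at hs
      exact h d s hs
  · intro e _
    exact (intervalIntegral.continuous_parametric_intervalIntegral_of_continuous'
      (hG d e) 0 (len e)).intervalIntegrable _ _

/-- the integrated null Lagrangian identity -/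
theorem LNet.det_identity {E : Type*} [NormedAddCommGroup E] [InnerProductSpace ℝ E] {o : E}
    {R K M : ℝ} (c : Cut E o R M) (N : LNet E o R K) {ε : ℝ} (hε : 0 < ε) :
    ∑ d, ∑ e, ∫ s in (0:ℝ)..N.len d, ∫ t in (0:ℝ)..N.len e,
      (c.f (N.x d s) * c.f (N.x e t) *
        (Fss ε (N.x d s) (N.u d s) (N.a d s) (N.x e t) *
          Ftt ε (N.x d s) (N.x e t) (N.u e t) (N.a e t) -
          Fst ε (N.x d s) (N.u d s) (N.x e t) (N.u e t) ^ 2) -
        RR c ε (N.x d s) (N.u d s) (N.a d s) (N.x e t) (N.u e t) (N.a e t)) = 0 := by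
  set X : N.D → ℝ → E := fun d s => N.x d (l4cl (N.len d) s) with hX
  set U : N.D → ℝ → E := fun d s => N.u d (l4cl (N.len d) s) with hU
  set A : N.D → ℝ → E := fun d s => N.a d (l4cl (N.len d) s) with hA
  have hXc : ∀ d, Continuous (X d) := fun d =>
    ContinuousOn.comp_continuous (fun s hs => (N.hx d s hs).continuousAt.continuousWithinAt)
      (l4cl_cont _) (l4cl_mem (N.len_pos d))
  have hUc : ∀ d, Continuous (U d) := fun d =>
    ContinuousOn.comp_continuous (fun s hs => (N.hu d s hs).continuousAt.continuousWithinAt)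
      (l4cl_cont _) (l4cl_mem (N.len_pos d))
  have hAc : ∀ d, Continuous (A d) := fun d =>
    ContinuousOn.comp_continuous (N.ac d) (l4cl_cont _) (l4cl_mem (N.len_pos d))
  have hXe : ∀ d, ∀ s ∈ Set.Icc 0 (N.len d), X d s = N.x d s := fun d s hs => by
    rw [hX]; simp only [l4cl_eq hs]
  have hUe : ∀ d, ∀ s ∈ Set.Icc 0 (N.len d), U d s = N.u d s := fun d s hs => by
    rw [hU]; simp only [l4cl_eq hs]
  have hAe : ∀ d, ∀ s ∈ Set.Icc 0 (N.len d), A d s = N.a d s := fun d s hs => by
    rw [hA]; simp only [l4cl_eq hs]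
  obtain ⟨G1, hG1⟩ : ∃ G1 : N.D → N.D → ℝ → ℝ → ℝ, G1 = fun d e s t =>
    DP1 c ε (X d s) (U d s) (A d s) (X e t) (U e t) (A e t) := ⟨_, rfl⟩
  obtain ⟨G2, hG2⟩ : ∃ G2 : N.D → N.D → ℝ → ℝ → ℝ, G2 = fun d e s t =>
    DP2 c ε (X d s) (U d s) (A d s) (X e t) (U e t) (A e t) := ⟨_, rfl⟩
  have hG1c : ∀ d e, Continuous (Function.uncurry (G1 d e)) := fun d e => by
    rw [hG1]
    exact l4_DP1 c hε ((hXc d).comp continuous_fst) ((hUc d).comp continuous_fst)
      ((hAc d).comp continuous_fst) ((hXc e).comp continuous_snd) ((hUc e).comp continuous_snd)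
      ((hAc e).comp continuous_snd)
  have hG2c : ∀ d e, Continuous (Function.uncurry (G2 d e)) := fun d e => by
    rw [hG2]
    exact l4_DP2 c hε ((hXc d).comp continuous_fst) ((hUc d).comp continuous_fst)
      ((hAc d).comp continuous_fst) ((hXc e).comp continuous_snd) ((hUc e).comp continuous_snd)
      ((hAc e).comp continuous_snd)
  -- first family
  have S1 : ∑ d, ∑ e, ∫ s in (0:ℝ)..N.len d, ∫ t in (0:ℝ)..N.len e, G1 d e s t = 0 := by
    rw [Finset.sum_comm]
    have hsw : ∀ e d, ∫ s in (0:ℝ)..N.len d, ∫ t in (0:ℝ)..N.len e, G1 d e s t =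
        ∫ t in (0:ℝ)..N.len e, ∫ s in (0:ℝ)..N.len d, G1 d e s t := by
      intro e d
      refine MeasureTheory.intervalIntegral_intervalIntegral_swap ?_
      refine IntegrableOn.mono_set ?_ (Set.prod_mono Set.uIoc_subset_uIcc Set.uIoc_subset_uIcc)
      exact (hG1c d e).continuousOn.integrableOn_compact
        (isCompact_uIcc.prod isCompact_uIcc)
    simp only [hsw]
    refine l4_sum1 N.len N.len_pos (fun e d t s => G1 d e s t) ?_ ?_
    · intro e d
      exact (hG1c d e).comp continuous_swap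
    · intro e t ht
      have h1 : ∀ d, ∫ s in (0:ℝ)..N.len d, G1 d e s t =
          PP c ε (N.x d (N.len d)) (N.u d (N.len d)) (N.x e t) (N.u e t) (N.a e t) -
          PP c ε (N.x d 0) (N.u d 0) (N.x e t) (N.u e t) (N.a e t) := by
        intro d
        refine intervalIntegral.integral_eq_sub_of_hasDerivAt
          (f := fun s => PP c ε (N.x d s) (N.u d s) (N.x e t) (N.u e t) (N.a e t)) ?_ ?_
        · intro s hs
          rw [Set.uIcc_of_le (N.len_pos d).le] at hs
          have := hasDerivAt_PP c hε (N.x d) (N.u d) (N.a d s) (N.x e t) (N.u e t) (N.a e t) s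
            (N.hx d s hs) (N.hu d s hs)
          simp only [hG1, hXe d s hs, hUe d s hs, hAe d s hs, hXe e t ht, hUe e t ht, hAe e t ht]
          exact this
        · exact ((hG1c d e).comp (continuous_id.prodMk continuous_const)).intervalIntegrable _ _
      simp only [h1]
      exact N.fv (fun z w => PP c ε z w (N.x e t) (N.u e t) (N.a e t))
        (fun z u v => l4_PP_add c z u v _ _ _) (fun z r u => l4_PP_smul c r z u _ _ _)
        (fun z hz u => by
          simp only [PP, c.zero z hz, c.zero' z hz]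
          simp)
  have S2 : ∑ d, ∑ e, ∫ s in (0:ℝ)..N.len d, ∫ t in (0:ℝ)..N.len e, G2 d e s t = 0 := by
    refine l4_sum1 N.len N.len_pos G2 hG2c ?_
    intro d s hs
    have h1 : ∀ e, ∫ t in (0:ℝ)..N.len e, G2 d e s t =
        PQ c ε (N.x d s) (N.u d s) (N.a d s) (N.x e (N.len e)) (N.u e (N.len e)) -
        PQ c ε (N.x d s) (N.u d s) (N.a d s) (N.x e 0) (N.u e 0) := by
      intro e
      refine intervalIntegral.integral_eq_sub_of_hasDerivAt
        (f := fun t => PQ c ε (N.x d s) (N.u d s) (N.a d s) (N.x e t) (N.u e t)) ?_ ?_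
      · intro t ht
        rw [Set.uIcc_of_le (N.len_pos e).le] at ht
        have := hasDerivAt_PQ c hε (N.x d s) (N.u d s) (N.a d s) (N.x e) (N.u e) (N.a e t) t
          (N.hx e t ht) (N.hu e t ht)
        simp only [hG2, hXe d s hs, hUe d s hs, hAe d s hs, hXe e t ht, hUe e t ht, hAe e t ht]
        exact this
      · exact ((hG2c d e).comp (continuous_const.prodMk continuous_id)).intervalIntegrable _ _
    simp only [h1]
    exact N.fv (fun z w => PQ c ε (N.x d s) (N.u d s) (N.a d s) z w)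
      (fun z u v => l4_PQ_add c _ _ _ z u v) (fun z r u => l4_PQ_smul c r _ _ _ z u)
      (fun z hz u => by
        simp only [PQ, c.zero z hz, c.zero' z hz]
        simp)
  have h2 : ∀ d e, ∫ s in (0:ℝ)..N.len d, ∫ t in (0:ℝ)..N.len e,
      (c.f (N.x d s) * c.f (N.x e t) *
        (Fss ε (N.x d s) (N.u d s) (N.a d s) (N.x e t) *
          Ftt ε (N.x d s) (N.x e t) (N.u e t) (N.a e t) -
          Fst ε (N.x d s) (N.u d s) (N.x e t) (N.u e t) ^ 2) -
        RR c ε (N.x d s) (N.u d s) (N.a d s) (N.x e t) (N.u e t) (N.a e t)) =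
      (∫ s in (0:ℝ)..N.len d, ∫ t in (0:ℝ)..N.len e, G1 d e s t) +
      ∫ s in (0:ℝ)..N.len d, ∫ t in (0:ℝ)..N.len e, G2 d e s t := by
    intro d e
    rw [← intervalIntegral.integral_add]
    · refine intervalIntegral.integral_congr ?_
      intro s hs
      rw [Set.uIcc_of_le (N.len_pos d).le] at hs
      show _ = (∫ t in (0:ℝ)..N.len e, G1 d e s t) + ∫ t in (0:ℝ)..N.len e, G2 d e s t
      rw [← intervalIntegral.integral_add]
      · refine intervalIntegral.integral_congr ?_
        intro t ht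
        rw [Set.uIcc_of_le (N.len_pos e).le] at ht
        show _ = G1 d e s t + G2 d e s t
        simp only [hG1, hG2, hXe d s hs, hUe d s hs, hAe d s hs, hXe e t ht, hUe e t ht,
          hAe e t ht]
        exact (flux_sum c ε _ _ _ _ _ _).symm
      · exact ((hG1c d e).comp (continuous_const.prodMk continuous_id)).intervalIntegrable _ _
      · exact ((hG2c d e).comp (continuous_const.prodMk continuous_id)).intervalIntegrable _ _
    · exact (intervalIntegral.continuous_parametric_intervalIntegral_of_continuous'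
        (hG1c d e) 0 (N.len e)).intervalIntegrable _ _
    · exact (intervalIntegral.continuous_parametric_intervalIntegral_of_continuous'
        (hG2c d e) 0 (N.len e)).intervalIntegrable _ _
  simp only [h2, Finset.sum_add_distrib]
  rw [S1, S2, add_zero]

end Pool.Agent.GNet
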