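import Mathlib
import Pool.Agent.Helper971.BK.DLNet

set_option autoImplicit false

open Finset Classical MeasureTheory

namespace Pool.Agent.GNet

lemma gram3 {E : Type*} [NormedAddCommGroup E] [InnerProductSpace ℝ E] (z u v : E) :
    0 ≤ inner ℝ z z * (inner ℝ u u * inner ℝ v v - inner ℝ u v ^ 2) -
      (inner ℝ u u * inner ℝ z v ^ 2 + inner ℝ v v * inner ℝ z u ^ 2 -
        2 * inner ℝ z u * inner ℝ z v * inner ℝ u v) := by
  rcases eq_or_ne u 0 with hu | hu
  · subst hu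
    simp
  · have hp : 0 < (inner ℝ u u : ℝ) := real_inner_self_pos.mpr hu
    set p : ℝ := inner ℝ u u with hpd
    set q : ℝ := inner ℝ v v with hqd
    set α : ℝ := inner ℝ z u with hα
    set β : ℝ := inner ℝ z v with hβ
    set γ : ℝ := inner ℝ u v with hγ
    set ζ : ℝ := inner ℝ z z with hζ
    have e1 : (inner ℝ (p • z - α • u) (p • v - γ • u) : ℝ) = p * (p * β - α * γ) := by
      simp only [inner_sub_left, inner_sub_right, real_inner_smul_left, real_inner_smul_right]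
      rw [← hβ, ← hα, ← hγ, ← hpd]; ring
    have e2 : (inner ℝ (p • z - α • u) (p • z - α • u) : ℝ) = p * (p * ζ - α ^ 2) := by
      simp only [inner_sub_left, inner_sub_right, real_inner_smul_left, real_inner_smul_right]
      rw [real_inner_comm z u, ← hζ, ← hα, ← hpd]; ring
    have e3 : (inner ℝ (p • v - γ • u) (p • v - γ • u) : ℝ) = p * (p * q - γ ^ 2) := by
      simp only [inner_sub_left, inner_sub_right, real_inner_smul_left, real_inner_smul_right]
      rw [real_inner_comm u v, ← hγ, ← hqd, ← hpd]; ring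
    have hcs := real_inner_mul_inner_self_le (p • z - α • u) (p • v - γ • u)
    rw [e1, e2, e3] at hcs
    have h1 : p ^ 3 * (ζ * (p * q - γ ^ 2) - (p * β ^ 2 + q * α ^ 2 - 2 * α * β * γ)) =
        p * (p * ζ - α ^ 2) * (p * (p * q - γ ^ 2)) - p * (p * β - α * γ) * (p * (p * β - α * γ)) := by
      ring
    have h2 : 0 ≤ p ^ 3 * (ζ * (p * q - γ ^ 2) - (p * β ^ 2 + q * α ^ 2 - 2 * α * β * γ)) := by
      rw [h1]; linarith
    exact nonneg_of_mul_nonneg_right h2 (by positivity)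

lemma NN_pos_l5 {E : Type*} [NormedAddCommGroup E] [InnerProductSpace ℝ E] {ε : ℝ} (hε : 0 < ε) (x y : E) :
    0 < NN ε x y := by
  unfold NN
  have := real_inner_self_nonneg (x := y - x)
  positivity

lemma HH_pos_l5 {E : Type*} [NormedAddCommGroup E] [InnerProductSpace ℝ E] {ε : ℝ} (hε : 0 < ε) (x y : E) :
    0 < HH ε x y := Real.sqrt_pos.mpr (NN_pos_l5 hε x y)

lemma HH_sq_l5 {E : Type*} [NormedAddCommGroup E] [InnerProductSpace ℝ E] {ε : ℝ} (hε : 0 < ε) (x y : E) :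
    HH ε x y ^ 2 = NN ε x y := Real.sq_sqrt (NN_pos_l5 hε x y).le

lemma norm_le_HH_l5 {E : Type*} [NormedAddCommGroup E] [InnerProductSpace ℝ E] (ε : ℝ) (x y : E) :
    ‖y - x‖ ≤ HH ε x y := by
  unfold HH NN
  apply Real.le_sqrt_of_sq_le
  rw [real_inner_self_eq_norm_sq]
  nlinarith [sq_nonneg ε]

lemma inner_div_le_l5 {E : Type*} [NormedAddCommGroup E] [InnerProductSpace ℝ E] {ε K : ℝ} (hε : 0 < ε)
    (x y a : E) (ha : ‖a‖ ≤ K) : |inner ℝ (y - x) a / HH ε x y| ≤ K := by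
  have hH := HH_pos_l5 hε x y
  rw [abs_div, abs_of_pos hH, div_le_iff₀ hH]
  calc |(inner ℝ (y - x) a : ℝ)| ≤ ‖y - x‖ * ‖a‖ := abs_real_inner_le_norm _ _
    _ ≤ HH ε x y * K := mul_le_mul (norm_le_HH_l5 ε x y) ha (norm_nonneg _) hH.le
    _ = K * HH ε x y := mul_comm _ _

lemma aa_nonneg_l5 {E : Type*} [NormedAddCommGroup E] [InnerProductSpace ℝ E] {ε : ℝ} (hε : 0 < ε)
    (x u y : E) : 0 ≤ aa ε x u y := by
  have hN := NN_pos_l5 hε x y
  have hH := HH_pos_l5 hε x y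
  unfold aa
  refine div_nonneg ?_ hH.le
  rw [sub_nonneg, div_le_iff₀ hN]
  have h1 := real_inner_mul_inner_self_le (y - x) u
  have h2 : (inner ℝ (y - x) (y - x) : ℝ) ≤ NN ε x y := by unfold NN; nlinarith [sq_nonneg ε]
  have h3 : (0 : ℝ) ≤ inner ℝ u u := real_inner_self_nonneg
  nlinarith [mul_le_mul_of_nonneg_right h2 h3]

/-- lower bound of the determinant -/
theorem det_ge {E : Type*} [NormedAddCommGroup E] [InnerProductSpace ℝ E] {ε K : ℝ}
    (hε : 0 < ε) (x u a y v b : E) (ha : ‖a‖ ≤ K) (hb : ‖b‖ ≤ K) :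
    WW ε x u y v - K * (aa ε x u y + aa ε x v y) - K ^ 2 ≤
      Fss ε x u a y * Ftt ε x y v b - Fst ε x u y v ^ 2 := by
  have hN := NN_pos_l5 hε x y
  have hH := HH_pos_l5 hε x y
  have hHN := HH_sq_l5 hε x y
  have hK : 0 ≤ K := (norm_nonneg _).trans ha
  have hau := aa_nonneg_l5 hε x u y
  have hav := aa_nonneg_l5 hε x v y
  have hsa := abs_le.mp (inner_div_le_l5 hε x y a ha)
  have hsb := abs_le.mp (inner_div_le_l5 hε x y b hb)
  set sa : ℝ := inner ℝ (y - x) a / HH ε x y with hsad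
  set sb : ℝ := inner ℝ (y - x) b / HH ε x y with hsbd
  have hmain : WW ε x u y v ≤ aa ε x u y * aa ε x v y - Fst ε x u y v ^ 2 := by
    have hg := gram3 (y - x) u v
    have hid : aa ε x u y * aa ε x v y - Fst ε x u y v ^ 2 - WW ε x u y v =
        (inner ℝ (y - x) (y - x) * (inner ℝ u u * inner ℝ v v - inner ℝ u v ^ 2) -
      (inner ℝ u u * inner ℝ (y - x) v ^ 2 + inner ℝ v v * inner ℝ (y - x) u ^ 2 -
        2 * inner ℝ (y - x) u * inner ℝ (y - x) v * inner ℝ u v)) / NN ε x y ^ 2 := by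
      have hz : (inner ℝ (y - x) (y - x) : ℝ) = NN ε x y - ε ^ 2 := by unfold NN; ring
      unfold aa Fst WW wsq
      rw [hz]
      rw [div_mul_div_comm, div_pow, ← sq, hHN]
      field_simp
      ring
    have h2 : 0 ≤ aa ε x u y * aa ε x v y - Fst ε x u y v ^ 2 - WW ε x u y v := by
      rw [hid]; positivity
    linarith
  have e : Fss ε x u a y * Ftt ε x y v b - Fst ε x u y v ^ 2 =
      (aa ε x u y * aa ε x v y - Fst ε x u y v ^ 2) + aa ε x u y * sb - aa ε x v y * sa - sa * sb := by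
    unfold Fss Ftt
    rw [← hsad, ← hsbd]; ring
  have i1 : -(K * aa ε x u y) ≤ aa ε x u y * sb := by nlinarith [hsb.1]
  have i2 : aa ε x v y * sa ≤ K * aa ε x v y := by nlinarith [hsa.2]
  have i3 : sa * sb ≤ K ^ 2 := by
    have h1 : |sa| ≤ K := abs_le.mpr hsa
    have h2 : |sb| ≤ K := abs_le.mpr hsb
    calc sa * sb ≤ |sa * sb| := le_abs_self _
      _ = |sa| * |sb| := abs_mul _ _
      _ ≤ K * K := mul_le_mul h1 h2 (abs_nonneg _) hK
      _ = K ^ 2 := by ring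
  rw [e]
  linarith

theorem RR_le {E : Type*} [NormedAddCommGroup E] [InnerProductSpace ℝ E] {o : E} {R M : ℝ}
    (hM : 0 ≤ M) (c : Cut E o R M) {ε K : ℝ} (hε : 0 < ε) (hK : 1 ≤ K) (x u a y v b : E)
    (hu : ‖u‖ ≤ K) (hv : ‖v‖ ≤ K) (ha : ‖a‖ ≤ K) (hb : ‖b‖ ≤ K) :
    |RR c ε x u a y v b| ≤ (M ^ 2 + 2 * M) * K ^ 4 := by
  have hK0 : 0 ≤ K := by linarith
  have hFs : |Fs ε x u y| ≤ K := by
    unfold Fs
    rw [neg_div, abs_neg]
    exact inner_div_le_l5 hε x y u hu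
  have hFt : |Ft ε x y v| ≤ K := inner_div_le_l5 hε x y v hv
  have f1 : |c.f' x u| ≤ M * K := (c.f'_le x u).trans (mul_le_mul_of_nonneg_left hu hM)
  have f2 : |c.f' y v| ≤ M * K := (c.f'_le y v).trans (mul_le_mul_of_nonneg_left hv hM)
  have f3 : |c.f' x a| ≤ M * K := (c.f'_le x a).trans (mul_le_mul_of_nonneg_left ha hM)
  have f4 : |c.f' y b| ≤ M * K := (c.f'_le y b).trans (mul_le_mul_of_nonneg_left hb hM)
  have g1 : |c.f'' x u u| ≤ M * K * K := (c.f''_le x u u).trans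
    (mul_le_mul (mul_le_mul_of_nonneg_left hu hM) hu (norm_nonneg _) (by positivity))
  have g2 : |c.f'' y v v| ≤ M * K * K := (c.f''_le y v v).trans
    (mul_le_mul (mul_le_mul_of_nonneg_left hv hM) hv (norm_nonneg _) (by positivity))
  have hMK : M * K ≤ M * K * K := by nlinarith [mul_nonneg hM hK0]
  have s1 : |c.f'' x u u + c.f' x a| ≤ 2 * (M * K * K) := (abs_add_le _ _).trans (by linarith)
  have s2 : |c.f'' y v v + c.f' y b| ≤ 2 * (M * K * K) := (abs_add_le _ _).trans (by linarith)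
  have t1 : |c.f' x u * c.f' y v * Fs ε x u y * Ft ε x y v| ≤ M ^ 2 * K ^ 4 := by
    rw [abs_mul, abs_mul, abs_mul]
    calc |c.f' x u| * |c.f' y v| * |Fs ε x u y| * |Ft ε x y v| ≤ (M * K) * (M * K) * K * K := by
          gcongr
      _ = M ^ 2 * K ^ 4 := by ring
  have t2 : |1 / 2 * (c.f'' x u u + c.f' x a) * c.f y * Ft ε x y v ^ 2| ≤ M * K ^ 4 := by
    rw [abs_mul, abs_mul, abs_mul, abs_pow, abs_of_nonneg (c.nonneg y)]
    calc |(1 / 2 : ℝ)| * |c.f'' x u u + c.f' x a| * c.f y * |Ft ε x y v| ^ 2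
        ≤ (1 / 2) * (2 * (M * K * K)) * 1 * K ^ 2 := by
          have h0 := c.nonneg y
          have h1 := c.le_one y
          rw [abs_of_pos (by norm_num : (0 : ℝ) < 1 / 2)]
          gcongr
      _ = M * K ^ 4 := by ring
  have t3 : |1 / 2 * c.f x * (c.f'' y v v + c.f' y b) * Fs ε x u y ^ 2| ≤ M * K ^ 4 := by
    rw [abs_mul, abs_mul, abs_mul, abs_pow, abs_of_nonneg (c.nonneg x)]
    calc |(1 / 2 : ℝ)| * c.f x * |c.f'' y v v + c.f' y b| * |Fs ε x u y| ^ 2
        ≤ (1 / 2) * 1 * (2 * (M * K * K)) * K ^ 2 := by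
          have h0 := c.nonneg x
          have h1 := c.le_one x
          rw [abs_of_pos (by norm_num : (0 : ℝ) < 1 / 2)]
          gcongr
      _ = M * K ^ 4 := by ring
  unfold RR
  refine (abs_sub _ _).trans ?_
  have := abs_sub (c.f' x u * c.f' y v * Fs ε x u y * Ft ε x y v)
    (1 / 2 * (c.f'' x u u + c.f' x a) * c.f y * Ft ε x y v ^ 2)
  linarith

end Pool.Agent.GNet
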