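import Mathlib
import Pool.Agent.Helper971.BK.DLNet
import Pool.Agent.Helper971.BK.L2
import Pool.Agent.Helper971.BK.L4
import Pool.Agent.Helper971.BK.L5

set_option autoImplicit false

open Finset Classical MeasureTheory

namespace Pool.Agent.GNet

section aux

variable {a b : ℝ}

lemma aux_integrable {g : ℝ → ℝ → ℝ}
    (hg : ContinuousOn (Function.uncurry g) (Set.Icc 0 a ×ˢ Set.Icc 0 b)) :
    Integrable (Function.uncurry g)
      (((volume : Measure ℝ).restrict (Set.Ioc 0 a)).prod ((volume : Measure ℝ).restrict (Set.Ioc 0 b))) := by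
  rw [Measure.prod_restrict]
  have h1 : IntegrableOn (Function.uncurry g) (Set.Icc 0 a ×ˢ Set.Icc 0 b)
      ((volume : Measure ℝ).prod (volume : Measure ℝ)) :=
    hg.integrableOn_compact (isCompact_Icc.prod isCompact_Icc)
  exact h1.mono_set (Set.prod_mono Set.Ioc_subset_Icc_self Set.Ioc_subset_Icc_self)

lemma aux_conv (ha : 0 ≤ a) (hb : 0 ≤ b) {g : ℝ → ℝ → ℝ}
    (hg : ContinuousOn (Function.uncurry g) (Set.Icc 0 a ×ˢ Set.Icc 0 b)) :
    ∫ s in (0:ℝ)..a, ∫ t in (0:ℝ)..b, g s t = ∫ z, Function.uncurry g z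
      ∂(((volume : Measure ℝ).restrict (Set.Ioc 0 a)).prod ((volume : Measure ℝ).restrict (Set.Ioc 0 b))) := by
  rw [integral_prod _ (aux_integrable hg), intervalIntegral.integral_of_le ha]
  refine integral_congr_ae (Filter.Eventually.of_forall fun s => ?_)
  show ∫ t in (0:ℝ)..b, g s t = _
  rw [intervalIntegral.integral_of_le hb]
  rfl

lemma aux_mono (ha : 0 ≤ a) (hb : 0 ≤ b) {g h : ℝ → ℝ → ℝ}
    (hg : ContinuousOn (Function.uncurry g) (Set.Icc 0 a ×ˢ Set.Icc 0 b))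
    (hh : ContinuousOn (Function.uncurry h) (Set.Icc 0 a ×ˢ Set.Icc 0 b))
    (hle : ∀ s ∈ Set.Icc 0 a, ∀ t ∈ Set.Icc 0 b, g s t ≤ h s t) :
    ∫ s in (0:ℝ)..a, ∫ t in (0:ℝ)..b, g s t ≤ ∫ s in (0:ℝ)..a, ∫ t in (0:ℝ)..b, h s t := by
  rw [aux_conv ha hb hg, aux_conv ha hb hh]
  refine integral_mono_ae (aux_integrable hg) (aux_integrable hh) ?_
  rw [Measure.prod_restrict]
  filter_upwards [ae_restrict_mem (measurableSet_Ioc.prod measurableSet_Ioc)] with z hz
  exact hle z.1 (Set.Ioc_subset_Icc_self hz.1) z.2 (Set.Ioc_subset_Icc_self hz.2)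

lemma aux_add (ha : 0 ≤ a) (hb : 0 ≤ b) {g h : ℝ → ℝ → ℝ}
    (hg : ContinuousOn (Function.uncurry g) (Set.Icc 0 a ×ˢ Set.Icc 0 b))
    (hh : ContinuousOn (Function.uncurry h) (Set.Icc 0 a ×ˢ Set.Icc 0 b)) :
    ∫ s in (0:ℝ)..a, ∫ t in (0:ℝ)..b, (g s t + h s t) =
      (∫ s in (0:ℝ)..a, ∫ t in (0:ℝ)..b, g s t) + ∫ s in (0:ℝ)..a, ∫ t in (0:ℝ)..b, h s t := by
  rw [aux_conv ha hb hg, aux_conv ha hb hh, aux_conv ha hb (g := fun s t => g s t + h s t)
    (hg.add hh)]
  rw [← integral_add (aux_integrable hg) (aux_integrable hh)]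
  rfl

lemma aux_swap (ha : 0 ≤ a) (hb : 0 ≤ b) {g : ℝ → ℝ → ℝ}
    (hg : ContinuousOn (Function.uncurry g) (Set.Icc 0 a ×ˢ Set.Icc 0 b)) :
    ∫ s in (0:ℝ)..a, ∫ t in (0:ℝ)..b, g s t = ∫ t in (0:ℝ)..b, ∫ s in (0:ℝ)..a, g s t := by
  rw [intervalIntegral.integral_of_le ha, intervalIntegral.integral_of_le hb]
  have h1 := integral_integral_swap (aux_integrable hg)
  calc ∫ s in Set.Ioc 0 a, ∫ t in (0:ℝ)..b, g s t
      = ∫ s in Set.Ioc 0 a, ∫ t in Set.Ioc 0 b, g s t := by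
        refine integral_congr_ae (Filter.Eventually.of_forall fun s => ?_)
        exact intervalIntegral.integral_of_le hb
    _ = ∫ t in Set.Ioc 0 b, ∫ s in Set.Ioc 0 a, g s t := h1
    _ = _ := by
        refine integral_congr_ae (Filter.Eventually.of_forall fun t => ?_)
        exact (intervalIntegral.integral_of_le ha).symm

/-- interval integrability in the outer variable -/
lemma aux_outer (ha : 0 ≤ a) (hb : 0 ≤ b) {g : ℝ → ℝ → ℝ}
    (hg : ContinuousOn (Function.uncurry g) (Set.Icc 0 a ×ˢ Set.Icc 0 b)) :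
    IntervalIntegrable (fun s => ∫ t in (0:ℝ)..b, g s t) volume 0 a := by
  rw [intervalIntegrable_iff_integrableOn_Ioc_of_le ha]
  have := (aux_integrable hg).integral_prod_left
  refine this.congr (Filter.Eventually.of_forall fun s => ?_)
  exact (intervalIntegral.integral_of_le hb).symm

lemma aux_outer' (ha : 0 ≤ a) (hb : 0 ≤ b) {g : ℝ → ℝ → ℝ}
    (hg : ContinuousOn (Function.uncurry g) (Set.Icc 0 a ×ˢ Set.Icc 0 b)) :
    IntervalIntegrable (fun t => ∫ s in (0:ℝ)..a, g s t) volume 0 b := by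
  rw [intervalIntegrable_iff_integrableOn_Ioc_of_le hb]
  have := (aux_integrable hg).integral_prod_right
  refine this.congr (Filter.Eventually.of_forall fun s => ?_)
  exact (intervalIntegral.integral_of_le ha).symm

end aux

section cont

variable {E : Type*} [NormedAddCommGroup E] [InnerProductSpace ℝ E] {X : Type*} [TopologicalSpace X]
  {s : Set X} {x y u v p q : X → E} {ε : ℝ}

lemma NN_pos_l6 (hε : 0 < ε) (x y : E) : 0 < NN ε x y := by
  unfold NN
  have : 0 ≤ inner ℝ (y - x) (y - x) := real_inner_self_nonneg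
  positivity

lemma HH_pos_l6 (hε : 0 < ε) (x y : E) : 0 < HH ε x y := Real.sqrt_pos.2 (NN_pos_l6 hε x y)

lemma aa_nonneg_l6 (hε : 0 < ε) (x u y : E) : 0 ≤ aa ε x u y := by
  unfold aa
  refine div_nonneg ?_ (HH_pos_l6 hε x y).le
  rw [sub_nonneg, div_le_iff₀ (NN_pos_l6 hε x y)]
  have h1 := real_inner_mul_inner_self_le (y - x) u
  have h2 : 0 ≤ inner ℝ u u := real_inner_self_nonneg
  have h3 : 0 ≤ ε ^ 2 := sq_nonneg ε
  unfold NN
  nlinarith [mul_nonneg h2 h3]

lemma aa_symm (x u y : E) : aa ε x u y = aa ε y u x := by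
  unfold aa HH NN
  rw [← neg_sub x y, inner_neg_neg, inner_neg_left, neg_sq]

lemma cNN (hx : ContinuousOn x s) (hy : ContinuousOn y s) :
    ContinuousOn (fun p => NN ε (x p) (y p)) s :=
  continuousOn_const.add ((hy.sub hx).inner (hy.sub hx))

lemma cHH (hx : ContinuousOn x s) (hy : ContinuousOn y s) :
    ContinuousOn (fun p => HH ε (x p) (y p)) s := (cNN hx hy).sqrt

lemma cFs (hε : 0 < ε) (hx : ContinuousOn x s) (hu : ContinuousOn u s) (hy : ContinuousOn y s) :
    ContinuousOn (fun p => Fs ε (x p) (u p) (y p)) s :=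
  (((hy.sub hx).inner hu).neg).div (cHH hx hy) fun p _ => (HH_pos_l6 hε _ _).ne'

lemma cFt (hε : 0 < ε) (hx : ContinuousOn x s) (hy : ContinuousOn y s) (hv : ContinuousOn v s) :
    ContinuousOn (fun p => Ft ε (x p) (y p) (v p)) s :=
  ((hy.sub hx).inner hv).div (cHH hx hy) fun p _ => (HH_pos_l6 hε _ _).ne'

lemma caa (hε : 0 < ε) (hx : ContinuousOn x s) (hu : ContinuousOn u s) (hy : ContinuousOn y s) :
    ContinuousOn (fun p => aa ε (x p) (u p) (y p)) s :=
  ((hu.inner hu).sub ((((hy.sub hx).inner hu).pow 2).div (cNN hx hy)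
    fun p _ => (NN_pos_l6 hε _ _).ne')).div (cHH hx hy) fun p _ => (HH_pos_l6 hε _ _).ne'

lemma cFss (hε : 0 < ε) (hx : ContinuousOn x s) (hu : ContinuousOn u s) (hp : ContinuousOn p s)
    (hy : ContinuousOn y s) :
    ContinuousOn (fun z => Fss ε (x z) (u z) (p z) (y z)) s :=
  (caa hε hx hu hy).sub (((hy.sub hx).inner hp).div (cHH hx hy) fun p _ => (HH_pos_l6 hε _ _).ne')

lemma cFtt (hε : 0 < ε) (hx : ContinuousOn x s) (hy : ContinuousOn y s) (hv : ContinuousOn v s)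
    (hq : ContinuousOn q s) :
    ContinuousOn (fun z => Ftt ε (x z) (y z) (v z) (q z)) s :=
  (caa hε hx hv hy).add (((hy.sub hx).inner hq).div (cHH hx hy) fun p _ => (HH_pos_l6 hε _ _).ne')

lemma cFst (hε : 0 < ε) (hx : ContinuousOn x s) (hu : ContinuousOn u s) (hy : ContinuousOn y s)
    (hv : ContinuousOn v s) :
    ContinuousOn (fun z => Fst ε (x z) (u z) (y z) (v z)) s :=
  ((hu.inner hv).neg.add ((((hy.sub hx).inner hu).mul ((hy.sub hx).inner hv)).div
    (cNN hx hy) fun p _ => (NN_pos_l6 hε _ _).ne')).div (cHH hx hy) fun p _ => (HH_pos_l6 hε _ _).ne'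

lemma cWW (hε : 0 < ε) (hx : ContinuousOn x s) (hu : ContinuousOn u s) (hy : ContinuousOn y s)
    (hv : ContinuousOn v s) :
    ContinuousOn (fun z => WW ε (x z) (u z) (y z) (v z)) s :=
  (continuousOn_const.mul (((hu.inner hu).mul (hv.inner hv)).sub ((hu.inner hv).pow 2))).div
    ((cNN hx hy).pow 2) fun p _ => pow_ne_zero 2 (NN_pos_l6 hε _ _).ne'

variable {o : E} {R M : ℝ}

lemma Cut.cf (c : Cut E o R M) : Continuous c.f :=
  continuous_iff_continuousAt.2 fun x => (c.hf x).continuousAt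

lemma Cut.cf' (c : Cut E o R M) : Continuous c.f' :=
  continuous_iff_continuousAt.2 fun x => (c.hf' x).continuousAt

lemma cRR (hε : 0 < ε) (c : Cut E o R M) (hx : ContinuousOn x s) (hu : ContinuousOn u s)
    (hp : ContinuousOn p s) (hy : ContinuousOn y s) (hv : ContinuousOn v s) (hq : ContinuousOn q s) :
    ContinuousOn (fun z => RR c ε (x z) (u z) (p z) (y z) (v z) (q z)) s := by
  have h1 : ContinuousOn (fun z => c.f' (x z) (u z)) s := (c.cf'.comp_continuousOn hx).clm_apply hu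
  have h2 : ContinuousOn (fun z => c.f' (y z) (v z)) s := (c.cf'.comp_continuousOn hy).clm_apply hv
  have h3 : ContinuousOn (fun z => c.f' (x z) (p z)) s := (c.cf'.comp_continuousOn hx).clm_apply hp
  have h4 : ContinuousOn (fun z => c.f' (y z) (q z)) s := (c.cf'.comp_continuousOn hy).clm_apply hq
  have h5 : ContinuousOn (fun z => c.f'' (x z) (u z) (u z)) s :=
    ((c.cont.comp_continuousOn hx).clm_apply hu).clm_apply hu
  have h6 : ContinuousOn (fun z => c.f'' (y z) (v z) (v z)) s :=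
    ((c.cont.comp_continuousOn hy).clm_apply hv).clm_apply hv
  have h7 : ContinuousOn (fun z => c.f (x z)) s := c.cf.comp_continuousOn hx
  have h8 : ContinuousOn (fun z => c.f (y z)) s := c.cf.comp_continuousOn hy
  have h9 := cFs hε hx hu hy
  have h10 := cFt hε hx hy hv
  unfold RR
  exact ((((h1.mul h2).mul h9).mul h10).sub (((continuousOn_const.mul (h5.add h3)).mul h8).mul
    (h10.pow 2))).sub (((continuousOn_const.mul h7).mul (h6.add h4)).mul (h9.pow 2))

end cont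

/-- the regularised angle inequality -/
theorem LNet.angle_eps {E : Type*} [NormedAddCommGroup E] [InnerProductSpace ℝ E] {o : E}
    {R K M : ℝ} (hK : 1 ≤ K) (hM : 0 ≤ M) (c : Cut E o R M) (N : LNet E o R K) {ε : ℝ}
    (hε : 0 < ε) :
    ∑ d, ∑ e, ∫ s in (0:ℝ)..N.len d, ∫ t in (0:ℝ)..N.len e,
      c.f (N.x d s) * c.f (N.x e t) * WW ε (N.x d s) (N.u d s) (N.x e t) (N.u e t) ≤
      ((M ^ 2 + 2 * M) * K ^ 4 + 2 * K * (K + M * K ^ 2) + K ^ 2) * N.length ^ 2 := by
  have hxc : ∀ d, ContinuousOn (N.x d) (Set.Icc 0 (N.len d)) := fun d s hs =>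
    (N.hx d s hs).continuousAt.continuousWithinAt
  have huc : ∀ d, ContinuousOn (N.u d) (Set.Icc 0 (N.len d)) := fun d s hs =>
    (N.hu d s hs).continuousAt.continuousWithinAt
  -- the functions on the rectangle
  have f1 : ∀ (w : N.D → ℝ → E), (∀ d, ContinuousOn (w d) (Set.Icc 0 (N.len d))) → ∀ d e,
      ContinuousOn (fun z : ℝ × ℝ => w d z.1) (Set.Icc 0 (N.len d) ×ˢ Set.Icc 0 (N.len e)) := by
    intro w hw d e
    exact (hw d).comp continuousOn_fst fun z hz => hz.1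
  have f2 : ∀ (w : N.D → ℝ → E), (∀ d, ContinuousOn (w d) (Set.Icc 0 (N.len d))) → ∀ d e,
      ContinuousOn (fun z : ℝ × ℝ => w e z.2) (Set.Icc 0 (N.len d) ×ˢ Set.Icc 0 (N.len e)) := by
    intro w hw d e
    exact (hw e).comp continuousOn_snd fun z hz => hz.2
  set C1 : ℝ := (M ^ 2 + 2 * M) * K ^ 4 + K ^ 2 with hC1
  set L : ℝ := K + M * K ^ 2 with hL
  -- names of the integrands
  set g1 : N.D → N.D → ℝ → ℝ → ℝ := fun d e s t =>
    c.f (N.x d s) * c.f (N.x e t) * WW ε (N.x d s) (N.u d s) (N.x e t) (N.u e t) with hg1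
  set g2 : N.D → N.D → ℝ → ℝ → ℝ := fun d e s t =>
    c.f (N.x d s) * c.f (N.x e t) *
        (Fss ε (N.x d s) (N.u d s) (N.a d s) (N.x e t) *
          Ftt ε (N.x d s) (N.x e t) (N.u e t) (N.a e t) -
          Fst ε (N.x d s) (N.u d s) (N.x e t) (N.u e t) ^ 2) -
        RR c ε (N.x d s) (N.u d s) (N.a d s) (N.x e t) (N.u e t) (N.a e t) with hg2
  set g3 : N.D → N.D → ℝ → ℝ → ℝ := fun d e s t =>
    c.f (N.x d s) * aa ε (N.x d s) (N.u d s) (N.x e t) with hg3
  set g4 : N.D → N.D → ℝ → ℝ → ℝ := fun d e s t =>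
    c.f (N.x e t) * aa ε (N.x e t) (N.u e t) (N.x d s) with hg4
  have c1 : ∀ d e, ContinuousOn (Function.uncurry (g1 d e))
      (Set.Icc 0 (N.len d) ×ˢ Set.Icc 0 (N.len e)) := fun d e =>
    ((c.cf.comp_continuousOn (f1 _ hxc d e)).mul (c.cf.comp_continuousOn (f2 _ hxc d e))).mul
      (cWW hε (f1 _ hxc d e) (f1 _ huc d e) (f2 _ hxc d e) (f2 _ huc d e))
  have c2 : ∀ d e, ContinuousOn (Function.uncurry (g2 d e))
      (Set.Icc 0 (N.len d) ×ˢ Set.Icc 0 (N.len e)) := fun d e =>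
    (((c.cf.comp_continuousOn (f1 _ hxc d e)).mul (c.cf.comp_continuousOn (f2 _ hxc d e))).mul
      (((cFss hε (f1 _ hxc d e) (f1 _ huc d e) (f1 _ N.ac d e) (f2 _ hxc d e)).mul
        (cFtt hε (f1 _ hxc d e) (f2 _ hxc d e) (f2 _ huc d e) (f2 _ N.ac d e))).sub
        ((cFst hε (f1 _ hxc d e) (f1 _ huc d e) (f2 _ hxc d e) (f2 _ huc d e)).pow 2))).sub
      (cRR hε c (f1 _ hxc d e) (f1 _ huc d e) (f1 _ N.ac d e) (f2 _ hxc d e) (f2 _ huc d e)
        (f2 _ N.ac d e))
  have c3 : ∀ d e, ContinuousOn (Function.uncurry (g3 d e))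
      (Set.Icc 0 (N.len d) ×ˢ Set.Icc 0 (N.len e)) := fun d e =>
    (c.cf.comp_continuousOn (f1 _ hxc d e)).mul
      (caa hε (f1 _ hxc d e) (f1 _ huc d e) (f2 _ hxc d e))
  have c4 : ∀ d e, ContinuousOn (Function.uncurry (g4 d e))
      (Set.Icc 0 (N.len d) ×ˢ Set.Icc 0 (N.len e)) := fun d e =>
    (c.cf.comp_continuousOn (f2 _ hxc d e)).mul
      (caa hε (f2 _ hxc d e) (f2 _ huc d e) (f1 _ hxc d e))
  have hl : ∀ d, 0 ≤ N.len d := fun d => (N.len_pos d).le
  -- pointwise bound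
  have hpt : ∀ d e, ∀ s ∈ Set.Icc 0 (N.len d), ∀ t ∈ Set.Icc 0 (N.len e),
      g1 d e s t ≤ (g2 d e s t + C1) + (K * g3 d e s t + K * g4 d e s t) := by
    intro d e s hs t ht
    have e1 := det_ge hε (N.x d s) (N.u d s) (N.a d s) (N.x e t) (N.u e t) (N.a e t)
      (N.a_le d s hs) (N.a_le e t ht)
    have e2 := (abs_le.1 (RR_le hM c hε hK (N.x d s) (N.u d s) (N.a d s) (N.x e t) (N.u e t) (N.a e t)
      (N.u_le d s hs) (N.u_le e t ht) (N.a_le d s hs) (N.a_le e t ht))).2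
    have e3 := aa_nonneg_l6 hε (N.x d s) (N.u d s) (N.x e t)
    have e4 := aa_nonneg_l6 hε (N.x d s) (N.u e t) (N.x e t)
    have e5 := aa_symm (ε := ε) (N.x d s) (N.u e t) (N.x e t)
    have p1 := c.nonneg (N.x d s)
    have p2 := c.nonneg (N.x e t)
    have q1 := c.le_one (N.x d s)
    have q2 := c.le_one (N.x e t)
    simp only [hg1, hg2, hg3, hg4, hC1]
    rw [← e5]
    set F := c.f (N.x d s)
    set G := c.f (N.x e t)
    set A1 := aa ε (N.x d s) (N.u d s) (N.x e t)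
    set A2 := aa ε (N.x d s) (N.u e t) (N.x e t)
    set Wv := WW ε (N.x d s) (N.u d s) (N.x e t) (N.u e t)
    set Dv := Fss ε (N.x d s) (N.u d s) (N.a d s) (N.x e t) *
          Ftt ε (N.x d s) (N.x e t) (N.u e t) (N.a e t) -
          Fst ε (N.x d s) (N.u d s) (N.x e t) (N.u e t) ^ 2
    set Rv := RR c ε (N.x d s) (N.u d s) (N.a d s) (N.x e t) (N.u e t) (N.a e t)
    have hFG : 0 ≤ F * G := mul_nonneg p1 p2
    have hFG1 : F * G ≤ 1 := mul_le_one₀ q1 p2 q2
    have k0 : (0 : ℝ) ≤ K := by linarith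
    have r1 : F * G * Wv ≤ F * G * Dv + F * G * (K * (A1 + A2)) + F * G * K ^ 2 := by
      have := mul_le_mul_of_nonneg_left e1 hFG
      linarith
    have r2 : F * G * (K * (A1 + A2)) ≤ K * (F * A1) + K * (G * A2) := by
      have s1 : F * G * A1 ≤ F * A1 := by
        have : F * G ≤ F := mul_le_of_le_one_right p1 q2
        exact mul_le_mul_of_nonneg_right this e3
      have s2 : F * G * A2 ≤ G * A2 := by
        have : F * G ≤ G := mul_le_of_le_one_left p2 q1
        exact mul_le_mul_of_nonneg_right this e4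
      nlinarith
    have r3 : F * G * K ^ 2 ≤ K ^ 2 := by
      have := mul_le_mul_of_nonneg_right hFG1 (sq_nonneg K)
      linarith
    linarith
  have hconst : ∀ (C : ℝ) d e, ∫ _s in (0:ℝ)..N.len d, ∫ _t in (0:ℝ)..N.len e, C
      = C * (N.len d * N.len e) := by
    intro C d e
    simp only [intervalIntegral.integral_const, sub_zero, smul_eq_mul]
    ring
  have hcc : ∀ (C : ℝ) d e, ContinuousOn (Function.uncurry fun _ _ : ℝ => C)
      (Set.Icc 0 (N.len d) ×ˢ Set.Icc 0 (N.len e)) := fun C d e => continuousOn_const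
  have hI : ∀ d e, ∫ s in (0:ℝ)..N.len d, ∫ t in (0:ℝ)..N.len e, g1 d e s t ≤
      ((∫ s in (0:ℝ)..N.len d, ∫ t in (0:ℝ)..N.len e, g2 d e s t) + C1 * (N.len d * N.len e)) +
      (K * (∫ s in (0:ℝ)..N.len d, ∫ t in (0:ℝ)..N.len e, g3 d e s t) +
        K * ∫ s in (0:ℝ)..N.len d, ∫ t in (0:ℝ)..N.len e, g4 d e s t) := by
    intro d e
    have c3' : ContinuousOn (Function.uncurry fun s t => K * g3 d e s t)
      (Set.Icc 0 (N.len d) ×ˢ Set.Icc 0 (N.len e)) := continuousOn_const.mul (c3 d e)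
    have c4' : ContinuousOn (Function.uncurry fun s t => K * g4 d e s t)
      (Set.Icc 0 (N.len d) ×ˢ Set.Icc 0 (N.len e)) := continuousOn_const.mul (c4 d e)
    have m1 := aux_mono (hl d) (hl e) (c1 d e)
      (h := fun s t => (g2 d e s t + C1) + (K * g3 d e s t + K * g4 d e s t))
      (((c2 d e).add (hcc C1 d e)).add (c3'.add c4')) (hpt d e)
    refine m1.trans (le_of_eq ?_)
    rw [aux_add (hl d) (hl e) (g := fun s t => g2 d e s t + C1)
      (h := fun s t => K * g3 d e s t + K * g4 d e s t) ((c2 d e).add (hcc C1 d e)) (c3'.add c4'),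
      aux_add (hl d) (hl e) (c2 d e) (hcc C1 d e), hconst,
      aux_add (hl d) (hl e) c3' c4']
    simp only [intervalIntegral.integral_const_mul]
  have hsum := Finset.sum_le_sum fun d (_ : d ∈ (Finset.univ : Finset N.D)) =>
    Finset.sum_le_sum fun e (_ : e ∈ (Finset.univ : Finset N.D)) => hI d e
  have hdet : ∑ d, ∑ e, ∫ s in (0:ℝ)..N.len d, ∫ t in (0:ℝ)..N.len e, g2 d e s t = 0 :=
    N.det_identity c hε
  have hfo : ∀ y : E, ∑ d, ∫ s in (0:ℝ)..N.len d, c.f (N.x d s) * aa ε (N.x d s) (N.u d s) y ≤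
      L * N.length := fun y => N.first_order hK hM c hε y
  -- the fourth term
  have h4 : ∑ d, ∑ e, ∫ s in (0:ℝ)..N.len d, ∫ t in (0:ℝ)..N.len e, g4 d e s t ≤
      L * N.length ^ 2 := by
    have : ∀ d, ∑ e, ∫ s in (0:ℝ)..N.len d, ∫ t in (0:ℝ)..N.len e, g4 d e s t ≤
        L * N.length * N.len d := by
      intro d
      rw [← intervalIntegral.integral_finsetSum fun e _ => aux_outer (hl d) (hl e) (c4 d e)]
      calc ∫ s in (0:ℝ)..N.len d, ∑ e, ∫ t in (0:ℝ)..N.len e, g4 d e s t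
          ≤ ∫ _s in (0:ℝ)..N.len d, L * N.length := by
            refine intervalIntegral.integral_mono_on (hl d) ?_ (by simp) fun s _ => hfo (N.x d s)
            have hsm := IntervalIntegrable.sum Finset.univ fun e _ => aux_outer (hl d) (hl e) (c4 d e)
            rwa [Finset.sum_fn] at hsm
        _ = _ := by
            rw [intervalIntegral.integral_const, sub_zero, smul_eq_mul]; ring
    calc _ ≤ ∑ d, L * N.length * N.len d := Finset.sum_le_sum fun d _ => this d
      _ = L * N.length ^ 2 := by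
          rw [← Finset.mul_sum]; unfold LNet.length; ring
  -- the third term
  have h3 : ∑ d, ∑ e, ∫ s in (0:ℝ)..N.len d, ∫ t in (0:ℝ)..N.len e, g3 d e s t ≤
      L * N.length ^ 2 := by
    rw [Finset.sum_comm]
    have : ∀ e, ∑ d, ∫ s in (0:ℝ)..N.len d, ∫ t in (0:ℝ)..N.len e, g3 d e s t ≤
        L * N.length * N.len e := by
      intro e
      have hsw : ∑ d, ∫ s in (0:ℝ)..N.len d, ∫ t in (0:ℝ)..N.len e, g3 d e s t
          = ∑ d, ∫ t in (0:ℝ)..N.len e, ∫ s in (0:ℝ)..N.len d, g3 d e s t :=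
        Finset.sum_congr rfl fun d _ => aux_swap (hl d) (hl e) (c3 d e)
      rw [hsw, ← intervalIntegral.integral_finsetSum fun d _ => aux_outer' (hl d) (hl e) (c3 d e)]
      calc ∫ t in (0:ℝ)..N.len e, ∑ d, ∫ s in (0:ℝ)..N.len d, g3 d e s t
          ≤ ∫ _t in (0:ℝ)..N.len e, L * N.length := by
            refine intervalIntegral.integral_mono_on (hl e) ?_ (by simp) fun t _ => hfo (N.x e t)
            have hsm := IntervalIntegrable.sum Finset.univ fun d _ => aux_outer' (hl d) (hl e) (c3 d e)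
            rwa [Finset.sum_fn] at hsm
        _ = _ := by
            rw [intervalIntegral.integral_const, sub_zero, smul_eq_mul]; ring
    calc _ ≤ ∑ e, L * N.length * N.len e := Finset.sum_le_sum fun e _ => this e
      _ = L * N.length ^ 2 := by
          rw [← Finset.mul_sum]; unfold LNet.length; ring
  have hcs : ∑ d, ∑ e, C1 * (N.len d * N.len e) = C1 * N.length ^ 2 := by
    unfold LNet.length
    rw [sq, Finset.sum_mul_sum, Finset.mul_sum]
    refine Finset.sum_congr rfl fun d _ => ?_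
    rw [Finset.mul_sum]
  refine hsum.trans ?_
  simp only [Finset.sum_add_distrib, ← Finset.mul_sum]
  have hcs' : ∑ d, ∑ e, C1 * (N.len d * N.len e) = ∑ d, C1 * ∑ e, N.len d * N.len e :=
    Finset.sum_congr rfl fun d _ => (Finset.mul_sum _ _ _).symm
  have k0 : (0 : ℝ) ≤ K := by linarith
  have t3 := mul_le_mul_of_nonneg_left h3 k0
  have t4 := mul_le_mul_of_nonneg_left h4 k0
  rw [hdet, zero_add]
  have hcl : C1 * ∑ i, N.len i * ∑ i, N.len i = C1 * N.length ^ 2 := by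
    rw [← Finset.sum_mul]; unfold LNet.length; ring
  rw [hcl]
  have hfin : C1 * N.length ^ 2 + (K * (L * N.length ^ 2) + K * (L * N.length ^ 2)) =
      ((M ^ 2 + 2 * M) * K ^ 4 + 2 * K * L + K ^ 2) * N.length ^ 2 := by
    rw [hC1]; ring
  linarith

end Pool.Agent.GNet
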