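import Mathlib
import Pool.Agent.Helper971.BK.DLNet

set_option autoImplicit false

open Finset Classical MeasureTheory

namespace Pool.Agent.GNet

theorem taylor_c {E : Type*} [NormedAddCommGroup E] [InnerProductSpace ℝ E] {x u a : ℝ → E}
    {L K : ℝ}
    (h : ∀ s ∈ Set.Icc 0 L, HasDerivAt x (u s) s ∧ HasDerivAt u (a s) s ∧ ‖u s‖ ≤ K ∧
        1 ≤ K * ‖u s‖ ∧ ‖a s‖ ≤ K) (hK : 0 ≤ K) (s : ℝ) (hs : s ∈ Set.Icc 0 L) :
    ‖x s - x 0‖ ≤ K * s ∧ ‖x s - x 0 - s • u 0‖ ≤ K * s ^ 2 := by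
  have hsub : ∀ r ∈ Set.Icc 0 s, r ∈ Set.Icc 0 L := fun r hr => ⟨hr.1, hr.2.trans hs.2⟩
  have h0 : (0:ℝ) ∈ Set.Icc 0 s := ⟨le_rfl, hs.1⟩
  have hss : s ∈ Set.Icc 0 s := ⟨hs.1, le_rfl⟩
  have h1 : ‖x s - x 0‖ ≤ K * ‖s - 0‖ :=
    Convex.norm_image_sub_le_of_norm_hasDerivWithin_le (f := x) (f' := u) (s := Set.Icc 0 s)
      (fun r hr => (h r (hsub r hr)).1.hasDerivWithinAt) (fun r hr => (h r (hsub r hr)).2.2.1)
      (convex_Icc _ _) h0 hss
  have h2 : ∀ r ∈ Set.Icc 0 s, ‖u r - u 0‖ ≤ K * s := by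
    intro r hr
    have := Convex.norm_image_sub_le_of_norm_hasDerivWithin_le (f := u) (f' := a)
      (s := Set.Icc 0 s)
      (fun r hr => (h r (hsub r hr)).2.1.hasDerivWithinAt)
      (fun r hr => (h r (hsub r hr)).2.2.2.2) (convex_Icc _ _) h0 hr
    refine this.trans ?_
    rw [sub_zero, Real.norm_eq_abs, abs_of_nonneg hr.1]
    exact mul_le_mul_of_nonneg_left hr.2 hK
  have h3 : ‖(x s - s • u 0) - (x 0 - (0:ℝ) • u 0)‖ ≤ (K * s) * ‖s - 0‖ := by
    refine Convex.norm_image_sub_le_of_norm_hasDerivWithin_le (f := fun r => x r - r • u 0)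
      (f' := fun r => u r - u 0) (s := Set.Icc 0 s) ?_ h2 (convex_Icc _ _) h0 hss
    intro r hr
    have e := (h r (hsub r hr)).1.sub ((hasDerivAt_id r).smul_const (u 0))
    rw [one_smul] at e
    exact e.hasDerivWithinAt
  rw [sub_zero, Real.norm_eq_abs, abs_of_nonneg hs.1] at h1 h3
  refine ⟨h1, ?_⟩
  have e : x s - x 0 - s • u 0 = (x s - s • u 0) - (x 0 - (0:ℝ) • u 0) := by
    rw [zero_smul]; abel
  rw [e]
  calc _ ≤ _ := h3
    _ = K * s ^ 2 := by ring

theorem wsq_nonneg_l7 {E : Type*} [NormedAddCommGroup E] [InnerProductSpace ℝ E] (p q : E) :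
    0 ≤ wsq p q := by
  have := real_inner_mul_inner_self_le p q
  unfold wsq
  linarith [sq (inner ℝ p q : ℝ)]

theorem lam_est {E : Type*} [NormedAddCommGroup E] [InnerProductSpace ℝ E] {K : ℝ}
    (hK : 1 ≤ K) {p q : E} (hp : 1 ≤ K * ‖p‖) (hq : 1 ≤ K * ‖q‖) (hpq : 0 < (inner ℝ p q : ℝ)) :
    ‖(‖p‖ / ‖q‖) • q - p‖ ≤ 2 * K * Real.sqrt (wsq p q) := by
  have hP : 0 < ‖p‖ := by
    by_contra hc
    have : ‖p‖ = 0 := le_antisymm (not_lt.1 hc) (norm_nonneg _)
    rw [this, mul_zero] at hp; linarith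
  have hQ : 0 < ‖q‖ := by
    by_contra hc
    have : ‖q‖ = 0 := le_antisymm (not_lt.1 hc) (norm_nonneg _)
    rw [this, mul_zero] at hq; linarith
  have hc : (inner ℝ p q : ℝ) ≤ ‖p‖ * ‖q‖ := real_inner_le_norm p q
  have hW := wsq_nonneg_l7 p q
  have e1 : wsq p q = ‖p‖ ^ 2 * ‖q‖ ^ 2 - (inner ℝ p q : ℝ) ^ 2 := by
    unfold wsq; rw [real_inner_self_eq_norm_sq, real_inner_self_eq_norm_sq]
  have e2 : ‖(‖p‖ / ‖q‖) • q - p‖ ^ 2 = 2 * ‖p‖ ^ 2 - 2 * (‖p‖ / ‖q‖) * (inner ℝ p q : ℝ) := by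
    rw [norm_sub_sq_real, norm_smul, real_inner_smul_left, real_inner_comm, Real.norm_eq_abs,
      abs_of_pos (div_pos hP hQ), div_mul_cancel₀ _ hQ.ne']
    ring
  have e3 : ‖(‖p‖ / ‖q‖) • q - p‖ ^ 2 * ‖q‖ ^ 2 ≤ 2 * wsq p q := by
    rw [e2, e1]
    have : (2 * ‖p‖ ^ 2 - 2 * (‖p‖ / ‖q‖) * (inner ℝ p q : ℝ)) * ‖q‖ ^ 2 =
        2 * ‖p‖ ^ 2 * ‖q‖ ^ 2 - 2 * ‖p‖ * ‖q‖ * (inner ℝ p q : ℝ) := by
      field_simp
    rw [this]
    have := mul_le_mul_of_nonneg_left hc hpq.le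
    nlinarith
  have e4 : ‖(‖p‖ / ‖q‖) • q - p‖ ^ 2 ≤ (2 * K * Real.sqrt (wsq p q)) ^ 2 := by
    have hs : Real.sqrt (wsq p q) ^ 2 = wsq p q := Real.sq_sqrt hW
    have h1 : (1:ℝ) ≤ (K * ‖q‖) ^ 2 := one_le_pow₀ hq
    calc ‖(‖p‖ / ‖q‖) • q - p‖ ^ 2 ≤ ‖(‖p‖ / ‖q‖) • q - p‖ ^ 2 * (K * ‖q‖) ^ 2 :=
          le_mul_of_one_le_right (sq_nonneg _) h1
      _ = K ^ 2 * (‖(‖p‖ / ‖q‖) • q - p‖ ^ 2 * ‖q‖ ^ 2) := by ring
      _ ≤ K ^ 2 * (2 * wsq p q) := mul_le_mul_of_nonneg_left e3 (sq_nonneg _)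
      _ ≤ K ^ 2 * (4 * wsq p q) := by
          apply mul_le_mul_of_nonneg_left _ (sq_nonneg _); linarith
      _ = (2 * K * Real.sqrt (wsq p q)) ^ 2 := by rw [mul_pow, hs]; ring
  exact (sq_le_sq₀ (norm_nonneg _) (by positivity)).1 e4

theorem lemA0 {F : ℝ → ℝ → ℝ} (hF : Continuous (Function.uncurry F)) {L L' τ δ m : ℝ}
    (hL : 0 ≤ L) (hL' : 0 ≤ L') (hτ : 0 ≤ τ) (hτL : τ ≤ L) (hδ : 0 ≤ δ) (α : ℝ → ℝ)
    (h0 : ∀ s ∈ Set.Icc 0 L, ∀ t ∈ Set.Icc 0 L', 0 ≤ F s t)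
    (hα : ∀ s ∈ Set.Icc 0 τ, 0 ≤ α s ∧ α s + δ ≤ L')
    (hm : ∀ s ∈ Set.Icc 0 τ, ∀ t ∈ Set.Icc (α s) (α s + δ), m ≤ F s t) :
    τ * (δ * m) ≤ ∫ s in (0:ℝ)..L, ∫ t in (0:ℝ)..L', F s t := by
  have hG : Continuous fun s => ∫ t in (0:ℝ)..L', F s t :=
    intervalIntegral.continuous_parametric_intervalIntegral_of_continuous' hF 0 L'
  have hc : ∀ s, Continuous (F s) := fun s => hF.comp (Continuous.prodMk_right s)
  have hG0 : ∀ s ∈ Set.Icc 0 L, 0 ≤ ∫ t in (0:ℝ)..L', F s t := fun s hs =>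
    intervalIntegral.integral_nonneg hL' (h0 s hs)
  have hGm : ∀ s ∈ Set.Icc 0 τ, δ * m ≤ ∫ t in (0:ℝ)..L', F s t := by
    intro s hs
    have hsL : s ∈ Set.Icc 0 L := ⟨hs.1, hs.2.trans hτL⟩
    obtain ⟨a1, a2⟩ := hα s hs
    calc δ * m = ∫ t in (α s)..(α s + δ), m := by
          rw [intervalIntegral.integral_const]; simp
      _ ≤ ∫ t in (α s)..(α s + δ), F s t :=
          intervalIntegral.integral_mono_on (by linarith) intervalIntegrable_const
            ((hc s).intervalIntegrable _ _) (hm s hs)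
      _ ≤ ∫ t in (0:ℝ)..L', F s t := by
          apply intervalIntegral.integral_mono_interval a1 (by linarith) a2 _
            ((hc s).intervalIntegrable _ _)
          refine (ae_restrict_mem measurableSet_Ioc).mono fun t ht => ?_
          exact h0 s hsL t ⟨ht.1.le, ht.2⟩
  calc τ * (δ * m) = ∫ s in (0:ℝ)..τ, δ * m := by
        rw [intervalIntegral.integral_const]; simp
    _ ≤ ∫ s in (0:ℝ)..τ, ∫ t in (0:ℝ)..L', F s t :=
        intervalIntegral.integral_mono_on hτ intervalIntegrable_const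
          (hG.intervalIntegrable _ _) hGm
    _ ≤ ∫ s in (0:ℝ)..L, ∫ t in (0:ℝ)..L', F s t := by
        apply intervalIntegral.integral_mono_interval le_rfl hτ hτL _
          (hG.intervalIntegrable _ _)
        refine (ae_restrict_mem measurableSet_Ioc).mono fun t ht => ?_
        exact hG0 t ⟨ht.1.le, ht.2⟩

theorem lemA {E : Type*} [NormedAddCommGroup E] {F : E → E → E → E → ℝ}
    (hF : Continuous fun z : E × E × E × E => F z.1 z.2.1 z.2.2.1 z.2.2.2)
    {x u y v : ℝ → E} {L L' τ δ m : ℝ}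
    (hL : 0 ≤ L) (hL' : 0 ≤ L') (hx : ContinuousOn x (Set.Icc 0 L))
    (hu : ContinuousOn u (Set.Icc 0 L)) (hy : ContinuousOn y (Set.Icc 0 L'))
    (hv : ContinuousOn v (Set.Icc 0 L')) (hτ : 0 ≤ τ) (hτL : τ ≤ L) (hδ : 0 ≤ δ) (α : ℝ → ℝ)
    (h0 : ∀ x u y v, 0 ≤ F x u y v)
    (hα : ∀ s ∈ Set.Icc 0 τ, 0 ≤ α s ∧ α s + δ ≤ L')
    (hm : ∀ s ∈ Set.Icc 0 τ, ∀ t ∈ Set.Icc (α s) (α s + δ), m ≤ F (x s) (u s) (y t) (v t)) :
    τ * (δ * m) ≤ ∫ s in (0:ℝ)..L, ∫ t in (0:ℝ)..L', F (x s) (u s) (y t) (v t) := by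
  set P : ℝ → ℝ := fun s => (Set.projIcc 0 L hL s : ℝ) with hP
  set Q : ℝ → ℝ := fun s => (Set.projIcc 0 L' hL' s : ℝ) with hQ
  have hPc : Continuous P := continuous_subtype_val.comp continuous_projIcc
  have hQc : Continuous Q := continuous_subtype_val.comp continuous_projIcc
  have hPm : ∀ s, P s ∈ Set.Icc 0 L := fun s => (Set.projIcc 0 L hL s).2
  have hQm : ∀ s, Q s ∈ Set.Icc 0 L' := fun s => (Set.projIcc 0 L' hL' s).2
  have hPe : ∀ s ∈ Set.Icc 0 L, P s = s := fun s hs => by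
    rw [hP]; simp only; rw [Set.projIcc_of_mem hL hs]
  have hQe : ∀ s ∈ Set.Icc 0 L', Q s = s := fun s hs => by
    rw [hQ]; simp only; rw [Set.projIcc_of_mem hL' hs]
  have hx' : Continuous fun s => x (P s) := hx.comp_continuous hPc hPm
  have hu' : Continuous fun s => u (P s) := hu.comp_continuous hPc hPm
  have hy' : Continuous fun s => y (Q s) := hy.comp_continuous hQc hQm
  have hv' : Continuous fun s => v (Q s) := hv.comp_continuous hQc hQm
  have e : ∫ s in (0:ℝ)..L, ∫ t in (0:ℝ)..L', F (x s) (u s) (y t) (v t) =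
      ∫ s in (0:ℝ)..L, ∫ t in (0:ℝ)..L', F (x (P s)) (u (P s)) (y (Q t)) (v (Q t)) := by
    apply intervalIntegral.integral_congr
    intro s hs
    rw [Set.uIcc_of_le hL] at hs
    simp only
    apply intervalIntegral.integral_congr
    intro t ht
    rw [Set.uIcc_of_le hL'] at ht
    simp only
    rw [hPe s hs, hQe t ht]
  rw [e]
  refine lemA0 (F := fun s t => F (x (P s)) (u (P s)) (y (Q t)) (v (Q t))) ?_ hL hL' hτ hτL hδ α
    (fun s _ t _ => h0 _ _ _ _) hα ?_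
  · have hc : Continuous fun z : ℝ × ℝ => (x (P z.1), u (P z.1), y (Q z.2), v (Q z.2)) :=
      (hx'.comp continuous_fst).prodMk ((hu'.comp continuous_fst).prodMk
        ((hy'.comp continuous_snd).prodMk (hv'.comp continuous_snd)))
    exact hF.comp hc
  · intro s hs t ht
    have hα' := hα s hs
    rw [hPe s ⟨hs.1, hs.2.trans hτL⟩, hQe t ⟨hα'.1.trans ht.1, ht.2.trans hα'.2⟩]
    exact hm s hs t ht

theorem NN_pos_l7 {E : Type*} [NormedAddCommGroup E] [InnerProductSpace ℝ E] {ε : ℝ} (hε : 0 < ε)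
    (x y : E) : 0 < NN ε x y := by
  unfold NN
  have := real_inner_self_nonneg (x := y - x)
  positivity

theorem F_cont {E : Type*} [NormedAddCommGroup E] [InnerProductSpace ℝ E] {o : E} {R M : ℝ}
    (c : Cut E o R M) {ε : ℝ} (hε : 0 < ε) :
    Continuous fun z : E × E × E × E =>
      c.f z.1 * c.f z.2.2.1 * WW ε z.1 z.2.1 z.2.2.1 z.2.2.2 := by
  have hf : Continuous c.f := continuous_iff_continuousAt.2 fun x => (c.hf x).continuousAt
  have hN : ∀ z : E × E × E × E, NN ε z.1 z.2.2.1 ^ 2 ≠ 0 := fun z =>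
    pow_ne_zero 2 (NN_pos_l7 hε _ _).ne'
  refine ((hf.comp continuous_fst).mul
    (hf.comp (continuous_fst.comp (continuous_snd.comp continuous_snd)))).mul ?_
  unfold WW
  refine Continuous.div ?_ ?_ hN
  · unfold wsq; fun_prop
  · unfold NN; fun_prop

theorem F_lower {E : Type*} [NormedAddCommGroup E] [InnerProductSpace ℝ E] {K ε W : ℝ}
    (hε : 0 < ε) {x u y v : E} (hd : ‖y - x‖ ≤ 5 * K * ε) (hW0 : 0 ≤ W)
    (hW : W / 2 ≤ wsq u v) :
    (W / 2) / ((1 + 25 * K ^ 2) ^ 2 * ε ^ 2) ≤ WW ε x u y v := by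
  unfold WW
  have h1 : NN ε x y ≤ (1 + 25 * K ^ 2) * ε ^ 2 := by
    unfold NN
    rw [real_inner_self_eq_norm_sq]
    have : ‖y - x‖ ^ 2 ≤ (5 * K * ε) ^ 2 := pow_le_pow_left₀ (norm_nonneg _) hd 2
    nlinarith
  have h2 := NN_pos_l7 hε x y
  have h3 : NN ε x y ^ 2 ≤ ((1 + 25 * K ^ 2) * ε ^ 2) ^ 2 := pow_le_pow_left₀ h2.le h1 2
  calc (W / 2) / ((1 + 25 * K ^ 2) ^ 2 * ε ^ 2) =
      ε ^ 2 * (W / 2) / ((1 + 25 * K ^ 2) * ε ^ 2) ^ 2 := by
        have : (1 + 25 * K ^ 2) ≠ 0 := by positivity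
        field_simp
    _ ≤ ε ^ 2 * (W / 2) / NN ε x y ^ 2 := by
        apply div_le_div_of_nonneg_left (by positivity) (by positivity) h3
    _ ≤ ε ^ 2 * wsq u v / NN ε x y ^ 2 := by
        apply div_le_div_of_nonneg_right _ (by positivity)
        exact mul_le_mul_of_nonneg_left hW (sq_nonneg _)

/-- contribution of a corner -/
theorem corner {E : Type*} [NormedAddCommGroup E] [InnerProductSpace ℝ E] {o : E} {R K M : ℝ}
    (hR : 0 < R) (hK : 1 ≤ K) (c : Cut E o R M) :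
    ∃ κ : ℝ, 0 < κ ∧ ∀ (L L' : ℝ) (x u a y v b : ℝ → E), 0 < L → 0 < L' →
      (∀ s ∈ Set.Icc 0 L, HasDerivAt x (u s) s ∧ HasDerivAt u (a s) s ∧ ‖u s‖ ≤ K ∧
        1 ≤ K * ‖u s‖ ∧ ‖a s‖ ≤ K) →
      (∀ s ∈ Set.Icc 0 L', HasDerivAt y (v s) s ∧ HasDerivAt v (b s) s ∧ ‖v s‖ ≤ K ∧
        1 ≤ K * ‖v s‖ ∧ ‖b s‖ ≤ K) →
      x 0 = y 0 → x 0 ∈ Metric.ball o (4 * R) →
      ∃ ε₀ : ℝ, 0 < ε₀ ∧ ∀ ε : ℝ, 0 < ε → ε < ε₀ →
        κ * jj (u 0) (v 0) ≤ ∫ s in (0:ℝ)..L, ∫ t in (0:ℝ)..L',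
          c.f (x s) * c.f (y t) * WW ε (x s) (u s) (y t) (v t) := by
  have hK0 : 0 < K := by linarith
  set D : ℝ := (1 + 25 * K ^ 2) ^ 2 with hD
  have hDp : 0 < D := by positivity
  refine ⟨1 / (4 * D), by positivity, ?_⟩
  intro L L' x u a y v b hL hL' hx hy hxy hball
  have hxc : ContinuousOn x (Set.Icc 0 L) := fun s hs => (hx s hs).1.continuousAt.continuousWithinAt
  have huc : ContinuousOn u (Set.Icc 0 L) := fun s hs => (hx s hs).2.1.continuousAt.continuousWithinAt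
  have hyc : ContinuousOn y (Set.Icc 0 L') := fun s hs => (hy s hs).1.continuousAt.continuousWithinAt
  have hvc : ContinuousOn v (Set.Icc 0 L') := fun s hs => (hy s hs).2.1.continuousAt.continuousWithinAt
  have h0L : (0:ℝ) ∈ Set.Icc 0 L := ⟨le_rfl, hL.le⟩
  have h0L' : (0:ℝ) ∈ Set.Icc 0 L' := ⟨le_rfl, hL'.le⟩
  have hF0 : ∀ ε : ℝ, 0 < ε → ∀ x u y v : E, 0 ≤ c.f x * c.f y * WW ε x u y v := by
    intro ε hε x u y v
    refine mul_nonneg (mul_nonneg (c.nonneg _) (c.nonneg _)) ?_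
    unfold WW
    have := wsq_nonneg_l7 u v
    have := NN_pos_l7 hε x y
    positivity
  set W := wsq (u 0) (v 0) with hWd
  have hW0 : 0 ≤ W := wsq_nonneg_l7 _ _
  rcases hW0.eq_or_lt with hW | hW
  · -- degenerate
    refine ⟨1, one_pos, fun ε hε _ => ?_⟩
    have hj : jj (u 0) (v 0) = 0 := by
      unfold jj
      rw [← hWd, ← hW]; simp
    rw [hj, mul_zero]
    apply intervalIntegral.integral_nonneg hL.le
    intro s _
    apply intervalIntegral.integral_nonneg hL'.le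
    intro t _
    exact hF0 ε hε _ _ _ _
  · -- choose sigma
    obtain ⟨σ, hσ, hσL, hσL', hσp⟩ : ∃ σ : ℝ, 0 < σ ∧ σ ≤ L ∧ σ ≤ L' ∧
        ∀ s ∈ Set.Icc 0 σ, ∀ t ∈ Set.Icc 0 σ, c.f (x s) = 1 ∧ c.f (y t) = 1 ∧
          W / 2 ≤ wsq (u s) (v t) := by
      have c1 : ContinuousAt (fun z : ℝ × ℝ => wsq (u z.1) (v z.2)) (0, 0) := by
        have g1 : ContinuousAt (fun z : ℝ × ℝ => u z.1) (0, 0) :=
          ContinuousAt.comp (f := Prod.fst) (g := u) (hx 0 h0L).2.1.continuousAt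
            continuous_fst.continuousAt
        have g2 : ContinuousAt (fun z : ℝ × ℝ => v z.2) (0, 0) :=
          ContinuousAt.comp (f := Prod.snd) (g := v) (hy 0 h0L').2.1.continuousAt
            continuous_snd.continuousAt
        unfold wsq
        exact ((ContinuousAt.inner (𝕜 := ℝ) g1 g1).mul (ContinuousAt.inner (𝕜 := ℝ) g2 g2)).sub
          ((ContinuousAt.inner (𝕜 := ℝ) g1 g2).pow 2)
      have c2 : ContinuousAt (fun z : ℝ × ℝ => x z.1) (0, 0) :=
        ContinuousAt.comp (f := Prod.fst) (g := x) (hx 0 h0L).1.continuousAt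
          continuous_fst.continuousAt
      have c3 : ContinuousAt (fun z : ℝ × ℝ => y z.2) (0, 0) :=
        ContinuousAt.comp (f := Prod.snd) (g := y) (hy 0 h0L').1.continuousAt
          continuous_snd.continuousAt
      have d1 : ∀ᶠ z : ℝ × ℝ in nhds (0, 0), W / 2 < wsq (u z.1) (v z.2) :=
        c1.eventually (lt_mem_nhds (by simp only; rw [← hWd]; linarith))
      have hb5 : x 0 ∈ Metric.ball o (5 * R) :=
        Metric.ball_subset_ball (by linarith) hball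
      have d2 : ∀ᶠ z : ℝ × ℝ in nhds (0, 0), x z.1 ∈ Metric.ball o (5 * R) :=
        c2.eventually (Metric.isOpen_ball.mem_nhds hb5)
      have d3 : ∀ᶠ z : ℝ × ℝ in nhds (0, 0), y z.2 ∈ Metric.ball o (5 * R) :=
        c3.eventually (Metric.isOpen_ball.mem_nhds (by simpa [← hxy] using hb5))
      obtain ⟨r, hr, hr'⟩ := Metric.eventually_nhds_iff.1 (d1.and (d2.and d3))
      refine ⟨min (r / 2) (min L L'), lt_min (by positivity) (lt_min hL hL'),
        (min_le_right _ _).trans (min_le_left _ _), (min_le_right _ _).trans (min_le_right _ _), ?_⟩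
      intro s hs t ht
      have hz : dist ((s, t) : ℝ × ℝ) (0, 0) < r := by
        rw [Prod.dist_eq]
        have i1 := hs.2.trans (min_le_left _ _)
        have i2 := ht.2.trans (min_le_left _ _)
        simp only [Real.dist_eq, sub_zero]
        rw [abs_of_nonneg hs.1, abs_of_nonneg ht.1]
        exact max_lt (by linarith) (by linarith)
      obtain ⟨j1, j2, j3⟩ := hr' hz
      exact ⟨c.one _ j2, c.one _ j3, j1.le⟩
    set θ := Real.sqrt W with hθ
    have hθ0 : 0 < θ := Real.sqrt_pos.2 hW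
    have hθ2 : θ ^ 2 = W := Real.sq_sqrt hW0
    set A : ℝ := K ^ 2 / θ + 1 / θ + 1 with hA
    have hAp : 1 ≤ A := by
      have : 0 < K ^ 2 / θ + 1 / θ := by positivity
      linarith
    have hA0 : 0 < A := by linarith
    refine ⟨min (σ / A) (1 / A ^ 2), lt_min (by positivity) (by positivity), ?_⟩
    intro ε hε hε'
    have he1 : ε * A ≤ σ := by
      have := hε'.le.trans (min_le_left _ _)
      rwa [le_div_iff₀ hA0] at this
    have he2 : ε * A ^ 2 ≤ 1 := by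
      have := hε'.le.trans (min_le_right _ _)
      rwa [le_div_iff₀ (by positivity)] at this
    have he3 : (ε * A) ^ 2 ≤ ε := by
      have := mul_le_mul_of_nonneg_left he2 hε.le
      nlinarith
    have heσ : ε ≤ σ := by nlinarith
    -- lower bound of integrand
    have hlow : ∀ s ∈ Set.Icc 0 σ, ∀ t ∈ Set.Icc 0 σ, ‖y t - x s‖ ≤ 5 * K * ε →
        (W / 2) / (D * ε ^ 2) ≤
          c.f (x s) * c.f (y t) * WW ε (x s) (u s) (y t) (v t) := by
      intro s hs t ht hd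
      obtain ⟨j1, j2, j3⟩ := hσp s hs t ht
      rw [j1, j2, one_mul, one_mul]
      exact F_lower hε hd hW0 j3
    have key1 : W / (2 * D) ≤ ∫ s in (0:ℝ)..L, ∫ t in (0:ℝ)..L',
          c.f (x s) * c.f (y t) * WW ε (x s) (u s) (y t) (v t) := by
      have := lemA (F := fun x u y v => c.f x * c.f y * WW ε x u y v) (F_cont c hε) hL.le hL'.le
        hxc huc hyc hvc (τ := ε) (δ := ε) (m := (W / 2) / (D * ε ^ 2)) hε.le (heσ.trans hσL)
        hε.le (fun _ => 0) (hF0 ε hε) (fun s _ => ⟨le_rfl, by linarith⟩) (by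
          intro s hs t ht
          rw [zero_add] at ht
          apply hlow s ⟨hs.1, hs.2.trans heσ⟩ t ⟨ht.1, ht.2.trans heσ⟩
          have t1 := (taylor_c hx hK0.le s ⟨hs.1, hs.2.trans (heσ.trans hσL)⟩).1
          have t2 := (taylor_c hy hK0.le t ⟨ht.1, ht.2.trans (heσ.trans hσL')⟩).1
          have e : y t - x s = (y t - y 0) - (x s - x 0) := by rw [hxy]; abel
          rw [e]
          refine (norm_sub_le _ _).trans ?_
          have k1 := mul_le_mul_of_nonneg_left hs.2 hK0.le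
          have k2 := mul_le_mul_of_nonneg_left ht.2 hK0.le
          nlinarith [mul_pos hK0 hε])
      refine le_trans (le_of_eq ?_) this
      field_simp
    have hjj : jj (u 0) (v 0) = W + if 0 < (inner ℝ (u 0) (v 0) : ℝ) then θ else 0 := rfl
    rw [hjj]
    split_ifs with hin
    · have key2 : θ / (2 * D) ≤ ∫ s in (0:ℝ)..L, ∫ t in (0:ℝ)..L',
          c.f (x s) * c.f (y t) * WW ε (x s) (u s) (y t) (v t) := by
        have hp := hx 0 h0L
        have hq := hy 0 h0L'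
        have hQ : 0 < ‖v 0‖ := by
          by_contra hc
          have : ‖v 0‖ = 0 := le_antisymm (not_lt.1 hc) (norm_nonneg _)
          have h2 := hq.2.2.2.1
          rw [this, mul_zero] at h2; linarith
        have hlam0 : 0 ≤ ‖u 0‖ / ‖v 0‖ := by positivity
        have hlam : ‖u 0‖ / ‖v 0‖ ≤ K ^ 2 := by
          rw [div_le_iff₀ hQ]
          calc ‖u 0‖ ≤ K := hp.2.2.1
            _ ≤ K * (K * ‖v 0‖) := le_mul_of_one_le_right hK0.le hq.2.2.2.1
            _ = K ^ 2 * ‖v 0‖ := by ring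
        have hest := lam_est hK hp.2.2.2.1 hq.2.2.2.1 hin
        rw [← hWd, ← hθ] at hest
        set lam := ‖u 0‖ / ‖v 0‖ with hlamd
        have hτ0 : 0 < ε / θ := by positivity
        have hτA : ε / θ ≤ ε * A := by
          rw [hA]
          have : 0 < ε * (K ^ 2 / θ) := by positivity
          have e : ε * (K ^ 2 / θ + 1 / θ + 1) = ε * (K ^ 2 / θ) + ε / θ + ε := by ring
          rw [e]; linarith
        have htA : ∀ s ∈ Set.Icc 0 (ε / θ), lam * s + ε ≤ ε * A := by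
          intro s hs
          have i1 : lam * s ≤ K ^ 2 * (ε / θ) :=
            mul_le_mul hlam hs.2 hs.1 (by positivity)
          have e : ε * (K ^ 2 / θ + 1 / θ + 1) = K ^ 2 * (ε / θ) + ε / θ + ε := by ring
          rw [hA, e]; linarith
        have := lemA (F := fun x u y v => c.f x * c.f y * WW ε x u y v) (F_cont c hε) hL.le hL'.le
          hxc huc hyc hvc (τ := ε / θ) (δ := ε) (m := (W / 2) / (D * ε ^ 2)) hτ0.le
          (hτA.trans (he1.trans hσL))
          hε.le (fun s => lam * s) (hF0 ε hε)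
          (fun s hs => ⟨mul_nonneg hlam0 hs.1, (htA s hs).trans (he1.trans hσL')⟩) (by
            intro s hs t ht
            have ht0 : 0 ≤ t := (mul_nonneg hlam0 hs.1).trans ht.1
            have htA' : t ≤ ε * A := ht.2.trans (htA s hs)
            have hsA' : s ≤ ε * A := hs.2.trans hτA
            apply hlow s ⟨hs.1, hsA'.trans he1⟩ t ⟨ht0, htA'.trans he1⟩
            have t1 := (taylor_c hx hK0.le s ⟨hs.1, hsA'.trans (he1.trans hσL)⟩).2
            have t2 := (taylor_c hy hK0.le t ⟨ht0, htA'.trans (he1.trans hσL')⟩).2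
            have e : y t - x s = (y t - y 0 - t • v 0) - (x s - x 0 - s • u 0) +
                ((t - lam * s) • v 0 + s • (lam • v 0 - u 0)) := by
              rw [hxy, sub_smul, smul_sub, smul_smul, mul_comm s lam]; abel
            rw [e]
            have n1 : ‖(t - lam * s) • v 0‖ ≤ ε * K := by
              rw [norm_smul, Real.norm_eq_abs, abs_of_nonneg (by linarith [ht.1])]
              exact mul_le_mul (by linarith [ht.2]) hq.2.2.1 (norm_nonneg _) hε.le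
            have n2 : ‖s • (lam • v 0 - u 0)‖ ≤ 2 * K * ε := by
              rw [norm_smul, Real.norm_eq_abs, abs_of_nonneg hs.1]
              calc s * ‖lam • v 0 - u 0‖ ≤ (ε / θ) * (2 * K * θ) :=
                    mul_le_mul hs.2 hest (norm_nonneg _) hτ0.le
                _ = 2 * K * ε := by field_simp
            have s2 : s ^ 2 ≤ ε := (pow_le_pow_left₀ hs.1 hsA' 2).trans he3
            have tt2 : t ^ 2 ≤ ε := (pow_le_pow_left₀ ht0 htA' 2).trans he3
            have n3 : ‖y t - y 0 - t • v 0‖ ≤ K * ε := t2.trans (mul_le_mul_of_nonneg_left tt2 hK0.le)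
            have n4 : ‖x s - x 0 - s • u 0‖ ≤ K * ε := t1.trans (mul_le_mul_of_nonneg_left s2 hK0.le)
            refine (norm_add_le _ _).trans ?_
            have m1 := norm_sub_le (y t - y 0 - t • v 0) (x s - x 0 - s • u 0)
            have m2 := norm_add_le ((t - lam * s) • v 0) (s • (lam • v 0 - u 0))
            linarith)
        refine le_trans (le_of_eq ?_) this
        rw [← hθ2]
        field_simp
      have : 1 / (4 * D) * (W + θ) = (W / (2 * D) + θ / (2 * D)) / 2 := by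
        field_simp; ring
      rw [this]
      linarith
    · rw [add_zero]
      have : 1 / (4 * D) * W = W / (2 * D) / 2 := by field_simp; ring
      rw [this]
      have : 0 ≤ W / (2 * D) := by positivity
      linarith

end Pool.Agent.GNet
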