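import Mathlib
import Pool.Agent.Helper971.BK.DLNet
import Pool.Agent.Helper971.BK.L1
import Pool.Agent.Helper971.BK.L6
import Pool.Agent.Helper971.BK.L7

set_option autoImplicit false

open Finset Classical MeasureTheory

namespace Pool.Agent.GNet

theorem wsq_nonneg' {E : Type*} [NormedAddCommGroup E] [InnerProductSpace ℝ E] (u v : E) :
    0 ≤ wsq u v := by
  have h := real_inner_mul_inner_self_le u v
  unfold wsq
  rw [sq]
  linarith

/-- **The angle inequality.** -/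
theorem angle_inequality (E : Type*) [NormedAddCommGroup E] [InnerProductSpace ℝ E]
    [FiniteDimensional ℝ E] (o : E) {R K : ℝ} (hR : 0 < R) (hK : 1 ≤ K) :
    ∃ C : ℝ, 0 < C ∧ ∀ N : LNet E o R K,
      ∑ d, ∑ e with N.x e 0 = N.x d 0 ∧ N.x d 0 ∈ Metric.ball o (4 * R), jj (N.u d 0) (N.u e 0) ≤
        C * N.length ^ 2 := by
  obtain ⟨M, hM, ⟨c⟩⟩ := exists_cut E o hR
  obtain ⟨κ, hκ, hcor⟩ := corner (K := K) hR hK c
  have hK0 : 0 < K := zero_lt_one.trans_le hK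
  have hA : 0 < ((M ^ 2 + 2 * M) * K ^ 4 + 2 * K * (K + M * K ^ 2) + K ^ 2) := by positivity
  refine ⟨_ / κ, div_pos hA hκ, fun N => ?_⟩
  have h1 : ∀ d e : N.D, ∃ ε₀ : ℝ, 0 < ε₀ ∧ ∀ ε : ℝ, 0 < ε → ε < ε₀ →
      (N.x e 0 = N.x d 0 ∧ N.x d 0 ∈ Metric.ball o (4 * R)) →
      κ * jj (N.u d 0) (N.u e 0) ≤ ∫ s in (0:ℝ)..N.len d, ∫ t in (0:ℝ)..N.len e,
        c.f (N.x d s) * c.f (N.x e t) * WW ε (N.x d s) (N.u d s) (N.x e t) (N.u e t) := by
    intro d e
    by_cases hQ : (N.x e 0 = N.x d 0 ∧ N.x d 0 ∈ Metric.ball o (4 * R))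
    · obtain ⟨ε₀, h0, h⟩ := hcor (N.len d) (N.len e) (N.x d) (N.u d) (N.a d) (N.x e) (N.u e) (N.a e)
        (N.len_pos d) (N.len_pos e)
        (fun s hs => ⟨N.hx d s hs, N.hu d s hs, N.u_le d s hs, N.u_ge d s hs, N.a_le d s hs⟩)
        (fun s hs => ⟨N.hx e s hs, N.hu e s hs, N.u_le e s hs, N.u_ge e s hs, N.a_le e s hs⟩)
        hQ.1.symm hQ.2
      exact ⟨ε₀, h0, fun ε h1 h2 _ => h ε h1 h2⟩
    · exact ⟨1, one_pos, fun _ _ _ h => absurd h hQ⟩
  choose e0 he0 he using h1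
  have h2 : ∃ ε : ℝ, 0 < ε ∧ ∀ d e, ε < e0 d e := by
    have hev : ∀ᶠ ε in nhdsWithin (0:ℝ) (Set.Ioi 0), (0 < ε) ∧ ∀ d e, ε < e0 d e := by
      refine Filter.Eventually.and self_mem_nhdsWithin ?_
      refine Filter.eventually_all.2 (fun d => Filter.eventually_all.2 (fun e => ?_))
      filter_upwards [Ioo_mem_nhdsGT (he0 d e)] with ε hε using hε.2
    exact hev.exists
  obtain ⟨ε, hε, hεe⟩ := h2
  have hang := N.angle_eps hK hM c hε
  have hnn : ∀ d e : N.D, 0 ≤ ∫ s in (0:ℝ)..N.len d, ∫ t in (0:ℝ)..N.len e,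
        c.f (N.x d s) * c.f (N.x e t) * WW ε (N.x d s) (N.u d s) (N.x e t) (N.u e t) := by
    intro d e
    refine intervalIntegral.integral_nonneg (N.len_pos d).le (fun s _ => ?_)
    refine intervalIntegral.integral_nonneg (N.len_pos e).le (fun t _ => ?_)
    have w := wsq_nonneg' (N.u d s) (N.u e t)
    have w1 := c.nonneg (N.x d s)
    have w2 := c.nonneg (N.x e t)
    unfold WW
    positivity
  rw [div_mul_eq_mul_div, le_div_iff₀ hκ]
  refine le_trans ?_ hang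
  rw [mul_comm, Finset.mul_sum]
  refine Finset.sum_le_sum (fun d _ => ?_)
  rw [Finset.mul_sum]
  refine le_trans (Finset.sum_le_sum (fun e he' => ?_))
    (Finset.sum_le_sum_of_subset_of_nonneg (Finset.filter_subset _ _) (fun e _ _ => hnn d e))
  exact he d e ε hε (hεe d e) (Finset.mem_filter.1 he').2

end Pool.Agent.GNet
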