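import Mathlib
import Pool.Agent.Helper971.BK.DNet

set_option autoImplicit false

open Finset Classical MeasureTheory
open scoped Manifold ContDiff

namespace Pool.Agent.GNet

variable {E : Type*} [NormedAddCommGroup E] [InnerProductSpace ℝ E] [FiniteDimensional ℝ E]
  {M : Type*} [TopologicalSpace M] [ChartedSpace E M] [IsManifold 𝓘(ℝ, E) ∞ M]

/-! ### auxiliary lemmas -/

theorem geom_solve {E : Type*} [NormedAddCommGroup E] [InnerProductSpace ℝ E]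
    [FiniteDimensional ℝ E] (g : E →L[ℝ] E →L[ℝ] ℝ) (hp : ∀ u, u ≠ 0 → 0 < g u u)
    (φ : E →L[ℝ] ℝ) : ∃ a, ∀ w, g a w = φ w := by
  have hfr : Module.finrank ℝ E = Module.finrank ℝ (E →L[ℝ] ℝ) := by
    rw [← (LinearMap.toContinuousLinearMap : (E →ₗ[ℝ] ℝ) ≃ₗ[ℝ] (E →L[ℝ] ℝ)).finrank_eq]
    exact (Subspace.dual_finrank_eq (K := ℝ) (V := E)).symm
  have hinj : Function.Injective (g : E →ₗ[ℝ] (E →L[ℝ] ℝ)) := by
    rw [injective_iff_map_eq_zero]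
    intro a ha
    by_contra hne
    have h1 := hp a hne
    have h2 : g a = 0 := ha
    rw [h2] at h1
    simp at h1
  have hsurj := (LinearMap.injective_iff_surjective_of_finrank_eq_finrank hfr).1 hinj
  obtain ⟨a, ha⟩ := hsurj φ
  refine ⟨a, fun w => ?_⟩
  rw [← ha]
  rfl

set_option maxSynthPendingDepth 3 in
theorem geom_tri {E : Type*} [NormedAddCommGroup E] [InnerProductSpace ℝ E]
    (T : E →L[ℝ] E →L[ℝ] E →L[ℝ] ℝ) {c : ℝ} (hT : ‖T‖ ≤ c) (a b d : E) :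
    |T a b d| ≤ c * ‖a‖ * ‖b‖ * ‖d‖ := by
  have h1 : |T a b d| ≤ ‖T a b‖ * ‖d‖ := by
    have := (T a b).le_opNorm d
    rwa [Real.norm_eq_abs] at this
  have h2 : ‖T a b‖ ≤ ‖T a‖ * ‖b‖ := (T a).le_opNorm b
  have h3 : ‖T a‖ ≤ ‖T‖ * ‖a‖ := T.le_opNorm a
  have h4 : ‖T a‖ ≤ c * ‖a‖ := h3.trans (by gcongr)
  have h5 : ‖T a b‖ ≤ c * ‖a‖ * ‖b‖ := h2.trans (by gcongr)
  exact h1.trans (by gcongr)

set_option maxSynthPendingDepth 3 in
theorem geom_bi {E : Type*} [NormedAddCommGroup E] [InnerProductSpace ℝ E]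
    (T : E →L[ℝ] E →L[ℝ] ℝ) {c : ℝ} (hT : ‖T‖ ≤ c) (a b : E) :
    |T a b| ≤ c * ‖a‖ * ‖b‖ := by
  have h1 : |T a b| ≤ ‖T a‖ * ‖b‖ := by
    have := (T a).le_opNorm b
    rwa [Real.norm_eq_abs] at this
  have h3 : ‖T a‖ ≤ ‖T‖ * ‖a‖ := T.le_opNorm a
  have h4 : ‖T a‖ ≤ c * ‖a‖ := h3.trans (by gcongr)
  exact h1.trans (by gcongr)

/-- radial retraction on the closed ball of radius `r` -/
noncomputable def radr {E : Type*} [NormedAddCommGroup E] [InnerProductSpace ℝ E] (r : ℝ)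
    (u : E) : E := (r / max r ‖u‖) • u

theorem radr_eq {E : Type*} [NormedAddCommGroup E] [InnerProductSpace ℝ E] {r : ℝ} (hr : 0 < r)
    {u : E} (hu : ‖u‖ ≤ r) : radr r u = u := by
  unfold radr
  rw [max_eq_left hu, div_self hr.ne', one_smul]

theorem radr_le {E : Type*} [NormedAddCommGroup E] [InnerProductSpace ℝ E] {r : ℝ} (hr : 0 < r)
    (u : E) : ‖radr r u‖ ≤ r := by
  unfold radr
  have hm : 0 < max r ‖u‖ := lt_max_of_lt_left hr
  rw [norm_smul, Real.norm_eq_abs, abs_of_nonneg (by positivity), div_mul_eq_mul_div,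
    div_le_iff₀ hm]
  have := le_max_right r ‖u‖
  gcongr

theorem radr_lip {E : Type*} [NormedAddCommGroup E] [InnerProductSpace ℝ E] {r : ℝ} (hr : 0 < r)
    (u v : E) : ‖radr r u - radr r v‖ ≤ 2 * ‖u - v‖ := by
  have hmu : 0 < max r ‖u‖ := lt_max_of_lt_left hr
  have hmv : 0 < max r ‖v‖ := lt_max_of_lt_left hr
  have h1 : radr r u - radr r v = (r / max r ‖u‖) • (u - v) +
      (r / max r ‖u‖ * ((max r ‖v‖ - max r ‖u‖) / max r ‖v‖)) • v := by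
    unfold radr
    have : r / max r ‖v‖ = r / max r ‖u‖ - r / max r ‖u‖ * ((max r ‖v‖ - max r ‖u‖) / max r ‖v‖) := by
      field_simp
      ring
    rw [this]
    module
  have h2 : |r / max r ‖u‖| ≤ 1 := by
    rw [abs_of_nonneg (by positivity), div_le_one hmu]
    exact le_max_left _ _
  have h3 : |max r ‖v‖ - max r ‖u‖| ≤ ‖u - v‖ := by
    have := abs_max_sub_max_le_max r ‖v‖ r ‖u‖
    have h4 : |‖v‖ - ‖u‖| ≤ ‖u - v‖ := by
      rw [norm_sub_rev]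
      exact abs_norm_sub_norm_le v u
    refine this.trans ?_
    simp only [sub_self, abs_zero]
    exact max_le (norm_nonneg _) h4
  rw [h1]
  refine (norm_add_le _ _).trans ?_
  rw [norm_smul, norm_smul, Real.norm_eq_abs, Real.norm_eq_abs, abs_mul, abs_div (max r ‖v‖ - _),
    abs_of_pos hmv]
  have h5 : |max r ‖v‖ - max r ‖u‖| / max r ‖v‖ * ‖v‖ ≤ ‖u - v‖ := by
    rw [div_mul_eq_mul_div, div_le_iff₀ hmv]
    have := le_max_right r ‖v‖
    gcongr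
  have h6 : |r / max r ‖u‖| * ‖u - v‖ ≤ 1 * ‖u - v‖ := by gcongr
  have h7 : |r / max r ‖u‖| * (|max r ‖v‖ - max r ‖u‖| / max r ‖v‖) * ‖v‖ ≤ 1 * ‖u - v‖ := by
    rw [mul_assoc]
    gcongr
  linarith

set_option maxSynthPendingDepth 3 in
theorem geom_A_le {E : Type*} [NormedAddCommGroup E] [InnerProductSpace ℝ E]
    (g : E →L[ℝ] E →L[ℝ] ℝ) (g' : E →L[ℝ] E →L[ℝ] E →L[ℝ] ℝ) {C r : ℝ} (hC : 0 ≤ C)
    (hg' : ‖g'‖ ≤ C) (hlow : ∀ u, ‖u‖ ^ 2 ≤ C * g u u) {u a : E} (hu : ‖u‖ ≤ r)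
    (ha : ∀ w, g a w = 1 / 2 * g' w u u - g' u u w) : ‖a‖ ≤ 2 * C ^ 2 * r ^ 2 := by
  have hr : 0 ≤ r := (norm_nonneg u).trans hu
  rcases eq_or_ne ‖a‖ 0 with h0 | h0
  · rw [h0]; positivity
  have hpos : 0 < ‖a‖ := lt_of_le_of_ne (norm_nonneg _) (Ne.symm h0)
  have h1 := hlow a
  rw [ha a] at h1
  have h2 := geom_tri g' hg' a u u
  have h3 := geom_tri g' hg' u u a
  have h4 : g' a u u ≤ C * ‖a‖ * r * r := by
    refine (le_abs_self _).trans (h2.trans ?_)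
    gcongr
  have h5 : - g' u u a ≤ C * r * r * ‖a‖ := by
    refine (neg_le_abs _).trans (h3.trans ?_)
    gcongr
  have h6 : 1 / 2 * g' a u u - g' u u a ≤ 2 * C * r ^ 2 * ‖a‖ := by
    have : 0 ≤ C * r ^ 2 * ‖a‖ := by positivity
    nlinarith
  have h7 : ‖a‖ * ‖a‖ ≤ (2 * C ^ 2 * r ^ 2) * ‖a‖ := by
    calc ‖a‖ * ‖a‖ = ‖a‖ ^ 2 := by ring
      _ ≤ C * (1 / 2 * g' a u u - g' u u a) := h1
      _ ≤ C * (2 * C * r ^ 2 * ‖a‖) := by gcongr
      _ = _ := by ring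
  exact le_of_mul_le_mul_right h7 hpos

set_option maxSynthPendingDepth 3 in
theorem geom_tri_sub {E : Type*} [NormedAddCommGroup E] [InnerProductSpace ℝ E]
    (S T : E →L[ℝ] E →L[ℝ] E →L[ℝ] ℝ) {C d : ℝ} (hT : ‖T‖ ≤ C) (hST : ‖S - T‖ ≤ C * d)
    (a b c a' b' c' : E) :
    |S a b c - T a' b' c'| ≤ C * d * ‖a‖ * ‖b‖ * ‖c‖ + C * ‖a - a'‖ * ‖b‖ * ‖c‖ +
      C * ‖a'‖ * ‖b - b'‖ * ‖c‖ + C * ‖a'‖ * ‖b'‖ * ‖c - c'‖ := by
  have h : S a b c - T a' b' c' = (S - T) a b c + T (a - a') b c + T a' (b - b') c +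
      T a' b' (c - c') := by
    simp only [_root_.sub_apply, map_sub]
    ring
  rw [h]
  have h1 := geom_tri (S - T) hST a b c
  have h2 := geom_tri T hT (a - a') b c
  have h3 := geom_tri T hT a' (b - b') c
  have h4 := geom_tri T hT a' b' (c - c')
  calc _ ≤ |(S - T) a b c| + |T (a - a') b c| + |T a' (b - b') c| + |T a' b' (c - c')| := by
        refine (abs_add_le _ _).trans ?_
        gcongr
        refine (abs_add_le _ _).trans ?_
        gcongr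
        exact abs_add_le _ _
    _ ≤ _ := by linarith

set_option maxSynthPendingDepth 3 in
theorem geom_A_lip {E : Type*} [NormedAddCommGroup E] [InnerProductSpace ℝ E]
    (g h : E →L[ℝ] E →L[ℝ] ℝ) (g' h' : E →L[ℝ] E →L[ℝ] E →L[ℝ] ℝ) {C r d : ℝ} (hC : 1 ≤ C)
    (hr : 1 ≤ r) (hd : 0 ≤ d) (hh' : ‖h'‖ ≤ C) (hgh' : ‖g' - h'‖ ≤ C * d) (hgh : ‖g - h‖ ≤ C * d)
    (hlow : ∀ u, ‖u‖ ^ 2 ≤ C * g u u) {u v a b : E} (hu : ‖u‖ ≤ r) (hv : ‖v‖ ≤ r)
    (ha : ∀ w, g a w = 1 / 2 * g' w u u - g' u u w)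
    (hb : ∀ w, h b w = 1 / 2 * h' w v v - h' v v w) (hbn : ‖b‖ ≤ 2 * C ^ 2 * r ^ 2) :
    ‖a - b‖ ≤ 4 * C ^ 4 * r ^ 2 * (d + ‖u - v‖) := by
  have hC0 : 0 ≤ C := by linarith
  have hr0 : 0 ≤ r := by linarith
  set e := ‖u - v‖ with he
  have he0 : 0 ≤ e := norm_nonneg _
  set w := a - b with hw
  rcases eq_or_ne ‖w‖ 0 with h0 | h0
  · rw [h0]; positivity
  have hpos : 0 < ‖w‖ := lt_of_le_of_ne (norm_nonneg _) (Ne.symm h0)
  have e1 : g w w = 1 / 2 * (g' w u u - h' w v v) - (g' u u w - h' v v w) - (g - h) b w := by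
    have : g w w = g a w - g b w := by rw [hw]; simp only [map_sub, _root_.sub_apply]; ring
    rw [this, ha w]
    have h2 := hb w
    simp only [_root_.sub_apply]
    linarith
  have h1 := geom_tri_sub g' h' hh' hgh' w u u w v v
  have h2 := geom_tri_sub g' h' hh' hgh' u u w v v w
  have h3 := geom_bi (g - h) hgh b w
  simp only [sub_self, norm_zero, mul_zero, zero_mul, add_zero] at h1 h2
  have h1' : |g' w u u - h' w v v| ≤ ‖w‖ * (C * d * r ^ 2 + 2 * C * r * e) := by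
    refine h1.trans ?_
    have t1 : C * d * ‖w‖ * ‖u‖ * ‖u‖ ≤ C * d * ‖w‖ * r * r := by gcongr
    have t2 : C * ‖w‖ * ‖u - v‖ * ‖u‖ ≤ C * ‖w‖ * e * r := by gcongr
    have t3 : C * ‖w‖ * ‖v‖ * ‖u - v‖ ≤ C * ‖w‖ * r * e := by gcongr
    nlinarith
  have h2' : |g' u u w - h' v v w| ≤ ‖w‖ * (C * d * r ^ 2 + 2 * C * r * e) := by
    refine h2.trans ?_
    have t1 : C * d * ‖u‖ * ‖u‖ * ‖w‖ ≤ C * d * r * r * ‖w‖ := by gcongr
    have t2 : C * ‖u - v‖ * ‖u‖ * ‖w‖ ≤ C * e * r * ‖w‖ := by gcongr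
    have t3 : C * ‖v‖ * ‖u - v‖ * ‖w‖ ≤ C * r * e * ‖w‖ := by gcongr
    nlinarith
  have h3' : |(g - h) b w| ≤ ‖w‖ * (C * d * (2 * C ^ 2 * r ^ 2)) := by
    refine h3.trans ?_
    have : C * d * ‖b‖ * ‖w‖ ≤ C * d * (2 * C ^ 2 * r ^ 2) * ‖w‖ := by gcongr
    linarith
  have h4 : g w w ≤ ‖w‖ * (3 / 2 * (C * d * r ^ 2 + 2 * C * r * e) +
      C * d * (2 * C ^ 2 * r ^ 2)) := by
    rw [e1]
    have t1 := (abs_le.1 h1').2
    have t2 := (abs_le.1 h2').1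
    have t3 := (abs_le.1 h3').1
    linarith
  have h5 : ‖w‖ * ‖w‖ ≤ (C * (3 / 2 * (C * d * r ^ 2 + 2 * C * r * e) +
      C * d * (2 * C ^ 2 * r ^ 2))) * ‖w‖ := by
    have := hlow w
    have h6 : C * g w w ≤ C * (‖w‖ * (3 / 2 * (C * d * r ^ 2 + 2 * C * r * e) +
      C * d * (2 * C ^ 2 * r ^ 2))) := by gcongr
    nlinarith
  have h6 := le_of_mul_le_mul_right h5 hpos
  refine h6.trans ?_
  have hCC : C ^ 2 ≤ C ^ 4 := pow_le_pow_right₀ hC (by norm_num)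
  have hrr : r ≤ r ^ 2 := by nlinarith
  have t1 : C ^ 2 * r ^ 2 * d ≤ C ^ 4 * r ^ 2 * d := by gcongr
  have t2 : C ^ 2 * r * e ≤ C ^ 4 * r ^ 2 * e := by gcongr
  have t3 : 0 ≤ C ^ 4 * r ^ 2 * d := by positivity
  have t4 : 0 ≤ C ^ 4 * r ^ 2 * e := by positivity
  nlinarith



set_option maxSynthPendingDepth 5 in
/-- smooth metric coefficients give bounded local geometry on a closed ball -/
theorem exists_geom {E : Type*} [NormedAddCommGroup E] [InnerProductSpace ℝ E]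
    [FiniteDimensional ℝ E] {U : Set E} (hU : IsOpen U) (o : E) {ρ : ℝ} (hρ : 0 < ρ)
    (hb : Metric.closedBall o ρ ⊆ U) (G : E → E →L[ℝ] E →L[ℝ] ℝ) (hG : ContDiffOn ℝ ∞ G U)
    (hs : ∀ x ∈ U, ∀ u v, G x u v = G x v u) (hp : ∀ x ∈ U, ∀ u, u ≠ 0 → 0 < G x u u) :
    ∃ Γ : Geom E, Γ.B = Metric.closedBall o ρ ∧ Γ.G = G ∧ Γ.G' = fderiv ℝ G ∧
      ∀ x ∈ Metric.closedBall o ρ, ∀ u, G x u u = 1 → ∀ w,
        G x (Γ.A x u) w = 1 / 2 * fderiv ℝ G x w u u - fderiv ℝ G x u u w := by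
  classical
  have hBc : IsCompact (Metric.closedBall o ρ) := isCompact_closedBall o ρ
  have hconv : Convex ℝ (Metric.closedBall o ρ) := convex_closedBall o ρ
  generalize hBdef : Metric.closedBall o ρ = B at *
  have hG1 : ContDiffOn ℝ ∞ (fderiv ℝ G) U := hG.fderiv_of_isOpen hU (by simp)
  have hG2 : ContDiffOn ℝ ∞ (fderiv ℝ (fderiv ℝ G)) U := hG1.fderiv_of_isOpen hU (by simp)
  have hd : ∀ x ∈ U, HasFDerivAt G (fderiv ℝ G x) x := fun x hx =>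
    ((hG.contDiffAt (hU.mem_nhds hx)).differentiableAt (by simp)).hasFDerivAt
  have hd1 : ∀ x ∈ U, HasFDerivAt (fderiv ℝ G) (fderiv ℝ (fderiv ℝ G) x) x := fun x hx =>
    ((hG1.contDiffAt (hU.mem_nhds hx)).differentiableAt (by simp)).hasFDerivAt
  obtain ⟨C0, hC0⟩ := hBc.exists_bound_of_continuousOn (hG.continuousOn.mono hb)
  obtain ⟨C1, hC1⟩ := hBc.exists_bound_of_continuousOn (hG1.continuousOn.mono hb)
  obtain ⟨C2, hC2⟩ := hBc.exists_bound_of_continuousOn (hG2.continuousOn.mono hb)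
  -- lower bound
  have hcont : ContinuousOn (fun p : E × E => (G p.1 p.2 p.2)⁻¹) (B ×ˢ Metric.sphere (0 : E) 1) := by
    have h1 : ContinuousOn (fun p : E × E => G p.1) (B ×ˢ Metric.sphere (0 : E) 1) :=
      (hG.continuousOn.mono hb).comp continuousOn_fst (fun p hp => hp.1)
    have h2 : ContinuousOn (fun p : E × E => p.2) (B ×ˢ Metric.sphere (0 : E) 1) :=
      continuousOn_snd
    refine ContinuousOn.inv₀ ((h1.clm_apply h2).clm_apply h2) ?_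
    rintro ⟨x, u⟩ ⟨hx, hu⟩
    have hu0 : u ≠ 0 := by
      rintro rfl
      simp at hu
    exact (hp x (hb hx) u hu0).ne'
  obtain ⟨C3, hC3⟩ := (hBc.prod (isCompact_sphere (0 : E) 1)).exists_bound_of_continuousOn hcont
  set C : ℝ := max 1 (max C0 (max C1 (max C2 C3))) with hCdef
  have hC1' : 1 ≤ C := le_max_left _ _
  have hC0C : C0 ≤ C := (le_max_left _ _).trans (le_max_right _ _)
  have hC1C : C1 ≤ C := ((le_max_left _ _).trans (le_max_right _ _)).trans (le_max_right _ _)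
  have hC2C : C2 ≤ C := (((le_max_left _ _).trans (le_max_right _ _)).trans
    (le_max_right _ _)).trans (le_max_right _ _)
  have hC3C : C3 ≤ C := (((le_max_right _ _).trans (le_max_right _ _)).trans
    (le_max_right _ _)).trans (le_max_right _ _)
  have hlow : ∀ x ∈ B, ∀ u, ‖u‖ ^ 2 ≤ C * G x u u := by
    intro x hx u
    rcases eq_or_ne u 0 with rfl | hu0
    · simp
    have hn : 0 < ‖u‖ := norm_pos_iff.2 hu0
    have he : ‖(‖u‖⁻¹ • u)‖ = 1 := by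
      rw [norm_smul, norm_inv, norm_norm, inv_mul_cancel₀ hn.ne']
    have h1 := hC3 (x, ‖u‖⁻¹ • u) ⟨hx, by simpa using he⟩
    simp only [map_smul, _root_.smul_apply, smul_eq_mul] at h1
    have h2 : 0 < G x u u := hp x (hb hx) u hu0
    rw [Real.norm_eq_abs, abs_of_nonneg (by positivity)] at h1
    have h3 : (‖u‖⁻¹ * (‖u‖⁻¹ * G x u u))⁻¹ = ‖u‖ ^ 2 / G x u u := by
      field_simp
    rw [h3, div_le_iff₀ h2] at h1
    exact h1.trans (by gcongr)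
  have hnG : ∀ x ∈ B, ‖G x‖ ≤ C := fun x hx => (hC0 x hx).trans hC0C
  have hnG1 : ∀ x ∈ B, ‖fderiv ℝ G x‖ ≤ C := fun x hx => (hC1 x hx).trans hC1C
  have hlG : ∀ x ∈ B, ∀ y ∈ B, ‖G x - G y‖ ≤ C * ‖x - y‖ := by
    intro x hx y hy
    exact hconv.norm_image_sub_le_of_norm_hasFDerivWithin_le
      (fun z hz => (hd z (hb hz)).hasFDerivWithinAt) hnG1 hy hx
  have hlG1 : ∀ x ∈ B, ∀ y ∈ B, ‖fderiv ℝ G x - fderiv ℝ G y‖ ≤ C * ‖x - y‖ := by
    intro x hx y hy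
    exact hconv.norm_image_sub_le_of_norm_hasFDerivWithin_le
      (fun z hz => (hd1 z (hb hz)).hasFDerivWithinAt) (fun z hz => (hC2 z hz).trans hC2C) hy hx
  have hex : ∀ x u, ∃ a, x ∈ B → ∀ w, G x a w =
      1 / 2 * fderiv ℝ G x w u u - fderiv ℝ G x u u w := by
    intro x u
    by_cases hx : x ∈ B
    · obtain ⟨a, ha⟩ := geom_solve (G x) (hp x (hb hx))
        ((1 / 2 : ℝ) • ((fderiv ℝ G x).flip u).flip u - fderiv ℝ G x u u)
      refine ⟨a, fun _ w => ?_⟩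
      rw [ha w]
      simp
    · exact ⟨0, fun h => absurd h hx⟩
  choose A0 hA0 using hex
  have hr : (0 : ℝ) < C := by linarith
  have hA : ∀ x ∈ B, ∀ u w, G x (A0 x (radr C u)) w =
      1 / 2 * fderiv ℝ G x w (radr C u) (radr C u) - fderiv ℝ G x (radr C u) (radr C u) w :=
    fun x hx u => hA0 x (radr C u) hx
  have hAle : ∀ x ∈ B, ∀ u, ‖A0 x (radr C u)‖ ≤ 2 * C ^ 2 * C ^ 2 := fun x hx u =>
    geom_A_le (G x) (fderiv ℝ G x) hr.le (hnG1 x hx) (hlow x hx) (radr_le hr u) (hA x hx u)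
  have hAlip : ∀ x ∈ B, ∀ y ∈ B, ∀ u v, ‖A0 x (radr C u) - A0 y (radr C v)‖ ≤
      8 * C ^ 4 * C ^ 2 * (‖x - y‖ + ‖u - v‖) := by
    intro x hx y hy u v
    have := geom_A_lip (G x) (G y) (fderiv ℝ G x) (fderiv ℝ G y) hC1' hC1' (norm_nonneg (x - y))
      (hnG1 y hy) (hlG1 x hx y hy) (hlG x hx y hy) (hlow x hx) (radr_le hr u) (radr_le hr v)
      (hA x hx u) (hA y hy v) (hAle y hy v)
    have h2 := radr_lip hr u v
    refine this.trans ?_
    have h3 : 0 ≤ ‖x - y‖ := norm_nonneg _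
    calc 4 * C ^ 4 * C ^ 2 * (‖x - y‖ + ‖radr C u - radr C v‖)
        ≤ 4 * C ^ 4 * C ^ 2 * (2 * (‖x - y‖ + ‖u - v‖)) := by
          gcongr
          linarith
      _ = _ := by ring
  have hK1 : (1 : ℝ) ≤ 8 * C ^ 4 * C ^ 2 := by
    have h1 : (1 : ℝ) ≤ C ^ 4 := one_le_pow₀ hC1'
    have h2 : (1 : ℝ) ≤ C ^ 2 := one_le_pow₀ hC1'
    nlinarith
  have hKC : C ≤ 8 * C ^ 4 * C ^ 2 := by
    have h1 : (1 : ℝ) ≤ C ^ 4 := one_le_pow₀ hC1'
    have h2 : C ≤ C ^ 2 := by nlinarith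
    nlinarith
  have hK2 : 2 * C ^ 2 * C ^ 2 ≤ 8 * C ^ 4 * C ^ 2 := by
    have h1 : C ^ 2 ≤ C ^ 4 := pow_le_pow_right₀ hC1' (by norm_num)
    have h2 : (0 : ℝ) ≤ C ^ 2 := by positivity
    nlinarith
  refine ⟨
    { B := B
      G := G
      G' := fderiv ℝ G
      A := fun x u => A0 x (radr C u)
      K := 8 * C ^ 4 * C ^ 2
      conv := hconv
      one_le := hK1
      symm := fun x hx => hs x (hb hx)
      lower := fun x hx u => (hlow x hx u).trans ?_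
      upper := fun x hx u v => geom_bi (G x) ((hnG x hx).trans hKC) u v
      deriv := fun x hx => hd x (hb hx)
      G'_le := fun x hx w u v => geom_tri (fderiv ℝ G x) ((hnG1 x hx).trans hKC) w u v
      G'_lip := fun x hx y hy w u v => ?_
      A_le := fun x hx u _ => (hAle x hx u).trans hK2
      A_lip := fun x hx y hy u v _ _ => hAlip x hx y hy u v }, rfl, rfl, rfl, ?_⟩
  · rcases eq_or_ne u 0 with rfl | hu0
    · simp
    · have := hp x (hb hx) u hu0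
      gcongr
  · have := geom_tri (fderiv ℝ G x - fderiv ℝ G y) ((hlG1 x hx y hy).trans
      (mul_le_mul_of_nonneg_right hKC (norm_nonneg _))) w u v
    simpa using this
  · intro x hx u hu w
    have hle : ‖u‖ ≤ C := by
      have := hlow x hx u
      rw [hu, mul_one] at this
      nlinarith [norm_nonneg u]
    have := hA x hx u w
    rw [radr_eq hr hle] at this
    show G x (A0 x (radr C u)) w = _
    rw [radr_eq hr hle]
    exact this

end Pool.Agent.GNet
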