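import Mathlib
import Pool.Agent.Helper971.BK.DNet

set_option autoImplicit false

open Finset Classical MeasureTheory
open scoped Manifold ContDiff

namespace Pool.Agent.GNet

variable {E : Type*} [NormedAddCommGroup E] [InnerProductSpace ℝ E] [FiniteDimensional ℝ E]
  {M : Type*} [TopologicalSpace M] [ChartedSpace E M] [IsManifold 𝓘(ℝ, E) ∞ M]

/-- the coordinate vector fields of a chart are smooth -/
theorem coordField (e : OpenPartialHomeomorph M E)
    (he : e ∈ atlas E M) (u : E) :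
    ContMDiffOn 𝓘(ℝ, E) (𝓘(ℝ, E).prod 𝓘(ℝ, E)) ∞
      (fun x => (Bundle.TotalSpace.mk' E (e.symm x)
        (mfderiv 𝓘(ℝ, E) 𝓘(ℝ, E) e.symm x u) : TangentBundle 𝓘(ℝ, E) M)) e.target := by
  have hsymm : ContMDiffOn 𝓘(ℝ, E) 𝓘(ℝ, E) ∞ e.symm e.target :=
    contMDiffOn_symm_of_mem_maximalAtlas (IsManifold.subset_maximalAtlas he)
  have h1 := hsymm.contMDiffOn_tangentMapWithin (m := ∞) (by norm_num)
    e.open_target.uniqueMDiffOn
  have h2 : ContMDiff 𝓘(ℝ, E) (𝓘(ℝ, E).prod 𝓘(ℝ, E)) ∞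
      (fun x : E => (Bundle.TotalSpace.mk' E x u :
        TangentBundle 𝓘(ℝ, E) E)) :=
    contMDiff_vectorSpace_iff_contDiff.mpr contDiff_const
  have h3 := h1.comp (h2.contMDiffOn (s := e.target)) (fun x hx => hx)
  refine h3.congr (fun x hx => ?_)
  simp only [Function.comp, tangentMapWithin]
  rw [mfderivWithin_of_isOpen e.open_target hx]

/-- the metric coefficients are smooth -/
theorem contDiffOn_GG (g : RMetric E M) {e : OpenPartialHomeomorph M E}
    (he : e ∈ atlas E M) : ContDiffOn ℝ ∞ (GG g e) e.target := by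
  rw [contDiffOn_clm_apply]
  intro u
  rw [contDiffOn_clm_apply]
  intro w
  simp only [GG_apply]
  rw [← contMDiffOn_iff_contDiffOn]
  have hsymm : ContMDiffOn 𝓘(ℝ, E) 𝓘(ℝ, E) ∞ e.symm e.target :=
    contMDiffOn_symm_of_mem_maximalAtlas (IsManifold.subset_maximalAtlas he)
  have hg := g.contMDiff.comp_contMDiffOn hsymm
  intro x hx
  have : ContMDiffWithinAt 𝓘(ℝ, E) (𝓘(ℝ, E).prod 𝓘(ℝ)) ∞
      (fun y ↦ Bundle.TotalSpace.mk' ℝ (E := Bundle.Trivial M ℝ) (e.symm y)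
        (g.inner (e.symm y) (mfderiv 𝓘(ℝ, E) 𝓘(ℝ, E) e.symm y u)
          (mfderiv 𝓘(ℝ, E) 𝓘(ℝ, E) e.symm y w))) e.target x := by
    apply ContMDiffWithinAt.clm_bundle_apply₂ (F₁ := E)
      (F₂ := E)
    · exact hg x hx
    · exact coordField e he u x hx
    · exact coordField e he w x hx
  simp only [Bundle.contMDiffWithinAt_totalSpace] at this
  exact this.2

/-- the metric coefficients are positive definite -/
theorem GG_pos (g : RMetric E M) {e : OpenPartialHomeomorph M E}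
    (he : e ∈ atlas E M) {x : E}
    (hx : x ∈ e.target) {u : E} (hu : u ≠ 0) : 0 < GG g e x u u := by
  rw [GG_apply]
  unfold coeff
  apply g.pos
  intro h0
  have h0a : mfderiv 𝓘(ℝ, E) 𝓘(ℝ, E) e.symm x u = 0 := h0
  apply hu
  have hsymm : ContMDiffOn 𝓘(ℝ, E) 𝓘(ℝ, E) ∞ e.symm e.target :=
    contMDiffOn_symm_of_mem_maximalAtlas (IsManifold.subset_maximalAtlas he)
  have hsrc : ContMDiffOn 𝓘(ℝ, E) 𝓘(ℝ, E) ∞ e e.source :=
    contMDiffOn_of_mem_maximalAtlas (IsManifold.subset_maximalAtlas he)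
  have h1 : MDifferentiableAt 𝓘(ℝ, E) 𝓘(ℝ, E) e.symm x :=
    ((hsymm x hx).contMDiffAt (e.open_target.mem_nhds hx)).mdifferentiableAt (by norm_num)
  have hs : e.symm x ∈ e.source := e.map_target hx
  have h2 : MDifferentiableAt 𝓘(ℝ, E) 𝓘(ℝ, E) e (e.symm x) :=
    ((hsrc _ hs).contMDiffAt (e.open_source.mem_nhds hs)).mdifferentiableAt (by norm_num)
  have h3 := mfderiv_comp x h2 h1
  have h4 : mfderiv 𝓘(ℝ, E) 𝓘(ℝ, E) (e ∘ e.symm) x = mfderiv 𝓘(ℝ, E) 𝓘(ℝ, E) id x := by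
    apply Filter.EventuallyEq.mfderiv_eq
    filter_upwards [e.open_target.mem_nhds hx] with y hy
    exact e.right_inv hy
  rw [h4, mfderiv_id] at h3
  have h5 := congrArg (fun L => L u) h3
  have h6 : u = (mfderiv 𝓘(ℝ, E) 𝓘(ℝ, E) e (e.symm x)) (mfderiv 𝓘(ℝ, E) 𝓘(ℝ, E) e.symm x u) := h5
  rw [h6, h0a, map_zero]
  rfl

end Pool.Agent.GNet
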