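import Mathlib
import Pool.Agent.Helper971.BK.DNet
import Pool.Agent.Helper971.BK.P1
import Pool.Agent.Helper971.BK.P2

set_option autoImplicit false

open Finset Classical MeasureTheory
open scoped Manifold ContDiff

namespace Pool.Agent.GNet

variable {E : Type*} [NormedAddCommGroup E] [InnerProductSpace ℝ E] [FiniteDimensional ℝ E]
  {M : Type*} [TopologicalSpace M] [ChartedSpace E M] [IsManifold 𝓘(ℝ, E) ∞ M]

/-- local geometry around every point -/
theorem exists_chartGeom (g : RMetric E M) (p : M) :
    ∃ R : ℝ, 0 < R ∧ ∃ Γ : Geom E,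
      Γ.B = Metric.closedBall (chartAt E p p) (9 * R) ∧
      IsChartGeom g (chartAt E p) Γ := by
  set e := chartAt E p with he
  have hea : e ∈ atlas E M := chart_mem_atlas _ p
  have hop : e p ∈ e.target := e.map_source (mem_chart_source _ p)
  obtain ⟨r, hr0, hr⟩ := Metric.isOpen_iff.1 e.open_target (e p) hop
  have hsub : Metric.closedBall (e p) (9 * (r / 18)) ⊆ e.target :=
    (Metric.closedBall_subset_ball (by linarith)).trans hr
  obtain ⟨Γ, h1, h2, h3, h4⟩ := exists_geom e.open_target (e p)
    (show 0 < 9 * (r / 18) by positivity) hsub (GG g e) (contDiffOn_GG g hea)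
    (fun x _ u v => by rw [GG_apply, GG_apply, coeff_symm])
    (fun x hx u hu => GG_pos g hea hx hu)
  refine ⟨r / 18, by positivity, Γ, h1, ?_⟩
  exact { mem := hea
          sub := by rw [h1]; exact hsub
          hG := h2
          hG' := h3
          hA := by
            intro x hx
            rw [h1] at hx
            exact h4 x hx }

end Pool.Agent.GNet
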