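import Mathlib
import Pool.Agent.Helper971.BK.DNet
import Pool.Agent.Helper971.BK.P2

set_option autoImplicit false

open Finset Classical MeasureTheory
open scoped Manifold ContDiff

namespace Pool.Agent.GNet

variable {E : Type*} [NormedAddCommGroup E] [InnerProductSpace ℝ E] [FiniteDimensional ℝ E]
  {M : Type*} [TopologicalSpace M] [ChartedSpace E M] [IsManifold 𝓘(ℝ, E) ∞ M]

theorem j4774_comp {E F : Type*} [NormedAddCommGroup E] [NormedSpace ℝ E] [NormedAddCommGroup F]
    [NormedSpace ℝ F] (G : E → F) (G' : E →L[ℝ] F) (c : ℝ → E) (u : E) (s : ℝ)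
    (hG : HasFDerivAt G G' (c s)) (hc : HasDerivAt c u s) :
    HasDerivAt (fun t => G (c t)) (G' u) s := hG.comp_hasDerivAt s hc

/-- the geodesic equation in a chart -/
theorem IsUnitGeodesicAt.chart {g : RMetric E M}
    {e : OpenPartialHomeomorph M E} {Γ : Geom E}
    (hΓ : IsChartGeom g e Γ) {γ : ℝ → M} {s : ℝ} (h : IsUnitGeodesicAt g γ s)
    (hs : γ s ∈ e.source) (hB : e (γ s) ∈ Γ.B) :
    HasDerivAt (fun t => e (γ t)) (deriv (fun t => e (γ t)) s) s ∧
    HasDerivAt (deriv fun t => e (γ t)) (Γ.A (e (γ s)) (deriv (fun t => e (γ t)) s)) s ∧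
    Γ.G (e (γ s)) (deriv (fun t => e (γ t)) s) (deriv (fun t => e (γ t)) s) = 1 := by
  have he := hΓ.mem
  have hsm := h.smooth e he hs
  have heq := h.eq e he hs
  have hsp := h.speed e he hs
  have hct : e (γ s) ∈ e.target := e.map_source hs
  set c : ℝ → E := fun t => e (γ t) with hc
  have hcs : c s = e (γ s) := rfl
  rw [← hcs] at hct hsp hB ⊢
  set u := deriv c s with hu
  have hd1 : HasDerivAt c u s := (hsm.differentiableAt (by norm_num)).hasDerivAt
  have hdd : DifferentiableAt ℝ (deriv c) s := by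
    have h1 : ContDiffAt ℝ 1 (fderiv ℝ c) s := hsm.fderiv_right (by norm_num)
    have h2 : DifferentiableAt ℝ (fderiv ℝ c) s := h1.differentiableAt (by norm_num)
    have h3 : deriv c = fun t => fderiv ℝ c t 1 := by
      ext1 t
      exact (fderiv_apply_one_eq_deriv).symm
    rw [h3]
    exact h2.clm_apply (differentiableAt_const _)
  set q := deriv (deriv c) s with hq
  have hd2 : HasDerivAt (deriv c) q s := hdd.hasDerivAt
  have hGd : HasFDerivAt (GG g e) (fderiv ℝ (GG g e) (c s)) (c s) := by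
    have h1 : ContDiffAt ℝ ∞ (GG g e) (c s) :=
      (contDiffOn_GG g he).contDiffAt (e.open_target.mem_nhds hct)
    exact (h1.differentiableAt (by simp)).hasFDerivAt
  have hGc : HasDerivAt (fun t => GG g e (c t)) (fderiv ℝ (GG g e) (c s) u) s := by
    exact j4774_comp (GG g e) _ c u s hGd hd1
  have hG2 : HasDerivAt (fun t => GG g e (c t) (deriv c t))
      (fderiv ℝ (GG g e) (c s) u u + GG g e (c s) q) s := by
    have := hGc.clm_apply hd2
    exact this
  have hG3 : ∀ w, HasDerivAt (fun t => GG g e (c t) (deriv c t) w)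
      (fderiv ℝ (GG g e) (c s) u u w + GG g e (c s) q w) s := by
    intro w
    have := hG2.clm_apply (hasDerivAt_const s w)
    simpa using this
  have hF : ∀ w, fderiv ℝ (fun x => coeff g e x u u) (c s) w =
      fderiv ℝ (GG g e) (c s) w u u := by
    intro w
    have h1 : HasFDerivAt (fun x => GG g e x u) ((fderiv ℝ (GG g e) (c s)).flip u) (c s) := by
      have := hGd.clm_apply (hasFDerivAt_const u (c s))
      simpa using this
    have h2 : HasFDerivAt (fun x => GG g e x u u)
        (((fderiv ℝ (GG g e) (c s)).flip u).flip u) (c s) := by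
      have := h1.clm_apply (hasFDerivAt_const u (c s))
      simpa using this
    have h3 : (fun x => coeff g e x u u) = fun x => GG g e x u u := rfl
    rw [h3, h2.fderiv]
    rfl
  have hGw : ∀ w, GG g e (c s) (q - Γ.A (c s) u) w = 0 := by
    intro w
    have h1 := heq w
    have h2 : HasDerivAt (fun t => GG g e (c t) (deriv c t) w)
      (1 / 2 * fderiv ℝ (fun x => coeff g e x u u) (c s) w) s := h1
    have h3 := (hG3 w).unique h2
    rw [hF w] at h3
    have h4 := hΓ.hA (c s) hB u hsp w
    rw [map_sub, ContinuousLinearMap.sub_apply, h4]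
    linarith
  have hz : q - Γ.A (c s) u = 0 := by
    have h1 := Γ.lower (c s) hB (q - Γ.A (c s) u)
    rw [hΓ.hG, hGw, mul_zero] at h1
    have h2 : ‖q - Γ.A (c s) u‖ ^ 2 = 0 := le_antisymm h1 (sq_nonneg _)
    exact norm_eq_zero.1 (pow_eq_zero_iff (two_ne_zero)|>.1 h2)
  have hqA : q = Γ.A (c s) u := sub_eq_zero.1 hz
  refine ⟨hd1, ?_, ?_⟩
  · rw [← hqA]
    exact hd2
  · rw [hΓ.hG]
    exact hsp

end Pool.Agent.GNet
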