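import Mathlib
import Pool.Agent.Helper971.BK.DNet
import Pool.Agent.Helper971.BK.P4

set_option autoImplicit false

open Finset Classical MeasureTheory
open scoped Manifold ContDiff

namespace Pool.Agent.GNet

variable {E : Type*} [NormedAddCommGroup E] [InnerProductSpace ℝ E] [FiniteDimensional ℝ E]
  {M : Type*} [TopologicalSpace M] [ChartedSpace E M] [IsManifold 𝓘(ℝ, E) ∞ M]

theorem stay_right {H N : Type*} [NormedAddCommGroup H] [NormedSpace ℝ H] [ProperSpace H]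
    [TopologicalSpace N] [T2Space N] (e : OpenPartialHomeomorph N H) {o : H} {r9 K : ℝ}
    (hK : 0 ≤ K) (hsub : Metric.closedBall o r9 ⊆ e.target) {γ : ℝ → N} {s₀ b : ℝ}
    (hc : ∀ s ∈ Set.Icc s₀ b, ContinuousAt γ s)
    (hd : ∀ s ∈ Set.Icc s₀ b, γ s ∈ e.source → e (γ s) ∈ Metric.ball o r9 →
      ∃ v : H, HasDerivAt (fun t => e (γ t)) v s ∧ ‖v‖ ≤ K)
    (h₀ : γ s₀ ∈ e.source) (hr : dist (e (γ s₀)) o + K * (b - s₀) < r9) :
    ∀ s ∈ Set.Icc s₀ b, γ s ∈ e.source ∧ e (γ s) ∈ Metric.ball o r9 := by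
  intro s1 hs1
  have hsb : s₀ ≤ b := hs1.1.trans hs1.2
  set r' : ℝ := dist (e (γ s₀)) o + K * (b - s₀) with hr'
  have hclb : Metric.closedBall o r' ⊆ Metric.ball o r9 := Metric.closedBall_subset_ball hr
  have hclt : Metric.closedBall o r' ⊆ e.target :=
    (hclb.trans Metric.ball_subset_closedBall).trans hsub
  set C : Set N := e.symm '' Metric.closedBall o r' with hC
  have hCc : IsCompact C :=
    (isCompact_closedBall o r').image_of_continuousOn (e.continuousOn_symm.mono hclt)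
  have hCcl : IsClosed C := hCc.isClosed
  have hCW : ∀ x ∈ C, x ∈ e.source ∧ e x ∈ Metric.ball o r9 := by
    rintro _ ⟨y, hy, rfl⟩
    refine ⟨e.map_target (hclt hy), ?_⟩
    rw [e.right_inv (hclt hy)]
    exact hclb hy
  have hWo : IsOpen (e.source ∩ e ⁻¹' Metric.ball o r9) :=
    e.isOpen_inter_preimage Metric.isOpen_ball
  have hinC : ∀ x ∈ e.source, e x ∈ Metric.closedBall o r' → x ∈ C := by
    intro x hx hx'
    exact ⟨e x, hx', e.left_inv hx⟩
  have hcont : ContinuousOn γ (Set.Icc s₀ b) := fun s hs => (hc s hs).continuousWithinAt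
  have hT : IsClosed (Set.Icc s₀ b ∩ γ ⁻¹' C) :=
    hcont.preimage_isClosed_of_isClosed isClosed_Icc hCcl
  have hecont : ContinuousOn (fun t => e (γ t)) (Set.Icc s₀ b ∩ γ ⁻¹' C) := by
    refine e.continuousOn.comp (hcont.mono Set.inter_subset_left) ?_
    intro t ht
    exact (hCW _ ht.2).1
  have hφ : ContinuousOn (fun t => K * (t - s₀) - dist (e (γ t)) (e (γ s₀)))
      (Set.Icc s₀ b ∩ γ ⁻¹' C) := by
    refine ContinuousOn.sub (by fun_prop) ?_
    exact continuous_dist.comp_continuousOn (hecont.prodMk continuousOn_const)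
  have hclosed : IsClosed ({t | γ t ∈ C ∧ 0 ≤ K * (t - s₀) - dist (e (γ t)) (e (γ s₀))} ∩
      Set.Icc s₀ b) := by
    have h1 := hφ.preimage_isClosed_of_isClosed hT (isClosed_Ici (a := (0:ℝ)))
    convert h1 using 1
    ext t
    simp only [Set.mem_inter_iff, Set.mem_ofPred_eq, Set.mem_preimage, Set.mem_Ici]
    tauto
  have hstart : s₀ ∈ {t | γ t ∈ C ∧ 0 ≤ K * (t - s₀) - dist (e (γ t)) (e (γ s₀))} := by
    refine ⟨hinC _ h₀ ?_, by simp⟩
    rw [Metric.mem_closedBall, hr']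
    have : 0 ≤ K * (b - s₀) := mul_nonneg hK (by linarith)
    linarith
  have hstep : ∀ x ∈ {t | γ t ∈ C ∧ 0 ≤ K * (t - s₀) - dist (e (γ t)) (e (γ s₀))} ∩
      Set.Ico s₀ b, {t | γ t ∈ C ∧ 0 ≤ K * (t - s₀) - dist (e (γ t)) (e (γ s₀))} ∈
        nhdsWithin x (Set.Ioi x) := by
    rintro x ⟨⟨hxC, hxd⟩, hx⟩
    have hxI : x ∈ Set.Icc s₀ b := ⟨hx.1, hx.2.le⟩
    have hW : γ x ∈ e.source ∩ e ⁻¹' Metric.ball o r9 := hCW _ hxC
    have hev : ∀ᶠ t in nhds x, γ t ∈ e.source ∩ e ⁻¹' Metric.ball o r9 :=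
      (hc x hxI).eventually (hWo.mem_nhds hW)
    obtain ⟨ε, hε, hball⟩ := Metric.eventually_nhds_iff_ball.1 hev
    have hnear : ∀ᶠ t in nhdsWithin x (Set.Ioi x), t ∈ Set.Ioo x (min (x + ε) b) :=
      Ioo_mem_nhdsGT (lt_min (by linarith) hx.2)
    filter_upwards [hnear] with t ht
    have ht1 : t < x + ε := lt_of_lt_of_le ht.2 (min_le_left _ _)
    have ht2 : t < b := lt_of_lt_of_le ht.2 (min_le_right _ _)
    have hallW : ∀ y ∈ Set.Icc x t, γ y ∈ e.source ∩ e ⁻¹' Metric.ball o r9 := by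
      intro y hy
      apply hball
      rw [Metric.mem_ball, Real.dist_eq, abs_of_nonneg (by linarith [hy.1])]
      linarith [hy.2]
    have hallI : ∀ y ∈ Set.Icc x t, y ∈ Set.Icc s₀ b := by
      intro y hy
      exact ⟨hx.1.trans hy.1, hy.2.trans ht2.le⟩
    have hmv : ‖e (γ t) - e (γ x)‖ ≤ K * ‖t - x‖ := by
      refine Convex.norm_image_sub_le_of_norm_hasDerivWithin_le (𝕜 := ℝ)
        (f := fun t => e (γ t)) (f' := deriv (fun t => e (γ t))) (s := Set.Icc x t) ?_ ?_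
        (convex_Icc x t) (Set.left_mem_Icc.2 ht.1.le) (Set.right_mem_Icc.2 ht.1.le)
      · intro y hy
        obtain ⟨v, hv, _⟩ := hd y (hallI y hy) (hallW y hy).1 (hallW y hy).2
        rw [hv.deriv]
        exact hv.hasDerivWithinAt
      · intro y hy
        obtain ⟨v, hv, hvn⟩ := hd y (hallI y hy) (hallW y hy).1 (hallW y hy).2
        rw [hv.deriv]
        exact hvn
    have hmv' : dist (e (γ t)) (e (γ x)) ≤ K * (t - x) := by
      rw [dist_eq_norm]
      rwa [Real.norm_eq_abs, abs_of_pos (by linarith [ht.1])] at hmv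
    have htri : dist (e (γ t)) (e (γ s₀)) ≤ K * (t - s₀) := by
      have := dist_triangle (e (γ t)) (e (γ x)) (e (γ s₀))
      have h3 : K * (t - s₀) = K * (t - x) + K * (x - s₀) := by ring
      linarith
    refine ⟨hinC _ (hallW t (Set.right_mem_Icc.2 ht.1.le)).1 ?_, by linarith⟩
    rw [Metric.mem_closedBall, hr']
    have h4 := dist_triangle (e (γ t)) (e (γ s₀)) o
    have h5 : K * (t - s₀) ≤ K * (b - s₀) := by gcongr
    linarith
  have hall := hclosed.Icc_subset_of_forall_mem_nhdsWithin hstart hstep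
  exact hCW _ (hall hs1).1

/-- a short geodesic with a point in the ball of radius `8 R` stays in the ball of radius `9 R` -/
theorem stay [T2Space M] {g : RMetric E M}
    {e : OpenPartialHomeomorph M E} {Γ : Geom E}
    (hΓ : IsChartGeom g e Γ) {o : E} {R : ℝ}
    (hB : Γ.B = Metric.closedBall o (9 * R)) {γ : ℝ → M} {a b s₀ : ℝ}
    (hγ : ∀ s ∈ Set.Icc a b, IsUnitGeodesicAt g γ s) (hs₀ : s₀ ∈ Set.Icc a b)
    (h₀ : γ s₀ ∈ e.source) (h₀' : e (γ s₀) ∈ Metric.ball o (8 * R)) (hab : Γ.K * (b - a) < R) :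
    ∀ s ∈ Set.Icc a b, γ s ∈ e.source ∧ e (γ s) ∈ Metric.ball o (9 * R) := by
  have hK1 : 1 ≤ Γ.K := Γ.one_le
  have hK0 : 0 ≤ Γ.K := by linarith
  have hsub : Metric.closedBall o (9 * R) ⊆ e.target := by rw [← hB]; exact hΓ.sub
  have hder : ∀ s ∈ Set.Icc a b, γ s ∈ e.source → e (γ s) ∈ Metric.ball o (9 * R) →
      ∃ v, HasDerivAt (fun t => e (γ t)) v s ∧ ‖v‖ ≤ Γ.K := by
    intro s hs h1 h2
    have hBm : e (γ s) ∈ Γ.B := by rw [hB]; exact Metric.ball_subset_closedBall h2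
    obtain ⟨h3, _, h5⟩ := (hγ s hs).chart hΓ h1 hBm
    refine ⟨_, h3, ?_⟩
    have h6 := Γ.lower _ hBm (deriv (fun t => e (γ t)) s)
    rw [h5, mul_one] at h6
    have h7 : ‖deriv (fun t => e (γ t)) s‖ ^ 2 ≤ Γ.K ^ 2 := by nlinarith
    exact (pow_le_pow_iff_left₀ (norm_nonneg _) hK0 two_ne_zero).1 h7
  have hd0 : dist (e (γ s₀)) o < 8 * R := h₀'
  intro s hs
  rcases le_total s₀ s with h | h
  · refine stay_right e (r9 := 9 * R) (K := Γ.K) hK0 hsub (γ := γ) (s₀ := s₀) (b := b) ?_ ?_ h₀ ?_ s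
      ⟨h, hs.2⟩
    · intro t ht
      exact (hγ t ⟨hs₀.1.trans ht.1, ht.2⟩).cont
    · intro t ht
      exact hder t ⟨hs₀.1.trans ht.1, ht.2⟩
    · have : Γ.K * (b - s₀) ≤ Γ.K * (b - a) := by
        have := hs₀.1
        gcongr
      linarith
  · have key := stay_right e (r9 := 9 * R) (K := Γ.K) hK0 hsub (γ := fun t => γ (-t))
      (s₀ := -s₀) (b := -a) ?_ ?_ (by simpa using h₀) ?_ (-s) ⟨by linarith, by linarith [hs.1]⟩
    · simpa using key
    · intro t ht
      have h1 : ContinuousAt γ (-t) := (hγ (-t) ⟨by linarith [ht.2], by linarith [ht.1, hs₀.2]⟩).cont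
      exact h1.comp (continuous_neg.continuousAt)
    · intro t ht h1 h2
      obtain ⟨v, hv, hvn⟩ := hder (-t) ⟨by linarith [ht.2], by linarith [ht.1, hs₀.2]⟩ h1 h2
      refine ⟨-v, ?_, by rwa [norm_neg]⟩
      have h3 := HasDerivAt.scomp t hv (hasDerivAt_neg t)
      simpa [Function.comp_def] using h3
    · simp only [neg_neg]
      have : Γ.K * (-a - -s₀) ≤ Γ.K * (b - a) := by
        have := hs₀.2
        exact mul_le_mul_of_nonneg_left (by linarith) hK0
      linarith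

end Pool.Agent.GNet
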