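import Mathlib
import Pool.Agent.Helper971.BK.DNet
import Pool.Agent.Helper971.BK.P4
import Pool.Agent.Helper971.BK.P5

set_option autoImplicit false

open Finset Classical MeasureTheory
open scoped Manifold ContDiff

namespace Pool.Agent.GNet

variable {E : Type*} [NormedAddCommGroup E] [InnerProductSpace ℝ E] [FiniteDimensional ℝ E]
  {M : Type*} [TopologicalSpace M] [ChartedSpace E M] [IsManifold 𝓘(ℝ, E) ∞ M]

/-! ### auxiliary lemmas for the localisation -/

theorem lc_mem_starts {o : E} {R K : ℝ} (N : LNet E o R K) {z : E} (h : 3 ≤ N.deg z) :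
    z ∈ N.starts := by
  have h4 : (univ.filter fun d => N.x d 0 = z).Nonempty := by
    rw [← Finset.card_pos]
    exact lt_of_lt_of_le (by norm_num) h
  obtain ⟨d, hd⟩ := h4
  rw [← (Finset.mem_filter.1 hd).2]
  exact Finset.mem_image_of_mem _ (Finset.mem_univ d)

section localisation

theorem lc_A_neg {g : RMetric E M}
    {e : OpenPartialHomeomorph M E} {Γ : Geom E}
    (hΓ : IsChartGeom g e Γ) {x u : E} (hx : x ∈ Γ.B)
    (hu : Γ.G x u u = 1) : Γ.A x (-u) = Γ.A x u := by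
  have hG := hΓ.hG
  have hu1 : GG g e x u u = 1 := by rw [← hG]; exact hu
  have hu2 : GG g e x (-u) (-u) = 1 := by
    simpa using hu1
  have h1 := hΓ.hA x hx u hu1
  have h2 := hΓ.hA x hx (-u) hu2
  have h3 : ∀ w, GG g e x (Γ.A x (-u)) w = GG g e x (Γ.A x u) w := by
    intro w
    rw [h1 w, h2 w]
    simp
  have h4 : Γ.G x (Γ.A x (-u) - Γ.A x u) (Γ.A x (-u) - Γ.A x u) = 0 := by
    have h5 : ∀ a b w, GG g e x (a - b) w = GG g e x a w - GG g e x b w := by
      intro a b w; simp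
    rw [hG, h5, h3, sub_self]
  have h5 := Γ.lower x hx (Γ.A x (-u) - Γ.A x u)
  rw [h4, mul_zero] at h5
  have h6 : ‖Γ.A x (-u) - Γ.A x u‖ = 0 := by
    have := norm_nonneg (Γ.A x (-u) - Γ.A x u)
    nlinarith
  exact sub_eq_zero.1 (norm_eq_zero.1 h6)

variable {g : RMetric E M} (N : ClosedGeodesicNet g)
  (e : OpenPartialHomeomorph M E) (o : E) (R : ℝ)
  (q : Fin N.m → ℕ)

/-- length of the pieces -/
noncomputable def lcδ (i : Fin N.m) : ℝ := N.len i / q i

/-- start of a piece -/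
noncomputable def lcst (p : Σ i : Fin N.m, Fin (q i)) : ℝ := ((p.2 : ℕ) : ℝ) * lcδ N q p.1

/-- kept pieces -/
def lcKept (p : Σ i : Fin N.m, Fin (q i)) : Prop :=
  ∀ s ∈ Set.Icc (lcst N q p) (lcst N q p + lcδ N q p.1),
    N.γ p.1 s ∈ e.source ∧ e (N.γ p.1 s) ∈ Metric.ball o (9 * R)

/-- parameter on a dart -/
noncomputable def lcpar (p : (Σ i : Fin N.m, Fin (q i)) × Bool) (s : ℝ) : ℝ :=
  if p.2 then lcst N q p.1 + s else lcst N q p.1 + lcδ N q p.1.1 - s

/-- sign of a dart -/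
noncomputable def lcsg (b : Bool) : ℝ := if b then 1 else -1

/-- position -/
noncomputable def lcx (p : (Σ i : Fin N.m, Fin (q i)) × Bool) (s : ℝ) :
    E := e (N.γ p.1.1 (lcpar N q p s))

/-- velocity -/
noncomputable def lcu (p : (Σ i : Fin N.m, Fin (q i)) × Bool) (s : ℝ) :
    E :=
  lcsg p.2 • deriv (fun t => e (N.γ p.1.1 t)) (lcpar N q p s)

theorem lcq_pos (p : Σ i : Fin N.m, Fin (q i)) : 0 < q p.1 :=
  lt_of_le_of_lt (Nat.zero_le _) p.2.2

theorem lcδ_pos {i : Fin N.m} (hi : 0 < q i) : 0 < lcδ N q i := by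
  have := N.len_pos i
  have h : (0 : ℝ) < q i := by exact_mod_cast hi
  unfold lcδ
  positivity

theorem lcq_mul {i : Fin N.m} (hi : 0 < q i) : (q i : ℝ) * lcδ N q i = N.len i := by
  have h : (0 : ℝ) < q i := by exact_mod_cast hi
  unfold lcδ
  field_simp

theorem lcst_nonneg (p : Σ i : Fin N.m, Fin (q i)) : 0 ≤ lcst N q p := by
  have := (lcδ_pos N q (lcq_pos N q p)).le
  unfold lcst
  positivity

theorem lcst_add_le (p : Σ i : Fin N.m, Fin (q i)) :
    lcst N q p + lcδ N q p.1 ≤ N.len p.1 := by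
  have h1 := (lcδ_pos N q (lcq_pos N q p)).le
  rw [← lcq_mul N q (lcq_pos N q p)]
  have h2 : ((p.2 : ℕ) : ℝ) + 1 ≤ q p.1 := by
    have := p.2.2
    exact_mod_cast this
  unfold lcst
  nlinarith

theorem lcpar_mem (p : (Σ i : Fin N.m, Fin (q i)) × Bool) {s : ℝ}
    (hs : s ∈ Set.Icc 0 (lcδ N q p.1.1)) :
    lcpar N q p s ∈ Set.Icc (lcst N q p.1) (lcst N q p.1 + lcδ N q p.1.1) := by
  obtain ⟨p, b⟩ := p
  obtain ⟨h1, h2⟩ := hs
  simp only at h2
  cases b
  · simp only [lcpar, Bool.false_eq_true, if_false]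
    exact ⟨by linarith, by linarith⟩
  · simp only [lcpar, if_true]
    exact ⟨by linarith, by linarith⟩

theorem lcpar_mem' (p : (Σ i : Fin N.m, Fin (q i)) × Bool) {s : ℝ}
    (hs : s ∈ Set.Ioo 0 (lcδ N q p.1.1)) :
    lcpar N q p s ∈ Set.Ioo (lcst N q p.1) (lcst N q p.1 + lcδ N q p.1.1) := by
  obtain ⟨p, b⟩ := p
  obtain ⟨h1, h2⟩ := hs
  simp only at h2
  cases b
  · simp only [lcpar, Bool.false_eq_true, if_false]
    exact ⟨by linarith, by linarith⟩
  · simp only [lcpar, if_true]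
    exact ⟨by linarith, by linarith⟩

theorem lcpar_rev (p : Σ i : Fin N.m, Fin (q i)) (b : Bool) (s : ℝ) :
    lcpar N q (p, !b) s = lcpar N q (p, b) (lcδ N q p.1 - s) := by
  cases b
  · simp only [lcpar, Bool.not_false, Bool.false_eq_true, if_true, if_false]
    ring
  · simp only [lcpar, Bool.not_true, Bool.false_eq_true, if_true, if_false]
    ring

theorem lcsg_rev (b : Bool) : lcsg (!b) = - lcsg b := by
  cases b <;> simp [lcsg]

theorem lcsg_mul (b : Bool) : lcsg b * lcsg b = 1 := by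
  cases b <;> simp [lcsg]

theorem lcpar_deriv (p : (Σ i : Fin N.m, Fin (q i)) × Bool) (s : ℝ) :
    HasDerivAt (lcpar N q p) (lcsg p.2) s := by
  obtain ⟨p, b⟩ := p
  cases b
  · have h : lcpar N q (p, false) = fun s => lcst N q p + lcδ N q p.1 - s := by
      funext s; simp [lcpar]
    rw [h]
    simpa [lcsg] using (hasDerivAt_id s).const_sub (lcst N q p + lcδ N q p.1)
  · have h : lcpar N q (p, true) = fun s => lcst N q p + s := by
      funext s; simp [lcpar]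
    rw [h]
    simpa [lcsg] using (hasDerivAt_id s).const_add (lcst N q p)

variable {e o R} {Γ : Geom E}

theorem lc_ball (hB : Γ.B = Metric.closedBall o (9 * R)) {x : E}
    (hx : x ∈ Metric.ball o (9 * R)) : x ∈ Γ.B := by
  rw [hB]; exact Metric.ball_subset_closedBall hx

theorem lc_geod (p : (Σ i : Fin N.m, Fin (q i)) × Bool) {s : ℝ}
    (hs : s ∈ Set.Icc 0 (lcδ N q p.1.1)) : IsUnitGeodesicAt g (N.γ p.1.1) (lcpar N q p s) := by
  apply N.geodesic
  have h1 := lcpar_mem N q p hs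
  exact ⟨(lcst_nonneg N q p.1).trans h1.1, h1.2.trans (lcst_add_le N q p.1)⟩

theorem lc_mem (hB : Γ.B = Metric.closedBall o (9 * R))
    (p : (Σ i : Fin N.m, Fin (q i)) × Bool) (hp : lcKept N e o R q p.1) {s : ℝ}
    (hs : s ∈ Set.Icc 0 (lcδ N q p.1.1)) : lcx N e q p s ∈ Γ.B :=
  lc_ball hB (hp _ (lcpar_mem N q p hs)).2

theorem lc_unit (hΓ : IsChartGeom g e Γ) (hB : Γ.B = Metric.closedBall o (9 * R))
    (p : (Σ i : Fin N.m, Fin (q i)) × Bool) (hp : lcKept N e o R q p.1) {s : ℝ}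
    (hs : s ∈ Set.Icc 0 (lcδ N q p.1.1)) :
    Γ.G (lcx N e q p s) (lcu N e q p s) (lcu N e q p s) = 1 := by
  have hk := hp _ (lcpar_mem N q p hs)
  have h := (lc_geod N q p hs).chart hΓ hk.1 (lc_ball hB hk.2)
  unfold lcx lcu
  have h5 : ∀ (c : ℝ) (a b : E),
      Γ.G a (c • b) (c • b) = (c * c) * Γ.G a b b := by
    intro c a b; simp; ring
  rw [h5, lcsg_mul, one_mul]
  exact h.2.2

theorem lc_hx (hΓ : IsChartGeom g e Γ) (hB : Γ.B = Metric.closedBall o (9 * R))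
    (p : (Σ i : Fin N.m, Fin (q i)) × Bool) (hp : lcKept N e o R q p.1) {s : ℝ}
    (hs : s ∈ Set.Icc 0 (lcδ N q p.1.1)) :
    HasDerivAt (lcx N e q p) (lcu N e q p s) s := by
  have hk := hp _ (lcpar_mem N q p hs)
  have h := (lc_geod N q p hs).chart hΓ hk.1 (lc_ball hB hk.2)
  exact h.1.scomp s (lcpar_deriv N q p s)

theorem lc_hu (hΓ : IsChartGeom g e Γ) (hB : Γ.B = Metric.closedBall o (9 * R))
    (p : (Σ i : Fin N.m, Fin (q i)) × Bool) (hp : lcKept N e o R q p.1) {s : ℝ}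
    (hs : s ∈ Set.Icc 0 (lcδ N q p.1.1)) :
    HasDerivAt (lcu N e q p) (Γ.A (lcx N e q p s) (lcu N e q p s)) s := by
  have hk := hp _ (lcpar_mem N q p hs)
  have h := (lc_geod N q p hs).chart hΓ hk.1 (lc_ball hB hk.2)
  have h1 := (h.2.1.scomp s (lcpar_deriv N q p s)).const_smul (lcsg p.2)
  rw [smul_smul, lcsg_mul, one_smul] at h1
  have h2 : Γ.A (lcx N e q p s) (lcu N e q p s) =
      Γ.A (e (N.γ p.1.1 (lcpar N q p s))) (deriv (fun t => e (N.γ p.1.1 t)) (lcpar N q p s)) := by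
    unfold lcx lcu lcsg
    by_cases hb : p.2 = true
    · rw [if_pos hb, one_smul]
    · rw [if_neg hb, neg_smul, one_smul]
      exact lc_A_neg hΓ (lc_ball hB hk.2) h.2.2
  rw [h2]
  exact h1

theorem lc_u_le (hΓ : IsChartGeom g e Γ) (hB : Γ.B = Metric.closedBall o (9 * R))
    (p : (Σ i : Fin N.m, Fin (q i)) × Bool) (hp : lcKept N e o R q p.1) {s : ℝ}
    (hs : s ∈ Set.Icc 0 (lcδ N q p.1.1)) : ‖lcu N e q p s‖ ≤ Γ.K := by
  have h1 := lc_unit N q hΓ hB p hp hs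
  have h2 := Γ.lower _ (lc_mem N q hB p hp hs) (lcu N e q p s)
  rw [h1, mul_one] at h2
  have h3 := Γ.one_le
  have h4 := norm_nonneg (lcu N e q p s)
  nlinarith

theorem lc_u_ge (hΓ : IsChartGeom g e Γ) (hB : Γ.B = Metric.closedBall o (9 * R))
    (p : (Σ i : Fin N.m, Fin (q i)) × Bool) (hp : lcKept N e o R q p.1) {s : ℝ}
    (hs : s ∈ Set.Icc 0 (lcδ N q p.1.1)) : 1 ≤ Γ.K * ‖lcu N e q p s‖ := by
  have h1 := lc_unit N q hΓ hB p hp hs
  have h2 := Γ.upper _ (lc_mem N q hB p hp hs) (lcu N e q p s) (lcu N e q p s)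
  rw [h1, abs_one] at h2
  have h3 := Γ.one_le
  have h4 := norm_nonneg (lcu N e q p s)
  by_cases h5 : ‖lcu N e q p s‖ ≤ 1
  · nlinarith [mul_nonneg (zero_le_one.trans h3) h4]
  · push Not at h5
    nlinarith

theorem lc_ac (hΓ : IsChartGeom g e Γ) (hB : Γ.B = Metric.closedBall o (9 * R))
    (p : (Σ i : Fin N.m, Fin (q i)) × Bool) (hp : lcKept N e o R q p.1) :
    ContinuousOn (fun s => Γ.A (lcx N e q p s) (lcu N e q p s))
      (Set.Icc 0 (lcδ N q p.1.1)) := by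
  intro s hs
  have hxc : ContinuousWithinAt (lcx N e q p) (Set.Icc 0 (lcδ N q p.1.1)) s :=
    (lc_hx N q hΓ hB p hp hs).continuousAt.continuousWithinAt
  have huc : ContinuousWithinAt (lcu N e q p) (Set.Icc 0 (lcδ N q p.1.1)) s :=
    (lc_hu N q hΓ hB p hp hs).continuousAt.continuousWithinAt
  rw [ContinuousWithinAt, tendsto_iff_norm_sub_tendsto_zero]
  have h1 : Filter.Tendsto (fun t => Γ.K * (‖lcx N e q p t - lcx N e q p s‖ +
      ‖lcu N e q p t - lcu N e q p s‖)) (nhdsWithin s (Set.Icc 0 (lcδ N q p.1.1))) (nhds 0) := by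
    have h2 := (tendsto_iff_norm_sub_tendsto_zero.1 hxc).add
      (tendsto_iff_norm_sub_tendsto_zero.1 huc)
    simpa using h2.const_mul Γ.K
  refine squeeze_zero' (Filter.Eventually.of_forall fun t => norm_nonneg _) ?_ h1
  filter_upwards [self_mem_nhdsWithin] with t ht
  exact Γ.A_lip _ (lc_mem N q hB p hp ht) _ (lc_mem N q hB p hp hs) _ _
    (lc_u_le N q hΓ hB p hp ht) (lc_u_le N q hΓ hB p hp hs)

theorem lc_emb (p p' : (Σ i : Fin N.m, Fin (q i)) × Bool) (hp : lcKept N e o R q p.1)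
    (hp' : lcKept N e o R q p'.1) {s t : ℝ} (hs : s ∈ Set.Ioo 0 (lcδ N q p.1.1))
    (ht : t ∈ Set.Icc 0 (lcδ N q p'.1.1)) (h : lcx N e q p s = lcx N e q p' t) :
    (p' = p ∧ t = s) ∨ (p' = (p.1, !p.2) ∧ t = lcδ N q p.1.1 - s) := by
  have h1 := lcpar_mem' N q p hs
  have h2 := lcpar_mem N q p' ht
  have h3 : N.γ p.1.1 (lcpar N q p s) = N.γ p'.1.1 (lcpar N q p' t) :=
    e.injOn (hp _ ⟨h1.1.le, h1.2.le⟩).1 (hp' _ h2).1 h
  obtain ⟨h4, h5⟩ := N.embedded p.1.1 p'.1.1 (lcpar N q p s)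
    ⟨lt_of_le_of_lt (lcst_nonneg N q p.1) h1.1, lt_of_lt_of_le h1.2 (lcst_add_le N q p.1)⟩
    (lcpar N q p' t) ⟨(lcst_nonneg N q p'.1).trans h2.1, h2.2.trans (lcst_add_le N q p'.1)⟩ h3
  obtain ⟨⟨i, k⟩, b⟩ := p
  obtain ⟨⟨i', k'⟩, b'⟩ := p'
  simp only at h4
  subst h4
  have hδ : 0 < lcδ N q i := lcδ_pos N q (lcq_pos N q ⟨i, k⟩)
  have hk : k' = k := by
    rw [h5] at h1
    obtain ⟨a1, a2⟩ := h1
    obtain ⟨a3, a4⟩ := h2
    simp only [lcst] at a1 a2 a3 a4
    have b1 : ((k : ℕ) : ℝ) < (k' : ℕ) + 1 := by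
      have : ((k : ℕ) : ℝ) * lcδ N q i < (((k' : ℕ) : ℝ) + 1) * lcδ N q i := by linarith
      exact lt_of_mul_lt_mul_right this hδ.le
    have b2 : ((k' : ℕ) : ℝ) < (k : ℕ) + 1 := by
      have : ((k' : ℕ) : ℝ) * lcδ N q i < (((k : ℕ) : ℝ) + 1) * lcδ N q i := by linarith
      exact lt_of_mul_lt_mul_right this hδ.le
    have c1 : (k : ℕ) < (k' : ℕ) + 1 := by exact_mod_cast b1
    have c2 : (k' : ℕ) < (k : ℕ) + 1 := by exact_mod_cast b2
    exact Fin.ext (by omega)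
  subst hk
  by_cases hb : b' = b
  · subst hb
    left
    refine ⟨rfl, ?_⟩
    cases b'
    · simp only [lcpar, Bool.false_eq_true, if_false] at h5
      linarith
    · simp only [lcpar, if_true] at h5
      linarith
  · right
    have hb' : b' = !b := by cases b <;> cases b' <;> simp_all
    subst hb'
    refine ⟨rfl, ?_⟩
    rw [lcpar_rev] at h5
    cases b
    · simp only [lcpar, Bool.false_eq_true, if_false] at h5 ⊢
      linarith
    · simp only [lcpar, if_true] at h5 ⊢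
      linarith

theorem lc_iff [T2Space M] (hΓ : IsChartGeom g e Γ) (hB : Γ.B = Metric.closedBall o (9 * R))
    (hδ : ∀ i, Γ.K * lcδ N q i < R) (p : Σ i : Fin N.m, Fin (q i))
    {z : E} {v : M} (hv : v ∈ e.source) (hvz : e v = z)
    (hz : z ∈ Metric.ball o (8 * R)) {s₀ : ℝ}
    (hs₀ : s₀ ∈ Set.Icc (lcst N q p) (lcst N q p + lcδ N q p.1)) :
    (lcKept N e o R q p ∧ e (N.γ p.1 s₀) = z) ↔ N.γ p.1 s₀ = v := by
  constructor
  · rintro ⟨h1, h2⟩
    exact e.injOn (h1 s₀ hs₀).1 hv (h2.trans hvz.symm)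
  · intro h
    refine ⟨?_, by rw [h, hvz]⟩
    refine stay hΓ hB (γ := N.γ p.1) (s₀ := s₀) ?_ hs₀ ?_ ?_ ?_
    · intro s hs
      exact N.geodesic _ _ ⟨(lcst_nonneg N q p).trans hs.1, hs.2.trans (lcst_add_le N q p)⟩
    · rw [h]; exact hv
    · rw [h, hvz]; exact hz
    · rw [add_sub_cancel_left]; exact hδ _

/-- sums over the darts which start at a point -/
theorem lc_sum [T2Space M] (hΓ : IsChartGeom g e Γ) (hB : Γ.B = Metric.closedBall o (9 * R))
    (hδ : ∀ i, Γ.K * lcδ N q i < R)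
    {A : Type*} [AddCommMonoid A] (f : (Σ i : Fin N.m, Fin (q i)) × Bool → A)
    {z : E} {v : M} (hv : v ∈ e.source) (hvz : e v = z)
    (hz : z ∈ Metric.ball o (8 * R)) :
    ∑ d : {p : (Σ i : Fin N.m, Fin (q i)) × Bool // lcKept N e o R q p.1} with
      lcx N e q d.1 0 = z, f d.1 =
    ∑ i, ∑ k : Fin (q i), ((if N.γ i ((k : ℕ) * lcδ N q i) = v then f (⟨i, k⟩, true) else 0) +
      (if N.γ i (((k : ℕ) + 1) * lcδ N q i) = v then f (⟨i, k⟩, false) else 0)) := by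
  rw [Finset.sum_filter, ← Finset.sum_subtype (univ.filter
    (fun p : (Σ i : Fin N.m, Fin (q i)) × Bool => lcKept N e o R q p.1)) (by simp)
    (fun p => if lcx N e q p 0 = z then f p else 0), Finset.sum_filter, Fintype.sum_prod_type,
    Fintype.sum_sigma]
  refine Finset.sum_congr rfl fun i _ => Finset.sum_congr rfl fun k _ => ?_
  rw [Fintype.sum_bool]
  have hδ0 : 0 < lcδ N q i := lcδ_pos N q (lcq_pos N q ⟨i, k⟩)
  have e1 : lcx N e q (⟨i, k⟩, true) 0 = e (N.γ i ((k : ℕ) * lcδ N q i)) := by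
    simp [lcx, lcpar, lcst]
  have e2 : lcx N e q (⟨i, k⟩, false) 0 = e (N.γ i (((k : ℕ) + 1) * lcδ N q i)) := by
    simp only [lcx, lcpar, lcst, Bool.false_eq_true, if_false]
    congr 2
    ring
  simp only [← ite_and]
  rw [e1, e2]
  have g1 := lc_iff N q hΓ hB hδ ⟨i, k⟩ hv hvz hz (s₀ := (k : ℕ) * lcδ N q i)
    ⟨le_refl _, by simp only [lcst]; linarith⟩
  have g2 := lc_iff N q hΓ hB hδ ⟨i, k⟩ hv hvz hz (s₀ := ((k : ℕ) + 1) * lcδ N q i)
    ⟨by simp only [lcst]; linarith, by simp only [lcst]; linarith⟩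
  simp only at g1 g2
  congr 1
  · exact if_congr g1 rfl rfl
  · exact if_congr g2 rfl rfl

theorem lc_bal [T2Space M] (hΓ : IsChartGeom g e Γ) (hB : Γ.B = Metric.closedBall o (9 * R))
    (hq : ∀ i, 0 < q i) (hδ : ∀ i, Γ.K * lcδ N q i < R)
    {z : E} (hz : z ∈ Metric.ball o (8 * R)) (hR : 0 < R) :
    ∑ d : {p : (Σ i : Fin N.m, Fin (q i)) × Bool // lcKept N e o R q p.1} with
      lcx N e q d.1 0 = z, lcu N e q d.1 0 = 0 := by
  have hzB : z ∈ Γ.B := lc_ball hB (Metric.ball_subset_ball (by linarith) hz)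
  have hzt : z ∈ e.target := hΓ.sub hzB
  set v := e.symm z with hv
  have hvs : v ∈ e.source := e.map_target hzt
  have hvz : e v = z := e.right_inv hzt
  rw [lc_sum N q hΓ hB hδ (fun p => lcu N e q p 0) hvs hvz hz]
  set φ : Fin N.m → ℝ → E := fun i s =>
    if N.γ i s = v then deriv (fun t => e (N.γ i t)) s else 0 with hφ
  have h1 : ∀ i, ∑ k : Fin (q i),
      ((if N.γ i ((k : ℕ) * lcδ N q i) = v then lcu N e q (⟨i, k⟩, true) 0 else 0) +
      (if N.γ i (((k : ℕ) + 1) * lcδ N q i) = v then lcu N e q (⟨i, k⟩, false) 0 else 0)) =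
      φ i 0 - φ i (N.len i) := by
    intro i
    have h2 : ∀ k : Fin (q i),
        ((if N.γ i ((k : ℕ) * lcδ N q i) = v then lcu N e q (⟨i, k⟩, true) 0 else 0) +
        (if N.γ i (((k : ℕ) + 1) * lcδ N q i) = v then lcu N e q (⟨i, k⟩, false) 0 else 0)) =
        (fun j : ℕ => φ i ((j : ℝ) * lcδ N q i) - φ i (((j + 1 : ℕ) : ℝ) * lcδ N q i)) k := by
      intro k
      have e1 : lcu N e q (⟨i, k⟩, true) 0 =
          deriv (fun t => e (N.γ i t)) ((k : ℕ) * lcδ N q i) := by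
        simp [lcu, lcpar, lcst, lcsg]
      have e2 : lcu N e q (⟨i, k⟩, false) 0 =
          - deriv (fun t => e (N.γ i t)) (((k : ℕ) + 1) * lcδ N q i) := by
        simp only [lcu, lcpar, lcst, lcsg, Bool.false_eq_true, if_false, neg_smul, one_smul]
        congr 2
        ring
      simp only [e1, e2, hφ]
      rw [sub_eq_add_neg]
      congr 1
      push_cast
      by_cases h : N.γ i (((k : ℕ) + 1) * lcδ N q i) = v
      · rw [if_pos h, if_pos h]
      · rw [if_neg h, if_neg h, neg_zero]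
    rw [Finset.sum_congr rfl fun k _ => h2 k,
      Fin.sum_univ_eq_sum_range (fun j : ℕ => φ i ((j : ℝ) * lcδ N q i) -
        φ i (((j + 1 : ℕ) : ℝ) * lcδ N q i)) (q i),
      Finset.sum_range_sub' (fun j : ℕ => φ i ((j : ℝ) * lcδ N q i)), Nat.cast_zero, zero_mul,
      lcq_mul N q (hq i)]
  rw [Finset.sum_congr rfl fun i _ => h1 i, Finset.sum_sub_distrib]
  by_cases hvV : v ∈ N.V
  · have := N.balanced v hvV e hΓ.mem hvs
    rw [Finset.sum_filter, Finset.sum_filter] at this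
    exact this
  · have a1 : ∀ i, φ i 0 = 0 := by
      intro i
      simp only [hφ]
      rw [if_neg]
      intro h
      exact hvV (h ▸ N.start_mem i)
    have a2 : ∀ i, φ i (N.len i) = 0 := by
      intro i
      simp only [hφ]
      rw [if_neg]
      intro h
      exact hvV (h ▸ N.end_mem i)
    simp [a1, a2]

theorem lc_deg [T2Space M] (hΓ : IsChartGeom g e Γ) (hB : Γ.B = Metric.closedBall o (9 * R))
    (hq : ∀ i, 0 < q i) (hδ : ∀ i, Γ.K * lcδ N q i < R)
    {v : M} (hvV : v ∈ N.V) (hv : v ∈ e.source) (hz : e v ∈ Metric.ball o (8 * R)) :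
    3 ≤ #(univ.filter fun d : {p : (Σ i : Fin N.m, Fin (q i)) × Bool // lcKept N e o R q p.1} =>
      lcx N e q d.1 0 = e v) := by
  refine (N.degree v hvV).trans ?_
  rw [Finset.card_eq_sum_ones (univ.filter fun d : {p : (Σ i : Fin N.m, Fin (q i)) × Bool //
    lcKept N e o R q p.1} => lcx N e q d.1 0 = e v),
    lc_sum N q hΓ hB hδ (fun _ => 1) hv rfl hz, Finset.card_filter, Finset.card_filter,
    ← Finset.sum_add_distrib]
  refine Finset.sum_le_sum fun i _ => ?_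
  rw [Finset.sum_add_distrib]
  refine add_le_add ?_ ?_
  · refine le_trans (le_of_eq ?_) (Finset.single_le_sum (f := fun k : Fin (q i) =>
      if N.γ i ((k : ℕ) * lcδ N q i) = v then 1 else 0) (fun _ _ => Nat.zero_le _)
      (Finset.mem_univ (⟨0, hq i⟩ : Fin (q i))))
    simp
  · refine le_trans (le_of_eq ?_) (Finset.single_le_sum (f := fun k : Fin (q i) =>
      if N.γ i (((k : ℕ) + 1) * lcδ N q i) = v then 1 else 0) (fun _ _ => Nat.zero_le _)
      (Finset.mem_univ (⟨q i - 1, Nat.sub_lt (hq i) one_pos⟩ : Fin (q i))))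
    have h1 : (((q i - 1 : ℕ) : ℝ) + 1) * lcδ N q i = N.len i := by
      rw [← lcq_mul N q (hq i)]
      congr 1
      have := hq i
      push_cast [Nat.cast_sub this]
      ring
    simp only [h1]

theorem lc_length (hq : ∀ i, 0 < q i) :
    ∑ d : {p : (Σ i : Fin N.m, Fin (q i)) × Bool // lcKept N e o R q p.1}, lcδ N q d.1.1.1 ≤
      2 * N.length := by
  rw [← Finset.sum_subtype (univ.filter
    (fun p : (Σ i : Fin N.m, Fin (q i)) × Bool => lcKept N e o R q p.1)) (by simp)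
    (fun p => lcδ N q p.1.1)]
  refine (Finset.sum_le_sum_of_subset_of_nonneg (Finset.filter_subset _ _)
    (fun p _ _ => (lcδ_pos N q (hq _)).le)).trans ?_
  rw [Fintype.sum_prod_type, Fintype.sum_sigma, ClosedGeodesicNet.length, Finset.mul_sum]
  refine Finset.sum_le_sum fun i _ => ?_
  simp only [Finset.sum_const, Finset.card_univ, Fintype.card_fin, Fintype.card_bool,
    nsmul_eq_mul]
  rw [← lcq_mul N q (hq i)]
  push_cast
  linarith

end localisation



set_option maxHeartbeats 4000000 in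
/-- localisation of a closed geodesic net -/
theorem ClosedGeodesicNet.exists_local [T2Space M] {g : RMetric E M}
    {e : OpenPartialHomeomorph M E} {Γ : Geom E}
    (hΓ : IsChartGeom g e Γ) {o : E} {R : ℝ} (hR : 0 < R)
    (hB : Γ.B = Metric.closedBall o (9 * R)) (N : ClosedGeodesicNet g) {r₀ : ℝ} (hr₀ : 0 < r₀) :
    ∃ 𝒩 : GeoNet Γ o R, (∀ d, 𝒩.len d ≤ r₀) ∧ 𝒩.length ≤ 2 * N.length ∧
      ∀ v ∈ N.V, v ∈ e.source → e v ∈ Metric.ball o (8 * R) →
        e v ∈ 𝒩.starts ∧ 3 ≤ 𝒩.deg (e v) := by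
  have hK : 0 < Γ.K := lt_of_lt_of_le one_pos Γ.one_le
  set r₁ : ℝ := min r₀ (R / (2 * Γ.K)) with hr₁
  have hr₁0 : 0 < r₁ := lt_min hr₀ (by positivity)
  have hr₁K : Γ.K * r₁ < R := by
    calc Γ.K * r₁ ≤ Γ.K * (R / (2 * Γ.K)) := by
          gcongr
          exact min_le_right _ _
      _ = R / 2 := by field_simp
      _ < R := by linarith
  set q : Fin N.m → ℕ := fun i => ⌈N.len i / r₁⌉₊ with hqdef
  have hq : ∀ i, 0 < q i := fun i => Nat.ceil_pos.2 (div_pos (N.len_pos i) hr₁0)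
  have hδr : ∀ i, lcδ N q i ≤ r₁ := by
    intro i
    have h1 : N.len i / r₁ ≤ q i := Nat.le_ceil _
    have h2 : (0 : ℝ) < q i := by exact_mod_cast hq i
    unfold lcδ
    rw [div_le_iff₀ hr₁0] at h1
    rw [div_le_iff₀ h2]
    linarith
  have hδ : ∀ i, Γ.K * lcδ N q i < R := fun i =>
    lt_of_le_of_lt (mul_le_mul_of_nonneg_left (hδr i) hK.le) hr₁K
  refine ⟨{
    D := {p : (Σ i : Fin N.m, Fin (q i)) × Bool // lcKept N e o R q p.1}
    rev := fun d => ⟨(d.1.1, !d.1.2), d.2⟩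
    len := fun d => lcδ N q d.1.1.1
    x := fun d => lcx N e q d.1
    u := fun d => lcu N e q d.1
    a := fun d s => Γ.A (lcx N e q d.1 s) (lcu N e q d.1 s)
    rev_rev := fun d => by
      obtain ⟨⟨p, b⟩, hp⟩ := d
      simp
    len_pos := fun d => lcδ_pos N q (hq _)
    len_rev := fun d => rfl
    x_rev := fun d s => by
      obtain ⟨⟨p, b⟩, hp⟩ := d
      show e (N.γ p.1 (lcpar N q (p, !b) s)) = e (N.γ p.1 (lcpar N q (p, b) (lcδ N q p.1 - s)))
      rw [lcpar_rev]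
    u_rev := fun d s => by
      obtain ⟨⟨p, b⟩, hp⟩ := d
      show lcsg (!b) • deriv (fun t => e (N.γ p.1 t)) (lcpar N q (p, !b) s) =
        -(lcsg b • deriv (fun t => e (N.γ p.1 t)) (lcpar N q (p, b) (lcδ N q p.1 - s)))
      rw [lcpar_rev, lcsg_rev, neg_smul]
    hx := fun d s hs => lc_hx N q hΓ hB d.1 d.2 hs
    hu := fun d s hs => lc_hu N q hΓ hB d.1 d.2 hs
    ac := fun d => lc_ac N q hΓ hB d.1 d.2
    u_le := fun d s hs => lc_u_le N q hΓ hB d.1 d.2 hs
    u_ge := fun d s hs => lc_u_ge N q hΓ hB d.1 d.2 hs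
    a_le := fun d s hs => Γ.A_le _ (lc_mem N q hB d.1 d.2 hs) _ (lc_u_le N q hΓ hB d.1 d.2 hs)
    bal := fun z hz => by
      have h := lc_bal N q hΓ hB hq hδ hz hR
      convert h
    geo := fun d s hs => rfl
    unit := fun d s hs => lc_unit N q hΓ hB d.1 d.2 hs
    mem := fun d s hs => lc_mem N q hB d.1 d.2 hs
    emb := fun d d' s hs t ht h => by
      rcases lc_emb N q d.1 d'.1 d.2 d'.2 hs ht h with ⟨h1, h2⟩ | ⟨h1, h2⟩
      · exact Or.inl ⟨Subtype.ext h1, h2⟩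
      · exact Or.inr ⟨Subtype.ext h1, h2⟩ }, ?_, ?_, ?_⟩
  · intro d
    exact (hδr _).trans (min_le_left _ _)
  · exact lc_length N q hq
  · intro v hvV hvs hvz
    have h3 := lc_deg N q hΓ hB hq hδ hvV hvs hvz
    suffices h : ∀ 𝒩 : GeoNet Γ o R, 3 ≤ 𝒩.deg (e v) → e v ∈ 𝒩.starts ∧ 3 ≤ 𝒩.deg (e v) by
      refine h _ (le_trans h3 (le_of_eq ?_))
      unfold LNet.deg
      congr
    exact fun 𝒩 h => ⟨lc_mem_starts _ h, h⟩

end Pool.Agent.GNet
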