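import Mathlib
import Pool.Agent.Helper971.BK.DTrack

set_option autoImplicit false

open Finset Classical

namespace Pool.Agent.GNet

variable {E : Type*} [NormedAddCommGroup E] [InnerProductSpace ℝ E]

theorem Track.exists_sub {Γ : Geom E} {ℓ : E →L[ℝ] ℝ} {c a b κ : ℝ} (hab : a < b)
    (τ : Track Γ ℓ c a b κ) : Nonempty τ.Sub := by
  let F : Finset ℝ := ((univ.image τ.s0) ∪ (univ.image τ.s1)).filter fun t => a < t ∧ t < b
  have hF : ∀ t ∈ F, a < t ∧ t < b := fun t ht => (mem_filter.1 ht).2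
  have hF0 : ∀ d, a < τ.s0 d → τ.s0 d < b → τ.s0 d ∈ F := fun d h1 h2 =>
    mem_filter.2 ⟨mem_union_left _ (mem_image_of_mem _ (mem_univ d)), h1, h2⟩
  have hF1 : ∀ d, a < τ.s1 d → τ.s1 d < b → τ.s1 d ∈ F := fun d h1 h2 =>
    mem_filter.2 ⟨mem_union_right _ (mem_image_of_mem _ (mem_univ d)), h1, h2⟩
  obtain ⟨lo, hlo1, hlo2, hlo3⟩ : ∃ lo : ℝ, a < lo ∧ lo < b ∧ ∀ t ∈ F, lo < t := by
    let m := (insert b F).min' ⟨b, mem_insert_self _ _⟩
    have hm : ∀ t ∈ insert b F, m ≤ t := fun t ht => Finset.min'_le _ _ ht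
    have hma : a < m := by
      have h1 : m ∈ insert b F := Finset.min'_mem _ _
      rcases mem_insert.1 h1 with h2 | h2
      · rw [h2]; exact hab
      · exact (hF m h2).1
    have hmb : m ≤ b := hm b (mem_insert_self _ _)
    refine ⟨(a + m) / 2, by linarith, by linarith, fun t ht => ?_⟩
    have := hm t (mem_insert_of_mem ht)
    linarith
  obtain ⟨hi, hhi1, hhi2, hhi3⟩ : ∃ hi : ℝ, lo < hi ∧ hi < b ∧ ∀ t ∈ F, t < hi := by
    let m := (insert lo F).max' ⟨lo, mem_insert_self _ _⟩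
    have hm : ∀ t ∈ insert lo F, t ≤ m := fun t ht => Finset.le_max' _ _ ht
    have hmb : m < b := by
      have h1 : m ∈ insert lo F := Finset.max'_mem _ _
      rcases mem_insert.1 h1 with h2 | h2
      · rw [h2]; exact hlo2
      · exact (hF m h2).2
    have hml : lo ≤ m := hm lo (mem_insert_self _ _)
    refine ⟨(b + m) / 2, by linarith, by linarith, fun t ht => ?_⟩
    have := hm t (mem_insert_of_mem ht)
    linarith
  let o := F.orderEmbOfFin rfl
  let T : ℕ → ℝ := fun k => if k = 0 then lo else if h : k - 1 < #F then o ⟨k - 1, h⟩ else hi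
  have hT0 : T 0 = lo := rfl
  have hTs : ∀ i : ℕ, ∀ h : i < #F, T (i + 1) = o ⟨i, h⟩ := by
    intro i h
    simp only [T]
    rw [if_neg (Nat.succ_ne_zero i), dif_pos (by simpa using h)]
    rfl
  have hTn : ∀ i : ℕ, #F ≤ i → T (i + 1) = hi := by
    intro i h
    simp only [T]
    rw [if_neg (Nat.succ_ne_zero i), dif_neg (by simpa using h)]
  have hoF : ∀ i, o i ∈ F := fun i => F.orderEmbOfFin_mem rfl i
  have hex : ∀ t ∈ F, ∃ k, 0 < k ∧ k < #F + 1 ∧ t = T k := by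
    intro t ht
    have h1 : t ∈ Set.range o := by
      rw [Finset.range_orderEmbOfFin]; exact ht
    obtain ⟨i, hi'⟩ := h1
    refine ⟨i.1 + 1, Nat.succ_pos _, Nat.succ_lt_succ i.2, ?_⟩
    rw [hTs i.1 i.2]
    exact hi'.symm
  refine ⟨{ n := #F + 1, T := T, n_pos := Nat.succ_pos _, mono := ?_, T0 := hlo1, Tn := ?_, s0_mem := ?_, s1_mem := ?_ }⟩
  · intro k hk
    rcases Nat.eq_zero_or_pos k with rfl | hk0
    · rw [hT0]
      by_cases h : 0 < #F
      · rw [hTs 0 h]; exact hlo3 _ (hoF _)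
      · rw [hTn 0 (by omega)]; exact hhi1
    · obtain ⟨i, rfl⟩ : ∃ i, k = i + 1 := ⟨k - 1, by omega⟩
      have hi1 : i < #F := by omega
      rw [hTs i hi1]
      by_cases h : i + 1 < #F
      · rw [hTs (i + 1) h]
        exact o.strictMono (by simp)
      · rw [hTn (i + 1) (by omega)]
        exact hhi3 _ (hoF _)
  · show T (#F + 1) < b
    rw [hTn _ le_rfl]; exact hhi2
  · exact fun d h1 h2 => hex _ (hF0 d h1 h2)
  · exact fun d h1 h2 => hex _ (hF1 d h1 h2)

theorem exists_window (F : Finset ℝ) (M : ℕ) (hF : #F ≤ M) {κ : ℝ} (hκ0 : 0 < κ)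
    (hκ : κ ≤ 1 / (16 * ((M : ℝ) + 1))) :
    ∃ θ : ℝ, 1 < θ ∧ θ < 2 ∧ ∀ y ∈ F, y ≤ θ - 4 * κ ∨ θ + 4 * κ ≤ y := by
  by_contra hcon
  push Not at hcon
  have hM0 : (0 : ℝ) ≤ (M : ℝ) := Nat.cast_nonneg M
  have hκ' : κ * (16 * ((M : ℝ) + 1)) ≤ 1 := by
    rwa [le_div_iff₀ (by positivity)] at hκ
  have h1 : ∀ j ∈ Finset.range (M + 1), ∃ y ∈ F, 1 + 8 * κ * j < y ∧ y < 1 + 8 * κ * (j + 1) := by
    intro j hj
    have hjM : (j : ℝ) ≤ M := by exact_mod_cast Nat.lt_succ_iff.1 (Finset.mem_range.1 hj)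
    have hj0 : (0 : ℝ) ≤ j := Nat.cast_nonneg j
    have hkj : 0 ≤ κ * j := by positivity
    have hkj' : κ * j ≤ κ * M := mul_le_mul_of_nonneg_left hjM hκ0.le
    obtain ⟨y, hy, h2, h3⟩ := hcon (1 + 8 * κ * j + 4 * κ) (by nlinarith) (by nlinarith)
    exact ⟨y, hy, by linarith, by linarith⟩
  choose! y hy using h1
  have h2 : #(Finset.range (M + 1)) ≤ #F := by
    refine Finset.card_le_card_of_injOn y (fun j hj => (hy j hj).1) ?_
    intro i hi j hj hij
    have h3 : ∀ i ∈ Finset.range (M+1), ∀ j ∈ Finset.range (M+1), i < j → y i < y j := by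
      intro i hi j hj hlt
      have h4 := (hy i hi).2.2
      have h5 := (hy j hj).2.1
      have h6 : (i : ℝ) + 1 ≤ j := by exact_mod_cast hlt
      have h7 : 8 * κ * ((i : ℝ) + 1) ≤ 8 * κ * j := mul_le_mul_of_nonneg_left h6 (by positivity)
      linarith
    rcases lt_trichotomy i j with h | h | h
    · exact absurd hij (ne_of_lt (h3 i hi j hj h))
    · exact h
    · exact absurd hij.symm (ne_of_lt (h3 j hj i hi h))
  rw [Finset.card_range] at h2
  omega

/-- position preserving bijection -/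
theorem exists_equiv {α β F : Type*} (A : Finset α) (B : Finset β) (p : α → F) (q : β → F)
    (h : ∀ z, #(A.filter fun x => p x = z) = #(B.filter fun x => q x = z)) :
    ∃ e : A ≃ B, ∀ x : A, q (e x) = p x := by
  have h1 : ∀ z, Nonempty ({x : A // p x = z} ≃ {y : B // q y = z}) := by
    intro z
    have e1 : {x : A // p x = z} ≃ (A.filter fun x => p x = z) :=
      ⟨fun x => ⟨x.1.1, mem_filter.2 ⟨x.1.2, x.2⟩⟩,
        fun x => ⟨⟨x.1, (mem_filter.1 x.2).1⟩, (mem_filter.1 x.2).2⟩, fun _ => rfl, fun _ => rfl⟩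
    have e2 : {y : B // q y = z} ≃ (B.filter fun x => q x = z) :=
      ⟨fun x => ⟨x.1.1, mem_filter.2 ⟨x.1.2, x.2⟩⟩,
        fun x => ⟨⟨x.1, (mem_filter.1 x.2).1⟩, (mem_filter.1 x.2).2⟩, fun _ => rfl, fun _ => rfl⟩
    exact ⟨e1.trans ((Finset.equivOfCardEq (h z)).trans e2.symm)⟩
  let e : ∀ z, {x : A // p x = z} ≃ {y : B // q y = z} := fun z => (h1 z).some
  refine ⟨(Equiv.sigmaFiberEquiv (fun x : A => p x)).symm.trans
    ((Equiv.sigmaCongrRight e).trans (Equiv.sigmaFiberEquiv (fun y : B => q y))), fun x => ?_⟩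
  exact (e (p x) ⟨x, rfl⟩).2

end Pool.Agent.GNet
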