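import Mathlib
import Pool.Agent.Helper971.BK.DTrack

set_option autoImplicit false

open Finset Classical

namespace Pool.Agent.GNet

variable {E : Type*} [NormedAddCommGroup E] [InnerProductSpace ℝ E]

theorem Track.Sub.T_lt_t2 {Γ : Geom E} {ℓ : E →L[ℝ] ℝ} {c a b κ : ℝ} {τ : Track Γ ℓ c a b κ}
    (σ : τ.Sub) {i : ℕ} : ∀ j, i < j → j ≤ σ.n → σ.T i < σ.T j := by
  intro j hij
  induction j, Nat.succ_le_of_lt hij using Nat.le_induction with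
  | base => intro h; exact σ.mono i (by omega)
  | succ j hj ih =>
    intro h
    exact (ih (by omega) (by omega)).trans (σ.mono j (by omega))

theorem Track.Sub.T_le_t2 {Γ : Geom E} {ℓ : E →L[ℝ] ℝ} {c a b κ : ℝ} {τ : Track Γ ℓ c a b κ}
    (σ : τ.Sub) {i j : ℕ} (hij : i ≤ j) (hj : j ≤ σ.n) : σ.T i ≤ σ.T j := by
  rcases eq_or_lt_of_le hij with h | h
  · rw [h]
  · exact (σ.T_lt_t2 j h hj).le

theorem Track.Sub.T_mem {Γ : Geom E} {ℓ : E →L[ℝ] ℝ} {c a b κ : ℝ} {τ : Track Γ ℓ c a b κ}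
    (σ : τ.Sub) {i : ℕ} (hi : i ≤ σ.n) : a < σ.T i ∧ σ.T i < b :=
  ⟨lt_of_lt_of_le σ.T0 (σ.T_le_t2 (Nat.zero_le _) hi), lt_of_le_of_lt (σ.T_le_t2 hi le_rfl) σ.Tn⟩

theorem Track.Sub.s0_le {Γ : Geom E} {ℓ : E →L[ℝ] ℝ} {c a b κ : ℝ} {τ : Track Γ ℓ c a b κ}
    (σ : τ.Sub) {k : ℕ} (hk : k + 1 ≤ σ.n) {d : τ.D} (hd : τ.s0 d < σ.T (k + 1)) :
    τ.s0 d ≤ σ.T k := by
  rcases lt_or_ge a (τ.s0 d) with h | h
  · obtain ⟨j, hj0, hjn, hj⟩ := σ.s0_mem d h (hd.trans (σ.T_mem hk).2)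
    rw [hj] at hd ⊢
    have hjk : j < k + 1 := by
      by_contra hcon
      have := σ.T_le_t2 (show k + 1 ≤ j by omega) hjn.le
      linarith
    exact σ.T_le_t2 (by omega) (by omega)
  · exact h.trans (σ.T_mem (show k ≤ σ.n by omega)).1.le

theorem Track.Sub.sum_g {Γ : Geom E} {ℓ : E →L[ℝ] ℝ} {c a b κ : ℝ} {τ : Track Γ ℓ c a b κ}
    (σ : τ.Sub) {k : ℕ} (hk : k ≤ σ.n) : ∑ j ∈ Icc 1 k, τ.g (σ.T j) ≤ κ := by
  have h1 := τ.g_sum ((Icc 1 k).image σ.T) (by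
    intro t ht
    rw [mem_image] at ht
    obtain ⟨j, hj, rfl⟩ := ht
    rw [mem_Icc] at hj
    exact σ.T_mem (by omega))
  rwa [sum_image] at h1
  intro i hi j hj hij
  simp only [coe_Icc, Set.mem_Icc] at hi hj
  rcases lt_trichotomy i j with h | h | h
  · have := σ.T_lt_t2 j h (by omega)
    linarith
  · exact h
  · have := σ.T_lt_t2 i h (by omega)
    linarith

theorem Track.Sub.chain_aux {Γ : Geom E} {ℓ : E →L[ℝ] ℝ} {c a b κ : ℝ} (hab : a < b) (h0 : 0 ≤ κ)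
    {τ : Track Γ ℓ c a b κ} (σ : τ.Sub) (k : ℕ) : k < σ.n → ∀ d ∈ σ.V k, ∀ t : ℝ,
    t ∈ Set.Icc (σ.T k) (σ.T (k + 1)) →
    τ.h d t + ∑ j ∈ Icc 1 k, τ.g (σ.T j) + κ * (t - σ.T 0) / (b - a) < 5 / 2 →
    ∃ d₀ ∈ σ.V 0, |τ.h d₀ (σ.T 0) - τ.h d t| ≤
      ∑ j ∈ Icc 1 k, τ.g (σ.T j) + κ * (t - σ.T 0) / (b - a) := by
  have hba : 0 < b - a := by linarith
  -- variation of `h` during a phase
  have hvar : ∀ k, k < σ.n → ∀ d ∈ σ.V k, ∀ t : ℝ, t ∈ Set.Icc (σ.T k) (σ.T (k + 1)) →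
      |τ.h d (σ.T k) - τ.h d t| ≤ κ * (t - σ.T k) / (b - a) := by
    intro k hk d hd t ht
    simp only [Track.Sub.V, mem_filter, mem_univ, true_and] at hd
    have h1 := σ.T_mem (show k ≤ σ.n by omega)
    have h2 := σ.T_mem (show k + 1 ≤ σ.n by omega)
    have h3 := σ.mono k hk
    have h4 := τ.hlip d (σ.T k) ⟨hd.1, by linarith [hd.2]⟩ t
      ⟨hd.1.trans ht.1, ht.2.trans hd.2⟩ h1.1 h1.2 (by linarith [ht.1]) (by linarith [ht.2])
    rw [le_div_iff₀ hba]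
    have h5 : |σ.T k - t| = t - σ.T k := by
      rw [abs_sub_comm, abs_of_nonneg]; linarith [ht.1]
    rwa [h5] at h4
  induction k with
  | zero =>
    intro hk d hd t ht hh
    refine ⟨d, hd, ?_⟩
    have := hvar 0 hk d hd t ht
    simpa using this
  | succ k ih =>
    intro hk d hd t ht hh
    have hV := hvar (k + 1) hk d hd t ht
    have hsum : ∑ j ∈ Icc 1 (k + 1), τ.g (σ.T j) =
        ∑ j ∈ Icc 1 k, τ.g (σ.T j) + τ.g (σ.T (k + 1)) :=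
      sum_Icc_succ_top (by omega) _
    rw [hsum] at hh ⊢
    have hg := τ.g_nonneg (σ.T (k + 1))
    have hS : 0 ≤ ∑ j ∈ Icc 1 k, τ.g (σ.T j) := sum_nonneg fun j _ => τ.g_nonneg _
    have hT0 : σ.T 0 ≤ σ.T (k + 1) := σ.T_le_t2 (Nat.zero_le _) hk.le
    have hsplit : κ * (t - σ.T 0) / (b - a) = κ * (t - σ.T (k + 1)) / (b - a) +
        κ * (σ.T (k + 1) - σ.T 0) / (b - a) := by
      rw [← add_div]; ring
    have hp : 0 ≤ κ * (σ.T (k + 1) - σ.T 0) / (b - a) :=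
      div_nonneg (mul_nonneg h0 (by linarith)) hba.le
    have hmem : σ.T (k + 1) ∈ Set.Icc (σ.T k) (σ.T (k + 1)) := ⟨(σ.mono k (by omega)).le, le_rfl⟩
    have habs := abs_le.1 hV
    have hdV := hd
    simp only [Track.Sub.V, mem_filter, mem_univ, true_and] at hdV
    rcases lt_or_eq_of_le hdV.1 with hlt | heq
    · have hdk : d ∈ σ.V k := by
        simp only [Track.Sub.V, mem_filter, mem_univ, true_and]
        exact ⟨σ.s0_le (by omega) hlt, (σ.mono (k + 1) hk).le.trans hdV.2⟩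
      obtain ⟨d₀, hd₀, hle⟩ := ih (by omega) d hdk (σ.T (k + 1)) hmem (by linarith [habs.2])
      refine ⟨d₀, hd₀, ?_⟩
      have h1 := abs_sub_le (τ.h d₀ (σ.T 0)) (τ.h d (σ.T (k + 1))) (τ.h d t)
      linarith
    · have hTm := σ.T_mem (show k + 1 ≤ σ.n by omega)
      obtain ⟨hcard, -, hvar2⟩ := τ.vert (σ.T (k + 1)) hTm.1 hTm.2 d (Or.inl heq.symm)
        (by linarith [habs.2])
      have hpos : 0 < #(univ.filter fun e => τ.s1 e = σ.T (k + 1) ∧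
          τ.X e (σ.T (k + 1)) = τ.X d (σ.T (k + 1))) := by
        rw [← hcard, card_pos]
        exact ⟨d, by simp [heq]⟩
      rw [card_pos] at hpos
      obtain ⟨e, he⟩ := hpos
      simp only [mem_filter, mem_univ, true_and] at he
      have hge := hvar2 e (Or.inr he.1.symm) he.2
      have hek : e ∈ σ.V k := by
        simp only [Track.Sub.V, mem_filter, mem_univ, true_and]
        refine ⟨σ.s0_le (by omega) ?_, he.1.ge⟩
        rw [← he.1]; exact τ.lt e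
      have hge' := abs_le.1 hge
      obtain ⟨d₀, hd₀, hle⟩ := ih (by omega) e hek (σ.T (k + 1)) hmem
        (by linarith [habs.2, hge'.2])
      refine ⟨d₀, hd₀, ?_⟩
      have h1 := abs_sub_le (τ.h d₀ (σ.T 0)) (τ.h d (σ.T (k + 1))) (τ.h d t)
      have h2 := abs_sub_le (τ.h d₀ (σ.T 0)) (τ.h e (σ.T (k + 1))) (τ.h d (σ.T (k + 1)))
      linarith

/-- chain lemma: every particle comes from a particle of the first phase -/
theorem Track.Sub.chain {Γ : Geom E} {ℓ : E →L[ℝ] ℝ} {c a b κ : ℝ} (hab : a < b) (h0 : 0 ≤ κ)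
    (hκ : κ ≤ 1 / 16) {τ : Track Γ ℓ c a b κ} (σ : τ.Sub) {k : ℕ} (hk : k < σ.n) {d : τ.D}
    (hd : d ∈ σ.V k) {t : ℝ} (ht : t ∈ Set.Icc (σ.T k) (σ.T (k + 1))) (hh : τ.h d t < 9 / 4) :
    ∃ d₀ ∈ σ.V 0, |τ.h d₀ (σ.T 0) - τ.h d t| ≤ 2 * κ := by
  have hba : 0 < b - a := by linarith
  have h1 := σ.sum_g (show k ≤ σ.n by omega)
  have h2 : κ * (t - σ.T 0) / (b - a) ≤ κ := by
    rw [div_le_iff₀ hba]
    apply mul_le_mul_of_nonneg_left _ h0
    have := (σ.T_mem (show k + 1 ≤ σ.n by omega)).2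
    linarith [ht.2, σ.T0]
  obtain ⟨d₀, hd₀, hle⟩ := σ.chain_aux hab h0 k hk d hd t ht (by linarith)
  exact ⟨d₀, hd₀, by linarith⟩

end Pool.Agent.GNet
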