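import Mathlib
import Pool.Agent.Helper971.BK.DTrack
import Pool.Agent.Helper971.BK.T1
import Pool.Agent.Helper971.BK.T2

set_option autoImplicit false

open Finset Classical

namespace Pool.Agent.GNet

variable {E : Type*} [NormedAddCommGroup E] [InnerProductSpace ℝ E]

theorem Track.Sub.exists_gap {Γ : Geom E} {ℓ : E →L[ℝ] ℝ} {c a b κ : ℝ} (hab : a < b)
    {τ : Track Γ ℓ c a b κ} (σ : τ.Sub) {M : ℕ}
    (hM : #((σ.V 0).filter fun d => τ.h d (σ.T 0) < 3) ≤ M) (h0 : 0 < κ)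
    (hκ : κ ≤ 1 / (16 * ((M : ℝ) + 1))) : ∃ θ : ℝ, σ.Gap θ := by
  have hκ16 : κ ≤ 1 / 16 := by
    refine hκ.trans ?_
    have hM0 : (0 : ℝ) ≤ M := Nat.cast_nonneg M
    apply one_div_le_one_div_of_le (by norm_num)
    linarith
  obtain ⟨θ, h1, h2, hw⟩ := exists_window
    (((σ.V 0).filter fun d => τ.h d (σ.T 0) < 3).image (fun d => τ.h d (σ.T 0))) M
    (card_image_le.trans hM) h0 hκ
  refine ⟨θ, h1, h2, fun k hk d hd t ht => ?_⟩
  by_cases hh : τ.h d t < 9 / 4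
  · obtain ⟨d₀, hd₀, habs⟩ := Track.Sub.chain hab h0.le hκ16 σ hk hd ht hh
    rw [abs_le] at habs
    by_cases h3 : τ.h d₀ (σ.T 0) < 3
    · rcases hw _ (mem_image_of_mem _ (mem_filter.2 ⟨hd₀, h3⟩)) with h4 | h4
      · left; linarith [habs.1, habs.2]
      · right; linarith [habs.1, habs.2]
    · exfalso
      linarith [habs.1, habs.2, not_lt.1 h3]
  · right
    linarith [not_lt.1 hh]

/-- below the gap at one time of a phase means below the gap at all times of the phase -/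
theorem Track.Sub.mem_A {Γ : Geom E} {ℓ : E →L[ℝ] ℝ} {c a b κ : ℝ} (h0 : 0 < κ)
    {τ : Track Γ ℓ c a b κ} (σ : τ.Sub) {θ : ℝ} (hθ : σ.Gap θ) {k : ℕ} (hk : k < σ.n) {d : τ.D}
    (hd : d ∈ σ.V k) {t : ℝ} (ht : t ∈ Set.Icc (σ.T k) (σ.T (k + 1))) :
    d ∈ σ.A θ k ↔ τ.h d t < θ := by
  obtain ⟨-, -, hgap⟩ := hθ
  have hd' : τ.s0 d ≤ σ.T k ∧ σ.T (k + 1) ≤ τ.s1 d := by
    have := hd
    simp only [Track.Sub.V, mem_filter, mem_univ, true_and] at this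
    exact this
  have hcont : ContinuousOn (τ.h d) (Set.Icc (σ.T k) (σ.T (k + 1))) :=
    (τ.hc d).mono (Set.Icc_subset_Icc hd'.1 hd'.2)
  have hne : ∀ t ∈ Set.Icc (σ.T k) (σ.T (k + 1)), τ.h d t ≠ θ := by
    intro t ht h
    rcases hgap k hk d hd t ht with h1 | h1 <;> rw [h] at h1 <;> linarith
  have hk0 : σ.T k ∈ Set.Icc (σ.T k) (σ.T (k + 1)) := ⟨le_rfl, (σ.mono k hk).le⟩
  have hA : d ∈ σ.A θ k ↔ τ.h d (σ.T k) < θ := by
    simp only [Track.Sub.A, mem_filter]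
    exact ⟨fun h => h.2, fun h => ⟨hd, h⟩⟩
  rw [hA]
  constructor
  · intro h1
    by_contra h2
    obtain ⟨s, hs, hs2⟩ := isPreconnected_Icc.intermediate_value hk0 ht hcont
      ⟨h1.le, not_lt.1 h2⟩
    exact hne s hs hs2
  · intro h1
    by_contra h2
    obtain ⟨s, hs, hs2⟩ := isPreconnected_Icc.intermediate_value ht hk0 hcont
      ⟨h1.le, not_lt.1 h2⟩
    exact hne s hs hs2

end Pool.Agent.GNet
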