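import Mathlib
import Pool.Agent.Helper971.BK.DTrack
import Pool.Agent.Helper971.BK.T3

set_option autoImplicit false

open Finset Classical

namespace Pool.Agent.GNet

variable {E : Type*} [NormedAddCommGroup E] [InnerProductSpace ℝ E]

theorem Track.Sub.T_lt_t4 {Γ : Geom E} {ℓ : E →L[ℝ] ℝ} {c a b κ : ℝ}
    {τ : Track Γ ℓ c a b κ} (σ : τ.Sub) {i j : ℕ} (hij : i < j) (hj : j ≤ σ.n) :
    σ.T i < σ.T j := by
  induction j with
  | zero => omega
  | succ j ih =>
    rcases Nat.lt_succ_iff_lt_or_eq.1 hij with h | h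
    · exact (ih h (by omega)).trans (σ.mono j (by omega))
    · rw [h]
      exact σ.mono j (by omega)

theorem Track.Sub.T_le_t4 {Γ : Geom E} {ℓ : E →L[ℝ] ℝ} {c a b κ : ℝ}
    {τ : Track Γ ℓ c a b κ} (σ : τ.Sub) {i j : ℕ} (hij : i ≤ j) (hj : j ≤ σ.n) :
    σ.T i ≤ σ.T j := by
  rcases hij.eq_or_lt with h | h
  · rw [h]
  · exact (σ.T_lt_t4 h hj).le

/-- transition between two phases: at every position the numbers and the sums of the velocities of
the particles below the gap agree -/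
theorem Track.Sub.transition {Γ : Geom E} {ℓ : E →L[ℝ] ℝ} {c a b κ : ℝ} (h0 : 0 < κ)
    {τ : Track Γ ℓ c a b κ} (σ : τ.Sub) {θ : ℝ} (hθ : σ.Gap θ) {k : ℕ} (hk : k + 1 < σ.n)
    (z : E) :
    #((σ.A θ k).filter fun d => τ.X d (σ.T (k + 1)) = z) =
      #((σ.A θ (k + 1)).filter fun d => τ.X d (σ.T (k + 1)) = z) ∧
    ∑ d ∈ (σ.A θ k).filter (fun d => τ.X d (σ.T (k + 1)) = z), τ.U d (σ.T (k + 1)) =
      ∑ d ∈ (σ.A θ (k + 1)).filter (fun d => τ.X d (σ.T (k + 1)) = z), τ.U d (σ.T (k + 1)) := by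
  set t := σ.T (k + 1) with ht
  have hat : a < t := by
    have h1 := σ.T0
    have h2 : σ.T 0 ≤ t := σ.T_le_t4 (by omega) (by omega)
    linarith
  have htb : t < b := by
    have h1 := σ.Tn
    have h2 : t ≤ σ.T σ.n := σ.T_le_t4 (by omega) le_rfl
    linarith
  have hkt : σ.T k < t := σ.T_lt_t4 (by omega) (by omega)
  have htk : t < σ.T (k + 2) := σ.T_lt_t4 (by omega) (by omega)
  have hV : ∀ (j : ℕ) (d : τ.D), d ∈ σ.V j ↔ (τ.s0 d ≤ σ.T j ∧ σ.T (j + 1) ≤ τ.s1 d) := by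
    intro j d
    unfold Track.Sub.V
    simp
  have hs0 : ∀ e : τ.D, τ.s0 e < t → τ.s0 e ≤ σ.T k := by
    intro e he
    rcases le_or_gt (τ.s0 e) a with h | h
    · have h1 := σ.T0
      have h2 : σ.T 0 ≤ σ.T k := σ.T_le_t4 (by omega) (by omega)
      linarith
    · obtain ⟨k', _, hk'n, hk'⟩ := σ.s0_mem e h (he.trans htb)
      rw [hk'] at he ⊢
      apply σ.T_le_t4 _ (by omega)
      by_contra hcon
      have : t ≤ σ.T k' := σ.T_le_t4 (by omega) (by omega)
      linarith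
  have hs1 : ∀ e : τ.D, t < τ.s1 e → σ.T (k + 2) ≤ τ.s1 e := by
    intro e he
    rcases le_or_gt b (τ.s1 e) with h | h
    · have h1 := σ.Tn
      have h2 : σ.T (k + 2) ≤ σ.T σ.n := σ.T_le_t4 (by omega) le_rfl
      linarith
    · obtain ⟨k', _, hk'n, hk'⟩ := σ.s1_mem e (hat.trans he) h
      rw [hk'] at he ⊢
      apply σ.T_le_t4 _ (by omega)
      by_contra hcon
      have : σ.T k' ≤ t := σ.T_le_t4 (by omega) (by omega)
      linarith
  have hmA : ∀ e ∈ σ.V k, (e ∈ σ.A θ k ↔ τ.h e t < θ) := fun e he =>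
    σ.mem_A h0 hθ (by omega) he ⟨hkt.le, le_refl t⟩
  have hmA' : ∀ e ∈ σ.V (k + 1), (e ∈ σ.A θ (k + 1) ↔ τ.h e t < θ) := fun e he =>
    σ.mem_A h0 hθ hk he ⟨le_refl t, htk.le⟩
  have hAV : ∀ j, ∀ e ∈ σ.A θ j, e ∈ σ.V j := by
    intro j e he
    unfold Track.Sub.A at he
    exact (Finset.mem_filter.1 he).1
  have hF2 : ∀ e : τ.D, τ.s1 e = t → e ∈ σ.V k := by
    intro e he
    rw [hV]
    have h1 := τ.lt e
    rw [he] at h1
    exact ⟨hs0 e h1, he.ge⟩
  have hF3 : ∀ e : τ.D, τ.s0 e = t → e ∈ σ.V (k + 1) := by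
    intro e he
    rw [hV]
    have h1 := τ.lt e
    rw [he] at h1
    exact ⟨he.le, hs1 e h1⟩
  by_cases hcase : ∃ d, τ.X d t = z ∧ ((d ∈ σ.A θ k ∧ τ.s1 d = t) ∨
      (d ∈ σ.A θ (k + 1) ∧ τ.s0 d = t))
  · obtain ⟨d, hdz, hd⟩ := hcase
    have hhd : τ.h d t ≤ θ - 2 * κ := by
      rcases hd with ⟨hdA, hds⟩ | ⟨hdA, hds⟩
      · have h1 := (hmA d (hAV k d hdA)).1 hdA
        rcases hθ.2.2 k (by omega) d (hAV k d hdA) t ⟨hkt.le, le_refl t⟩ with h2 | h2
        · exact h2
        · linarith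
      · have h1 := (hmA' d (hAV (k + 1) d hdA)).1 hdA
        rcases hθ.2.2 (k + 1) hk d (hAV (k + 1) d hdA) t ⟨le_refl t, htk.le⟩ with h2 | h2
        · exact h2
        · linarith
    have hend : t = τ.s0 d ∨ t = τ.s1 d := by
      rcases hd with ⟨_, hds⟩ | ⟨_, hds⟩
      · exact Or.inr hds.symm
      · exact Or.inl hds.symm
    have hθ2 := hθ.2.1
    obtain ⟨hcard, hsum, hgau⟩ := τ.vert t hat htb d hend (by linarith)
    have hgt : τ.g t ≤ κ := by
      have h1 := τ.g_sum {t} (by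
        intro s hs
        rw [Finset.mem_singleton] at hs
        rw [hs]
        exact ⟨hat, htb⟩)
      rwa [Finset.sum_singleton] at h1
    have hlow : ∀ e : τ.D, (t = τ.s0 e ∨ t = τ.s1 e) → τ.X e t = τ.X d t → τ.h e t < θ := by
      intro e he hx
      have h1 := (abs_le.1 (hgau e he hx)).2
      linarith
    have hdI : t ∈ Set.Icc (τ.s0 d) (τ.s1 d) := by
      have h1 := τ.lt d
      rcases hend with h | h
      · rw [h]; exact ⟨le_refl _, h1.le⟩
      · rw [h]; exact ⟨h1.le, le_refl _⟩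
    have hnoint : ∀ e : τ.D, τ.X e t = z → ¬ t ∈ Set.Ioo (τ.s0 e) (τ.s1 e) := by
      intro e hez hI
      have hne : e ≠ d := by
        rintro rfl
        rcases hend with h | h
        · exact absurd h hI.1.ne'
        · exact absurd h hI.2.ne
      exact τ.emb e d hne t hI hdI (hez.trans hdz.symm)
    have hIn : (σ.A θ k).filter (fun d => τ.X d t = z) =
        univ.filter fun e => τ.s1 e = t ∧ τ.X e t = τ.X d t := by
      ext e
      simp only [Finset.mem_filter, Finset.mem_univ, true_and]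
      constructor
      · rintro ⟨heA, hez⟩
        refine ⟨?_, hez.trans hdz.symm⟩
        have hv := (hV k e).1 (hAV k e heA)
        by_contra hne
        exact hnoint e hez ⟨lt_of_le_of_lt hv.1 hkt, lt_of_le_of_ne hv.2 (Ne.symm hne)⟩
      · rintro ⟨hes, hez⟩
        refine ⟨?_, hez.trans hdz⟩
        exact (hmA e (hF2 e hes)).2 (hlow e (Or.inr hes.symm) hez)
    have hOut : (σ.A θ (k + 1)).filter (fun d => τ.X d t = z) =
        univ.filter fun e => τ.s0 e = t ∧ τ.X e t = τ.X d t := by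
      ext e
      simp only [Finset.mem_filter, Finset.mem_univ, true_and]
      constructor
      · rintro ⟨heA, hez⟩
        refine ⟨?_, hez.trans hdz.symm⟩
        have hv := (hV (k + 1) e).1 (hAV (k + 1) e heA)
        by_contra hne
        exact hnoint e hez ⟨lt_of_le_of_ne hv.1 hne, lt_of_lt_of_le htk hv.2⟩
      · rintro ⟨hes, hez⟩
        refine ⟨?_, hez.trans hdz⟩
        exact (hmA' e (hF3 e hes)).2 (hlow e (Or.inl hes.symm) hez)
    rw [hIn, hOut]
    exact ⟨hcard.symm, hsum.symm⟩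
  · push Not at hcase
    have heq : (σ.A θ k).filter (fun d => τ.X d t = z) =
        (σ.A θ (k + 1)).filter (fun d => τ.X d t = z) := by
      ext e
      simp only [Finset.mem_filter]
      constructor
      · rintro ⟨heA, hez⟩
        refine ⟨?_, hez⟩
        have hv := (hV k e).1 (hAV k e heA)
        have hne : τ.s1 e ≠ t := (hcase e hez).1 heA
        have hlt : t < τ.s1 e := lt_of_le_of_ne hv.2 (Ne.symm hne)
        have hv' : e ∈ σ.V (k + 1) := by
          rw [hV]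
          exact ⟨hv.1.trans hkt.le, hs1 e hlt⟩
        exact (hmA' e hv').2 ((hmA e (hAV k e heA)).1 heA)
      · rintro ⟨heA, hez⟩
        refine ⟨?_, hez⟩
        have hv := (hV (k + 1) e).1 (hAV (k + 1) e heA)
        have hne : τ.s0 e ≠ t := (hcase e hez).2 heA
        have hlt : τ.s0 e < t := lt_of_le_of_ne hv.1 hne
        have hv' : e ∈ σ.V k := by
          rw [hV]
          exact ⟨hs0 e hlt, htk.le.trans hv.2⟩
        exact (hmA e hv').2 ((hmA' e (hAV (k + 1) e heA)).1 heA)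
    rw [heq]
    exact ⟨rfl, rfl⟩

end Pool.Agent.GNet
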