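import Mathlib
import Pool.Agent.Helper971.BK.DTrack
import Pool.Agent.Helper971.BK.T3
import Pool.Agent.Helper971.BK.T4
import Pool.Agent.Helper971.BK.T1

set_option autoImplicit false

open Finset Classical

namespace Pool.Agent.GNet

variable {E : Type*} [NormedAddCommGroup E] [InnerProductSpace ℝ E]

lemma Ptc.mono' {Γ : Geom E} {ℓ : E →L[ℝ] ℝ} {c a b a' b' : ℝ} {x u : ℝ → E}
    (h : Ptc Γ ℓ c a b x u) (ha : a ≤ a') (hb : b' ≤ b) : Ptc Γ ℓ c a' b' x u where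
  xc := h.xc.mono (Set.Icc_subset_Icc ha hb)
  uc := h.uc.mono (Set.Icc_subset_Icc ha hb)
  xd := fun t ht => h.xd t (Set.Ioo_subset_Ioo ha hb ht)
  ud := fun t ht => h.ud t (Set.Ioo_subset_Ioo ha hb ht)
  mem := fun t ht => h.mem t (Set.Icc_subset_Icc ha hb ht)
  unit := fun t ht => h.unit t (Set.Icc_subset_Icc ha hb ht)
  up := fun t ht => h.up t (Set.Icc_subset_Icc ha hb ht)

/-- the particles below the gap form a system -/
theorem Track.Sub.exists_sys {Γ : Geom E} {ℓ : E →L[ℝ] ℝ} {c a b κ : ℝ} (h0 : 0 < κ)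
    {τ : Track Γ ℓ c a b κ} (σ : τ.Sub) {θ : ℝ} (hθ : σ.Gap θ) :
    ∃ (s : Sys Γ ℓ c (σ.A θ 0)) (e : ∀ k, (σ.A θ 0) → τ.D), s.n = σ.n ∧ s.T = σ.T ∧
      (∀ k < σ.n, Function.Injective (e k) ∧ ∀ d, d ∈ σ.A θ k ↔ ∃ i, e k i = d) ∧
      ∀ k < σ.n, ∀ i, s.X k i = τ.X (e k i) := by
  -- the steps
  have hstep : ∀ k, ∃ f : τ.D → τ.D, k + 1 < σ.n →
      (∀ d ∈ σ.A θ k, f d ∈ σ.A θ (k + 1)) ∧
      (∀ d ∈ σ.A θ k, ∀ d' ∈ σ.A θ k, f d = f d' → d = d') ∧
      (∀ d' ∈ σ.A θ (k + 1), ∃ d ∈ σ.A θ k, f d = d') ∧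
      (∀ d ∈ σ.A θ k, τ.X (f d) (σ.T (k + 1)) = τ.X d (σ.T (k + 1))) := by
    intro k
    by_cases hk : k + 1 < σ.n
    · obtain ⟨e, he⟩ := exists_equiv (σ.A θ k) (σ.A θ (k + 1))
        (fun d => τ.X d (σ.T (k + 1))) (fun d => τ.X d (σ.T (k + 1)))
        (fun z => (σ.transition h0 hθ hk z).1)
      refine ⟨fun d => if hd : d ∈ σ.A θ k then (e ⟨d, hd⟩ : τ.D) else d, fun _ => ⟨?_, ?_, ?_, ?_⟩⟩
      · intro d hd
        simp only [dif_pos hd]
        exact (e ⟨d, hd⟩).2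
      · intro d hd d' hd' h
        simp only [dif_pos hd, dif_pos hd'] at h
        have := e.injective (Subtype.ext h)
        exact congrArg Subtype.val this
      · intro d' hd'
        refine ⟨(e.symm ⟨d', hd'⟩ : τ.D), (e.symm ⟨d', hd'⟩).2, ?_⟩
        simp only [dif_pos (e.symm ⟨d', hd'⟩).2]
        simp
      · intro d hd
        simp only [dif_pos hd]
        exact he ⟨d, hd⟩
    · exact ⟨id, fun h => absurd h hk⟩
  choose f hf using hstep
  let e : ℕ → (σ.A θ 0) → τ.D := fun k => Nat.rec (fun i => (i : τ.D)) (fun k g i => f k (g i)) k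
  have e_zero : ∀ i, e 0 i = i := fun i => rfl
  have e_succ : ∀ k i, e (k + 1) i = f k (e k i) := fun k i => rfl
  have hmem : ∀ k < σ.n, ∀ i, e k i ∈ σ.A θ k := by
    intro k
    induction k with
    | zero => intro _ i; rw [e_zero]; exact i.2
    | succ k ih =>
      intro hk i
      rw [e_succ]
      exact (hf k hk).1 _ (ih (by omega) i)
  have hinj : ∀ k < σ.n, Function.Injective (e k) := by
    intro k
    induction k with
    | zero => intro _ i j h; rw [e_zero, e_zero] at h; exact Subtype.ext h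
    | succ k ih =>
      intro hk i j h
      rw [e_succ, e_succ] at h
      exact ih (by omega) ((hf k hk).2.1 _ (hmem k (by omega) i) _ (hmem k (by omega) j) h)
  have hsurj : ∀ k < σ.n, ∀ d ∈ σ.A θ k, ∃ i, e k i = d := by
    intro k
    induction k with
    | zero => intro _ d hd; exact ⟨⟨d, hd⟩, rfl⟩
    | succ k ih =>
      intro hk d hd
      obtain ⟨d0, hd0, hfd⟩ := (hf k hk).2.2.1 d hd
      obtain ⟨i, hi⟩ := ih (by omega) d0 hd0
      exact ⟨i, by rw [e_succ, hi, hfd]⟩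
  have hpos : ∀ k, k + 1 < σ.n → ∀ i, τ.X (e (k + 1) i) (σ.T (k + 1)) = τ.X (e k i) (σ.T (k + 1)) := by
    intro k hk i
    rw [e_succ]
    exact (hf k hk).2.2.2 _ (hmem k (by omega) i)
  have hV : ∀ k < σ.n, ∀ i, τ.s0 (e k i) ≤ σ.T k ∧ σ.T (k + 1) ≤ τ.s1 (e k i) := by
    intro k hk i
    have h1 := hmem k hk i
    unfold Track.Sub.A Track.Sub.V at h1
    rw [Finset.mem_filter, Finset.mem_filter] at h1
    exact h1.1.2
  -- reindexing of the sums
  have hsum : ∀ k, k < σ.n → ∀ (t : ℝ) (z : E) (P : (σ.A θ 0) → Prop),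
      (∀ j, P j ↔ τ.X (e k j) t = z) →
      ∑ j with P j, τ.U (e k j) t = ∑ d ∈ (σ.A θ k).filter (fun d => τ.X d t = z), τ.U d t := by
    intro k hk t z P hP
    refine Finset.sum_nbij (e k) ?_ ?_ ?_ ?_
    · intro j hj
      rw [Finset.mem_filter] at hj ⊢
      exact ⟨hmem k hk j, (hP j).1 hj.2⟩
    · intro i _ j _ h
      exact hinj k hk h
    · intro d hd
      rw [Finset.mem_coe, Finset.mem_filter] at hd
      obtain ⟨j, hj⟩ := hsurj k hk d hd.1
      refine ⟨j, ?_, hj⟩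
      rw [Finset.mem_coe, Finset.mem_filter]
      exact ⟨Finset.mem_univ _, (hP j).2 (by rw [hj]; exact hd.2)⟩
    · intro j _; rfl
  refine ⟨{ n := σ.n
            T := σ.T
            X := fun k i => τ.X (e k i)
            U := fun k i => τ.U (e k i)
            mono := σ.mono
            ptc := fun k hk i => (τ.ptc (e k i)).mono' (hV k hk i).1 (hV k hk i).2
            glue := fun k hk i => hpos k hk i
            bal := ?_
            disj := ?_ }, e, rfl, rfl, fun k hk => ⟨hinj k hk, fun d => ⟨hsurj k hk d, ?_⟩⟩,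
            fun k _ i => rfl⟩
  · intro k hk i
    have h1 := (σ.transition h0 hθ hk (τ.X (e k i) (σ.T (k + 1)))).2
    have h2 := hsum k (by omega) (σ.T (k + 1)) (τ.X (e k i) (σ.T (k + 1)))
      (fun j => τ.X (e k j) (σ.T (k + 1)) = τ.X (e k i) (σ.T (k + 1))) (fun j => Iff.rfl)
    have h3 := hsum (k + 1) hk (σ.T (k + 1)) (τ.X (e k i) (σ.T (k + 1)))
      (fun j => τ.X (e k j) (σ.T (k + 1)) = τ.X (e k i) (σ.T (k + 1)))
      (fun j => by rw [hpos k hk j])
    show ∑ j with τ.X (e k j) (σ.T (k + 1)) = τ.X (e k i) (σ.T (k + 1)), τ.U (e (k + 1) j) (σ.T (k + 1)) =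
      ∑ j with τ.X (e k j) (σ.T (k + 1)) = τ.X (e k i) (σ.T (k + 1)), τ.U (e k j) (σ.T (k + 1))
    rw [h3, h2, h1]
  · intro k hk i j hij t ht
    have hne : e k i ≠ e k j := fun h => hij (hinj k hk h)
    have hi := hV k hk i
    have hj := hV k hk j
    exact τ.emb _ _ hne t ⟨lt_of_le_of_lt hi.1 ht.1, lt_of_lt_of_le ht.2 hi.2⟩
      ⟨hj.1.trans ht.1.le, ht.2.le.trans hj.2⟩
  · rintro ⟨i, rfl⟩
    exact hmem k hk i

end Pool.Agent.GNet
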