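import Mathlib
import Pool.Agent.Helper971.BK.DTrack
import Pool.Agent.Helper971.BK.G8
import Pool.Agent.Helper971.BK.T1
import Pool.Agent.Helper971.BK.T3
import Pool.Agent.Helper971.BK.T5

set_option autoImplicit false

open Finset Classical

namespace Pool.Agent.GNet

variable {E : Type*} [NormedAddCommGroup E] [InnerProductSpace ℝ E]

/-- **Slab theorem**: the number of vertices of a track in a short slab is bounded. -/
theorem Track.main (Γ : Geom E) (ℓ : E →L[ℝ] ℝ) {c : ℝ} (hc : 0 < c) (M : ℕ) :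
    ∃ N : ℕ, ∃ r : ℝ, 0 < r ∧ ∀ (a b κ : ℝ), a < b → b - a ≤ r → 0 < κ →
      κ ≤ 1 / (16 * ((M : ℝ) + 1)) → ∀ τ : Track Γ ℓ c a b κ,
      (∀ t, a < t → t < b → (∀ d, t ≠ τ.s0 d ∧ t ≠ τ.s1 d) →
        #(univ.filter fun d => τ.s0 d < t ∧ t < τ.s1 d ∧ τ.h d t < 3) ≤ M) →
      #τ.verts ≤ N := by
  obtain ⟨N0, r, hr, hmain⟩ := Sys.main Γ ℓ hc M
  refine ⟨N0 * M, r, hr, ?_⟩
  intro a b κ hab hbr hκ0 hκ τ hM
  obtain ⟨σ⟩ := τ.exists_sub hab
  have hTm : ∀ j ≤ σ.n, ∀ i < j, σ.T i < σ.T j := by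
    intro j
    induction j with
    | zero => intro _ i hi; omega
    | succ j ih =>
      intro hj i hi
      have h1 := σ.mono j (by omega)
      rcases Nat.lt_succ_iff_lt_or_eq.mp hi with h | h
      · exact (ih (by omega) i h).trans h1
      · rw [h]; exact h1
  have hTn : σ.T 0 < σ.T σ.n := hTm _ le_rfl _ σ.n_pos
  have hT0b : σ.T 0 < b := hTn.trans σ.Tn
  have hend : ∀ d, σ.T 0 ≠ τ.s0 d ∧ σ.T 0 ≠ τ.s1 d := by
    intro d
    constructor
    · intro h
      obtain ⟨k, hk0, hkn, hk⟩ := σ.s0_mem d (by rw [← h]; exact σ.T0) (by rw [← h]; exact hT0b)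
      have := hTm k hkn.le 0 hk0
      rw [← hk, ← h] at this
      exact lt_irrefl _ this
    · intro h
      obtain ⟨k, hk0, hkn, hk⟩ := σ.s1_mem d (by rw [← h]; exact σ.T0) (by rw [← h]; exact hT0b)
      have := hTm k hkn.le 0 hk0
      rw [← hk, ← h] at this
      exact lt_irrefl _ this
  have hM0 : #((σ.V 0).filter fun d => τ.h d (σ.T 0) < 3) ≤ M := by
    refine (Finset.card_le_card ?_).trans (hM (σ.T 0) σ.T0 hT0b hend)
    intro d hd
    rw [Finset.mem_filter] at hd
    unfold Track.Sub.V at hd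
    rw [Finset.mem_filter] at hd
    rw [Finset.mem_filter]
    refine ⟨Finset.mem_univ _, lt_of_le_of_ne hd.1.2.1 (hend d).1.symm, ?_, hd.2⟩
    exact lt_of_lt_of_le (σ.mono 0 σ.n_pos) hd.1.2.2
  obtain ⟨θ, hθ⟩ := σ.exists_gap hab hM0 hκ0 hκ
  obtain ⟨s, e, hsn, hsT, he, hX⟩ := σ.exists_sys hκ0 hθ
  have hcardA : #(σ.A θ 0) ≤ M := by
    refine (Finset.card_le_card ?_).trans hM0
    intro d hd
    unfold Track.Sub.A at hd
    rw [Finset.mem_filter] at hd ⊢
    exact ⟨hd.1, hd.2.trans (hθ.2.1.trans (by norm_num))⟩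
  have hcard : Fintype.card (σ.A θ 0) ≤ M := by
    rw [Fintype.card_coe]; exact hcardA
  have hP := hmain (σ.A θ 0) s hcard (by
    rw [hsT, hsn]
    have := σ.T0
    have := σ.Tn
    linarith)
  obtain ⟨P, hPdef⟩ : ∃ P : Finset ℕ, P = (Ioo 0 s.n).filter fun k =>
    ∃ i j, i ≠ j ∧ s.X k i (s.T k) = s.X k j (s.T k) := ⟨_, rfl⟩
  have hP' : #P ≤ N0 := by
    rw [hPdef]
    convert hP
  have hsub : τ.verts ⊆ P.biUnion (fun k => univ.image (fun i => s.X k i (s.T k))) := by
    intro z hz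
    unfold Track.verts at hz
    rw [Finset.mem_image] at hz
    obtain ⟨d, hd, rfl⟩ := hz
    rw [Finset.mem_filter] at hd
    obtain ⟨-, had, hdb, hd1, e', hne, hs1, hpos⟩ := hd
    obtain ⟨k, hk0, hkn, hk⟩ := σ.s1_mem d had hdb
    obtain ⟨k', rfl⟩ : ∃ k', k = k' + 1 := ⟨k - 1, by omega⟩
    have hg : τ.g (τ.s1 d) ≤ κ := by
      have := τ.g_sum {τ.s1 d} (by
        intro t ht
        rw [Finset.mem_singleton] at ht
        rw [ht]; exact ⟨had, hdb⟩)
      rwa [Finset.sum_singleton] at this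
    have hv := (τ.vert (τ.s1 d) had hdb d (Or.inr rfl) (by linarith)).2.2 e' (Or.inr hs1.symm) hpos
    have hhe : τ.h e' (τ.s1 d) ≤ 1 + κ := by
      have := (abs_le.mp hv).2
      linarith
    have hV : ∀ f : τ.D, τ.s1 f = τ.s1 d → f ∈ σ.V k' := by
      intro f hf
      unfold Track.Sub.V
      rw [Finset.mem_filter]
      refine ⟨Finset.mem_univ _, ?_, by rw [hf, hk]⟩
      rcases le_or_gt (τ.s0 f) a with h | h
      · refine h.trans (σ.T0.le.trans ?_)
        rcases Nat.eq_zero_or_pos k' with h0 | h0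
        · rw [h0]
        · exact (hTm k' (by omega) 0 h0).le
      · have hlt := τ.lt f
        obtain ⟨j, hj0, hjn, hj⟩ := σ.s0_mem f h (by rw [hf] at hlt; linarith)
        rw [hj]
        rcases lt_or_ge k' j with hjk | hjk
        · exfalso
          have h2 : σ.T (k' + 1) ≤ σ.T j := by
            rcases (Nat.succ_le_of_lt hjk).eq_or_lt with h3 | h3
            · exact (congrArg σ.T h3).le
            · exact (hTm j hjn.le _ h3).le
          rw [← hk, ← hj, ← hf] at h2
          linarith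
        · rcases hjk.eq_or_lt with h3 | h3
          · rw [h3]
          · exact (hTm k' (by omega) j h3).le
    have hdV := hV d rfl
    have heV := hV e' hs1
    have htm : σ.T (k' + 1) ∈ Set.Icc (σ.T k') (σ.T (k' + 1)) :=
      ⟨(σ.mono k' (by omega)).le, le_rfl⟩
    have hdA : d ∈ σ.A θ k' := by
      rw [σ.mem_A hκ0 hθ (by omega) hdV htm, ← hk]
      exact hd1.trans hθ.1
    have heA : e' ∈ σ.A θ k' := by
      rw [σ.mem_A hκ0 hθ (by omega) heV htm, ← hk]
      have h2 := hθ.2.2 k' (by omega) e' heV _ htm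
      rw [← hk] at h2
      rcases h2 with h2 | h2
      · linarith
      · have := hθ.1
        linarith
    obtain ⟨i, hi⟩ := ((he k' (by omega)).2 d).1 hdA
    obtain ⟨j, hj⟩ := ((he k' (by omega)).2 e').1 heA
    have hij : i ≠ j := by
      intro h
      rw [h, hj] at hi
      exact hne hi
    have hXi : s.X (k' + 1) i (s.T (k' + 1)) = τ.X d (τ.s1 d) := by
      rw [s.glue k' (by rw [hsn]; exact hkn) i, hX k' (by omega) i, hi, hsT, hk]
    have hXj : s.X (k' + 1) j (s.T (k' + 1)) = τ.X d (τ.s1 d) := by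
      rw [s.glue k' (by rw [hsn]; exact hkn) j, hX k' (by omega) j, hj, hsT, ← hk, hpos]
    rw [Finset.mem_biUnion]
    refine ⟨k' + 1, ?_, ?_⟩
    · rw [hPdef, Finset.mem_filter, Finset.mem_Ioo]
      refine ⟨⟨by omega, by rw [hsn]; exact hkn⟩, i, j, hij, ?_⟩
      rw [hXi, hXj]
    · rw [Finset.mem_image]
      exact ⟨i, Finset.mem_univ _, hXi⟩
  calc #τ.verts ≤ #(P.biUnion (fun k => univ.image (fun i => s.X k i (s.T k)))) :=
        Finset.card_le_card hsub
    _ ≤ ∑ k ∈ P, #(univ.image (fun i => s.X k i (s.T k))) := Finset.card_biUnion_le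
    _ ≤ #P • M := by
        refine Finset.sum_le_card_nsmul _ _ _ fun k _ => ?_
        refine Finset.card_image_le.trans ?_
        rw [Finset.card_univ]
        exact hcard
    _ ≤ N0 * M := by
        rw [smul_eq_mul]
        exact Nat.mul_le_mul_right M hP'

end Pool.Agent.GNet
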