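import Mathlib
import Pool.Agent.Helper971.BK.DGeo

set_option autoImplicit false

open Finset Classical MeasureTheory

namespace Pool.Agent.GNet

variable {E : Type*} [NormedAddCommGroup E] [InnerProductSpace ℝ E]

namespace FluxAux

/-- the boundary terms cancel -/
theorem fv0 {o : E} {R K : ℝ}
    (N : LNet E o R K) (f : E → E → ℝ) (hadd : ∀ z u v, f z (u + v) = f z u + f z v)
    (hsmul : ∀ z (r : ℝ) u, f z (r • u) = r * f z u)
    (h0 : ∀ z, z ∉ Metric.ball o (8 * R) → ∀ u, f z u = 0) :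
    ∑ d, (f (N.x d (N.len d)) (N.u d (N.len d)) - f (N.x d 0) (N.u d 0)) = 0 := by
  have hneg : ∀ z u, f z (-u) = - f z u := by
    intro z u
    have := hsmul z (-1) u
    rw [neg_one_smul, neg_one_mul] at this
    exact this
  have hzero : ∀ z, f z 0 = 0 := by
    intro z
    have := hsmul z 0 0
    rw [zero_smul, zero_mul] at this
    exact this
  have hS0 : ∑ d, f (N.x d 0) (N.u d 0) = 0 := by
    rw [← Finset.sum_fiberwise_of_maps_to (s := Finset.univ)
      (t := Finset.univ.image fun d => N.x d 0) (g := fun d => N.x d 0)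
      (fun d _ => Finset.mem_image_of_mem _ (Finset.mem_univ d))]
    refine Finset.sum_eq_zero fun z _ => ?_
    have h1 : ∑ d with N.x d 0 = z, f (N.x d 0) (N.u d 0) =
        ∑ d with N.x d 0 = z, f z (N.u d 0) := by
      refine Finset.sum_congr rfl fun d hd => ?_
      rw [(Finset.mem_filter.1 hd).2]
    rw [h1]
    by_cases hz : z ∈ Metric.ball o (8 * R)
    · have h2 := map_sum (AddMonoidHom.mk' (f z) (hadd z)) (fun d => N.u d 0)
        (Finset.univ.filter fun d => N.x d 0 = z)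
      simp only [AddMonoidHom.mk'_apply] at h2
      rw [← h2, N.bal z hz, hzero]
    · exact Finset.sum_eq_zero fun d _ => h0 z hz _
  have hS1 : ∑ d, f (N.x d (N.len d)) (N.u d (N.len d)) = - ∑ d, f (N.x d 0) (N.u d 0) := by
    have hinv : Function.Involutive N.rev := N.rev_rev
    rw [← Equiv.sum_comp hinv.toPerm (fun d => f (N.x d 0) (N.u d 0)), ← Finset.sum_neg_distrib]
    refine Finset.sum_congr rfl fun d _ => ?_
    show _ = - f (N.x (N.rev d) 0) (N.u (N.rev d) 0)
    rw [N.x_rev, N.u_rev, sub_zero, hneg, neg_neg]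
  rw [Finset.sum_sub_distrib, hS1, hS0]
  simp

/-- the step function -/
noncomputable def ph (η r : ℝ) : ℝ := 1 / 2 + Real.arctan (r / η) / Real.pi

/-- its derivative -/
noncomputable def ph' (η r : ℝ) : ℝ := 1 / (1 + (r / η) ^ 2) * (1 / η) / Real.pi

theorem ph_deriv (η r : ℝ) : HasDerivAt (ph η) (ph' η r) r := by
  unfold ph
  have h1 : HasDerivAt (fun s : ℝ => s / η) (1 / η) r := (hasDerivAt_id r).div_const η
  have h2 := (h1.arctan).div_const Real.pi
  exact h2.const_add (1 / 2)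

theorem ph'_nonneg {η : ℝ} (hη : 0 < η) (r : ℝ) : 0 ≤ ph' η r := by
  unfold ph'
  have := Real.pi_pos
  positivity

theorem ph'_cont (η : ℝ) : Continuous (ph' η) := by
  unfold ph'
  have : ∀ r : ℝ, 1 + (r / η) ^ 2 ≠ 0 := fun r => by positivity
  fun_prop (disch := assumption)

theorem ph_cont (η : ℝ) : Continuous (ph η) := by
  unfold ph
  have := Real.continuous_arctan
  fun_prop

theorem ph_nonneg (η r : ℝ) : 0 ≤ ph η r := by
  unfold ph
  have h1 := Real.neg_pi_div_two_lt_arctan (r / η)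
  have h2 := Real.pi_pos
  have h3 : -(1 / 2) ≤ Real.arctan (r / η) / Real.pi := by
    rw [le_div_iff₀ h2]; linarith
  linarith

theorem ph_le_one (η r : ℝ) : ph η r ≤ 1 := by
  unfold ph
  have h1 := Real.arctan_lt_pi_div_two (r / η)
  have h2 := Real.pi_pos
  have h3 : Real.arctan (r / η) / Real.pi ≤ 1 / 2 := by
    rw [div_le_iff₀ h2]; linarith
  linarith

theorem ph_ge {η r : ℝ} (hη : 0 < η) (hr : η ≤ r) : 3 / 4 ≤ ph η r := by
  unfold ph
  have h2 := Real.pi_pos
  have h1 : Real.pi / 4 ≤ Real.arctan (r / η) := by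
    rw [← Real.arctan_one]
    exact Real.arctan_strictMono.monotone ((one_le_div hη).2 hr)
  have h3 : 1 / 4 ≤ Real.arctan (r / η) / Real.pi := by
    rw [le_div_iff₀ h2]; linarith
  linarith

theorem ph_le {η r : ℝ} (hη : 0 < η) (hr : r ≤ -η) : ph η r ≤ 1 / 4 := by
  unfold ph
  have h2 := Real.pi_pos
  have h1 : Real.arctan (r / η) ≤ -(Real.pi / 4) := by
    rw [← Real.arctan_one, ← Real.arctan_neg]
    refine Real.arctan_strictMono.monotone ?_
    rw [div_le_iff₀ hη]; linarith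
  have h3 : Real.arctan (r / η) / Real.pi ≤ -(1 / 4) := by
    rw [div_le_iff₀ h2]; linarith
  linarith

section dart

variable {o : E} {R K M : ℝ} (c : Cut E o R M) {x u a : ℝ → E} {L : ℝ}

/-- integrand -/
noncomputable def gg (c : Cut E o R M) (w : E) (t η : ℝ) (x u : ℝ → E) (s : ℝ) : ℝ :=
  c.f (x s) * ph' η (inner ℝ w (x s) - t) * (inner ℝ w (u s)) ^ 2

theorem gg_cont (w : E) (t η : ℝ) (hxc : ContinuousOn x (Set.Icc 0 L))
    (huc : ContinuousOn u (Set.Icc 0 L)) : ContinuousOn (gg c w t η x u) (Set.Icc 0 L) := by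
  unfold gg
  have hfc : Continuous c.f := continuous_iff_continuousAt.2 fun z => (c.hf z).continuousAt
  have h1 : ContinuousOn (fun s => (inner ℝ w (x s) : ℝ) - t) (Set.Icc 0 L) :=
    (continuousOn_const.inner hxc).sub continuousOn_const
  exact ((hfc.comp_continuousOn hxc).mul ((ph'_cont η).comp_continuousOn h1)).mul
    ((continuousOn_const.inner huc).pow 2)

theorem gg_int (w : E) (t η : ℝ) (hL : 0 < L) (hxc : ContinuousOn x (Set.Icc 0 L))
    (huc : ContinuousOn u (Set.Icc 0 L)) :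
    IntervalIntegrable (gg c w t η x u) volume 0 L := by
  apply ContinuousOn.intervalIntegrable
  rw [Set.uIcc_of_le hL.le]
  exact gg_cont c w t η hxc huc

theorem gg_nonneg (w : E) (t : ℝ) {η : ℝ} (hη : 0 < η) (s : ℝ) : 0 ≤ gg c w t η x u s := by
  unfold gg
  exact mul_nonneg (mul_nonneg (c.nonneg _) (ph'_nonneg hη _)) (sq_nonneg _)

theorem upper (hM : 0 ≤ M) (w : E) (hw : ‖w‖ = 1) (t η : ℝ) (hL : 0 < L)
    (hx : ∀ s ∈ Set.Icc 0 L, HasDerivAt x (u s) s) (hu : ∀ s ∈ Set.Icc 0 L, HasDerivAt u (a s) s)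
    (ha : ContinuousOn a (Set.Icc 0 L)) (hu1 : ∀ s ∈ Set.Icc 0 L, ‖u s‖ ≤ K)
    (ha1 : ∀ s ∈ Set.Icc 0 L, ‖a s‖ ≤ K) :
    ∫ s in (0:ℝ)..L, gg c w t η x u s ≤
      (c.f (x L) * ph η (inner ℝ w (x L) - t) * inner ℝ w (u L) -
        c.f (x 0) * ph η (inner ℝ w (x 0) - t) * inner ℝ w (u 0)) + (M * K ^ 2 + K) * L := by
  have hxc : ContinuousOn x (Set.Icc 0 L) := fun s hs => (hx s hs).continuousAt.continuousWithinAt
  have huc : ContinuousOn u (Set.Icc 0 L) := fun s hs => (hu s hs).continuousAt.continuousWithinAt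
  have hfc : Continuous c.f := continuous_iff_continuousAt.2 fun z => (c.hf z).continuousAt
  have hf'c : Continuous c.f' := continuous_iff_continuousAt.2 fun z => (c.hf' z).continuousAt
  have hcf : ContinuousOn (fun s => c.f (x s)) (Set.Icc 0 L) := hfc.comp_continuousOn hxc
  have hcf' : ContinuousOn (fun s => c.f' (x s) (u s)) (Set.Icc 0 L) :=
    (hf'c.comp_continuousOn hxc).clm_apply huc
  have hwx : ContinuousOn (fun s => (inner ℝ w (x s) : ℝ) - t) (Set.Icc 0 L) :=
    (continuousOn_const.inner hxc).sub continuousOn_const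
  have hwu : ContinuousOn (fun s => (inner ℝ w (u s) : ℝ)) (Set.Icc 0 L) :=
    continuousOn_const.inner huc
  have hwa : ContinuousOn (fun s => (inner ℝ w (a s) : ℝ)) (Set.Icc 0 L) :=
    continuousOn_const.inner ha
  have hph : ContinuousOn (fun s => ph η (inner ℝ w (x s) - t)) (Set.Icc 0 L) :=
    (ph_cont η).comp_continuousOn hwx
  have hph' : ContinuousOn (fun s => ph' η (inner ℝ w (x s) - t)) (Set.Icc 0 L) :=
    (ph'_cont η).comp_continuousOn hwx
  have hder : ∀ s ∈ Set.Icc 0 L,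
      HasDerivAt (fun s => c.f (x s) * ph η (inner ℝ w (x s) - t) * inner ℝ w (u s))
      ((c.f' (x s) (u s) * ph η (inner ℝ w (x s) - t) +
        c.f (x s) * (ph' η (inner ℝ w (x s) - t) * inner ℝ w (u s))) * inner ℝ w (u s) +
        c.f (x s) * ph η (inner ℝ w (x s) - t) * inner ℝ w (a s)) s := by
    intro s hs
    have h1 : HasDerivAt (fun t => c.f (x t)) (c.f' (x s) (u s)) s :=
      (c.hf (x s)).comp_hasDerivAt s (hx s hs)
    have h2 : HasDerivAt (fun s => (inner ℝ w (x s) : ℝ) - t) (inner ℝ w (u s)) s := by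
      have := (HasDerivAt.inner ℝ (hasDerivAt_const s w) (hx s hs)).sub_const t
      simpa using this
    have h3 : HasDerivAt (fun s => (inner ℝ w (u s) : ℝ)) (inner ℝ w (a s)) s := by
      have := HasDerivAt.inner ℝ (hasDerivAt_const s w) (hu s hs)
      simpa using this
    have h4' := HasDerivAt.comp (h₂ := ph η) (h := fun s => (inner ℝ w (x s) : ℝ) - t) s
      (ph_deriv η (inner ℝ w (x s) - t)) h2
    have h4 : HasDerivAt (fun s => ph η (inner ℝ w (x s) - t))
        (ph' η (inner ℝ w (x s) - t) * inner ℝ w (u s)) s := h4'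
    exact (h1.mul h4).mul h3
  have hII : IntervalIntegrable (fun s => ((c.f' (x s) (u s) * ph η (inner ℝ w (x s) - t) +
        c.f (x s) * (ph' η (inner ℝ w (x s) - t) * inner ℝ w (u s))) * inner ℝ w (u s) +
        c.f (x s) * ph η (inner ℝ w (x s) - t) * inner ℝ w (a s))) volume 0 L := by
    apply ContinuousOn.intervalIntegrable
    rw [Set.uIcc_of_le hL.le]
    exact (((hcf'.mul hph).add (hcf.mul (hph'.mul hwu))).mul hwu).add ((hcf.mul hph).mul hwa)
  have hFTC := intervalIntegral.integral_eq_sub_of_hasDerivAt (a := 0) (b := L)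
    (f := fun s => c.f (x s) * ph η (inner ℝ w (x s) - t) * inner ℝ w (u s)) (by
      intro s hs
      rw [Set.uIcc_of_le hL.le] at hs
      exact hder s hs) hII
  have hIc : IntervalIntegrable (fun _ : ℝ => M * K ^ 2 + K) volume 0 L :=
    intervalIntegrable_const
  have hle : ∫ s in (0:ℝ)..L, gg c w t η x u s ≤
      ∫ s in (0:ℝ)..L, ((((c.f' (x s) (u s) * ph η (inner ℝ w (x s) - t) +
        c.f (x s) * (ph' η (inner ℝ w (x s) - t) * inner ℝ w (u s))) * inner ℝ w (u s) +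
        c.f (x s) * ph η (inner ℝ w (x s) - t) * inner ℝ w (a s))) + (M * K ^ 2 + K)) := by
    refine intervalIntegral.integral_mono_on hL.le (gg_int c w t η hL hxc huc) (hII.add hIc) ?_
    intro s hs
    have hK0 : 0 ≤ K := (norm_nonneg _).trans (hu1 s hs)
    have n1 : |(inner ℝ w (u s) : ℝ)| ≤ ‖u s‖ := by
      have := abs_real_inner_le_norm w (u s)
      rwa [hw, one_mul] at this
    have n2 : |(inner ℝ w (a s) : ℝ)| ≤ ‖a s‖ := by
      have := abs_real_inner_le_norm w (a s)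
      rwa [hw, one_mul] at this
    have p0 := ph_nonneg η (inner ℝ w (x s) - t)
    have p1 := ph_le_one η (inner ℝ w (x s) - t)
    have b1 : |c.f' (x s) (u s) * ph η (inner ℝ w (x s) - t) * inner ℝ w (u s)| ≤ M * K ^ 2 := by
      rw [abs_mul, abs_mul, abs_of_nonneg p0]
      calc |c.f' (x s) (u s)| * ph η (inner ℝ w (x s) - t) * |(inner ℝ w (u s) : ℝ)|
          ≤ ((M * ‖u s‖) * 1) * ‖u s‖ := by
            refine mul_le_mul (mul_le_mul (c.f'_le _ _) p1 p0 (by positivity)) n1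
              (abs_nonneg _) (by positivity)
        _ = M * ‖u s‖ ^ 2 := by ring
        _ ≤ M * K ^ 2 := mul_le_mul_of_nonneg_left
            (pow_le_pow_left₀ (norm_nonneg _) (hu1 s hs) 2) hM
    have b2 : |c.f (x s) * ph η (inner ℝ w (x s) - t) * inner ℝ w (a s)| ≤ K := by
      rw [abs_mul, abs_mul, abs_of_nonneg p0, abs_of_nonneg (c.nonneg _)]
      calc c.f (x s) * ph η (inner ℝ w (x s) - t) * |(inner ℝ w (a s) : ℝ)|
          ≤ (1 * 1) * ‖a s‖ := by
            refine mul_le_mul (mul_le_mul (c.le_one _) p1 p0 (by norm_num)) n2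
              (abs_nonneg _) (by norm_num)
        _ ≤ K := by rw [one_mul, one_mul]; exact ha1 s hs
    have b1' := (abs_le.1 b1).1
    have b2' := (abs_le.1 b2).1
    have e : ((c.f' (x s) (u s) * ph η (inner ℝ w (x s) - t) +
        c.f (x s) * (ph' η (inner ℝ w (x s) - t) * inner ℝ w (u s))) * inner ℝ w (u s) +
        c.f (x s) * ph η (inner ℝ w (x s) - t) * inner ℝ w (a s)) + (M * K ^ 2 + K) =
        gg c w t η x u s +
          (c.f' (x s) (u s) * ph η (inner ℝ w (x s) - t) * inner ℝ w (u s) + M * K ^ 2) +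
          (c.f (x s) * ph η (inner ℝ w (x s) - t) * inner ℝ w (a s) + K) := by
      unfold gg
      ring
    rw [e]
    linarith
  refine hle.trans (le_of_eq ?_)
  rw [intervalIntegral.integral_add hII hIc, hFTC, intervalIntegral.integral_const, sub_zero,
    smul_eq_mul]
  ring

theorem lower (w : E) (t : ℝ) {η c₀ : ℝ} (hη : 0 < η) (hc₀ : 0 < c₀) (hL : 0 < L)
    (hx : ∀ s ∈ Set.Icc 0 L, HasDerivAt x (u s) s) (huc : ContinuousOn u (Set.Icc 0 L))
    (hf : ∀ s ∈ Set.Icc 0 L, c.f (x s) = 1) (hw : ∀ s ∈ Set.Icc 0 L, c₀ ≤ (inner ℝ w (u s) : ℝ))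
    (h0 : (inner ℝ w (x 0) : ℝ) - t ≤ -η) (h1 : η ≤ (inner ℝ w (x L) : ℝ) - t) :
    c₀ / 2 ≤ ∫ s in (0:ℝ)..L, gg c w t η x u s := by
  have hxc : ContinuousOn x (Set.Icc 0 L) := fun s hs => (hx s hs).continuousAt.continuousWithinAt
  have hwx : ContinuousOn (fun s => (inner ℝ w (x s) : ℝ) - t) (Set.Icc 0 L) :=
    (continuousOn_const.inner hxc).sub continuousOn_const
  have hwu : ContinuousOn (fun s => (inner ℝ w (u s) : ℝ)) (Set.Icc 0 L) :=
    continuousOn_const.inner huc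
  have hph' : ContinuousOn (fun s => ph' η (inner ℝ w (x s) - t)) (Set.Icc 0 L) :=
    (ph'_cont η).comp_continuousOn hwx
  have hII : IntervalIntegrable (fun s => c₀ * (ph' η (inner ℝ w (x s) - t) * inner ℝ w (u s)))
      volume 0 L := by
    apply ContinuousOn.intervalIntegrable
    rw [Set.uIcc_of_le hL.le]
    exact continuousOn_const.mul (hph'.mul hwu)
  have hFTC := intervalIntegral.integral_eq_sub_of_hasDerivAt (a := 0) (b := L)
    (f := fun s => c₀ * ph η (inner ℝ w (x s) - t)) (by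
      intro s hs
      rw [Set.uIcc_of_le hL.le] at hs
      have h2 : HasDerivAt (fun s => (inner ℝ w (x s) : ℝ) - t) (inner ℝ w (u s)) s := by
        have := (HasDerivAt.inner ℝ (hasDerivAt_const s w) (hx s hs)).sub_const t
        simpa using this
      have h4' := HasDerivAt.comp (h₂ := ph η) (h := fun s => (inner ℝ w (x s) : ℝ) - t) s
        (ph_deriv η (inner ℝ w (x s) - t)) h2
      have h4 : HasDerivAt (fun s => ph η (inner ℝ w (x s) - t))
          (ph' η (inner ℝ w (x s) - t) * inner ℝ w (u s)) s := h4'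
      exact h4.const_mul c₀) hII
  have hle : ∫ s in (0:ℝ)..L, c₀ * (ph' η (inner ℝ w (x s) - t) * inner ℝ w (u s)) ≤
      ∫ s in (0:ℝ)..L, gg c w t η x u s := by
    refine intervalIntegral.integral_mono_on hL.le hII (gg_int c w t η hL hxc huc) ?_
    intro s hs
    unfold gg
    rw [hf s hs, one_mul]
    have h5 := hw s hs
    have h6 := ph'_nonneg hη (inner ℝ w (x s) - t)
    have h7 : 0 ≤ ph' η (inner ℝ w (x s) - t) * (inner ℝ w (u s) : ℝ) :=
      mul_nonneg h6 (hc₀.le.trans h5)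
    calc c₀ * (ph' η (inner ℝ w (x s) - t) * inner ℝ w (u s))
        ≤ (inner ℝ w (u s) : ℝ) * (ph' η (inner ℝ w (x s) - t) * inner ℝ w (u s)) :=
          mul_le_mul_of_nonneg_right h5 h7
      _ = _ := by ring
  refine le_trans ?_ hle
  rw [hFTC]
  have h2 := ph_ge hη h1
  have h3 := ph_le hη h0
  nlinarith

end dart

end FluxAux

/-- flux estimate: few darts cross a given hyperplane transversally -/
theorem LNet.flux {o : E} {R K M : ℝ} (hK : 1 ≤ K) (hM : 0 ≤ M) (c : Cut E o R M)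
    (N : LNet E o R K) (w : E) (hw : ‖w‖ = 1) (c₀ : ℝ) (hc₀ : 0 < c₀) (t : ℝ)
    (F : Finset N.D) (hF : ∀ d ∈ F, (∀ s ∈ Set.Icc 0 (N.len d),
      c₀ ≤ (inner ℝ w (N.u d s) : ℝ) ∧ N.x d s ∈ Metric.ball o (5 * R)) ∧
      (inner ℝ w (N.x d 0) : ℝ) < t ∧ t < (inner ℝ w (N.x d (N.len d)) : ℝ)) :
    #F * c₀ ≤ 2 * (M * K ^ 2 + K) * N.length := by
  -- choice of the scale
  have hev : ∀ᶠ η : ℝ in nhdsWithin 0 (Set.Ioi 0), ∀ d ∈ F,
      η ≤ t - (inner ℝ w (N.x d 0) : ℝ) ∧ η ≤ (inner ℝ w (N.x d (N.len d)) : ℝ) - t := by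
    rw [Filter.eventually_all_finset]
    intro d hd
    obtain ⟨-, h1, h2⟩ := hF d hd
    have e1 : ∀ᶠ η : ℝ in nhdsWithin 0 (Set.Ioi 0), η ≤ t - (inner ℝ w (N.x d 0) : ℝ) :=
      nhdsWithin_le_nhds ((eventually_lt_nhds (sub_pos.2 h1)).mono fun _ h => h.le)
    have e2 : ∀ᶠ η : ℝ in nhdsWithin 0 (Set.Ioi 0), η ≤ (inner ℝ w (N.x d (N.len d)) : ℝ) - t :=
      nhdsWithin_le_nhds ((eventually_lt_nhds (sub_pos.2 h2)).mono fun _ h => h.le)
    exact e1.and e2
  obtain ⟨η, hη1, hη⟩ := (hev.and self_mem_nhdsWithin).exists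
  have hη : 0 < η := hη
  have hfv := FluxAux.fv0 N (fun z u => c.f z * FluxAux.ph η (inner ℝ w z - t) * inner ℝ w u)
    (by intro z u v; rw [inner_add_right]; ring)
    (by intro z r u; rw [inner_smul_right]; ring)
    (by intro z hz u; rw [c.zero z hz, zero_mul, zero_mul])
  have hup : ∑ d, ∫ s in (0:ℝ)..N.len d, FluxAux.gg c w t η (N.x d) (N.u d) s ≤
      (M * K ^ 2 + K) * N.length := by
    have h1 : ∑ d, ∫ s in (0:ℝ)..N.len d, FluxAux.gg c w t η (N.x d) (N.u d) s ≤
        ∑ d, ((c.f (N.x d (N.len d)) * FluxAux.ph η (inner ℝ w (N.x d (N.len d)) - t) *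
          inner ℝ w (N.u d (N.len d)) -
          c.f (N.x d 0) * FluxAux.ph η (inner ℝ w (N.x d 0) - t) * inner ℝ w (N.u d 0)) +
          (M * K ^ 2 + K) * N.len d) :=
      Finset.sum_le_sum fun d _ => FluxAux.upper c hM w hw t η (N.len_pos d) (N.hx d) (N.hu d)
        (N.ac d) (N.u_le d) (N.a_le d)
    refine h1.trans (le_of_eq ?_)
    rw [Finset.sum_add_distrib, hfv, zero_add, ← Finset.mul_sum]
    rfl
  have hnn : ∀ d, 0 ≤ ∫ s in (0:ℝ)..N.len d, FluxAux.gg c w t η (N.x d) (N.u d) s := by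
    intro d
    exact intervalIntegral.integral_nonneg (N.len_pos d).le fun s _ =>
      FluxAux.gg_nonneg c w t hη s
  have hlow : ∑ _d ∈ F, c₀ / 2 ≤
      ∑ d ∈ F, ∫ s in (0:ℝ)..N.len d, FluxAux.gg c w t η (N.x d) (N.u d) s := by
    refine Finset.sum_le_sum fun d hd => ?_
    obtain ⟨h3, -, -⟩ := hF d hd
    obtain ⟨h4, h5⟩ := hη1 d hd
    refine FluxAux.lower c w t hη hc₀ (N.len_pos d) (N.hx d)
      (fun s hs => (N.hu d s hs).continuousAt.continuousWithinAt)
      (fun s hs => c.one _ (h3 s hs).2) (fun s hs => (h3 s hs).1) (by linarith) h5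
  have hsub : ∑ d ∈ F, ∫ s in (0:ℝ)..N.len d, FluxAux.gg c w t η (N.x d) (N.u d) s ≤
      ∑ d, ∫ s in (0:ℝ)..N.len d, FluxAux.gg c w t η (N.x d) (N.u d) s :=
    Finset.sum_le_sum_of_subset_of_nonneg (Finset.subset_univ F) fun d _ _ => hnn d
  rw [Finset.sum_const, nsmul_eq_mul] at hlow
  linarith

end Pool.Agent.GNet
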