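import Mathlib
import Pool.Agent.Helper971.BK.DGeo

set_option autoImplicit false

open Finset Classical MeasureTheory

namespace Pool.Agent.GNet

variable {E : Type*} [NormedAddCommGroup E] [InnerProductSpace ℝ E]

theorem cuts_mass (f : E → ℝ) (t : E → ℝ) {ε : ℝ} (hε : 0 < ε) : ∀ (n : ℕ) (P : Finset E), #P = n →
    (∀ z ∈ P, 0 ≤ f z) →
    ∃ Θ : Finset ℝ, (#Θ : ℝ) * ε ≤ ∑ z ∈ P, f z ∧
      ∀ a b, (∀ θ ∈ Θ, ¬ (a < θ ∧ θ < b)) → ∑ z ∈ P with a < t z ∧ t z < b, f z ≤ ε := by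
  intro n
  induction n using Nat.strong_induction_on with
  | _ n ih =>
  intro P hPn hf
  by_cases hs : ∑ z ∈ P, f z ≤ ε
  · refine ⟨∅, by simpa using Finset.sum_nonneg hf, fun a b _ => le_trans ?_ hs⟩
    exact Finset.sum_le_sum_of_subset_of_nonneg (Finset.filter_subset _ _) fun z hz _ => hf z hz
  · push Not at hs
    let L : Finset ℝ := (P.image t).filter fun θ => ε < ∑ z ∈ P with t z ≤ θ, f z
    have hPne : P.Nonempty := by
      rcases P.eq_empty_or_nonempty with h | h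
      · rw [h] at hs; simp at hs; linarith
      · exact h
    have hLne : L.Nonempty := by
      obtain ⟨z, hz, hmax⟩ := P.exists_max_image t hPne
      refine ⟨t z, Finset.mem_filter.2 ⟨Finset.mem_image_of_mem t hz, ?_⟩⟩
      rw [Finset.filter_true_of_mem (fun y hy => hmax y hy)]
      exact hs
    obtain ⟨θ, hθL, hθmin⟩ := L.exists_min_image id hLne
    simp only [id] at hθmin
    obtain ⟨hθ1, hθ2⟩ := Finset.mem_filter.1 hθL
    obtain ⟨z0, hz0, hz0θ⟩ := Finset.mem_image.1 hθ1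
    let P' : Finset E := P.filter fun z => ¬ t z ≤ θ
    have hP'card : #P' < n := by
      rw [← hPn]
      apply Finset.card_lt_card
      refine Finset.filter_ssubset.2 ⟨z0, hz0, ?_⟩
      rw [hz0θ]; simp
    obtain ⟨Θ, hΘ1, hΘ2⟩ := ih _ hP'card P' rfl fun z hz => hf z (Finset.mem_filter.1 hz).1
    refine ⟨insert θ Θ, ?_, ?_⟩
    · have h1 : (#(insert θ Θ) : ℝ) ≤ #Θ + 1 := by exact_mod_cast Finset.card_insert_le θ Θ
      have h2 := Finset.sum_filter_add_sum_filter_not P (fun z => t z ≤ θ) f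
      have h3 : (#(insert θ Θ) : ℝ) * ε ≤ (#Θ + 1) * ε := mul_le_mul_of_nonneg_right h1 hε.le
      have h4 : ∑ z ∈ P', f z = ∑ z ∈ P with ¬ t z ≤ θ, f z := rfl
      rw [h4] at hΘ1
      linarith
    · intro a b hab
      have h1 := hab θ (Finset.mem_insert_self _ _)
      by_cases haθ : a < θ
      · have hbθ : b ≤ θ := by
          by_contra h
          exact h1 ⟨haθ, by linarith [not_le.1 h]⟩
        let Q : Finset E := P.filter fun z => t z < θ
        have hQ : ∑ z ∈ Q, f z ≤ ε := by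
          rcases Q.eq_empty_or_nonempty with h | h
          · rw [h]; simpa using hε.le
          · obtain ⟨z1, hz1, hmax⟩ := Q.exists_max_image t h
            obtain ⟨hz1P, hz1t⟩ := Finset.mem_filter.1 hz1
            by_contra hcon
            push Not at hcon
            have h5 : t z1 ∈ L := by
              refine Finset.mem_filter.2 ⟨Finset.mem_image_of_mem t hz1P, hcon.trans_le ?_⟩
              apply Finset.sum_le_sum_of_subset_of_nonneg
              · intro z hz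
                exact Finset.mem_filter.2 ⟨(Finset.mem_filter.1 hz).1, hmax z hz⟩
              · intro z hz _
                exact hf z (Finset.mem_filter.1 hz).1
            have h6 := hθmin _ h5
            linarith
        refine le_trans ?_ hQ
        apply Finset.sum_le_sum_of_subset_of_nonneg
        · intro z hz
          obtain ⟨h5, h6, h7⟩ := Finset.mem_filter.1 hz
          exact Finset.mem_filter.2 ⟨h5, by linarith⟩
        · intro z hz _
          exact hf z (Finset.mem_filter.1 hz).1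
      · push Not at haθ
        refine le_trans ?_ (hΘ2 a b fun θ' hθ' => hab θ' (Finset.mem_insert_of_mem hθ'))
        apply Finset.sum_le_sum_of_subset_of_nonneg
        · intro z hz
          obtain ⟨h5, h6, h7⟩ := Finset.mem_filter.1 hz
          exact Finset.mem_filter.2 ⟨Finset.mem_filter.2 ⟨h5, by linarith⟩, h6, h7⟩
        · intro z hz _
          exact hf z (Finset.mem_filter.1 (Finset.mem_filter.1 hz).1).1

/-- cutting an interval in short slabs with small mass -/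
theorem exists_cuts (P : Finset E) (f : E → ℝ) (t : E → ℝ) (hf : ∀ z ∈ P, 0 ≤ f z) {S ε r A B : ℝ}
    (hS : ∑ z ∈ P, f z ≤ S) (hε : 0 < ε) (hr : 0 < r) (hAB : A < B) :
    ∃ Θ : Finset ℝ, A ∈ Θ ∧ B ∈ Θ ∧ (∀ θ ∈ Θ, A ≤ θ ∧ θ ≤ B) ∧
      (#Θ : ℝ) ≤ S / ε + (B - A) / r + 4 ∧
      ∀ a b, A ≤ a → a < b → b ≤ B → (∀ θ ∈ Θ, ¬ (a < θ ∧ θ < b)) →
        b - a ≤ r ∧ ∑ z ∈ P with a < t z ∧ t z < b, f z ≤ ε := by
  obtain ⟨Θ₁, h1, h2⟩ := cuts_mass f t hε _ P rfl hf
  let Θ₂ : Finset ℝ := (Finset.range (⌊(B - A) / r⌋₊ + 1)).image fun k : ℕ => A + k * r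
  have hBA : 0 ≤ (B - A) / r := div_nonneg (by linarith) hr.le
  have hΘ2 : ∀ θ ∈ Θ₂, A ≤ θ ∧ θ ≤ B := by
    intro θ hθ
    obtain ⟨k, hk, rfl⟩ := Finset.mem_image.1 hθ
    have hk1 : k ≤ ⌊(B - A) / r⌋₊ := Nat.lt_succ_iff.1 (Finset.mem_range.1 hk)
    have hk2 : (k : ℝ) ≤ (B - A) / r := (Nat.le_floor_iff hBA).1 hk1
    rw [le_div_iff₀ hr] at hk2
    have hk3 : 0 ≤ (k : ℝ) * r := by positivity
    constructor <;> linarith
  refine ⟨insert A (insert B (Θ₁.filter (fun θ => A ≤ θ ∧ θ ≤ B) ∪ Θ₂)), by simp, by simp, ?_, ?_, ?_⟩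
  · intro θ hθ
    rw [Finset.mem_insert, Finset.mem_insert, Finset.mem_union] at hθ
    rcases hθ with rfl | rfl | h | h
    · exact ⟨le_rfl, hAB.le⟩
    · exact ⟨hAB.le, le_rfl⟩
    · exact (Finset.mem_filter.1 h).2
    · exact hΘ2 θ h
  · have e1 : #(insert A (insert B (Θ₁.filter (fun θ => A ≤ θ ∧ θ ≤ B) ∪ Θ₂))) ≤ #Θ₁ +
        (⌊(B - A) / r⌋₊ + 1) + 1 + 1 := by
      refine (Finset.card_insert_le _ _).trans (Nat.add_le_add_right ?_ 1)
      refine (Finset.card_insert_le _ _).trans (Nat.add_le_add_right ?_ 1)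
      refine (Finset.card_union_le _ _).trans (Nat.add_le_add (Finset.card_filter_le _ _) ?_)
      refine Finset.card_image_le.trans ?_
      rw [Finset.card_range]
    have e2 : ((#(insert A (insert B (Θ₁.filter (fun θ => A ≤ θ ∧ θ ≤ B) ∪ Θ₂))) : ℕ) : ℝ) ≤ #Θ₁ +
        (⌊(B - A) / r⌋₊ + 1) + 1 + 1 := by exact_mod_cast e1
    have e3 : (⌊(B - A) / r⌋₊ : ℝ) ≤ (B - A) / r := Nat.floor_le hBA
    have e4 : (#Θ₁ : ℝ) ≤ S / ε := by
      rw [le_div_iff₀ hε]
      exact h1.trans hS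
    linarith
  · intro a b ha hab hb hav
    constructor
    · by_contra hcon
      push Not at hcon
      have g0 : 0 ≤ (a - A) / r := div_nonneg (by linarith) hr.le
      have g1 : ((⌊(a - A) / r⌋₊ : ℕ) : ℝ) * r ≤ a - A := by
        rw [← le_div_iff₀ hr]; exact Nat.floor_le g0
      have g2 : a - A < (((⌊(a - A) / r⌋₊ : ℕ) : ℝ) + 1) * r := by
        rw [← div_lt_iff₀ hr]; exact Nat.lt_floor_add_one _
      have g3 : A + ((⌊(a - A) / r⌋₊ + 1 : ℕ) : ℝ) * r ∈ Θ₂ := by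
        refine Finset.mem_image.2 ⟨⌊(a - A) / r⌋₊ + 1, ?_, rfl⟩
        rw [Finset.mem_range, Nat.lt_succ_iff, Nat.le_floor_iff hBA, le_div_iff₀ hr]
        push_cast
        linarith
      refine hav _ (by simp only [Finset.mem_insert, Finset.mem_union]; exact Or.inr (Or.inr (Or.inr g3))) ?_
      push_cast
      constructor <;> linarith
    · apply h2 a b
      intro θ hθ hθab
      refine hav θ ?_ hθab
      simp only [Finset.mem_insert, Finset.mem_union]
      refine Or.inr (Or.inr (Or.inl (Finset.mem_filter.2 ⟨hθ, ?_, ?_⟩)))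
      · linarith [hθab.1]
      · linarith [hθab.2]

/-- finitely many directions suffice -/
theorem exists_directions (E : Type*) [NormedAddCommGroup E] [InnerProductSpace ℝ E]
    [FiniteDimensional ℝ E] :
    ∃ W : Finset E, (∀ w ∈ W, ‖w‖ = 1) ∧ ∀ u : E, u ≠ 0 → ∃ w ∈ W,
      0 < (inner ℝ w u : ℝ) ∧ ‖(inner ℝ w u : ℝ)⁻¹ • u - w‖ < 1 / 2 := by
  have hc : IsCompact (Metric.sphere (0 : E) 1) := isCompact_sphere _ _
  obtain ⟨s, hs1, hs2, hs3⟩ := hc.finite_cover_balls (e := 1 / 8) (by norm_num)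
  refine ⟨hs2.toFinset, fun w hw => ?_, fun u hu => ?_⟩
  · have := hs1 (hs2.mem_toFinset.1 hw)
    simpa using this
  · have hu0 : 0 < ‖u‖ := norm_pos_iff.2 hu
    have hv : ‖u‖⁻¹ • u ∈ Metric.sphere (0 : E) 1 := by
      rw [mem_sphere_zero_iff_norm, norm_smul, norm_inv, norm_norm, inv_mul_cancel₀ hu0.ne']
    have hv1 : ‖‖u‖⁻¹ • u‖ = 1 := by simpa using hv
    obtain ⟨w, hw, hwv⟩ := Set.mem_iUnion₂.1 (hs3 hv)
    have hw1 : ‖w‖ = 1 := by simpa using hs1 hw
    rw [Metric.mem_ball, dist_eq_norm] at hwv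
    refine ⟨w, hs2.mem_toFinset.2 hw, ?_⟩
    set v : E := ‖u‖⁻¹ • u with hvdef
    have huv : u = ‖u‖ • v := by
      rw [hvdef, smul_smul, mul_inv_cancel₀ hu0.ne', one_smul]
    have h1 : ‖v - w‖ ^ 2 = 2 - 2 * (inner ℝ w v : ℝ) := by
      rw [@norm_sub_sq_real, hv1, hw1, real_inner_comm]
      ring
    have hc1 : (9 / 10 : ℝ) < inner ℝ w v := by
      have h2 : ‖v - w‖ ^ 2 < (1 / 8) ^ 2 := by
        have := norm_nonneg (v - w)
        nlinarith
      rw [h1] at h2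
      nlinarith
    have hiu : (inner ℝ w u : ℝ) = ‖u‖ * inner ℝ w v := by
      conv_lhs => rw [huv]
      rw [real_inner_smul_right]
    have hcpos : (0 : ℝ) < inner ℝ w v := by linarith
    refine ⟨by rw [hiu]; positivity, ?_⟩
    have hsm : (inner ℝ w u : ℝ)⁻¹ • u = (inner ℝ w v : ℝ)⁻¹ • v := by
      rw [hiu, hvdef, smul_smul, mul_inv, mul_comm]
    rw [hsm]
    have h3 : ‖(inner ℝ w v : ℝ)⁻¹ • v - w‖ ^ 2 = (inner ℝ w v : ℝ)⁻¹ ^ 2 - 1 := by
      have hvw : (inner ℝ v w : ℝ) = inner ℝ w v := real_inner_comm _ _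
      rw [@norm_sub_sq_real, norm_smul, hv1, hw1, real_inner_smul_left, hvw, norm_inv,
        Real.norm_eq_abs, abs_of_pos hcpos, inv_mul_cancel₀ hcpos.ne']
      ring
    have h4 : (inner ℝ w v : ℝ)⁻¹ < 10 / 9 := by
      rw [inv_lt_comm₀ hcpos (by norm_num)]
      norm_num
      linarith
    have h5 : 0 < (inner ℝ w v : ℝ)⁻¹ := inv_pos.2 hcpos
    have h6 : ‖(inner ℝ w v : ℝ)⁻¹ • v - w‖ ^ 2 < (1 / 2) ^ 2 := by
      rw [h3]; nlinarith
    exact lt_of_pow_lt_pow_left₀ 2 (by norm_num) h6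

end Pool.Agent.GNet
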