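import Mathlib
import Pool.Agent.Helper971.BK.DGeo

set_option autoImplicit false

open Finset Classical MeasureTheory

namespace Pool.Agent.GNet

variable {E : Type*} [NormedAddCommGroup E] [InnerProductSpace ℝ E]

/-- a geodesic which goes upwards can be parametrised by the time -/
theorem exists_reparam (Γ : Geom E) (w : E) (hw : ‖w‖ = 1) {c₀ L : ℝ} (hc₀ : 0 < c₀)
    (hL : 0 < L) (x u : ℝ → E)
    (hx : ∀ s ∈ Set.Icc 0 L, HasDerivAt x (u s) s)
    (hu : ∀ s ∈ Set.Icc 0 L, HasDerivAt u (Γ.A (x s) (u s)) s)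
    (hunit : ∀ s ∈ Set.Icc 0 L, Γ.G (x s) (u s) (u s) = 1)
    (hmem : ∀ s ∈ Set.Icc 0 L, x s ∈ Γ.B)
    (hup : ∀ s ∈ Set.Icc 0 L, c₀ ≤ (inner ℝ w (u s) : ℝ)) :
    (inner ℝ w (x 0) : ℝ) < (inner ℝ w (x L) : ℝ) ∧
    ∃ X U : ℝ → E, Ptc Γ (innerSL ℝ w) c₀ (inner ℝ w (x 0)) (inner ℝ w (x L)) X U ∧
      (∀ s ∈ Set.Icc 0 L, X (inner ℝ w (x s)) = x s ∧ U (inner ℝ w (x s)) = u s) ∧
      (∀ t ∈ Set.Icc (inner ℝ w (x 0) : ℝ) (inner ℝ w (x L)),
        ∃ s ∈ Set.Icc 0 L, (inner ℝ w (x s) : ℝ) = t) := by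
  set h : ℝ → ℝ := fun s => inner ℝ w (x s) with hh
  have hd : ∀ s ∈ Set.Icc 0 L, HasDerivAt h (inner ℝ w (u s)) s := fun s hs =>
    (innerSL ℝ w).hasFDerivAt.comp_hasDerivAt s (hx s hs)
  have hcont : ContinuousOn h (Set.Icc 0 L) := fun s hs =>
    (hd s hs).continuousAt.continuousWithinAt
  have hgrow : ∀ s ∈ Set.Icc 0 L, ∀ s' ∈ Set.Icc 0 L, s ≤ s' → c₀ * (s' - s) ≤ h s' - h s := by
    intro s hs s' hs' hss
    have h1 : MonotoneOn (fun s => h s - c₀ * s) (Set.Icc 0 L) := by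
      apply monotoneOn_of_deriv_nonneg (convex_Icc 0 L)
      · exact hcont.sub (continuousOn_const.mul continuousOn_id)
      · intro y hy
        have hy' := interior_subset hy
        exact ((hd y hy').sub ((hasDerivAt_id y).const_mul c₀)).differentiableAt.differentiableWithinAt
      · intro y hy
        have hy' := interior_subset hy
        have h2 := ((hd y hy').sub ((hasDerivAt_id y).const_mul c₀)).deriv
        have h3 : deriv (fun s => h s - c₀ * s) y = inner ℝ w (u y) - c₀ * 1 := h2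
        rw [h3]
        have := hup y hy'
        linarith
    have h4 := h1 hs hs' hss
    simp only at h4
    linarith
  have h0m : (0 : ℝ) ∈ Set.Icc 0 L := ⟨le_rfl, hL.le⟩
  have hLm : L ∈ Set.Icc 0 L := ⟨hL.le, le_rfl⟩
  have hmono : StrictMonoOn h (Set.Icc 0 L) := by
    intro s hs s' hs' hss
    have := hgrow s hs s' hs' hss.le
    have h2 : 0 < c₀ * (s' - s) := mul_pos hc₀ (by linarith)
    linarith
  have hsurj : ∀ t ∈ Set.Icc (h 0) (h L), ∃ s ∈ Set.Icc 0 L, h s = t := by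
    intro t ht
    exact intermediate_value_Icc hL.le hcont ht
  have hlt : h 0 < h L := hmono h0m hLm hL
  refine ⟨hlt, ?_⟩
  set g : ℝ → ℝ := Function.invFunOn h (Set.Icc 0 L) with hg
  have hgm : ∀ t ∈ Set.Icc (h 0) (h L), g t ∈ Set.Icc 0 L := fun t ht =>
    Function.invFunOn_mem (hsurj t ht)
  have hgt : ∀ t ∈ Set.Icc (h 0) (h L), h (g t) = t := fun t ht =>
    Function.invFunOn_eq (hsurj t ht)
  have hmaps : ∀ s ∈ Set.Icc 0 L, h s ∈ Set.Icc (h 0) (h L) := fun s hs =>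
    ⟨hmono.monotoneOn h0m hs hs.1, hmono.monotoneOn hs hLm hs.2⟩
  have hgs : ∀ s ∈ Set.Icc 0 L, g (h s) = s := fun s hs =>
    hmono.injOn (hgm _ (hmaps s hs)) hs (hgt _ (hmaps s hs))
  have hglip : ∀ t ∈ Set.Icc (h 0) (h L), ∀ t' ∈ Set.Icc (h 0) (h L),
      dist (g t) (g t') ≤ c₀⁻¹ * dist t t' := by
    have key : ∀ t ∈ Set.Icc (h 0) (h L), ∀ t' ∈ Set.Icc (h 0) (h L), g t ≤ g t' →
        dist (g t) (g t') ≤ c₀⁻¹ * dist t t' := by
      intro t ht t' ht' htt
      have h1 := hgrow _ (hgm t ht) _ (hgm t' ht') htt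
      rw [hgt t ht, hgt t' ht'] at h1
      rw [dist_comm (g t), dist_comm t, Real.dist_eq, Real.dist_eq, abs_of_nonneg (by linarith),
        le_inv_mul_iff₀ hc₀]
      exact h1.trans (le_abs_self _)
    intro t ht t' ht'
    rcases le_total (g t) (g t') with h1 | h1
    · exact key t ht t' ht' h1
    · rw [dist_comm (g t), dist_comm t]
      exact key t' ht' t ht h1
  have hgc : ContinuousOn g (Set.Icc (h 0) (h L)) := by
    have h1 : LipschitzOnWith ⟨c₀⁻¹, by positivity⟩ g (Set.Icc (h 0) (h L)) :=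
      LipschitzOnWith.of_dist_le_mul hglip
    exact h1.continuousOn
  have hgd : ∀ t ∈ Set.Ioo (h 0) (h L), HasDerivAt g (inner ℝ w (u (g t)))⁻¹ t := by
    intro t ht
    have ht' := Set.Ioo_subset_Icc_self ht
    apply HasDerivAt.of_local_left_inverse
    · exact hgc.continuousAt (Icc_mem_nhds ht.1 ht.2)
    · exact hd _ (hgm t ht')
    · have := hup _ (hgm t ht')
      exact (by linarith : (0 : ℝ) < inner ℝ w (u (g t))).ne'
    · filter_upwards [Icc_mem_nhds ht.1 ht.2] with y hy using hgt y hy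
  have hxc : ContinuousOn x (Set.Icc 0 L) := fun s hs =>
    (hx s hs).continuousAt.continuousWithinAt
  have huc : ContinuousOn u (Set.Icc 0 L) := fun s hs =>
    (hu s hs).continuousAt.continuousWithinAt
  refine ⟨x ∘ g, u ∘ g, ?_, ?_, hsurj⟩
  · refine ⟨hxc.comp hgc hgm, huc.comp hgc hgm, ?_, ?_, ?_, ?_, ?_⟩
    · intro t ht
      have ht' := Set.Ioo_subset_Icc_self ht
      exact (hx _ (hgm t ht')).scomp t (hgd t ht)
    · intro t ht
      have ht' := Set.Ioo_subset_Icc_self ht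
      exact (hu _ (hgm t ht')).scomp t (hgd t ht)
    · exact fun t ht => hmem _ (hgm t ht)
    · exact fun t ht => hunit _ (hgm t ht)
    · exact fun t ht => hup _ (hgm t ht)
  · intro s hs
    have := hgs s hs
    exact ⟨congrArg x this, congrArg u this⟩

end Pool.Agent.GNet
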