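import Mathlib
import Pool.Agent.Helper971.BK.DGeo

set_option autoImplicit false

open Finset Classical MeasureTheory

namespace Pool.Agent.GNet

variable {E : Type*} [NormedAddCommGroup E] [InnerProductSpace ℝ E]

theorem lip_aux17 {a b C : ℝ} (hC : 0 ≤ C) {f f' : ℝ → E} (hc : ContinuousOn f (Set.Icc a b))
    (hd : ∀ t ∈ Set.Ioo a b, HasDerivAt f (f' t) t) (hb : ∀ t ∈ Set.Ioo a b, ‖f' t‖ ≤ C) :
    ∀ t ∈ Set.Icc a b, ∀ t' ∈ Set.Icc a b, ‖f t - f t'‖ ≤ C * |t - t'| := by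
  intro t ht t' ht'
  rcases eq_or_ne a b with hab | hab
  · subst hab
    have h1 : t = a := le_antisymm ht.2 ht.1
    have h2 : t' = a := le_antisymm ht'.2 ht'.1
    subst h1; subst h2; simp
  · have hcl : closure (Set.Ioo a b) = Set.Icc a b := closure_Ioo hab
    have h0 : LipschitzOnWith (Real.toNNReal C) f (Set.Ioo a b) := by
      refine (convex_Ioo a b).lipschitzOnWith_of_nnnorm_hasDerivWithin_le (f' := f')
        (fun s hs => (hd s hs).hasDerivWithinAt) (fun s hs => ?_)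
      have := hb s hs
      rw [← NNReal.coe_le_coe, coe_nnnorm, Real.coe_toNNReal C hC]
      exact this
    have h1 : LipschitzOnWith (Real.toNNReal C) f (Set.Icc a b) := by
      rw [← hcl]
      apply LipschitzOnWith.closure _ h0
      rw [hcl]; exact hc
    have h2 := h1.dist_le_mul t ht t' ht'
    rw [dist_eq_norm, Real.coe_toNNReal C hC, Real.dist_eq] at h2
    exact h2

theorem norm_le_K17 (Γ : Geom E) {x u : E} (hx : x ∈ Γ.B) (hu : Γ.G x u u = 1) : ‖u‖ ≤ Γ.K := by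
  have h1 := Γ.lower x hx u
  rw [hu, mul_one] at h1
  have h2 := Γ.one_le
  have h3 : ‖u‖ ^ 2 ≤ Γ.K ^ 2 := by nlinarith
  exact le_of_sq_le_sq h3 (by linarith)

theorem dir_lip17 {w u v : E} (hw : ‖w‖ = 1) {c₀ K : ℝ} (hc₀ : 0 < c₀) (hv : ‖v‖ ≤ K)
    (h1 : c₀ ≤ (inner ℝ w u : ℝ)) (h2 : c₀ ≤ (inner ℝ w v : ℝ)) :
    ‖(inner ℝ w u : ℝ)⁻¹ • u - (inner ℝ w v : ℝ)⁻¹ • v‖ ≤ (1 / c₀ + K / c₀ ^ 2) * ‖u - v‖ := by
  have e1 : (inner ℝ w u : ℝ)⁻¹ • u - (inner ℝ w v : ℝ)⁻¹ • v =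
      (inner ℝ w u : ℝ)⁻¹ • (u - v) + ((inner ℝ w u : ℝ)⁻¹ - (inner ℝ w v : ℝ)⁻¹) • v := by
    rw [smul_sub, sub_smul]; abel
  have e2 : |(inner ℝ w u : ℝ) - inner ℝ w v| ≤ ‖u - v‖ := by
    rw [← inner_sub_right]
    calc |(inner ℝ w (u - v) : ℝ)| ≤ ‖w‖ * ‖u - v‖ := abs_real_inner_le_norm _ _
      _ = ‖u - v‖ := by rw [hw, one_mul]
  set p : ℝ := inner ℝ w u with hp
  set q : ℝ := inner ℝ w v with hq
  have hp0 : 0 < p := by linarith
  have hq0 : 0 < q := by linarith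
  have e3 : |p⁻¹ - q⁻¹| ≤ ‖u - v‖ / c₀ ^ 2 := by
    have : p⁻¹ - q⁻¹ = (q - p) / (p * q) := by field_simp
    rw [this, abs_div, abs_of_pos (mul_pos hp0 hq0), abs_sub_comm]
    apply div_le_div₀ (norm_nonneg _) e2 (by positivity)
    nlinarith
  have e4 : p⁻¹ ≤ 1 / c₀ := by
    rw [one_div]; exact inv_anti₀ hc₀ h1
  have hK : 0 ≤ K := (norm_nonneg v).trans hv
  rw [e1]
  calc ‖p⁻¹ • (u - v) + (p⁻¹ - q⁻¹) • v‖ ≤ ‖p⁻¹ • (u - v)‖ + ‖(p⁻¹ - q⁻¹) • v‖ := norm_add_le _ _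
    _ = p⁻¹ * ‖u - v‖ + |p⁻¹ - q⁻¹| * ‖v‖ := by
        rw [norm_smul, norm_smul, Real.norm_eq_abs, Real.norm_eq_abs, abs_of_pos (inv_pos.2 hp0)]
    _ ≤ 1 / c₀ * ‖u - v‖ + ‖u - v‖ / c₀ ^ 2 * K := by
        apply add_le_add
        · exact mul_le_mul_of_nonneg_right e4 (norm_nonneg _)
        · exact mul_le_mul e3 hv (norm_nonneg _) (by positivity)
    _ = (1 / c₀ + K / c₀ ^ 2) * ‖u - v‖ := by ring

/-- the gauge function varies slowly -/
theorem gauge_lip (Γ : Geom E) (w o : E) (hw : ‖w‖ = 1) {R c₀ : ℝ} (hR : 0 < R) (hc₀ : 0 < c₀) :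
    ∃ C : ℝ, 0 < C ∧ (∀ (a b : ℝ) (x u : ℝ → E), Ptc Γ (innerSL ℝ w) c₀ a b x u →
      ∀ t ∈ Set.Icc a b, ∀ t' ∈ Set.Icc a b,
        |gauge w o R (x t) (u t) - gauge w o R (x t') (u t')| ≤ C * |t - t'|) ∧
      ∀ x u v : E, ‖u‖ ≤ Γ.K → ‖v‖ ≤ Γ.K → c₀ ≤ (inner ℝ w u : ℝ) → c₀ ≤ (inner ℝ w v : ℝ) →
        |gauge w o R x u - gauge w o R x v| ≤ C * ‖u - v‖ := by
  have hK := Γ.one_le
  have hK0 : 0 < Γ.K := by linarith
  set L : ℝ := 1 / c₀ + Γ.K / c₀ ^ 2 with hL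
  set C1 : ℝ := Γ.K / c₀ with hC1
  have hL0 : 0 < L := by positivity
  have hC10 : 0 < C1 := by positivity
  have hdir : ∀ u v : E, ‖v‖ ≤ Γ.K → c₀ ≤ (inner ℝ w u : ℝ) → c₀ ≤ (inner ℝ w v : ℝ) →
      |‖(inner ℝ w u : ℝ)⁻¹ • u - w‖ - ‖(inner ℝ w v : ℝ)⁻¹ • v - w‖| ≤ L * ‖u - v‖ := by
    intro u v hv h1 h2
    refine (abs_norm_sub_norm_le _ _).trans ?_
    rw [sub_sub_sub_cancel_right]
    exact dir_lip17 hw hc₀ hv h1 h2
  refine ⟨L * C1 + C1 / R + L, by positivity, ?_, ?_⟩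
  · intro a b x u P t ht t' ht'
    have hnu : ∀ s ∈ Set.Icc a b, ‖u s‖ ≤ Γ.K := fun s hs => norm_le_K17 Γ (P.mem s hs) (P.unit s hs)
    have hinv : ∀ s ∈ Set.Icc a b, |((innerSL ℝ w) (u s))⁻¹| ≤ 1 / c₀ := by
      intro s hs
      have h := P.up s hs
      rw [abs_of_pos (inv_pos.2 (by linarith)), one_div]
      exact inv_anti₀ hc₀ h
    have hx : ‖x t - x t'‖ ≤ C1 * |t - t'| := by
      refine lip_aux17 hC10.le P.xc P.xd (fun s hs => ?_) t ht t' ht'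
      have hs' := Set.Ioo_subset_Icc_self hs
      rw [norm_smul, Real.norm_eq_abs]
      calc |((innerSL ℝ w) (u s))⁻¹| * ‖u s‖ ≤ 1 / c₀ * Γ.K :=
            mul_le_mul (hinv s hs') (hnu s hs') (norm_nonneg _) (by positivity)
        _ = C1 := by rw [hC1]; ring
    have hu : ‖u t - u t'‖ ≤ C1 * |t - t'| := by
      refine lip_aux17 hC10.le P.uc P.ud (fun s hs => ?_) t ht t' ht'
      have hs' := Set.Ioo_subset_Icc_self hs
      rw [norm_smul, Real.norm_eq_abs]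
      calc |((innerSL ℝ w) (u s))⁻¹| * ‖Γ.A (x s) (u s)‖ ≤ 1 / c₀ * Γ.K :=
            mul_le_mul (hinv s hs') (Γ.A_le _ (P.mem s hs') _ (hnu s hs')) (norm_nonneg _)
              (by positivity)
        _ = C1 := by rw [hC1]; ring
    have hup : ∀ s ∈ Set.Icc a b, c₀ ≤ (inner ℝ w (u s) : ℝ) := fun s hs => P.up s hs
    unfold gauge
    refine (abs_max_sub_max_le_max _ _ _ _).trans (max_le ?_ ?_)
    · refine (hdir _ _ (hnu t' ht') (hup t ht) (hup t' ht')).trans ?_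
      calc L * ‖u t - u t'‖ ≤ L * (C1 * |t - t'|) := mul_le_mul_of_nonneg_left hu hL0.le
        _ = (L * C1) * |t - t'| := by ring
        _ ≤ (L * C1 + C1 / R + L) * |t - t'| := by
            apply mul_le_mul_of_nonneg_right _ (abs_nonneg _)
            have : 0 < C1 / R := by positivity
            linarith
    · rw [← sub_div, abs_div, abs_of_pos hR]
      have h3 : |‖x t - o‖ - ‖x t' - o‖| ≤ ‖x t - x t'‖ := by
        refine (abs_norm_sub_norm_le _ _).trans ?_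
        rw [sub_sub_sub_cancel_right]
      calc |‖x t - o‖ - ‖x t' - o‖| / R ≤ (C1 * |t - t'|) / R :=
            div_le_div_of_nonneg_right (h3.trans hx) hR.le
        _ = (C1 / R) * |t - t'| := by ring
        _ ≤ (L * C1 + C1 / R + L) * |t - t'| := by
            apply mul_le_mul_of_nonneg_right _ (abs_nonneg _)
            have : 0 < L * C1 := by positivity
            linarith
  · intro x u v _ hv h1 h2
    unfold gauge
    refine (abs_max_sub_max_le_abs _ _ _).trans ((hdir u v hv h1 h2).trans ?_)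
    apply mul_le_mul_of_nonneg_right _ (norm_nonneg _)
    have h4 : 0 < C1 / R := by positivity
    have h5 : 0 < L * C1 := by positivity
    linarith

end Pool.Agent.GNet
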