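import Mathlib
import Pool.Agent.Helper971.BK.DGeo

set_option autoImplicit false

open Finset Classical MeasureTheory

namespace Pool.Agent.GNet

variable {E : Type*} [NormedAddCommGroup E] [InnerProductSpace ℝ E]

/-! ### auxiliary lemmas for `vertex_structure` -/

theorem wsq_nonneg_U4 (u v : E) : 0 ≤ wsq u v := by
  unfold wsq
  have h := real_inner_mul_inner_self_le u v
  nlinarith

theorem wsq_le_jj_U4 (u v : E) : wsq u v ≤ jj u v := by
  unfold jj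
  split_ifs
  · linarith [Real.sqrt_nonneg (wsq u v)]
  · linarith

theorem jj_nonneg_U4 (u v : E) : 0 ≤ jj u v := (wsq_nonneg_U4 u v).trans (wsq_le_jj_U4 u v)

theorem key_pair_pos_U4 (Γ : Geom E) {z u v : E} (hz : z ∈ Γ.B) (hu : Γ.G z u u = 1)
    (hv : Γ.G z v v = 1) (hw : wsq u v ≤ 1) (hp : 0 ≤ (inner ℝ u v : ℝ)) :
    ‖u - v‖ ≤ 4 * Γ.K ^ 5 * Real.sqrt (wsq u v) := by
  have hK := Γ.one_le
  set K := Γ.K with hKdef
  set s := Real.sqrt (wsq u v) with hs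
  have hs0 : 0 ≤ s := Real.sqrt_nonneg _
  have hs2 : s ^ 2 = wsq u v := Real.sq_sqrt (wsq_nonneg_U4 u v)
  have hs1 : s ≤ 1 := by
    rw [hs]
    exact Real.sqrt_le_one.mpr hw
  have hn1 : 1 ≤ K * ‖v‖ ^ 2 := by
    have h := Γ.upper z hz v v
    rw [hv, abs_one] at h
    nlinarith
  have hn2 : ‖v‖ ^ 2 ≤ K := by
    have h := Γ.lower z hz v
    rw [hv] at h
    linarith
  have hm1 : 1 ≤ K * ‖u‖ ^ 2 := by
    have h := Γ.upper z hz u u
    rw [hu, abs_one] at h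
    nlinarith
  have hm2 : ‖u‖ ^ 2 ≤ K := by
    have h := Γ.lower z hz u
    rw [hu] at h
    linarith
  have hvn : 0 ≤ ‖v‖ := norm_nonneg v
  have hun : 0 ≤ ‖u‖ := norm_nonneg u
  have hv0 : 0 < ‖v‖ ^ 2 := by
    by_contra hcon
    have : ‖v‖ ^ 2 = 0 := le_antisymm (not_lt.mp hcon) (sq_nonneg _)
    rw [this] at hn1
    linarith
  have hvK : ‖v‖ ≤ K := by
    nlinarith
  have huK : ‖u‖ ≤ K := by
    nlinarith
  set ρ : ℝ := (inner ℝ u v : ℝ) / ‖v‖ ^ 2 with hρ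
  have hρ0 : 0 ≤ ρ := div_nonneg hp hv0.le
  have hρn : ρ * ‖v‖ ^ 2 = inner ℝ u v := div_mul_cancel₀ _ hv0.ne'
  set e : E := u - ρ • v with he
  have hue : u = ρ • v + e := by rw [he]; abel
  have hee : ‖e‖ ^ 2 * ‖v‖ ^ 2 = wsq u v := by
    have h1 : ‖e‖ ^ 2 = ‖u‖ ^ 2 - 2 * (ρ * inner ℝ u v) + ρ ^ 2 * ‖v‖ ^ 2 := by
      rw [he, norm_sub_sq_real, inner_smul_right, norm_smul, mul_pow, Real.norm_eq_abs, sq_abs]
    rw [h1]
    unfold wsq
    rw [real_inner_self_eq_norm_sq, real_inner_self_eq_norm_sq, ← hρn]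
    ring
  have heK : ‖e‖ ≤ K * s := by
    have h1 : ‖e‖ ^ 2 ≤ (K * s) ^ 2 := by
      have : ‖e‖ ^ 2 * 1 ≤ ‖e‖ ^ 2 * (K * ‖v‖ ^ 2) := mul_le_mul_of_nonneg_left hn1 (sq_nonneg _)
      have h2 : ‖e‖ ^ 2 ≤ K * s ^ 2 := by
        rw [hs2, ← hee]
        nlinarith
      have h3 : K * s ^ 2 ≤ K ^ 2 * s ^ 2 := by
        apply mul_le_mul_of_nonneg_right _ (sq_nonneg _)
        nlinarith
      nlinarith
    exact (pow_le_pow_iff_left₀ (norm_nonneg e) (by positivity) two_ne_zero).mp h1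
  have hρK : ρ ≤ K ^ 2 := by
    have h1 : ρ * ‖v‖ ^ 2 ≤ ‖u‖ * ‖v‖ := by rw [hρn]; exact real_inner_le_norm u v
    have h2 : ρ * ‖v‖ ≤ ‖u‖ := by
      have hvp : 0 < ‖v‖ := by
        rcases hvn.lt_or_eq with h | h
        · exact h
        · rw [← h] at hv0; norm_num at hv0
      have : ρ * ‖v‖ * ‖v‖ ≤ ‖u‖ * ‖v‖ := by nlinarith
      exact le_of_mul_le_mul_right this hvp
    have h3 : ρ * (K * ‖v‖ ^ 2) ≤ K * (‖u‖ * ‖v‖) := by nlinarith
    have h4 : ρ * 1 ≤ ρ * (K * ‖v‖ ^ 2) := mul_le_mul_of_nonneg_left hn1 hρ0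
    have h5 : ‖u‖ * ‖v‖ ≤ K := by nlinarith [sq_nonneg (‖u‖ - ‖v‖)]
    nlinarith
  have hexp : (1 : ℝ) = ρ ^ 2 + 2 * ρ * Γ.G z v e + Γ.G z e e := by
    rw [← hu]
    nth_rewrite 1 2 [hue]
    simp only [map_add, map_smul, add_apply, smul_apply, smul_eq_mul]
    rw [Γ.symm z hz e v, hv]
    ring
  have hG1 : |Γ.G z v e| ≤ K ^ 3 * s := by
    refine (Γ.upper z hz v e).trans ?_
    calc K * ‖v‖ * ‖e‖ ≤ K * K * (K * s) := by gcongr
      _ = K ^ 3 * s := by ring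
  have hG2 : |Γ.G z e e| ≤ K ^ 3 * s := by
    refine (Γ.upper z hz e e).trans ?_
    calc K * ‖e‖ * ‖e‖ ≤ K * (K * s) * (K * s) := by gcongr
      _ = K ^ 3 * (s * s) := by ring
      _ ≤ K ^ 3 * s := by
        apply mul_le_mul_of_nonneg_left _ (by positivity)
        nlinarith
  have hab : |ρ - 1| * (ρ + 1) ≤ 2 * ρ * (K ^ 3 * s) + K ^ 3 * s := by
    have h1 : |ρ - 1| * (ρ + 1) = |ρ ^ 2 - 1| := by
      have h0 : ρ ^ 2 - 1 = (ρ - 1) * (ρ + 1) := by ring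
      rw [h0, abs_mul, abs_of_nonneg (show 0 ≤ ρ + 1 by linarith)]
    rw [h1]
    have h2 : ρ ^ 2 - 1 = - (2 * ρ * Γ.G z v e + Γ.G z e e) := by linarith
    rw [h2, abs_neg]
    refine (abs_add_le _ _).trans ?_
    rw [abs_mul, abs_of_nonneg (show 0 ≤ 2 * ρ by linarith)]
    gcongr
  have hab2 : |ρ - 1| ≤ 3 * K ^ 3 * s := by
    -- divide by `ρ + 1`
    have h1 : |ρ - 1| * (ρ + 1) ≤ (3 * K ^ 3 * s) * (ρ + 1) := by
      have : 0 ≤ K ^ 3 * s := by positivity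
      nlinarith
    exact le_of_mul_le_mul_right h1 (by linarith)
  have hfin : u - v = (ρ - 1) • v + e := by
    rw [he]; module
  rw [hfin]
  refine (norm_add_le _ _).trans ?_
  rw [norm_smul, Real.norm_eq_abs]
  calc |ρ - 1| * ‖v‖ + ‖e‖ ≤ (3 * K ^ 3 * s) * K + K * s := by gcongr
    _ = 3 * K ^ 4 * s + K * s := by ring
    _ ≤ 3 * K ^ 5 * s + K ^ 5 * s := by
      have h1 : K ^ 4 ≤ K ^ 5 := pow_le_pow_right₀ hK (by norm_num)
      have h2 : K ≤ K ^ 5 := le_self_pow₀ hK (by norm_num)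
      have h3 : 3 * K ^ 4 ≤ 3 * K ^ 5 := by linarith
      have h4 := mul_le_mul_of_nonneg_right h3 hs0
      have h5 := mul_le_mul_of_nonneg_right h2 hs0
      linarith
    _ = 4 * K ^ 5 * s := by ring

theorem wsq_neg_U4 (u v : E) : wsq u (-v) = wsq u v := by
  unfold wsq
  simp [inner_neg_left, inner_neg_right]

theorem key_pair_neg_U4 (Γ : Geom E) {z u v : E} (hz : z ∈ Γ.B) (hu : Γ.G z u u = 1)
    (hv : Γ.G z v v = 1) (hw : wsq u v ≤ 1) (hp : (inner ℝ u v : ℝ) ≤ 0) :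
    ‖u + v‖ ≤ 4 * Γ.K ^ 5 * Real.sqrt (wsq u v) := by
  have h := key_pair_pos_U4 Γ (v := -v) hz hu (by simpa using hv) (by rwa [wsq_neg_U4])
    (by rw [inner_neg_right]; linarith)
  rwa [wsq_neg_U4, sub_neg_eq_add] at h



/-- structure of a balanced vertex with small angle weight -/
theorem vertex_structure (Γ : Geom E) (w : E) (hw : ‖w‖ = 1) (M : ℕ) :
    ∃ ε C : ℝ, 0 < ε ∧ 0 < C ∧ ∀ (ι : Type) [Fintype ι] (z : E) (u : ι → E), z ∈ Γ.B →
      (∀ i, Γ.G z (u i) (u i) = 1) → ∑ i, u i = 0 → ∑ i, ∑ j, jj (u i) (u j) ≤ ε →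
      #(univ.filter fun i => 1 / (5 * Γ.K) ≤ (inner ℝ w (u i) : ℝ)) ≤ M →
      #(univ.filter fun i => (inner ℝ w (u i) : ℝ) ≤ - (1 / (5 * Γ.K))) ≤ M →
      (∃ i, 1 / (4 * Γ.K) ≤ |(inner ℝ w (u i) : ℝ)|) →
      (∀ i, 1 / (5 * Γ.K) ≤ |(inner ℝ w (u i) : ℝ)|) ∧
      #(univ.filter fun i => 0 < (inner ℝ w (u i) : ℝ)) =
        #(univ.filter fun i => (inner ℝ w (u i) : ℝ) < 0) ∧
      (∀ i j, 0 < (inner ℝ w (u i) : ℝ) → 0 < (inner ℝ w (u j) : ℝ) →
        ‖u i - u j‖ ≤ C * ∑ i, ∑ j, jj (u i) (u j)) ∧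
      (∀ i j, 0 < (inner ℝ w (u i) : ℝ) → (inner ℝ w (u j) : ℝ) < 0 →
        ‖u i + u j‖ ≤ C * ∑ i, ∑ j, jj (u i) (u j)) ∧
      (∀ i j, (inner ℝ w (u i) : ℝ) < 0 → (inner ℝ w (u j) : ℝ) < 0 →
        ‖u i - u j‖ ≤ C * ∑ i, ∑ j, jj (u i) (u j)) := by
  have hK := Γ.one_le
  set K := Γ.K with hKdef
  set C₁ : ℝ := 4 * K ^ 5 with hC₁
  have hC₁4 : 4 ≤ C₁ := by
    have : (1 : ℝ) ≤ K ^ 5 := one_le_pow₀ hK
    linarith
  have hC₁0 : 0 < C₁ := by linarith
  set δ : ℝ := 1 / (20 * K * (M + 1)) with hδ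
  have hM0 : (0 : ℝ) ≤ M := Nat.cast_nonneg M
  have hδ0 : 0 < δ := by positivity
  have hδeq : δ * (20 * K * (M + 1)) = 1 := by
    rw [hδ]; field_simp
  have hδK : δ * (20 * K) ≤ 1 := by
    have : 0 ≤ δ * (20 * K) * M := by positivity
    nlinarith
  have hδM : 2 * M * δ * (10 * K) ≤ 1 := by
    have : 0 ≤ δ * (20 * K) := by positivity
    nlinarith
  have hδ1 : δ ≤ 1 := by nlinarith
  refine ⟨(δ / C₁) ^ 2, 2 * C₁, by positivity, by positivity, ?_⟩
  intro ι _ z u hz hunit hsum hJ hcu hcd hex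
  set J : ℝ := ∑ i, ∑ j, jj (u i) (u j) with hJdef
  -- each pair
  have hpair : ∀ i j, jj (u i) (u j) ≤ J := by
    intro i j
    calc jj (u i) (u j) ≤ ∑ j, jj (u i) (u j) :=
          Finset.single_le_sum (f := fun j => jj (u i) (u j))
            (fun j _ => jj_nonneg_U4 _ _) (Finset.mem_univ j)
      _ ≤ J := Finset.single_le_sum (f := fun i => ∑ j, jj (u i) (u j))
            (fun i _ => Finset.sum_nonneg fun j _ => jj_nonneg_U4 _ _) (Finset.mem_univ i)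
  have hε1 : (δ / C₁) ^ 2 ≤ 1 := by
    have h1 : δ / C₁ ≤ 1 := by
      rw [div_le_one hC₁0]; linarith
    have h0 : 0 ≤ δ / C₁ := by positivity
    exact pow_le_one₀ h0 h1
  -- the reference direction
  obtain ⟨v, hv, hwv, hwsq⟩ : ∃ v : E, Γ.G z v v = 1 ∧ 1 / (4 * K) ≤ (inner ℝ w v : ℝ) ∧
      ∀ i, wsq (u i) v ≤ (δ / C₁) ^ 2 := by
    obtain ⟨i₀, hi₀⟩ := hex
    rcases le_abs.mp hi₀ with h | h
    · exact ⟨u i₀, hunit i₀, h, fun i => ((wsq_le_jj_U4 _ _).trans (hpair i i₀)).trans hJ⟩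
    · refine ⟨- u i₀, by simpa using hunit i₀, by rwa [inner_neg_right], fun i => ?_⟩
      rw [wsq_neg_U4]
      exact ((wsq_le_jj_U4 _ _).trans (hpair i i₀)).trans hJ
  set α : ℝ := inner ℝ w v with hα
  have hαK : 1 ≤ α * (4 * K) := by
    rwa [div_le_iff₀ (by positivity)] at hwv
  have hsq : ∀ i, C₁ * Real.sqrt (wsq (u i) v) ≤ δ := by
    intro i
    have h1 : Real.sqrt (wsq (u i) v) ≤ δ / C₁ := by
      rw [← Real.sqrt_sq (show 0 ≤ δ / C₁ by positivity)]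
      exact Real.sqrt_le_sqrt (hwsq i)
    calc C₁ * Real.sqrt (wsq (u i) v) ≤ C₁ * (δ / C₁) := by gcongr
      _ = δ := by field_simp
  have hnear : ∀ i, ‖u i - v‖ ≤ δ ∨ ‖u i + v‖ ≤ δ := by
    intro i
    rcases le_total 0 (inner ℝ (u i) v : ℝ) with h | h
    · left
      exact (key_pair_pos_U4 Γ hz (hunit i) hv ((hwsq i).trans hε1) h).trans (hsq i)
    · right
      exact (key_pair_neg_U4 Γ hz (hunit i) hv ((hwsq i).trans hε1) h).trans (hsq i)
  -- closeness of the scalar products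
  have hinn : ∀ x : E, ‖x‖ ≤ δ → |(inner ℝ w x : ℝ)| ≤ δ := by
    intro x hx
    refine (abs_real_inner_le_norm w x).trans ?_
    rw [hw, one_mul]
    exact hx
  have hp : ∀ i, ‖u i - v‖ ≤ δ → |(inner ℝ w (u i) : ℝ) - α| ≤ δ := by
    intro i hi
    have := hinn _ hi
    rwa [inner_sub_right] at this
  have hq : ∀ i, ‖u i + v‖ ≤ δ → |(inner ℝ w (u i) : ℝ) + α| ≤ δ := by
    intro i hi
    have := hinn _ hi
    rwa [inner_add_right] at this
  have h5 : (1 / (5 * K) : ℝ) ≤ α - δ := by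
    rw [div_le_iff₀ (by positivity)]
    nlinarith
  have h5p : (0 : ℝ) < 1 / (5 * K) := by positivity
  have hup : ∀ i, ‖u i - v‖ ≤ δ → 1 / (5 * K) ≤ (inner ℝ w (u i) : ℝ) := by
    intro i hi
    have := abs_le.mp (hp i hi)
    linarith [this.1]
  have hdn : ∀ i, ‖u i + v‖ ≤ δ → (inner ℝ w (u i) : ℝ) ≤ - (1 / (5 * K)) := by
    intro i hi
    have := abs_le.mp (hq i hi)
    linarith [this.2]
  have hup' : ∀ i, 0 < (inner ℝ w (u i) : ℝ) → ‖u i - v‖ ≤ δ := by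
    intro i hi
    rcases hnear i with h | h
    · exact h
    · exact absurd (hdn i h) (by linarith)
  have hdn' : ∀ i, (inner ℝ w (u i) : ℝ) < 0 → ‖u i + v‖ ≤ δ := by
    intro i hi
    rcases hnear i with h | h
    · exact absurd (hup i h) (by linarith)
    · exact h
  have hfirst : ∀ i, 1 / (5 * K) ≤ |(inner ℝ w (u i) : ℝ)| := by
    intro i
    rcases hnear i with h | h
    · exact (hup i h).trans (le_abs_self _)
    · exact le_abs.mpr (Or.inr (by linarith [hdn i h]))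
  -- the sets
  set P : Finset ι := univ.filter fun i => 0 < (inner ℝ w (u i) : ℝ) with hP
  set Q : Finset ι := univ.filter fun i => (inner ℝ w (u i) : ℝ) < 0 with hQ
  have hPM : #P ≤ M := by
    refine le_trans (card_le_card ?_) hcu
    intro i hi
    rw [hP, mem_filter] at hi
    rw [mem_filter]
    exact ⟨mem_univ _, hup i (hup' i hi.2)⟩
  have hQM : #Q ≤ M := by
    refine le_trans (card_le_card ?_) hcd
    intro i hi
    rw [hQ, mem_filter] at hi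
    rw [mem_filter]
    exact ⟨mem_univ _, hdn i (hdn' i hi.2)⟩
  have hdisj : Disjoint P Q := by
    rw [Finset.disjoint_left]
    intro i hi hi'
    rw [hP, mem_filter] at hi
    rw [hQ, mem_filter] at hi'
    linarith [hi.2, hi'.2]
  have hunion : P ∪ Q = univ := by
    ext i
    simp only [mem_union, mem_univ, iff_true, hP, hQ, mem_filter, true_and]
    rcases hnear i with h | h
    · left; linarith [hup i h]
    · right; linarith [hdn i h]
  have hsplit : ∑ i ∈ P, u i + ∑ i ∈ Q, u i = 0 := by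
    rw [← sum_union hdisj, hunion, hsum]
  have hcard : #P = #Q := by
    have h1 : (0 : ℝ) = ∑ i ∈ P, (inner ℝ w (u i) : ℝ) + ∑ i ∈ Q, (inner ℝ w (u i) : ℝ) := by
      rw [← inner_sum, ← inner_sum, ← inner_add_right, hsplit, inner_zero_right]
    have h2 : |∑ i ∈ P, ((inner ℝ w (u i) : ℝ) - α)| ≤ #P * δ := by
      refine (abs_sum_le_sum_abs _ _).trans ?_
      rw [← nsmul_eq_mul]
      refine sum_le_card_nsmul _ _ _ fun i hi => ?_
      rw [hP, mem_filter] at hi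
      exact hp i (hup' i hi.2)
    have h3 : |∑ i ∈ Q, ((inner ℝ w (u i) : ℝ) + α)| ≤ #Q * δ := by
      refine (abs_sum_le_sum_abs _ _).trans ?_
      rw [← nsmul_eq_mul]
      refine sum_le_card_nsmul _ _ _ fun i hi => ?_
      rw [hQ, mem_filter] at hi
      exact hq i (hdn' i hi.2)
    rw [sum_sub_distrib, sum_const, nsmul_eq_mul] at h2
    rw [sum_add_distrib, sum_const, nsmul_eq_mul] at h3
    have hPM' : (#P : ℝ) ≤ M := by exact_mod_cast hPM
    have hQM' : (#Q : ℝ) ≤ M := by exact_mod_cast hQM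
    have h2' := abs_le.mp h2
    have h3' := abs_le.mp h3
    have h4 : (#P : ℝ) * δ ≤ M * δ := mul_le_mul_of_nonneg_right hPM' hδ0.le
    have h6 : (#Q : ℝ) * δ ≤ M * δ := mul_le_mul_of_nonneg_right hQM' hδ0.le
    have hαpos : 2 * M * δ < α := by
      by_contra hcon
      push Not at hcon
      nlinarith
    by_contra hne
    rcases lt_or_gt_of_ne hne with hlt | hlt
    · have : (#P : ℝ) + 1 ≤ #Q := by exact_mod_cast hlt
      have : ((#P : ℝ) + 1) * α ≤ #Q * α := mul_le_mul_of_nonneg_right this (by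
        have : 0 ≤ 2 * M * δ := by positivity
        linarith)
      linarith [h2'.1, h2'.2, h3'.1, h3'.2]
    · have : (#Q : ℝ) + 1 ≤ #P := by exact_mod_cast hlt
      have : ((#Q : ℝ) + 1) * α ≤ #P * α := mul_le_mul_of_nonneg_right this (by
        have : 0 ≤ 2 * M * δ := by positivity
        linarith)
      linarith [h2'.1, h2'.2, h3'.1, h3'.2]
  -- same side pairs
  have hvn : 20 * δ ≤ ‖v‖ := by
    have h1 : 1 ≤ K * ‖v‖ ^ 2 := by
      have h := Γ.upper z hz v v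
      rw [hv, abs_one] at h
      nlinarith
    by_contra hcon
    push Not at hcon
    have h2 : ‖v‖ * K < 1 := by nlinarith
    have h3 : ‖v‖ * K * ‖v‖ ≤ 1 * ‖v‖ := mul_le_mul_of_nonneg_right h2.le (norm_nonneg v)
    have h4 : 1 ≤ ‖v‖ := by nlinarith
    have h6 : ‖v‖ * 1 ≤ ‖v‖ * K := mul_le_mul_of_nonneg_left hK (norm_nonneg v)
    linarith
  have hsame : ∀ x y t : E, ‖x - t‖ ≤ δ → ‖y - t‖ ≤ δ → 20 * δ ≤ ‖t‖ →
      0 < (inner ℝ x y : ℝ) := by
    intro x y t hx hy ht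
    have h1 : (inner ℝ x y : ℝ) = inner ℝ (x - t) (y - t) + inner ℝ (x - t) t +
        inner ℝ t (y - t) + inner ℝ t t := by
      simp only [inner_sub_left, inner_sub_right]
      ring
    have h2 := abs_le.mp (abs_real_inner_le_norm (x - t) (y - t))
    have h3 := abs_le.mp (abs_real_inner_le_norm (x - t) t)
    have h4 := abs_le.mp (abs_real_inner_le_norm t (y - t))
    have h6 : ‖x - t‖ * ‖y - t‖ ≤ δ * δ := by gcongr
    have h7 : ‖x - t‖ * ‖t‖ ≤ δ * ‖t‖ := by gcongr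
    have h8 : ‖t‖ * ‖y - t‖ ≤ ‖t‖ * δ := by gcongr
    rw [h1, real_inner_self_eq_norm_sq]
    nlinarith [norm_nonneg t]
  have hpairb : ∀ i j, 0 < (inner ℝ (u i) (u j) : ℝ) → ‖u i - u j‖ ≤ C₁ * J := by
    intro i j hij
    have h1 : wsq (u i) (u j) ≤ 1 :=
      (((wsq_le_jj_U4 _ _).trans (hpair i j)).trans hJ).trans hε1
    have h2 := key_pair_pos_U4 Γ hz (hunit i) (hunit j) h1 hij.le
    refine h2.trans ?_
    have h3 : Real.sqrt (wsq (u i) (u j)) ≤ J := by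
      refine le_trans ?_ (hpair i j)
      unfold jj
      rw [if_pos hij]
      linarith [wsq_nonneg_U4 (u i) (u j)]
    gcongr
  have hPP : ∀ i j, 0 < (inner ℝ w (u i) : ℝ) → 0 < (inner ℝ w (u j) : ℝ) →
      ‖u i - u j‖ ≤ C₁ * J := fun i j hi hj =>
    hpairb i j (hsame _ _ v (hup' i hi) (hup' j hj) hvn)
  have hQQ : ∀ i j, (inner ℝ w (u i) : ℝ) < 0 → (inner ℝ w (u j) : ℝ) < 0 →
      ‖u i - u j‖ ≤ C₁ * J := by
    intro i j hi hj
    refine hpairb i j (hsame _ _ (-v) ?_ ?_ (by rwa [norm_neg]))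
    · rw [sub_neg_eq_add]; exact hdn' i hi
    · rw [sub_neg_eq_add]; exact hdn' j hj
  have hJ0 : 0 ≤ J := Finset.sum_nonneg fun i _ => Finset.sum_nonneg fun j _ => jj_nonneg_U4 _ _
  refine ⟨hfirst, hcard, fun i j hi hj => ?_, fun i j hi hj => ?_, fun i j hi hj => ?_⟩
  · have := hPP i j hi hj
    have h2 : 0 ≤ C₁ * J := by positivity
    linarith
  · have hiP : i ∈ P := by rw [hP, mem_filter]; exact ⟨mem_univ _, hi⟩
    have hP1 : (1 : ℝ) ≤ #P := by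
      have : 0 < #P := card_pos.mpr ⟨i, hiP⟩
      exact_mod_cast this
    have h1 : (#P : ℝ) • (u i + u j) = ∑ k ∈ P, (u i - u k) + ∑ k ∈ Q, (u j - u k) := by
      rw [sum_sub_distrib, sum_sub_distrib, sum_const, sum_const, ← hcard]
      have h2 : ∑ k ∈ Q, u k = - ∑ k ∈ P, u k := by
        rw [eq_neg_iff_add_eq_zero, add_comm]; exact hsplit
      rw [h2, ← Nat.cast_smul_eq_nsmul ℝ, ← Nat.cast_smul_eq_nsmul ℝ]
      module
    have h2 : ‖∑ k ∈ P, (u i - u k)‖ ≤ #P * (C₁ * J) := by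
      refine (norm_sum_le _ _).trans ?_
      rw [← nsmul_eq_mul]
      refine sum_le_card_nsmul _ _ _ fun k hk => ?_
      rw [hP, mem_filter] at hk
      exact hPP i k hi hk.2
    have h3 : ‖∑ k ∈ Q, (u j - u k)‖ ≤ #P * (C₁ * J) := by
      rw [hcard]
      refine (norm_sum_le _ _).trans ?_
      rw [← nsmul_eq_mul]
      refine sum_le_card_nsmul _ _ _ fun k hk => ?_
      rw [hQ, mem_filter] at hk
      exact hQQ j k hj hk.2
    have h4 : (#P : ℝ) * ‖u i + u j‖ ≤ #P * (2 * C₁ * J) := by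
      have : ‖(#P : ℝ) • (u i + u j)‖ = #P * ‖u i + u j‖ := by
        rw [norm_smul, Real.norm_eq_abs, abs_of_nonneg (by positivity)]
      rw [← this, h1]
      refine (norm_add_le _ _).trans ?_
      linarith
    exact le_of_mul_le_mul_left h4 (by linarith)
  · have := hQQ i j hi hj
    have h2 : 0 ≤ C₁ * J := by positivity
    linarith

end Pool.Agent.GNet
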