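import Mathlib
import Pool.Agent.Helper971.BK.DGeo
import Pool.Agent.Helper971.BK.U2
import Pool.Agent.Helper971.BK.U3
import Pool.Agent.Helper971.BK.U4

set_option autoImplicit false

open Finset Classical MeasureTheory

namespace Pool.Agent.GNet

variable {E : Type*} [NormedAddCommGroup E] [InnerProductSpace ℝ E]

/-! ### auxiliary lemmas for the target -/

theorem wsq_nonneg_u6 (u v : E) : 0 ≤ wsq u v := by
  have h := abs_real_inner_le_norm u v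
  have h2 : (inner ℝ u v : ℝ) ^ 2 ≤ (‖u‖ * ‖v‖) ^ 2 := by
    rw [← sq_abs (inner ℝ u v : ℝ)]
    exact pow_le_pow_left₀ (abs_nonneg _) h 2
  unfold wsq
  rw [real_inner_self_eq_norm_sq, real_inner_self_eq_norm_sq]
  nlinarith

theorem jj_nonneg_u6 (u v : E) : 0 ≤ jj u v := by
  unfold jj
  have h := wsq_nonneg_u6 u v
  split_ifs
  · have := Real.sqrt_nonneg (wsq u v)
    linarith
  · linarith

theorem LNet.J_nonneg_u6 {o : E} {R K : ℝ} (N : LNet E o R K) (z : E) : 0 ≤ N.J z :=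
  Finset.sum_nonneg fun _ _ => Finset.sum_nonneg fun _ _ => jj_nonneg_u6 _ _

theorem gauge_bounds (w o : E) (hw : ‖w‖ = 1) {R : ℝ} (hR : 0 < R) {z v : E} {θ : ℝ}
    (h0 : 0 < (inner ℝ w v : ℝ)) (hg : gauge w o R z v < θ) :
    ‖z - o‖ < θ * R ∧ ‖v‖ < (1 + θ) * (inner ℝ w v : ℝ) := by
  set p : ℝ := (inner ℝ w v : ℝ) with hp
  have hg1 : ‖p⁻¹ • v - w‖ < θ := lt_of_le_of_lt (le_max_left _ _) hg
  have hg0 : ‖z - o‖ / R < θ := lt_of_le_of_lt (le_max_right _ _) hg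
  refine ⟨by rwa [div_lt_iff₀ hR] at hg0, ?_⟩
  have hg2 : ‖p⁻¹ • v‖ < 1 + θ := by
    have : ‖p⁻¹ • v‖ ≤ ‖p⁻¹ • v - w‖ + ‖w‖ := by
      have := norm_add_le (p⁻¹ • v - w) w
      simpa using this
    linarith
  rw [norm_smul, norm_inv, Real.norm_of_nonneg h0.le, inv_mul_eq_div, div_lt_iff₀ h0] at hg2
  exact hg2

theorem Track.mem_verts {Γ : Geom E} {ℓ : E →L[ℝ] ℝ} {c a b κ : ℝ}
    (τ : Track Γ ℓ c a b κ) {z : E} (d e : τ.D) (q1 : a < τ.s1 d) (q2 : τ.s1 d < b)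
    (q3 : τ.h d (τ.s1 d) < 1) (hne : e ≠ d) (q4 : τ.s1 e = τ.s1 d)
    (q5 : τ.X e (τ.s1 d) = τ.X d (τ.s1 d)) (q6 : τ.X d (τ.s1 d) = z) : z ∈ τ.verts := by
  unfold Track.verts
  rw [Finset.mem_image]
  refine ⟨d, ?_, q6⟩
  rw [Finset.mem_filter]
  exact ⟨Finset.mem_univ _, q1, q2, q3, ⟨e, hne, q4, q5⟩⟩

section netaux

variable {Γ : Geom E} {o : E} {R : ℝ}

theorem GeoNet.K_pos (_N : GeoNet Γ o R) : 0 < Γ.K := by
  have := Γ.one_le
  linarith

theorem GeoNet.u_var (N : GeoNet Γ o R) {r₀ : ℝ} (d : N.D) (hlen : N.len d ≤ r₀) {s s' : ℝ}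
    (hs : s ∈ Set.Icc 0 (N.len d)) (hs' : s' ∈ Set.Icc 0 (N.len d)) :
    ‖N.u d s' - N.u d s‖ ≤ Γ.K * r₀ := by
  have h := Convex.norm_image_sub_le_of_norm_hasDerivWithin_le (f := N.u d) (f' := N.a d)
    (s := Set.Icc 0 (N.len d)) (x := s) (y := s') (C := Γ.K)
    (fun x hx => (N.hu d x hx).hasDerivWithinAt) (fun x hx => N.a_le d x hx)
    (convex_Icc _ _) hs hs'
  refine h.trans (mul_le_mul_of_nonneg_left ?_ N.K_pos.le)
  rw [Real.norm_eq_abs, abs_le]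
  constructor <;> linarith [hs.1, hs.2, hs'.1, hs'.2]

theorem GeoNet.x_var (N : GeoNet Γ o R) {r₀ : ℝ} (d : N.D) (hlen : N.len d ≤ r₀) {s s' : ℝ}
    (hs : s ∈ Set.Icc 0 (N.len d)) (hs' : s' ∈ Set.Icc 0 (N.len d)) :
    ‖N.x d s' - N.x d s‖ ≤ Γ.K * r₀ := by
  have h := Convex.norm_image_sub_le_of_norm_hasDerivWithin_le (f := N.x d) (f' := N.u d)
    (s := Set.Icc 0 (N.len d)) (x := s) (y := s') (C := Γ.K)
    (fun x hx => (N.hx d x hx).hasDerivWithinAt) (fun x hx => N.u_le d x hx)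
    (convex_Icc _ _) hs hs'
  refine h.trans (mul_le_mul_of_nonneg_left ?_ N.K_pos.le)
  rw [Real.norm_eq_abs, abs_le]
  constructor <;> linarith [hs.1, hs.2, hs'.1, hs'.2]

theorem GeoNet.inner_lt (N : GeoNet Γ o R) (w : E) (d : N.D)
    (h : ∀ s ∈ Set.Icc 0 (N.len d), 0 < (inner ℝ w (N.u d s) : ℝ)) :
    (inner ℝ w (N.x d 0) : ℝ) < (inner ℝ w (N.x d (N.len d)) : ℝ) := by
  have hl0 : 0 < N.len d := N.len_pos d
  have hder : ∀ s ∈ Set.Icc 0 (N.len d),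
      HasDerivAt (fun s => (inner ℝ w (N.x d s) : ℝ)) (inner ℝ w (N.u d s) : ℝ) s := by
    intro s hs
    have := (hasDerivAt_const s w).inner ℝ (N.hx d s hs)
    simpa using this
  obtain ⟨c, hc, hceq⟩ := exists_hasDerivAt_eq_slope (fun s => (inner ℝ w (N.x d s) : ℝ))
    (fun s => (inner ℝ w (N.u d s) : ℝ)) hl0
    (fun s hs => (hder s hs).continuousAt.continuousWithinAt)
    (fun s hs => hder s ⟨hs.1.le, hs.2.le⟩)
  have hcpos : 0 < (inner ℝ w (N.u d c) : ℝ) := h c ⟨hc.1.le, hc.2.le⟩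
  rw [hceq, sub_zero, div_pos_iff_of_pos_right hl0] at hcpos
  linarith

theorem GeoNet.inner_var (N : GeoNet Γ o R) {w : E} (hw : ‖w‖ = 1) {r₀ : ℝ} (d : N.D)
    (hlen : N.len d ≤ r₀) {s s' : ℝ} (hs : s ∈ Set.Icc 0 (N.len d))
    (hs' : s' ∈ Set.Icc 0 (N.len d)) :
    |(inner ℝ w (N.u d s') : ℝ) - inner ℝ w (N.u d s)| ≤ Γ.K * r₀ := by
  rw [← inner_sub_right]
  refine (abs_real_inner_le_norm _ _).trans ?_
  rw [hw, one_mul]
  exact N.u_var d hlen hs hs'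

theorem GeoNet.up_good (N : GeoNet Γ o R) {w : E} (hw : ‖w‖ = 1) {r₀ : ℝ}
    (h1 : Γ.K * r₀ ≤ 3 / (40 * Γ.K)) (h2 : Γ.K * r₀ < R) (d : N.D) (hlen : N.len d ≤ r₀)
    (hz : N.x d 0 ∈ Metric.ball o (4 * R)) (hu : 1 / (5 * Γ.K) ≤ (inner ℝ w (N.u d 0) : ℝ)) :
    (∀ s ∈ Set.Icc 0 (N.len d),
      1 / (8 * Γ.K) ≤ (inner ℝ w (N.u d s) : ℝ) ∧ N.x d s ∈ Metric.ball o (5 * R)) ∧
      (inner ℝ w (N.x d 0) : ℝ) < (inner ℝ w (N.x d (N.len d)) : ℝ) := by
  have hK0 := N.K_pos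
  have hl0 : 0 < N.len d := N.len_pos d
  have hmem0 : (0:ℝ) ∈ Set.Icc 0 (N.len d) := ⟨le_rfl, hl0.le⟩
  have hup : ∀ s ∈ Set.Icc 0 (N.len d), 1 / (8 * Γ.K) ≤ (inner ℝ w (N.u d s) : ℝ) := by
    intro s hs
    have h3 := (abs_le.1 (N.inner_var hw d hlen hmem0 hs)).1
    have h5 : 1 / (5 * Γ.K) = 1 / (8 * Γ.K) + 3 / (40 * Γ.K) := by
      field_simp
      norm_num
    linarith
  refine ⟨fun s hs => ⟨hup s hs, ?_⟩, N.inner_lt w d fun s hs => ?_⟩
  · rw [Metric.mem_ball, dist_eq_norm] at hz ⊢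
    have h6 := N.x_var d hlen hmem0 hs
    have h7 : ‖N.x d s - o‖ ≤ ‖N.x d s - N.x d 0‖ + ‖N.x d 0 - o‖ := by
      have := norm_add_le (N.x d s - N.x d 0) (N.x d 0 - o)
      simpa using this
    linarith
  · exact lt_of_lt_of_le (by positivity) (hup s hs)

theorem GeoNet.rev_end (N : GeoNet Γ o R) (d : N.D) :
    N.x (N.rev d) (N.len (N.rev d)) = N.x d 0 ∧ N.u (N.rev d) (N.len (N.rev d)) = - N.u d 0 := by
  rw [N.len_rev, N.x_rev, N.u_rev, sub_self]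
  exact ⟨rfl, rfl⟩

theorem GeoNet.rev_start (N : GeoNet Γ o R) (d : N.D) :
    N.x (N.rev d) 0 = N.x d (N.len d) ∧ N.u (N.rev d) 0 = - N.u d (N.len d) := by
  rw [N.x_rev, N.u_rev, sub_zero]
  exact ⟨rfl, rfl⟩

theorem GeoNet.rev_inj (N : GeoNet Γ o R) : Function.Injective N.rev := by
  intro d e h
  rw [← N.rev_rev d, h, N.rev_rev]

theorem GeoNet.down_good (N : GeoNet Γ o R) {w : E} (hw : ‖w‖ = 1) {r₀ : ℝ}
    (h1 : Γ.K * r₀ ≤ 3 / (40 * Γ.K)) (h2 : Γ.K * r₀ < R) (d : N.D) (hlen : N.len d ≤ r₀)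
    (hz : N.x d 0 ∈ Metric.ball o (4 * R)) (hu : (inner ℝ w (N.u d 0) : ℝ) ≤ - (1 / (5 * Γ.K))) :
    (∀ s ∈ Set.Icc 0 (N.len (N.rev d)),
      1 / (8 * Γ.K) ≤ (inner ℝ w (N.u (N.rev d) s) : ℝ) ∧
        N.x (N.rev d) s ∈ Metric.ball o (5 * R)) ∧
      (inner ℝ w (N.x (N.rev d) 0) : ℝ) < (inner ℝ w (N.x (N.rev d) (N.len (N.rev d))) : ℝ) := by
  have hK0 := N.K_pos
  have hl0 : 0 < N.len d := N.len_pos d
  have hmem0 : (0:ℝ) ∈ Set.Icc 0 (N.len d) := ⟨le_rfl, hl0.le⟩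
  have hup : ∀ s ∈ Set.Icc 0 (N.len (N.rev d)),
      1 / (8 * Γ.K) ≤ (inner ℝ w (N.u (N.rev d) s) : ℝ) := by
    intro s hs
    rw [N.len_rev] at hs
    have hs' : N.len d - s ∈ Set.Icc 0 (N.len d) := ⟨by linarith [hs.2], by linarith [hs.1]⟩
    rw [N.u_rev, inner_neg_right]
    have h3 := (abs_le.1 (N.inner_var hw d hlen hmem0 hs')).2
    have h5 : 1 / (5 * Γ.K) = 1 / (8 * Γ.K) + 3 / (40 * Γ.K) := by
      field_simp
      norm_num
    linarith
  refine ⟨fun s hs => ⟨hup s hs, ?_⟩, N.inner_lt w _ fun s hs => ?_⟩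
  · rw [N.len_rev] at hs
    have hs' : N.len d - s ∈ Set.Icc 0 (N.len d) := ⟨by linarith [hs.2], by linarith [hs.1]⟩
    rw [N.x_rev]
    rw [Metric.mem_ball, dist_eq_norm] at hz ⊢
    have h6 := N.x_var d hlen hmem0 hs'
    have h7 : ‖N.x d (N.len d - s) - o‖ ≤ ‖N.x d (N.len d - s) - N.x d 0‖ + ‖N.x d 0 - o‖ := by
      have := norm_add_le (N.x d (N.len d - s) - N.x d 0) (N.x d 0 - o)
      simpa using this
    linarith
  · exact lt_of_lt_of_le (by positivity) (hup s hs)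

/-- the hypothesis on the number of crossings -/
def GeoNet.Cross (N : GeoNet Γ o R) (w : E) (M : ℕ) : Prop :=
  ∀ (F : Finset N.D) (t : ℝ), (∀ d ∈ F, (∀ s ∈ Set.Icc 0 (N.len d),
        1 / (8 * Γ.K) ≤ (inner ℝ w (N.u d s) : ℝ) ∧ N.x d s ∈ Metric.ball o (5 * R)) ∧
        (inner ℝ w (N.x d 0) : ℝ) < t ∧ t < (inner ℝ w (N.x d (N.len d)) : ℝ)) → #F ≤ M

theorem exists_gt_forall_lt {α : Type} (F : Finset α) (f : α → ℝ) (t : ℝ)
    (h : ∀ i ∈ F, t < f i) : ∃ t', t < t' ∧ ∀ i ∈ F, t' < f i := by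
  rcases F.eq_empty_or_nonempty with hE | hne
  · exact ⟨t + 1, by linarith, fun i hi => by simp [hE] at hi⟩
  · obtain ⟨i, hi, hmin⟩ := Finset.exists_min_image F f hne
    refine ⟨(t + f i) / 2, by linarith [h i hi], fun j hj => ?_⟩
    linarith [hmin j hj, h i hi]

theorem GeoNet.card_up_le (N : GeoNet Γ o R) {w : E} (hw : ‖w‖ = 1) {r₀ : ℝ} {M : ℕ}
    (h1 : Γ.K * r₀ ≤ 3 / (40 * Γ.K)) (h2 : Γ.K * r₀ < R) (hlen : ∀ d, N.len d ≤ r₀)
    (hc : N.Cross w M) (z : E)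
    (hz : z ∈ Metric.ball o (4 * R)) (F : Finset N.D)
    (hF : ∀ d ∈ F, N.x d 0 = z ∧ 1 / (5 * Γ.K) ≤ (inner ℝ w (N.u d 0) : ℝ)) : #F ≤ M := by
  have hg : ∀ d ∈ F, _ := fun d hd =>
    N.up_good hw h1 h2 d (hlen d) (by rw [(hF d hd).1]; exact hz) (hF d hd).2
  obtain ⟨t, ht, ht'⟩ := exists_gt_forall_lt F (fun d => (inner ℝ w (N.x d (N.len d)) : ℝ))
    (inner ℝ w z : ℝ) (fun d hd => by
      have := (hg d hd).2
      rwa [(hF d hd).1] at this)
  refine hc F t fun d hd => ⟨(hg d hd).1, ?_, ht' d hd⟩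
  rw [(hF d hd).1]
  exact ht

theorem GeoNet.card_down_le (N : GeoNet Γ o R) {w : E} (hw : ‖w‖ = 1) {r₀ : ℝ} {M : ℕ}
    (h1 : Γ.K * r₀ ≤ 3 / (40 * Γ.K)) (h2 : Γ.K * r₀ < R) (hlen : ∀ d, N.len d ≤ r₀)
    (hc : N.Cross w M) (z : E)
    (hz : z ∈ Metric.ball o (4 * R)) (F : Finset N.D)
    (hF : ∀ d ∈ F, N.x d 0 = z ∧ (inner ℝ w (N.u d 0) : ℝ) ≤ - (1 / (5 * Γ.K))) : #F ≤ M := by
  have hg : ∀ d ∈ F, _ := fun d hd =>
    N.down_good hw h1 h2 d (hlen d) (by rw [(hF d hd).1]; exact hz) (hF d hd).2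
  obtain ⟨t, ht, ht'⟩ := exists_gt_forall_lt F (fun d => - (inner ℝ w (N.x (N.rev d) 0) : ℝ))
    (- (inner ℝ w z : ℝ)) (fun d hd => by
      have := (hg d hd).2
      rw [(N.rev_end d).1, (hF d hd).1] at this
      linarith)
  have key := hc (F.image N.rev) (-t) fun e he => by
    obtain ⟨d, hd, rfl⟩ := Finset.mem_image.1 he
    refine ⟨(hg d hd).1, ?_, ?_⟩
    · linarith [ht' d hd]
    · rw [(N.rev_end d).1, (hF d hd).1]
      linarith
  rwa [Finset.card_image_of_injective _ N.rev_inj] at key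

theorem card_subtype_filter {α : Type*} [Fintype α] (p : α → Prop) [Fintype {x // p x}]
    (q : α → Prop) :
    #(univ.filter fun i : {x // p x} => q i) = #(univ.filter fun x => p x ∧ q x) := by
  rw [← Finset.card_image_of_injective _ Subtype.val_injective]
  congr 1
  ext x
  simp only [Finset.mem_image, Finset.mem_filter, Finset.mem_univ, true_and]
  constructor
  · rintro ⟨y, hy, rfl⟩
    exact ⟨y.2, hy⟩
  · rintro ⟨hp, hq⟩
    exact ⟨⟨x, hp⟩, hq, rfl⟩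

/-- the structure of a vertex -/
theorem GeoNet.vertex (N : GeoNet Γ o R) {w : E} (hw : ‖w‖ = 1) {r₀ : ℝ} {M : ℕ} (hR : 0 < R)
    (h1 : Γ.K * r₀ ≤ 3 / (40 * Γ.K)) (h2 : Γ.K * r₀ < R) (hlen : ∀ d, N.len d ≤ r₀)
    (hc : N.Cross w M) {ε C : ℝ}
    (hV : ∀ (ι : Type) [Fintype ι] (z : E) (u : ι → E), z ∈ Γ.B →
      (∀ i, Γ.G z (u i) (u i) = 1) → ∑ i, u i = 0 → ∑ i, ∑ j, jj (u i) (u j) ≤ ε →
      #(univ.filter fun i => 1 / (5 * Γ.K) ≤ (inner ℝ w (u i) : ℝ)) ≤ M →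
      #(univ.filter fun i => (inner ℝ w (u i) : ℝ) ≤ - (1 / (5 * Γ.K))) ≤ M →
      (∃ i, 1 / (4 * Γ.K) ≤ |(inner ℝ w (u i) : ℝ)|) →
      (∀ i, 1 / (5 * Γ.K) ≤ |(inner ℝ w (u i) : ℝ)|) ∧
      #(univ.filter fun i => 0 < (inner ℝ w (u i) : ℝ)) =
        #(univ.filter fun i => (inner ℝ w (u i) : ℝ) < 0) ∧
      (∀ i j, 0 < (inner ℝ w (u i) : ℝ) → 0 < (inner ℝ w (u j) : ℝ) →
        ‖u i - u j‖ ≤ C * ∑ i, ∑ j, jj (u i) (u j)) ∧
      (∀ i j, 0 < (inner ℝ w (u i) : ℝ) → (inner ℝ w (u j) : ℝ) < 0 →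
        ‖u i + u j‖ ≤ C * ∑ i, ∑ j, jj (u i) (u j)) ∧
      (∀ i j, (inner ℝ w (u i) : ℝ) < 0 → (inner ℝ w (u j) : ℝ) < 0 →
        ‖u i - u j‖ ≤ C * ∑ i, ∑ j, jj (u i) (u j)))
    (z : E) (hz : z ∈ Metric.ball o (4 * R)) (hJ : N.J z ≤ ε)
    (hex : ∃ d, N.x d 0 = z ∧ 1 / (4 * Γ.K) ≤ |(inner ℝ w (N.u d 0) : ℝ)|) :
    (∀ e, N.x e 0 = z → 1 / (5 * Γ.K) ≤ |(inner ℝ w (N.u e 0) : ℝ)|) ∧
    #(univ.filter fun e => N.x e 0 = z ∧ 0 < (inner ℝ w (N.u e 0) : ℝ)) =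
      #(univ.filter fun e => N.x e 0 = z ∧ (inner ℝ w (N.u e 0) : ℝ) < 0) ∧
    ∑ e with N.x e 0 = z ∧ 0 < (inner ℝ w (N.u e 0) : ℝ), N.u e 0 =
      ∑ e with N.x e 0 = z ∧ (inner ℝ w (N.u e 0) : ℝ) < 0, - N.u e 0 ∧
    ∀ v v' : E, (∃ e, N.x e 0 = z ∧ ((0 < (inner ℝ w (N.u e 0) : ℝ) ∧ v = N.u e 0) ∨
        ((inner ℝ w (N.u e 0) : ℝ) < 0 ∧ v = - N.u e 0))) →
      (∃ e, N.x e 0 = z ∧ ((0 < (inner ℝ w (N.u e 0) : ℝ) ∧ v' = N.u e 0) ∨
        ((inner ℝ w (N.u e 0) : ℝ) < 0 ∧ v' = - N.u e 0))) → ‖v - v'‖ ≤ C * N.J z := by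
  have hK0 := N.K_pos
  obtain ⟨d, hd, hd'⟩ := hex
  have hz8 : z ∈ Metric.ball o (8 * R) := Metric.ball_subset_ball (by linarith) hz
  have hmem0 : ∀ d, (0:ℝ) ∈ Set.Icc 0 (N.len d) := fun d => ⟨le_rfl, (N.len_pos d).le⟩
  have hsum : ∀ f : N.D → E, ∑ i : {e // N.x e 0 = z}, f i = ∑ e with N.x e 0 = z, f e := by
    intro f
    exact (Finset.sum_subtype (univ.filter fun e => N.x e 0 = z) (by simp) f).symm
  have hsumR : ∀ f : N.D → ℝ, ∑ i : {e // N.x e 0 = z}, f i = ∑ e with N.x e 0 = z, f e := by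
    intro f
    exact (Finset.sum_subtype (univ.filter fun e => N.x e 0 = z) (by simp) f).symm
  have hJeq : ∑ i : {e // N.x e 0 = z}, ∑ j : {e // N.x e 0 = z}, jj (N.u i 0) (N.u j 0) =
      N.J z := by
    unfold LNet.J
    rw [← hsumR]
    refine Finset.sum_congr rfl fun i _ => ?_
    exact hsumR fun e => jj (N.u i 0) (N.u e 0)
  obtain ⟨k1, k2, k3, k4, k5⟩ := hV {e // N.x e 0 = z} z (fun e => N.u e 0)
    (by rw [← hd]; exact N.mem d 0 (hmem0 d))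
    (fun i => by
      have := N.unit i.1 0 (hmem0 _)
      rwa [i.2] at this)
    ((hsum fun e => N.u e 0).trans (N.bal z hz8))
    (by rw [hJeq]; exact hJ)
    (by
      rw [card_subtype_filter (fun e => N.x e 0 = z)
        (fun e => 1 / (5 * Γ.K) ≤ (inner ℝ w (N.u e 0) : ℝ))]
      exact N.card_up_le hw h1 h2 hlen hc z hz _ fun d hd => by simpa using hd)
    (by
      rw [card_subtype_filter (fun e => N.x e 0 = z)
        (fun e => (inner ℝ w (N.u e 0) : ℝ) ≤ - (1 / (5 * Γ.K)))]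
      exact N.card_down_le hw h1 h2 hlen hc z hz _ fun d hd => by simpa using hd)
    ⟨⟨d, hd⟩, hd'⟩
  rw [hJeq] at k3 k4 k5
  rw [card_subtype_filter (fun e => N.x e 0 = z)
        (fun e => 0 < (inner ℝ w (N.u e 0) : ℝ)),
    card_subtype_filter (fun e => N.x e 0 = z)
        (fun e => (inner ℝ w (N.u e 0) : ℝ) < 0)] at k2
  refine ⟨fun e he => k1 ⟨e, he⟩, k2, ?_, ?_⟩
  · have hb := N.bal z hz8
    rw [← Finset.sum_filter_add_sum_filter_not _ (fun e => 0 < (inner ℝ w (N.u e 0) : ℝ)),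
      Finset.filter_filter, Finset.filter_filter] at hb
    have hcongr : (univ.filter fun e => N.x e 0 = z ∧ ¬ 0 < (inner ℝ w (N.u e 0) : ℝ)) =
        univ.filter fun e => N.x e 0 = z ∧ (inner ℝ w (N.u e 0) : ℝ) < 0 := by
      apply Finset.filter_congr
      intro e _
      constructor
      · rintro ⟨he, hn⟩
        refine ⟨he, lt_of_le_of_ne (not_lt.1 hn) fun h0 => ?_⟩
        have := k1 ⟨e, he⟩
        simp only at this
        rw [h0, abs_zero] at this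
        have h5 : 0 < 1 / (5 * Γ.K) := by positivity
        linarith
      · rintro ⟨he, hn⟩
        exact ⟨he, not_lt.2 hn.le⟩
    rw [hcongr] at hb
    rw [Finset.sum_neg_distrib]
    exact eq_neg_of_add_eq_zero_left hb
  · rintro v v' ⟨e, he, hv⟩ ⟨e', he', hv'⟩
    rcases hv with ⟨hp, rfl⟩ | ⟨hp, rfl⟩ <;> rcases hv' with ⟨hp', rfl⟩ | ⟨hp', rfl⟩
    · exact k3 ⟨e, he⟩ ⟨e', he'⟩ hp hp'
    · rw [sub_neg_eq_add]
      exact k4 ⟨e, he⟩ ⟨e', he'⟩ hp hp'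
    · rw [← norm_neg, neg_sub, sub_neg_eq_add]
      exact k4 ⟨e', he'⟩ ⟨e, he⟩ hp' hp
    · rw [neg_sub_neg, norm_sub_rev]
      exact k5 ⟨e, he⟩ ⟨e', he'⟩ hp hp'

end netaux



/-- the darts of a local geodesic net which go upwards form a train track, in slabs of small mass -/
theorem GeoNet.exists_track [FiniteDimensional ℝ E] (Γ : Geom E) (w o : E) (hw : ‖w‖ = 1) {R : ℝ}
    (hR : 0 < R) (M : ℕ) {κ : ℝ} (hκ : 0 < κ) :
    ∃ ε r r₀ : ℝ, 0 < ε ∧ 0 < r ∧ 0 < r₀ ∧ ∀ (N : GeoNet Γ o R) (a b : ℝ),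
      (∀ d, N.len d ≤ r₀) → a < b → b - a ≤ r →
      (∀ (F : Finset N.D) (t : ℝ), (∀ d ∈ F, (∀ s ∈ Set.Icc 0 (N.len d),
        1 / (8 * Γ.K) ≤ (inner ℝ w (N.u d s) : ℝ) ∧ N.x d s ∈ Metric.ball o (5 * R)) ∧
        (inner ℝ w (N.x d 0) : ℝ) < t ∧ t < (inner ℝ w (N.x d (N.len d)) : ℝ)) → #F ≤ M) →
      ∑ z ∈ N.starts with z ∈ Metric.ball o (4 * R) ∧ a < (inner ℝ w z : ℝ) ∧
        (inner ℝ w z : ℝ) < b, N.J z ≤ ε →
      ∃ τ : Track Γ (innerSL ℝ w) (1 / (8 * Γ.K)) a b κ,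
        (∀ t, a < t → t < b → (∀ d, t ≠ τ.s0 d ∧ t ≠ τ.s1 d) →
          #(univ.filter fun d => τ.s0 d < t ∧ t < τ.s1 d ∧ τ.h d t < 3) ≤ M) ∧
        ∀ z ∈ N.starts, z ∈ Metric.ball o R → 3 ≤ N.deg z → a < (inner ℝ w z : ℝ) →
          (inner ℝ w z : ℝ) < b →
          (∃ d, N.x d 0 = z ∧ 0 < (inner ℝ w (N.u d 0) : ℝ) ∧
            gauge w o R z (N.u d 0) < 1 / 2) → z ∈ τ.verts := by
  have hK1 : 1 ≤ Γ.K := Γ.one_le
  have hK0 : 0 < Γ.K := by linarith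
  have hc₀ : 0 < 1 / (8 * Γ.K) := by positivity
  obtain ⟨ε₁, C₁, hε₁, hC₁, hV⟩ := vertex_structure Γ w hw M
  obtain ⟨C₂, hC₂, hlip, hlip'⟩ := gauge_lip Γ w o hw hR hc₀
  refine ⟨min ε₁ (min (κ / (C₁ * C₂)) (1 / (2 * (C₁ * C₂)))), κ / C₂,
    min (3 / (40 * Γ.K) / Γ.K) (R / 2 / Γ.K), by positivity, by positivity, by positivity, ?_⟩
  intro N a b hlen hab hba hcross hmass
  set r₀ : ℝ := min (3 / (40 * Γ.K) / Γ.K) (R / 2 / Γ.K) with hr₀
  set ε : ℝ := min ε₁ (min (κ / (C₁ * C₂)) (1 / (2 * (C₁ * C₂)))) with hε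
  have h1 : Γ.K * r₀ ≤ 3 / (40 * Γ.K) := by
    have : r₀ ≤ 3 / (40 * Γ.K) / Γ.K := min_le_left _ _
    rw [le_div_iff₀ hK0] at this
    linarith
  have h2 : Γ.K * r₀ < R := by
    have : r₀ ≤ R / 2 / Γ.K := min_le_right _ _
    rw [le_div_iff₀ hK0] at this
    linarith
  have hεκ : C₁ * C₂ * ε ≤ κ := by
    have : ε ≤ κ / (C₁ * C₂) := (min_le_right _ _).trans (min_le_left _ _)
    rw [le_div_iff₀ (by positivity)] at this
    linarith
  have hεh : C₁ * C₂ * ε ≤ 1 / 2 := by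
    have : ε ≤ 1 / (2 * (C₁ * C₂)) := (min_le_right _ _).trans (min_le_right _ _)
    rw [le_div_iff₀ (by positivity)] at this
    linarith
  have hεε : ε ≤ ε₁ := min_le_left _ _
  have hc : N.Cross w M := hcross
  have hmem0 : ∀ d, (0:ℝ) ∈ Set.Icc 0 (N.len d) := fun d => ⟨le_rfl, (N.len_pos d).le⟩
  have hmeml : ∀ d, N.len d ∈ Set.Icc 0 (N.len d) := fun d => ⟨(N.len_pos d).le, le_rfl⟩
  -- the mass at one point
  have hJε : ∀ z, z ∈ N.starts → z ∈ Metric.ball o (4 * R) → a < (inner ℝ w z : ℝ) →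
      (inner ℝ w z : ℝ) < b → N.J z ≤ ε := by
    intro z hz1 hz2 hz3 hz4
    refine le_trans ?_ hmass
    refine Finset.single_le_sum (f := fun z => N.J z) (fun z _ => N.J_nonneg_u6 z) ?_
    simp [hz1, hz3, hz4, Metric.mem_ball.1 hz2]
  -- the vertex structure
  have hvx : ∀ z, z ∈ Metric.ball o (4 * R) → a < (inner ℝ w z : ℝ) → (inner ℝ w z : ℝ) < b →
      (∃ d, N.x d 0 = z ∧ 1 / (4 * Γ.K) ≤ |(inner ℝ w (N.u d 0) : ℝ)|) → _ :=
    fun z hz2 hz3 hz4 hex => N.vertex hw hR h1 h2 hlen hc hV z hz2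
      ((hJε z (by
        obtain ⟨d, hd, -⟩ := hex
        exact Finset.mem_image.2 ⟨d, Finset.mem_univ _, hd⟩) hz2 hz3 hz4).trans hεε) hex
  -- the data of the track
  let P : N.D → Prop := fun d => ∀ s ∈ Set.Icc 0 (N.len d),
    1 / (8 * Γ.K) ≤ (inner ℝ w (N.u d s) : ℝ)
  have hrep : ∀ d : {d : N.D // P d}, _ := fun d =>
    exists_reparam Γ w hw hc₀ (N.len_pos d.1) (N.x d.1) (N.u d.1) (N.hx d.1)
      (fun s hs => by rw [← N.geo d.1 s hs]; exact N.hu d.1 s hs) (N.unit d.1) (N.mem d.1) d.2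
  have hslt := fun d => (hrep d).1
  have hrep2 := fun d => (hrep d).2
  choose X U hptc hXU hsurj using hrep2
  have hX0 : ∀ d, X d (inner ℝ w (N.x d.1 0)) = N.x d.1 0 := fun d => (hXU d 0 (hmem0 _)).1
  have hU0 : ∀ d, U d (inner ℝ w (N.x d.1 0)) = N.u d.1 0 := fun d => (hXU d 0 (hmem0 _)).2
  have hXl : ∀ d, X d (inner ℝ w (N.x d.1 (N.len d.1))) = N.x d.1 (N.len d.1) :=
    fun d => (hXU d _ (hmeml _)).1
  have hUl : ∀ d, U d (inner ℝ w (N.x d.1 (N.len d.1))) = N.u d.1 (N.len d.1) :=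
    fun d => (hXU d _ (hmeml _)).2
  let g : ℝ → ℝ := fun t => C₁ * C₂ * ∑ z ∈ N.starts with z ∈ Metric.ball o (4 * R) ∧
    (inner ℝ w z : ℝ) = t, N.J z
  have hg0 : ∀ t, 0 ≤ g t := fun t =>
    mul_nonneg (by positivity) (Finset.sum_nonneg fun z _ => N.J_nonneg_u6 z)
  have hgJ : ∀ z, z ∈ N.starts → z ∈ Metric.ball o (4 * R) →
      C₁ * C₂ * N.J z ≤ g (inner ℝ w z : ℝ) := by
    intro z hz1 hz2
    refine mul_le_mul_of_nonneg_left ?_ (by positivity)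
    refine Finset.single_le_sum (f := fun z => N.J z) (fun z _ => N.J_nonneg_u6 z) ?_
    simp [hz1, Metric.mem_ball.1 hz2]
  have hgsum : ∀ F : Finset ℝ, (∀ t ∈ F, a < t ∧ t < b) → ∑ t ∈ F, g t ≤ κ := by
    intro F hF
    refine le_trans ?_ hεκ
    rw [← Finset.mul_sum]
    refine mul_le_mul_of_nonneg_left (le_trans ?_ hmass) (by positivity)
    simp only [Finset.sum_filter]
    rw [Finset.sum_comm]
    refine Finset.sum_le_sum fun z _ => ?_
    by_cases hzF : z ∈ Metric.ball o (4 * R) ∧ (inner ℝ w z : ℝ) ∈ F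
    · rw [if_pos ⟨hzF.1, hF _ hzF.2⟩]
      have : ∀ t ∈ F, (if z ∈ Metric.ball o (4 * R) ∧ (inner ℝ w z : ℝ) = t then N.J z else 0) =
          if (inner ℝ w z : ℝ) = t then N.J z else 0 := by
        intro t _
        simp only [hzF.1, true_and]
      rw [Finset.sum_congr rfl this, Finset.sum_ite_eq, if_pos hzF.2]
    · have : ∀ t ∈ F,
          (if z ∈ Metric.ball o (4 * R) ∧ (inner ℝ w z : ℝ) = t then N.J z else 0) = 0 := by
        intro t ht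
        rw [if_neg]
        rintro ⟨h3, h4⟩
        exact hzF ⟨h3, by rw [h4]; exact ht⟩
      rw [Finset.sum_congr rfl this, Finset.sum_const_zero]
      split_ifs
      · exact N.J_nonneg_u6 z
      · exact le_rfl
  -- velocities at the ends
  have hvel : ∀ (e : {d : N.D // P d}) (t : ℝ),
      (t = (inner ℝ w (N.x e.1 0) : ℝ) ∨ t = (inner ℝ w (N.x e.1 (N.len e.1)) : ℝ)) →
      ∃ e', N.x e' 0 = X e t ∧ ((0 < (inner ℝ w (N.u e' 0) : ℝ) ∧ U e t = N.u e' 0) ∨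
        ((inner ℝ w (N.u e' 0) : ℝ) < 0 ∧ U e t = - N.u e' 0)) := by
    rintro e t (rfl | rfl)
    · refine ⟨e.1, (hX0 e).symm, Or.inl ⟨?_, hU0 e⟩⟩
      exact lt_of_lt_of_le hc₀ (e.2 0 (hmem0 _))
    · refine ⟨N.rev e.1, ?_, Or.inr ⟨?_, ?_⟩⟩
      · rw [(N.rev_start e.1).1, hXl]
      · rw [(N.rev_start e.1).2, inner_neg_right]
        have := lt_of_lt_of_le hc₀ (e.2 _ (hmeml _))
        linarith
      · rw [(N.rev_start e.1).2, hUl, neg_neg]
  have hUb : ∀ (e : {d : N.D // P d}) (t : ℝ),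
      t ∈ Set.Icc (inner ℝ w (N.x e.1 0) : ℝ) (inner ℝ w (N.x e.1 (N.len e.1)) : ℝ) →
      ‖U e t‖ ≤ Γ.K ∧ 1 ≤ Γ.K * ‖U e t‖ ∧ 1 / (8 * Γ.K) ≤ (inner ℝ w (U e t) : ℝ) := by
    intro e t ht
    obtain ⟨s, hs, hst⟩ := hsurj e t ht
    rw [← hst, (hXU e s hs).2]
    exact ⟨N.u_le _ _ hs, N.u_ge _ _ hs, e.2 s hs⟩
  have hends : ∀ (e : {d : N.D // P d}) (t : ℝ),
      (t = (inner ℝ w (N.x e.1 0) : ℝ) ∨ t = (inner ℝ w (N.x e.1 (N.len e.1)) : ℝ)) →
      t ∈ Set.Icc (inner ℝ w (N.x e.1 0) : ℝ) (inner ℝ w (N.x e.1 (N.len e.1)) : ℝ) := by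
    rintro e t (rfl | rfl)
    · exact ⟨le_rfl, (hslt e).le⟩
    · exact ⟨(hslt e).le, le_rfl⟩
  have hXt : ∀ (e : {d : N.D // P d}) (t : ℝ),
      t ∈ Set.Icc (inner ℝ w (N.x e.1 0) : ℝ) (inner ℝ w (N.x e.1 (N.len e.1)) : ℝ) →
      (inner ℝ w (X e t) : ℝ) = t := by
    intro e t ht
    obtain ⟨s, hs, hst⟩ := hsurj e t ht
    rw [← hst, (hXU e s hs).1]
  -- the vertex lemma, for the track
  have hinU : ∀ (z : E), z ∈ Metric.ball o (4 * R) → a < (inner ℝ w z : ℝ) →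
      (inner ℝ w z : ℝ) < b → (∃ d, N.x d 0 = z ∧ 1 / (4 * Γ.K) ≤ |(inner ℝ w (N.u d 0) : ℝ)|) →
      ∀ e, N.x e 0 = z → 0 < (inner ℝ w (N.u e 0) : ℝ) → P e := by
    intro z hz hza hzb hex e he hpe s hs
    obtain ⟨v1, v2, v3, v4⟩ := hvx z hz hza hzb hex
    refine ((N.up_good hw h1 h2 e (hlen e) (by rw [he]; exact hz) ?_).1 s hs).1
    have := v1 e he
    rwa [abs_of_pos hpe] at this
  have hinD : ∀ (z : E), z ∈ Metric.ball o (4 * R) → a < (inner ℝ w z : ℝ) →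
      (inner ℝ w z : ℝ) < b → (∃ d, N.x d 0 = z ∧ 1 / (4 * Γ.K) ≤ |(inner ℝ w (N.u d 0) : ℝ)|) →
      ∀ e, N.x e 0 = z → (inner ℝ w (N.u e 0) : ℝ) < 0 → P (N.rev e) := by
    intro z hz hza hzb hex e' he' hpe' s hs
    obtain ⟨v1, v2, v3, v4⟩ := hvx z hz hza hzb hex
    refine ((N.down_good hw h1 h2 e' (hlen e') (by rw [he']; exact hz) ?_).1 s hs).1
    have := v1 e' he'
    rw [abs_of_neg hpe'] at this
    linarith
  have hgv : ∀ (e : {d : N.D // P d}) (t : ℝ),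
      (t = (inner ℝ w (N.x e.1 0) : ℝ) ∨ t = (inner ℝ w (N.x e.1 (N.len e.1)) : ℝ)) →
      gauge w o R (X e t) (U e t) < 5 / 2 →
      X e t ∈ Metric.ball o (4 * R) ∧
        ∃ d, N.x d 0 = X e t ∧ 1 / (4 * Γ.K) ≤ |(inner ℝ w (N.u d 0) : ℝ)| := by
    intro e t ht hh
    obtain ⟨b1, b2, b3⟩ := hUb e t (hends e t ht)
    obtain ⟨c1, c2⟩ := gauge_bounds w o hw hR (lt_of_lt_of_le hc₀ b3) hh
    refine ⟨by rw [Metric.mem_ball, dist_eq_norm]; linarith, ?_⟩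
    obtain ⟨d, hd, hd'⟩ := hvel e t ht
    refine ⟨d, hd, ?_⟩
    have h3 : 1 / (4 * Γ.K) ≤ (inner ℝ w (U e t) : ℝ) := by
      rw [div_le_iff₀ (by positivity)]
      nlinarith
    rcases hd' with ⟨_, hd'⟩ | ⟨_, hd'⟩
    · rw [← hd']
      exact h3.trans (le_abs_self _)
    · have : N.u d 0 = - U e t := by rw [hd', neg_neg]
      rw [this, inner_neg_right, abs_neg]
      exact h3.trans (le_abs_self _)
  have hdiff : ∀ z, z ∈ Metric.ball o (4 * R) → a < (inner ℝ w z : ℝ) →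
      (inner ℝ w z : ℝ) < b →
      (∃ d, N.x d 0 = z ∧ 1 / (4 * Γ.K) ≤ |(inner ℝ w (N.u d 0) : ℝ)|) → ∀ v v' : E,
      (∃ e, N.x e 0 = z ∧ ((0 < (inner ℝ w (N.u e 0) : ℝ) ∧ v = N.u e 0) ∨
        ((inner ℝ w (N.u e 0) : ℝ) < 0 ∧ v = - N.u e 0))) →
      (∃ e, N.x e 0 = z ∧ ((0 < (inner ℝ w (N.u e 0) : ℝ) ∧ v' = N.u e 0) ∨
        ((inner ℝ w (N.u e 0) : ℝ) < 0 ∧ v' = - N.u e 0))) →
      1 / (8 * Γ.K) ≤ (inner ℝ w v : ℝ) → 1 / (8 * Γ.K) ≤ (inner ℝ w v' : ℝ) →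
      |gauge w o R z v - gauge w o R z v'| ≤ C₁ * C₂ * N.J z := by
    intro z hz hza hzb hex v v' hv hv' hp hp'
    obtain ⟨v1, v2, v3, v4⟩ := hvx z hz hza hzb hex
    have key := v4 v v' hv hv'
    have hKv : ∀ v : E, (∃ e, N.x e 0 = z ∧ ((0 < (inner ℝ w (N.u e 0) : ℝ) ∧ v = N.u e 0) ∨
        ((inner ℝ w (N.u e 0) : ℝ) < 0 ∧ v = - N.u e 0))) → ‖v‖ ≤ Γ.K := by
      rintro v ⟨e, he, ⟨_, rfl⟩ | ⟨_, rfl⟩⟩
      · exact N.u_le e 0 (hmem0 e)
      · rw [norm_neg]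
        exact N.u_le e 0 (hmem0 e)
    refine (hlip' z v v' (hKv v hv) (hKv v' hv') hp hp').trans ?_
    calc C₂ * ‖v - v'‖ ≤ C₂ * (C₁ * N.J z) := mul_le_mul_of_nonneg_left key hC₂.le
      _ = C₁ * C₂ * N.J z := by ring
  let τ : Track Γ (innerSL ℝ w) (1 / (8 * Γ.K)) a b κ :=
    { D := {d : N.D // P d}
      s0 := fun d => (inner ℝ w (N.x d.1 0) : ℝ)
      s1 := fun d => (inner ℝ w (N.x d.1 (N.len d.1)) : ℝ)
      X := X
      U := U
      h := fun d t => gauge w o R (X d t) (U d t)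
      g := g
      lt := hslt
      ptc := hptc
      hc := by
        intro d
        have : LipschitzOnWith (Real.toNNReal C₂) (fun t => gauge w o R (X d t) (U d t))
            (Set.Icc (inner ℝ w (N.x d.1 0) : ℝ) (inner ℝ w (N.x d.1 (N.len d.1)) : ℝ)) := by
          apply LipschitzOnWith.of_dist_le_mul
          intro t ht t' ht'
          rw [Real.dist_eq, Real.dist_eq, Real.coe_toNNReal _ hC₂.le]
          exact hlip _ _ _ _ (hptc d) t ht t' ht'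
        exact this.continuousOn
      emb := by
        intro d e hde t ht hte heq
        obtain ⟨s, hs, hst⟩ := hsurj d t ⟨ht.1.le, ht.2.le⟩
        obtain ⟨s', hs', hst'⟩ := hsurj e t hte
        have hX1 : X d t = N.x d.1 s := by rw [← hst, (hXU d s hs).1]
        have hX2 : X e t = N.x e.1 s' := by rw [← hst', (hXU e s' hs').1]
        have hs0 : s ≠ 0 := by
          rintro rfl
          exact absurd hst ht.1.ne
        have hsl : s ≠ N.len d.1 := by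
          rintro rfl
          exact absurd hst ht.2.ne'
        rcases N.emb d.1 e.1 s ⟨lt_of_le_of_ne hs.1 (Ne.symm hs0), lt_of_le_of_ne hs.2 hsl⟩ s' hs'
          (by rw [← hX1, ← hX2]; exact heq) with ⟨h3, -⟩ | ⟨h3, -⟩
        · exact hde (Subtype.ext h3.symm)
        · have p1 := e.2 s' hs'
          have hs'' : N.len d.1 - s' ∈ Set.Icc 0 (N.len d.1) := by
            rw [h3, N.len_rev] at hs'
            exact ⟨by linarith [hs'.2], by linarith [hs'.1]⟩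
          have p2 := d.2 _ hs''
          rw [h3, N.u_rev, inner_neg_right] at p1
          linarith
      g_nonneg := hg0
      g_sum := hgsum
      hlip := by
        intro d t ht t' ht' _ _ _ _
        have h3 := hlip _ _ _ _ (hptc d) t ht t' ht'
        calc |gauge w o R (X d t) (U d t) - gauge w o R (X d t') (U d t')| * (b - a)
            ≤ (C₂ * |t - t'|) * (κ / C₂) :=
              mul_le_mul h3 hba (by linarith) (by positivity)
          _ = κ * |t - t'| := by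
              field_simp
      vert := by
        intro t hta htb d htd hh
        obtain ⟨hzb, hex⟩ := hgv d t htd hh
        have hzt : (inner ℝ w (X d t) : ℝ) = t := hXt d t (hends d t htd)
        have hza : a < (inner ℝ w (X d t) : ℝ) := by rw [hzt]; exact hta
        have hzb' : (inner ℝ w (X d t) : ℝ) < b := by rw [hzt]; exact htb
        obtain ⟨v1, v2, v3, v4⟩ := hvx (X d t) hzb hza hzb' hex
        have hA : ∀ e : {d : N.D // P d},
            ((inner ℝ w (N.x e.1 0) : ℝ) = t ∧ X e t = X d t) ↔ N.x e.1 0 = X d t := by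
          intro e
          constructor
          · rintro ⟨h3, h4⟩
            rw [← h4, ← h3, hX0]
          · intro h3
            have h4 : (inner ℝ w (N.x e.1 0) : ℝ) = t := by rw [h3, hzt]
            refine ⟨h4, ?_⟩
            rw [← h3]
            conv_lhs => rw [← h4]
            exact hX0 e
        have hB : ∀ e : {d : N.D // P d},
            ((inner ℝ w (N.x e.1 (N.len e.1)) : ℝ) = t ∧ X e t = X d t) ↔
              N.x e.1 (N.len e.1) = X d t := by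
          intro e
          constructor
          · rintro ⟨h3, h4⟩
            rw [← h4, ← h3, hXl]
          · intro h3
            have h4 : (inner ℝ w (N.x e.1 (N.len e.1)) : ℝ) = t := by rw [h3, hzt]
            refine ⟨h4, ?_⟩
            rw [← h3]
            conv_lhs => rw [← h4]
            exact hXl e
        have hm1 : ∀ e ∈ univ.filter (fun e : {d : N.D // P d} =>
            (inner ℝ w (N.x e.1 0) : ℝ) = t ∧ X e t = X d t),
            e.1 ∈ univ.filter fun e => N.x e 0 = X d t ∧ 0 < (inner ℝ w (N.u e 0) : ℝ) := by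
          intro e he
          have he' := (hA e).1 (Finset.mem_filter.1 he).2
          refine Finset.mem_filter.2 ⟨Finset.mem_univ _, he', ?_⟩
          exact lt_of_lt_of_le hc₀ (e.2 0 (hmem0 _))
        have hm2 : ∀ e ∈ univ.filter (fun e : {d : N.D // P d} =>
            (inner ℝ w (N.x e.1 (N.len e.1)) : ℝ) = t ∧ X e t = X d t),
            N.rev e.1 ∈ univ.filter fun e => N.x e 0 = X d t ∧ (inner ℝ w (N.u e 0) : ℝ) < 0 := by
          intro e he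
          have he' := (hB e).1 (Finset.mem_filter.1 he).2
          refine Finset.mem_filter.2 ⟨Finset.mem_univ _, ?_, ?_⟩
          · rw [(N.rev_start e.1).1, he']
          · rw [(N.rev_start e.1).2, inner_neg_right]
            have := lt_of_lt_of_le hc₀ (e.2 _ (hmeml _))
            linarith
        have hs1 : ∀ e ∈ univ.filter (fun e => N.x e 0 = X d t ∧ 0 < (inner ℝ w (N.u e 0) : ℝ)),
            ∃ e' : {d : N.D // P d}, ∃ (_ : e' ∈ univ.filter (fun e : {d : N.D // P d} =>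
            (inner ℝ w (N.x e.1 0) : ℝ) = t ∧ X e t = X d t)), e'.1 = e := by
          intro e he
          obtain ⟨he1, he2⟩ := (Finset.mem_filter.1 he).2
          refine ⟨⟨e, hinU _ hzb hza hzb' hex e he1 he2⟩, ?_, rfl⟩
          exact Finset.mem_filter.2 ⟨Finset.mem_univ _, (hA _).2 he1⟩
        have hs2 : ∀ e ∈ univ.filter (fun e => N.x e 0 = X d t ∧ (inner ℝ w (N.u e 0) : ℝ) < 0),
            ∃ e' : {d : N.D // P d}, ∃ (_ : e' ∈ univ.filter (fun e : {d : N.D // P d} =>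
            (inner ℝ w (N.x e.1 (N.len e.1)) : ℝ) = t ∧ X e t = X d t)), N.rev e'.1 = e := by
          intro e he
          obtain ⟨he1, he2⟩ := (Finset.mem_filter.1 he).2
          refine ⟨⟨N.rev e, hinD _ hzb hza hzb' hex e he1 he2⟩, ?_, N.rev_rev e⟩
          refine Finset.mem_filter.2 ⟨Finset.mem_univ _, (hB _).2 ?_⟩
          rw [(N.rev_end e).1, he1]
        have hi1 : ∀ e ∈ univ.filter (fun e : {d : N.D // P d} =>
            (inner ℝ w (N.x e.1 0) : ℝ) = t ∧ X e t = X d t), ∀ e' ∈ univ.filter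
            (fun e : {d : N.D // P d} => (inner ℝ w (N.x e.1 0) : ℝ) = t ∧ X e t = X d t),
            e.1 = e'.1 → e = e' := fun e _ e' _ h3 => Subtype.ext h3
        have hi2 : ∀ e ∈ univ.filter (fun e : {d : N.D // P d} =>
            (inner ℝ w (N.x e.1 (N.len e.1)) : ℝ) = t ∧ X e t = X d t), ∀ e' ∈ univ.filter
            (fun e : {d : N.D // P d} => (inner ℝ w (N.x e.1 (N.len e.1)) : ℝ) = t ∧
              X e t = X d t),
            N.rev e.1 = N.rev e'.1 → e = e' := fun e _ e' _ h3 => Subtype.ext (N.rev_inj h3)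
        refine ⟨?_, ?_, ?_⟩
        · refine ((Finset.card_bij (fun e _ => e.1) hm1 hi1 hs1).trans ?_).trans
            (Finset.card_bij (fun e _ => N.rev e.1) hm2 hi2 hs2).symm
          exact v2
        · refine ((Finset.sum_bij (fun e _ => e.1) hm1 hi1 hs1 ?_).trans v3).trans
            (Finset.sum_bij (fun e _ => N.rev e.1) hm2 hi2 hs2 ?_).symm
          · intro e he
            have he' := (Finset.mem_filter.1 he).2.1
            rw [← he', hU0]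
          · intro e he
            have he' := (Finset.mem_filter.1 he).2.1
            rw [← he', hUl, (N.rev_start e.1).2, neg_neg]
        · intro e hte heq
          have h3 : C₁ * C₂ * N.J (X d t) ≤ g t := by
            have h4 := hgJ (X d t) (by
              obtain ⟨d', hd', -⟩ := hex
              exact Finset.mem_image.2 ⟨d', Finset.mem_univ _, hd'⟩) hzb
            rwa [hzt] at h4
          refine le_trans ?_ h3
          have h5 := hvel e t hte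
          rw [heq] at h5 ⊢
          exact hdiff (X d t) hzb hza hzb' hex _ _ h5 (hvel d t htd)
            (hUb e t (hends e t hte)).2.2 (hUb d t (hends d t htd)).2.2 }
  refine ⟨τ, ?_, ?_⟩
  · intro t hta htb htne
    have key := hc ((univ.filter fun d : {d : N.D // P d} =>
      (inner ℝ w (N.x d.1 0) : ℝ) < t ∧ t < (inner ℝ w (N.x d.1 (N.len d.1)) : ℝ) ∧
        gauge w o R (X d t) (U d t) < 3).image Subtype.val) t ?_
    · rw [Finset.card_image_of_injective _ Subtype.val_injective] at key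
      exact key
    · intro e he
      obtain ⟨d, hd, rfl⟩ := Finset.mem_image.1 he
      obtain ⟨d1, d2, d3⟩ := (Finset.mem_filter.1 hd).2
      refine ⟨fun s hs => ⟨d.2 s hs, ?_⟩, d1, d2⟩
      obtain ⟨s', hs', hst'⟩ := hsurj d t ⟨d1.le, d2.le⟩
      obtain ⟨b1, b2, b3⟩ := hUb d t ⟨d1.le, d2.le⟩
      obtain ⟨c1, c2⟩ := gauge_bounds w o hw hR (lt_of_lt_of_le hc₀ b3) d3
      rw [← hst', (hXU d s' hs').1] at c1
      have h6 := N.x_var d.1 (hlen d.1) hs' hs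
      have h7 : ‖N.x d.1 s - o‖ ≤ ‖N.x d.1 s - N.x d.1 s'‖ + ‖N.x d.1 s' - o‖ := by
        have := norm_add_le (N.x d.1 s - N.x d.1 s') (N.x d.1 s' - o)
        simpa using this
      rw [Metric.mem_ball, dist_eq_norm]
      linarith
  · intro z hz hzR hdeg hza hzb hex
    obtain ⟨d, hd, hd1, hd2⟩ := hex
    have hz4 : z ∈ Metric.ball o (4 * R) := Metric.ball_subset_ball (by linarith) hzR
    obtain ⟨c1, c2⟩ := gauge_bounds w o hw hR hd1 hd2
    have h3 : 1 / (4 * Γ.K) ≤ |(inner ℝ w (N.u d 0) : ℝ)| := by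
      have := N.u_ge d 0 (hmem0 d)
      rw [abs_of_pos hd1, div_le_iff₀ (by positivity)]
      nlinarith
    have hex' : ∃ d, N.x d 0 = z ∧ 1 / (4 * Γ.K) ≤ |(inner ℝ w (N.u d 0) : ℝ)| := ⟨d, hd, h3⟩
    obtain ⟨v1, v2, v3, v4⟩ := hvx z hz4 hza hzb hex'
    -- at least two darts go down
    have hcard : 2 ≤ #(univ.filter fun e => N.x e 0 = z ∧ (inner ℝ w (N.u e 0) : ℝ) < 0) := by
      have h5 : N.deg z = #(univ.filter fun e => N.x e 0 = z ∧ 0 < (inner ℝ w (N.u e 0) : ℝ)) +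
          #(univ.filter fun e => N.x e 0 = z ∧ (inner ℝ w (N.u e 0) : ℝ) < 0) := by
        unfold LNet.deg
        rw [← Finset.card_union_of_disjoint]
        · congr 1
          ext e
          simp only [Finset.mem_union, Finset.mem_filter, Finset.mem_univ, true_and]
          constructor
          · intro he
            rcases lt_trichotomy (inner ℝ w (N.u e 0) : ℝ) 0 with h6 | h6 | h6
            · exact Or.inr ⟨he, h6⟩
            · have := v1 e he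
              rw [h6, abs_zero] at this
              have h8 : 0 < 1 / (5 * Γ.K) := by positivity
              linarith
            · exact Or.inl ⟨he, h6⟩
          · rintro (h6 | h6)
            · exact h6.1
            · exact h6.1
        · rw [Finset.disjoint_left]
          intro e he he'
          have h6 := (Finset.mem_filter.1 he).2.2
          have h7 := (Finset.mem_filter.1 he').2.2
          linarith
      omega
    obtain ⟨e₁, he₁, e₂, he₂, hne⟩ := Finset.one_lt_card.1 (by omega : 1 < #(univ.filter fun e =>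
      N.x e 0 = z ∧ (inner ℝ w (N.u e 0) : ℝ) < 0))
    obtain ⟨f1, f2⟩ := (Finset.mem_filter.1 he₁).2
    obtain ⟨g1, g2⟩ := (Finset.mem_filter.1 he₂).2
    let a₁ : {d : N.D // P d} := ⟨N.rev e₁, hinD z hz4 hza hzb hex' e₁ f1 f2⟩
    let a₂ : {d : N.D // P d} := ⟨N.rev e₂, hinD z hz4 hza hzb hex' e₂ g1 g2⟩
    have hs1 : (inner ℝ w (N.x a₁.1 (N.len a₁.1)) : ℝ) = (inner ℝ w z : ℝ) := by
      rw [(N.rev_end e₁).1, f1]
    have hs2 : (inner ℝ w (N.x a₂.1 (N.len a₂.1)) : ℝ) = (inner ℝ w z : ℝ) := by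
      rw [(N.rev_end e₂).1, g1]
    have hx1 : X a₁ (inner ℝ w z : ℝ) = z := by
      rw [← hs1, hXl, (N.rev_end e₁).1, f1]
    have hx2 : X a₂ (inner ℝ w z : ℝ) = z := by
      rw [← hs2, hXl, (N.rev_end e₂).1, g1]
    have hne' : a₂ ≠ a₁ := by
      intro h6
      exact hne (N.rev_inj (Subtype.ext_iff.1 h6)).symm
    have hgz : gauge w o R (X a₁ (inner ℝ w z : ℝ)) (U a₁ (inner ℝ w z : ℝ)) < 1 := by
      have h5 := hvel a₁ (inner ℝ w z : ℝ) (Or.inr hs1.symm)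
      rw [hx1] at h5 ⊢
      have h6 := hdiff z hz4 hza hzb hex' (U a₁ (inner ℝ w z : ℝ)) (N.u d 0) h5
        ⟨d, hd, Or.inl ⟨hd1, rfl⟩⟩ (hUb a₁ _ (hends a₁ _ (Or.inr hs1.symm))).2.2 (by
          rw [abs_of_pos hd1] at h3
          refine le_trans ?_ h3
          apply one_div_le_one_div_of_le (by positivity)
          linarith)
      have h7 : C₁ * C₂ * N.J z ≤ C₁ * C₂ * ε :=
        mul_le_mul_of_nonneg_left (hJε z hz hz4 hza hzb) (by positivity)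
      have h8 := (abs_le.1 h6).2
      linarith
    have q1 : a < τ.s1 a₁ := by
      change a < (inner ℝ w (N.x a₁.1 (N.len a₁.1)) : ℝ)
      rw [hs1]; exact hza
    have q2 : τ.s1 a₁ < b := by
      change (inner ℝ w (N.x a₁.1 (N.len a₁.1)) : ℝ) < b
      rw [hs1]; exact hzb
    have q3 : τ.h a₁ (τ.s1 a₁) < 1 := by
      change gauge w o R (X a₁ (inner ℝ w (N.x a₁.1 (N.len a₁.1)) : ℝ))
        (U a₁ (inner ℝ w (N.x a₁.1 (N.len a₁.1)) : ℝ)) < 1
      rw [hs1]; exact hgz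
    have q4 : τ.s1 a₂ = τ.s1 a₁ := by
      change (inner ℝ w (N.x a₂.1 (N.len a₂.1)) : ℝ) = (inner ℝ w (N.x a₁.1 (N.len a₁.1)) : ℝ)
      rw [hs1, hs2]
    have q5 : τ.X a₂ (τ.s1 a₁) = τ.X a₁ (τ.s1 a₁) := by
      change X a₂ (inner ℝ w (N.x a₁.1 (N.len a₁.1)) : ℝ) =
        X a₁ (inner ℝ w (N.x a₁.1 (N.len a₁.1)) : ℝ)
      rw [hs1, hx1, hx2]
    have q6 : τ.X a₁ (τ.s1 a₁) = z := by
      change X a₁ (inner ℝ w (N.x a₁.1 (N.len a₁.1)) : ℝ) = z
      rw [hs1, hx1]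
    have hne'' : (a₂ : τ.D) ≠ (a₁ : τ.D) := hne'
    exact τ.mem_verts a₁ a₂ q1 q2 q3 hne'' q4 q5 q6

end Pool.Agent.GNet
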