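import Mathlib
import Pool.Agent.Helper971.BK.DGeo

set_option autoImplicit false

open Finset Classical MeasureTheory

namespace Pool.Agent.GNet

variable {E : Type*} [NormedAddCommGroup E] [InnerProductSpace ℝ E]

/-- auxiliary: behaviour of a short dart with small gauge -/
theorem GeoNet.short_dart (Γ : Geom E) (w o : E) (hw : ‖w‖ = 1) {R : ℝ}
    (hR : 0 < R) (N : GeoNet Γ o R) (r₀ : ℝ) (h1 : Γ.K * r₀ ≤ 1 / (4 * Γ.K)) (h2 : Γ.K * r₀ ≤ R / 2)
    (d : N.D) (hlen : N.len d ≤ r₀) (hz : N.x d 0 ∈ Metric.ball o R)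
    (hpos : 0 < (inner ℝ w (N.u d 0) : ℝ)) (hg : gauge w o R (N.x d 0) (N.u d 0) < 1) :
    (∀ s ∈ Set.Icc 0 (N.len d),
        1 / (8 * Γ.K) ≤ (inner ℝ w (N.u d s) : ℝ) ∧ N.x d s ∈ Metric.ball o (5 * R)) ∧
        (inner ℝ w (N.x d 0) : ℝ) < (inner ℝ w (N.x d (N.len d)) : ℝ) := by
  have hK : 1 ≤ Γ.K := Γ.one_le
  have hK0 : 0 < Γ.K := by linarith
  have hl0 : 0 < N.len d := N.len_pos d
  have hmem0 : (0:ℝ) ∈ Set.Icc 0 (N.len d) := ⟨le_rfl, hl0.le⟩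
  set p : ℝ := (inner ℝ w (N.u d 0) : ℝ) with hp
  -- the size of the velocity
  have hg1 : ‖p⁻¹ • N.u d 0 - w‖ < 1 := lt_of_le_of_lt (le_max_left _ _) hg
  have hg2 : ‖p⁻¹ • N.u d 0‖ < 2 := by
    have : ‖p⁻¹ • N.u d 0‖ ≤ ‖p⁻¹ • N.u d 0 - w‖ + ‖w‖ := by
      have := norm_add_le (p⁻¹ • N.u d 0 - w) w
      simpa using this
    linarith
  have hg3 : ‖N.u d 0‖ < 2 * p := by
    rw [norm_smul, norm_inv, Real.norm_of_nonneg hpos.le, inv_mul_eq_div, div_lt_iff₀ hpos] at hg2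
    exact hg2
  have hu0 : 1 ≤ Γ.K * ‖N.u d 0‖ := N.u_ge d 0 hmem0
  have hp2 : 1 / (2 * Γ.K) ≤ p := by
    rw [div_le_iff₀ (by positivity)]
    nlinarith
  -- variation of the velocity
  have hvar : ∀ s ∈ Set.Icc 0 (N.len d), ‖N.u d s - N.u d 0‖ ≤ Γ.K * r₀ := by
    intro s hs
    have h := Convex.norm_image_sub_le_of_norm_hasDerivWithin_le (f := N.u d) (f' := N.a d)
      (s := Set.Icc 0 (N.len d)) (x := 0) (y := s) (C := Γ.K)
      (fun x hx => (N.hu d x hx).hasDerivWithinAt) (fun x hx => N.a_le d x hx)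
      (convex_Icc _ _) hmem0 hs
    refine h.trans ?_
    rw [sub_zero, Real.norm_of_nonneg hs.1]
    exact mul_le_mul_of_nonneg_left (hs.2.trans hlen) hK0.le
  have hxvar : ∀ s ∈ Set.Icc 0 (N.len d), ‖N.x d s - N.x d 0‖ ≤ Γ.K * r₀ := by
    intro s hs
    have h := Convex.norm_image_sub_le_of_norm_hasDerivWithin_le (f := N.x d) (f' := N.u d)
      (s := Set.Icc 0 (N.len d)) (x := 0) (y := s) (C := Γ.K)
      (fun x hx => (N.hx d x hx).hasDerivWithinAt) (fun x hx => N.u_le d x hx)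
      (convex_Icc _ _) hmem0 hs
    refine h.trans ?_
    rw [sub_zero, Real.norm_of_nonneg hs.1]
    exact mul_le_mul_of_nonneg_left (hs.2.trans hlen) hK0.le
  have hup : ∀ s ∈ Set.Icc 0 (N.len d), 1 / (4 * Γ.K) ≤ (inner ℝ w (N.u d s) : ℝ) := by
    intro s hs
    have h3 : |(inner ℝ w (N.u d s - N.u d 0) : ℝ)| ≤ Γ.K * r₀ := by
      refine (abs_real_inner_le_norm _ _).trans ?_
      rw [hw, one_mul]
      exact hvar s hs
    rw [inner_sub_right] at h3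
    have h4 := (abs_le.1 h3).1
    have h5 : 1 / (2 * Γ.K) = 1 / (4 * Γ.K) + 1 / (4 * Γ.K) := by
      field_simp
      norm_num
    linarith
  refine ⟨fun s hs => ⟨?_, ?_⟩, ?_⟩
  · refine le_trans ?_ (hup s hs)
    apply one_div_le_one_div_of_le (by positivity)
    linarith
  · rw [Metric.mem_ball, dist_eq_norm] at hz ⊢
    have h6 := hxvar s hs
    have h7 : ‖N.x d s - o‖ ≤ ‖N.x d s - N.x d 0‖ + ‖N.x d 0 - o‖ := by
      have := norm_add_le (N.x d s - N.x d 0) (N.x d 0 - o)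
      simpa using this
    linarith
  · have hder : ∀ s ∈ Set.Icc 0 (N.len d),
        HasDerivAt (fun s => (inner ℝ w (N.x d s) : ℝ)) (inner ℝ w (N.u d s) : ℝ) s := by
      intro s hs
      have := (hasDerivAt_const s w).inner ℝ (N.hx d s hs)
      simpa using this
    obtain ⟨c, hc, hceq⟩ := exists_hasDerivAt_eq_slope (fun s => (inner ℝ w (N.x d s) : ℝ))
      (fun s => (inner ℝ w (N.u d s) : ℝ)) hl0
      (fun s hs => (hder s hs).continuousAt.continuousWithinAt)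
      (fun s hs => hder s ⟨hs.1.le, hs.2.le⟩)
    have hcpos : 0 < (inner ℝ w (N.u d c) : ℝ) :=
      lt_of_lt_of_le (by positivity) (hup c ⟨hc.1.le, hc.2.le⟩)
    rw [hceq, sub_zero, div_pos_iff_of_pos_right hl0] at hcpos
    linarith

/-- few vertices with small angle weight on a hyperplane -/
theorem GeoNet.on_hyperplane [FiniteDimensional ℝ E] (Γ : Geom E) (w o : E) (hw : ‖w‖ = 1) {R : ℝ}
    (hR : 0 < R) (M : ℕ) :
    ∃ r₀ : ℝ, 0 < r₀ ∧ ∀ (N : GeoNet Γ o R) (t₀ : ℝ), (∀ d, N.len d ≤ r₀) →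
      (∀ (F : Finset N.D) (t : ℝ), (∀ d ∈ F, (∀ s ∈ Set.Icc 0 (N.len d),
        1 / (8 * Γ.K) ≤ (inner ℝ w (N.u d s) : ℝ) ∧ N.x d s ∈ Metric.ball o (5 * R)) ∧
        (inner ℝ w (N.x d 0) : ℝ) < t ∧ t < (inner ℝ w (N.x d (N.len d)) : ℝ)) → #F ≤ M) →
      #(N.starts.filter fun z => z ∈ Metric.ball o R ∧ (inner ℝ w z : ℝ) = t₀ ∧
        ∃ d, N.x d 0 = z ∧ 0 < (inner ℝ w (N.u d 0) : ℝ) ∧ gauge w o R z (N.u d 0) < 1) ≤ M := by
  have hK : 1 ≤ Γ.K := Γ.one_le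
  have hK0 : 0 < Γ.K := by linarith
  refine ⟨min (1 / (4 * Γ.K) / Γ.K) (R / 2 / Γ.K), lt_min (by positivity) (by positivity), ?_⟩
  intro N t₀ hlen hcross
  set r₀ : ℝ := min (1 / (4 * Γ.K) / Γ.K) (R / 2 / Γ.K) with hr₀
  have h1 : Γ.K * r₀ ≤ 1 / (4 * Γ.K) := by
    have : r₀ ≤ 1 / (4 * Γ.K) / Γ.K := min_le_left _ _
    rw [le_div_iff₀ hK0] at this
    linarith
  have h2 : Γ.K * r₀ ≤ R / 2 := by
    have : r₀ ≤ R / 2 / Γ.K := min_le_right _ _
    rw [le_div_iff₀ hK0] at this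
    linarith
  set S : Finset E := N.starts.filter fun z => z ∈ Metric.ball o R ∧ (inner ℝ w z : ℝ) = t₀ ∧
        ∃ d, N.x d 0 = z ∧ 0 < (inner ℝ w (N.u d 0) : ℝ) ∧ gauge w o R z (N.u d 0) < 1 with hS
  rcases S.eq_empty_or_nonempty with hE | hne
  · rw [hE]; simp
  have hch : ∀ z : S, ∃ d, N.x d 0 = z ∧ 0 < (inner ℝ w (N.u d 0) : ℝ) ∧
      gauge w o R z (N.u d 0) < 1 := fun z => (Finset.mem_filter.1 z.2).2.2.2
  choose dz hdz using hch
  have hball : ∀ z : S, (z : E) ∈ Metric.ball o R := fun z => (Finset.mem_filter.1 z.2).2.1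
  have hplane : ∀ z : S, (inner ℝ w (z : E) : ℝ) = t₀ := fun z => (Finset.mem_filter.1 z.2).2.2.1
  have hshort : ∀ z : S, (∀ s ∈ Set.Icc 0 (N.len (dz z)),
        1 / (8 * Γ.K) ≤ (inner ℝ w (N.u (dz z) s) : ℝ) ∧ N.x (dz z) s ∈ Metric.ball o (5 * R)) ∧
        (inner ℝ w (N.x (dz z) 0) : ℝ) < (inner ℝ w (N.x (dz z) (N.len (dz z))) : ℝ) := by
    intro z
    refine GeoNet.short_dart Γ w o hw hR N r₀ h1 h2 (dz z) (hlen _) ?_ (hdz z).2.1 ?_
    · rw [(hdz z).1]; exact hball z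
    · rw [(hdz z).1]; exact (hdz z).2.2
  have hinj : Function.Injective dz := by
    intro z z' hzz
    apply Subtype.ext
    rw [← (hdz z).1, ← (hdz z').1, hzz]
  have : Nonempty S := ⟨⟨hne.choose, hne.choose_spec⟩⟩
  obtain ⟨z₁, -, hz₁⟩ := Finset.exists_min_image (Finset.univ : Finset S)
    (fun z => (inner ℝ w (N.x (dz z) (N.len (dz z))) : ℝ)) Finset.univ_nonempty
  have hgt : t₀ < (inner ℝ w (N.x (dz z₁) (N.len (dz z₁))) : ℝ) := by
    have := (hshort z₁).2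
    rw [(hdz z₁).1, hplane z₁] at this
    exact this
  have key := hcross (Finset.univ.image dz)
    ((t₀ + (inner ℝ w (N.x (dz z₁) (N.len (dz z₁))) : ℝ)) / 2) ?_
  · rw [Finset.card_image_of_injective _ hinj, Finset.card_univ, Fintype.card_coe] at key
    exact key
  · intro d hd
    obtain ⟨z, -, rfl⟩ := Finset.mem_image.1 hd
    refine ⟨(hshort z).1, ?_, ?_⟩
    · rw [(hdz z).1, hplane z]; linarith
    · have := hz₁ z (Finset.mem_univ z)
      linarith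

end Pool.Agent.GNet
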