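import Mathlib
import Pool.Agent.Helper971.BK.DGeo
import Pool.Agent.Helper971.BK.L1
import Pool.Agent.Helper971.BK.L8
import Pool.Agent.Helper971.BK.U1
import Pool.Agent.Helper971.BK.U5
import Pool.Agent.Helper971.BK.U6
import Pool.Agent.Helper971.BK.U7
import Pool.Agent.Helper971.BK.T6

set_option autoImplicit false

open Finset Classical MeasureTheory

namespace Pool.Agent.GNet

variable {E : Type*} [NormedAddCommGroup E] [InnerProductSpace ℝ E]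

theorem jj_nonneg_u8 (u v : E) : 0 ≤ jj u v := by
  have h : 0 ≤ wsq u v := by
    unfold wsq
    have := real_inner_mul_inner_self_le u v
    nlinarith
  unfold jj
  split_ifs
  · exact add_nonneg h (Real.sqrt_nonneg _)
  · simpa using h

theorem LNet.J_nonneg_u8 {o : E} {R K : ℝ} (N : LNet E o R K) (z : E) : 0 ≤ N.J z :=
  Finset.sum_nonneg fun _ _ => Finset.sum_nonneg fun _ _ => jj_nonneg_u8 _ _

theorem LNet.sum_J {o : E} {R K : ℝ} (N : LNet E o R K) (ρ : ℝ) :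
    ∑ z ∈ N.starts.filter (fun z => z ∈ Metric.ball o ρ), N.J z =
      ∑ d, ∑ e with N.x e 0 = N.x d 0 ∧ N.x d 0 ∈ Metric.ball o ρ, jj (N.u d 0) (N.u e 0) := by
  have h1 : ∑ d, ∑ e with N.x e 0 = N.x d 0 ∧ N.x d 0 ∈ Metric.ball o ρ, jj (N.u d 0) (N.u e 0) =
      ∑ d with N.x d 0 ∈ Metric.ball o ρ, ∑ e with N.x e 0 = N.x d 0, jj (N.u d 0) (N.u e 0) := by
    rw [Finset.sum_filter]
    refine Finset.sum_congr rfl fun d _ => ?_
    by_cases h : N.x d 0 ∈ Metric.ball o ρ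
    · simp only [h, and_true, if_true]
    · simp only [h, and_false, if_false, Finset.filter_false, Finset.sum_empty]
  rw [h1, ← Finset.sum_fiberwise_of_maps_to (s := univ.filter fun d => N.x d 0 ∈ Metric.ball o ρ)
    (t := N.starts.filter (fun z => z ∈ Metric.ball o ρ)) (g := fun d => N.x d 0)
    (fun d hd => by
      rw [Finset.mem_filter] at hd ⊢
      exact ⟨Finset.mem_image_of_mem _ (Finset.mem_univ _), hd.2⟩)]
  refine Finset.sum_congr rfl fun z hz => ?_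
  rw [Finset.mem_filter] at hz
  unfold LNet.J
  rw [Finset.filter_filter]
  have h2 : (univ.filter fun d => N.x d 0 ∈ Metric.ball o ρ ∧ N.x d 0 = z) =
      univ.filter fun d => N.x d 0 = z := by
    ext d
    simp only [Finset.mem_filter, Finset.mem_univ, true_and]
    exact ⟨fun h => h.2, fun h => ⟨h ▸ hz.2, h⟩⟩
  rw [h2]
  refine Finset.sum_congr rfl fun d hd => ?_
  rw [Finset.mem_filter] at hd
  rw [hd.2]

/-- the bound for one direction -/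
theorem GeoNet.main_dir [FiniteDimensional ℝ E] (Γ : Geom E) (o : E) {R : ℝ} (hR : 0 < R) (L : ℝ)
    (hL : 0 ≤ L) (M : ℕ) (C : ℝ) (hC : 0 < C)
    (hang : ∀ N : LNet E o R Γ.K,
      ∑ d, ∑ e with N.x e 0 = N.x d 0 ∧ N.x d 0 ∈ Metric.ball o (4 * R), jj (N.u d 0) (N.u e 0) ≤
        C * N.length ^ 2) (w : E) (hw : ‖w‖ = 1)
    (hcross : ∀ (N : GeoNet Γ o R), N.length ≤ L → ∀ (F : Finset N.D) (t : ℝ),
      (∀ d ∈ F, (∀ s ∈ Set.Icc 0 (N.len d),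
        1 / (8 * Γ.K) ≤ (inner ℝ w (N.u d s) : ℝ) ∧ N.x d s ∈ Metric.ball o (5 * R)) ∧
        (inner ℝ w (N.x d 0) : ℝ) < t ∧ t < (inner ℝ w (N.x d (N.len d)) : ℝ)) → #F ≤ M) :
    ∃ r₀ : ℝ, 0 < r₀ ∧ ∃ B : ℕ, ∀ N : GeoNet Γ o R, (∀ d, N.len d ≤ r₀) → N.length ≤ L →
      #(N.starts.filter fun z => z ∈ Metric.ball o (R / 2) ∧ 3 ≤ N.deg z ∧
        ∃ d, N.x d 0 = z ∧ 0 < (inner ℝ w (N.u d 0) : ℝ) ∧ gauge w o R z (N.u d 0) < 1 / 2) ≤ B := by
  have hK0 : 0 < Γ.K := by linarith [Γ.one_le]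
  have hκ : 0 < 1 / (16 * ((M : ℝ) + 1)) := by positivity
  obtain ⟨ε, r, r₁, hε, hr, hr₁, htrack⟩ := GeoNet.exists_track Γ w o hw hR M hκ
  obtain ⟨r₂, hr₂, hhyp⟩ := GeoNet.on_hyperplane Γ w o hw hR M
  obtain ⟨Nw, r', hr', hmain⟩ := Track.main Γ (innerSL ℝ w) (c := 1 / (8 * Γ.K)) (by positivity) M
  refine ⟨min r₁ r₂, lt_min hr₁ hr₂,
    ⌈C * L ^ 2 / ε + ((inner ℝ w o + R : ℝ) - (inner ℝ w o - R)) / min r r' + 4⌉₊ * (M + Nw), ?_⟩
  intro N hlen hNL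
  have hN0 : 0 ≤ N.length := Finset.sum_nonneg fun d _ => (N.len_pos d).le
  have hS : ∑ z ∈ N.starts.filter (fun z => z ∈ Metric.ball o (4 * R)), N.J z ≤ C * L ^ 2 := by
    rw [LNet.sum_J]
    refine (hang N.toLNet).trans ?_
    have : N.length ^ 2 ≤ L ^ 2 := by nlinarith
    exact mul_le_mul_of_nonneg_left this hC.le
  obtain ⟨Θ, hAΘ, hBΘ, hΘ, hΘcard, hgap⟩ := exists_cuts
    (N.starts.filter (fun z => z ∈ Metric.ball o (4 * R))) N.J (fun z => (inner ℝ w z : ℝ))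
    (fun z _ => N.J_nonneg_u8 z) (A := inner ℝ w o - R) (B := inner ℝ w o + R) hS hε
    (lt_min hr hr') (by linarith)
  have hcard : #Θ ≤
      ⌈C * L ^ 2 / ε + ((inner ℝ w o + R : ℝ) - (inner ℝ w o - R)) / min r r' + 4⌉₊ := by
    have := hΘcard.trans (Nat.le_ceil _)
    exact_mod_cast this
  set Z := N.starts.filter fun z => z ∈ Metric.ball o (R / 2) ∧ 3 ≤ N.deg z ∧
        ∃ d, N.x d 0 = z ∧ 0 < (inner ℝ w (N.u d 0) : ℝ) ∧ gauge w o R z (N.u d 0) < 1 / 2 with hZ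
  have hZt : ∀ z ∈ Z, (inner ℝ w o : ℝ) - R < inner ℝ w z ∧ (inner ℝ w z : ℝ) < inner ℝ w o + R := by
    intro z hz
    rw [hZ, Finset.mem_filter] at hz
    have h1 := hz.2.1
    rw [Metric.mem_ball, dist_eq_norm] at h1
    have h2 : |(inner ℝ w (z - o) : ℝ)| ≤ ‖z - o‖ := by
      have := abs_real_inner_le_norm w (z - o)
      rwa [hw, one_mul] at this
    rw [inner_sub_right] at h2
    have h3 := abs_le.1 h2
    constructor <;> linarith [h3.1, h3.2]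
  have hcover : Z ⊆ Θ.biUnion fun a => Z.filter fun z => a ≤ (inner ℝ w z : ℝ) ∧
      ∀ θ ∈ Θ, θ ≤ a ∨ (inner ℝ w z : ℝ) < θ := by
    intro z hz
    rw [Finset.mem_biUnion]
    have hne : (Θ.filter fun θ => θ ≤ (inner ℝ w z : ℝ)).Nonempty :=
      ⟨_, Finset.mem_filter.2 ⟨hAΘ, (hZt z hz).1.le⟩⟩
    refine ⟨(Θ.filter fun θ => θ ≤ (inner ℝ w z : ℝ)).max' hne, ?_, ?_⟩
    · exact (Finset.mem_filter.1 (Finset.max'_mem _ hne)).1
    · refine Finset.mem_filter.2 ⟨hz, (Finset.mem_filter.1 (Finset.max'_mem _ hne)).2, ?_⟩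
      intro θ hθ
      by_cases h : θ ≤ (inner ℝ w z : ℝ)
      · exact Or.inl (Finset.le_max' _ _ (Finset.mem_filter.2 ⟨hθ, h⟩))
      · exact Or.inr (not_le.1 h)
  have hfib : ∀ a ∈ Θ, #(Z.filter fun z => a ≤ (inner ℝ w z : ℝ) ∧
      ∀ θ ∈ Θ, θ ≤ a ∨ (inner ℝ w z : ℝ) < θ) ≤ M + Nw := by
    intro a ha
    have hsub : (Z.filter fun z => a ≤ (inner ℝ w z : ℝ) ∧
        ∀ θ ∈ Θ, θ ≤ a ∨ (inner ℝ w z : ℝ) < θ) ⊆
        (Z.filter fun z => (inner ℝ w z : ℝ) = a) ∪ (Z.filter fun z => a < (inner ℝ w z : ℝ) ∧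
        ∀ θ ∈ Θ, θ ≤ a ∨ (inner ℝ w z : ℝ) < θ) := by
      intro z hz
      rw [Finset.mem_filter] at hz
      rcases hz.2.1.eq_or_lt with h | h
      · exact Finset.mem_union.2 (Or.inl (Finset.mem_filter.2 ⟨hz.1, h.symm⟩))
      · exact Finset.mem_union.2 (Or.inr (Finset.mem_filter.2 ⟨hz.1, h, hz.2.2⟩))
    refine (Finset.card_le_card hsub).trans ((Finset.card_union_le _ _).trans (add_le_add ?_ ?_))
    · -- points on the hyperplane
      refine le_trans (Finset.card_le_card ?_) (hhyp N a (fun d => (hlen d).trans (min_le_right _ _))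
        (hcross N hNL))
      intro z hz
      rw [Finset.mem_filter, hZ, Finset.mem_filter] at hz
      obtain ⟨⟨hz1, hz2, hz3, d, hd1, hd2, hd3⟩, hz4⟩ := hz
      refine Finset.mem_filter.2 ⟨hz1, Metric.ball_subset_ball (by linarith) hz2, hz4, d, hd1, hd2, ?_⟩
      linarith
    · -- points in the slab
      rcases (Z.filter fun z => a < (inner ℝ w z : ℝ) ∧
        ∀ θ ∈ Θ, θ ≤ a ∨ (inner ℝ w z : ℝ) < θ).eq_empty_or_nonempty with he | ⟨z₀, hz₀⟩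
      · rw [he]; simp
      rw [Finset.mem_filter] at hz₀
      have haB : a < inner ℝ w o + R := hz₀.2.1.trans (hZt z₀ hz₀.1).2
      have hne : (Θ.filter fun θ => a < θ).Nonempty := ⟨_, Finset.mem_filter.2 ⟨hBΘ, haB⟩⟩
      obtain ⟨b, hbdef⟩ : ∃ b, b = (Θ.filter fun θ => a < θ).min' hne := ⟨_, rfl⟩
      have hbm := Finset.mem_filter.1 (Finset.min'_mem _ hne)
      rw [← hbdef] at hbm
      have hnob : ∀ θ ∈ Θ, ¬ (a < θ ∧ θ < b) := by
        rintro θ hθ ⟨h1, h2⟩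
        have := Finset.min'_le _ _ (Finset.mem_filter.2 ⟨hθ, h1⟩)
        rw [← hbdef] at this
        linarith
      obtain ⟨hba, hmass⟩ := hgap a b (hΘ a ha).1 hbm.2 (hΘ b hbm.1).2 hnob
      rw [Finset.filter_filter] at hmass
      obtain ⟨τ, hτ1, hτ2⟩ := htrack N a b (fun d => (hlen d).trans (min_le_left _ _)) hbm.2
        (hba.trans (min_le_left _ _)) (hcross N hNL) hmass
      have hv := hmain a b _ hbm.2 (hba.trans (min_le_right _ _)) hκ le_rfl τ hτ1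
      refine (Finset.card_le_card ?_).trans hv
      intro z hz
      rw [Finset.mem_filter, hZ, Finset.mem_filter] at hz
      obtain ⟨⟨hz1, hz2, hz3, d, hd1, hd2, hd3⟩, hz4, hz5⟩ := hz
      refine hτ2 z hz1 (Metric.ball_subset_ball (by linarith) hz2) hz3 hz4 ?_ ⟨d, hd1, hd2, hd3⟩
      rcases hz5 b hbm.1 with h | h
      · exact absurd hbm.2 (not_lt.2 h)
      · exact h
  calc #Z ≤ #(Θ.biUnion fun a => Z.filter fun z => a ≤ (inner ℝ w z : ℝ) ∧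
      ∀ θ ∈ Θ, θ ≤ a ∨ (inner ℝ w z : ℝ) < θ) := Finset.card_le_card hcover
    _ ≤ #Θ * (M + Nw) := Finset.card_biUnion_le_card_mul _ _ _ hfib
    _ ≤ _ := Nat.mul_le_mul_right _ hcard

/-- **Local theorem**: the number of vertices of degree at least three of a local geodesic net of
bounded length is bounded. -/
theorem GeoNet.main [FiniteDimensional ℝ E] (Γ : Geom E) (o : E) {R : ℝ} (hR : 0 < R) (L : ℝ) :
    ∃ r₀ : ℝ, 0 < r₀ ∧ ∃ B : ℕ, ∀ N : GeoNet Γ o R, (∀ d, N.len d ≤ r₀) → N.length ≤ L →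
      #(N.starts.filter fun z => z ∈ Metric.ball o (R / 2) ∧ 3 ≤ N.deg z) ≤ B := by
  have hK : 1 ≤ Γ.K := Γ.one_le
  have hK0 : 0 < Γ.K := by linarith
  obtain ⟨Mc, hMc, ⟨cut⟩⟩ := exists_cut E o hR
  obtain ⟨C, hC, hang⟩ := angle_inequality E o hR hK
  obtain ⟨W, hW1, hW⟩ := exists_directions E
  obtain ⟨M, hM⟩ : ∃ M : ℕ, 2 * (Mc * Γ.K ^ 2 + Γ.K) * max L 0 * (8 * Γ.K) ≤ M := exists_nat_ge _
  have hcross : ∀ w : E, ‖w‖ = 1 → ∀ (N : GeoNet Γ o R), N.length ≤ max L 0 →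
      ∀ (F : Finset N.D) (t : ℝ), (∀ d ∈ F, (∀ s ∈ Set.Icc 0 (N.len d),
        1 / (8 * Γ.K) ≤ (inner ℝ w (N.u d s) : ℝ) ∧ N.x d s ∈ Metric.ball o (5 * R)) ∧
        (inner ℝ w (N.x d 0) : ℝ) < t ∧ t < (inner ℝ w (N.x d (N.len d)) : ℝ)) → #F ≤ M := by
    intro w hw N hNL F t hF
    have h1 := LNet.flux hK hMc cut N.toLNet w hw (1 / (8 * Γ.K)) (by positivity) t F hF
    have h2 : (#F : ℝ) * (1 / (8 * Γ.K)) ≤ 2 * (Mc * Γ.K ^ 2 + Γ.K) * max L 0 :=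
      h1.trans (mul_le_mul_of_nonneg_left hNL (by positivity))
    have h3 : (#F : ℝ) ≤ 2 * (Mc * Γ.K ^ 2 + Γ.K) * max L 0 * (8 * Γ.K) := by
      rw [mul_one_div, div_le_iff₀ (by positivity)] at h2
      exact h2
    exact_mod_cast h3.trans hM
  have key : ∀ w : E, ∃ r₀ : ℝ, 0 < r₀ ∧ ∃ B : ℕ, ‖w‖ = 1 → ∀ N : GeoNet Γ o R,
      (∀ d, N.len d ≤ r₀) → N.length ≤ max L 0 →
      #(N.starts.filter fun z => z ∈ Metric.ball o (R / 2) ∧ 3 ≤ N.deg z ∧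
        ∃ d, N.x d 0 = z ∧ 0 < (inner ℝ w (N.u d 0) : ℝ) ∧ gauge w o R z (N.u d 0) < 1 / 2) ≤ B := by
    intro w
    by_cases hw : ‖w‖ = 1
    · obtain ⟨r₀, hr₀, B, hB⟩ := GeoNet.main_dir Γ o hR (max L 0) (le_max_right _ _) M C hC hang w hw
        (hcross w hw)
      exact ⟨r₀, hr₀, B, fun _ => hB⟩
    · exact ⟨1, one_pos, 0, fun h => absurd h hw⟩
  choose rr hrr BB hBB using key
  obtain ⟨r₀, hr₀, hr₀W⟩ : ∃ r₀ : ℝ, 0 < r₀ ∧ ∀ w ∈ W, r₀ ≤ rr w := by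
    rcases W.eq_empty_or_nonempty with h | h
    · exact ⟨1, one_pos, by simp [h]⟩
    · obtain ⟨w₀, _, h2⟩ := W.exists_min_image rr h
      exact ⟨rr w₀, hrr w₀, h2⟩
  refine ⟨r₀, hr₀, ∑ w ∈ W, BB w, ?_⟩
  intro N hlen hNL
  have hNL' : N.length ≤ max L 0 := hNL.trans (le_max_left _ _)
  have hsub : (N.starts.filter fun z => z ∈ Metric.ball o (R / 2) ∧ 3 ≤ N.deg z) ⊆
      W.biUnion fun w => N.starts.filter fun z => z ∈ Metric.ball o (R / 2) ∧ 3 ≤ N.deg z ∧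
        ∃ d, N.x d 0 = z ∧ 0 < (inner ℝ w (N.u d 0) : ℝ) ∧ gauge w o R z (N.u d 0) < 1 / 2 := by
    intro z hz
    rw [Finset.mem_filter] at hz
    obtain ⟨hz1, hz2, hz3⟩ := hz
    obtain ⟨d, _, hd⟩ := Finset.mem_image.1 hz1
    have hu : N.u d 0 ≠ 0 := by
      intro h0
      have := N.u_ge d 0 ⟨le_rfl, (N.len_pos d).le⟩
      rw [h0, norm_zero, mul_zero] at this
      linarith
    obtain ⟨w, hw, hw1, hw2⟩ := hW _ hu
    rw [Finset.mem_biUnion]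
    refine ⟨w, hw, Finset.mem_filter.2 ⟨hz1, hz2, hz3, d, hd, hw1, ?_⟩⟩
    unfold gauge
    refine max_lt hw2 ?_
    rw [Metric.mem_ball, dist_eq_norm] at hz2
    rw [div_lt_iff₀ hR]
    linarith
  calc _ ≤ _ := Finset.card_le_card hsub
    _ ≤ ∑ w ∈ W, _ := Finset.card_biUnion_le
    _ ≤ ∑ w ∈ W, BB w := Finset.sum_le_sum fun w hw =>
        hBB w (hW1 w hw) N (fun d => (hlen d).trans (hr₀W w hw)) hNL'

end Pool.Agent.GNet
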