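import Mathlib
import Pool.Agent.Helper971.BK.DNet
import Pool.Agent.Helper971.BK.P3
import Pool.Agent.Helper971.BK.P6
import Pool.Agent.Helper971.BK.U8

set_option autoImplicit false

open Finset Classical MeasureTheory
open scoped Manifold ContDiff

namespace Pool.Agent.GNet

variable {E : Type*} [NormedAddCommGroup E] [InnerProductSpace ℝ E] [FiniteDimensional ℝ E]
  {M : Type*} [TopologicalSpace M] [ChartedSpace E M] [IsManifold 𝓘(ℝ, E) ∞ M]

/-- **Theorem** (answer to the question of Becker and Kahn): on a closed Riemannian manifold the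
number of vertices of a closed geodesic net is bounded by a function of its length. -/
theorem becker_kahn [T2Space M] [CompactSpace M] (g : RMetric E M) :
    ∃ f : ℝ → ℕ, ∀ N : ClosedGeodesicNet g, #N.V ≤ f N.length := by
  choose R hR Γ hB hC using fun p : M => exists_chartGeom g p
  choose r₀ hr₀ B hmain using fun (p : M) (L : ℝ) =>
    GeoNet.main (Γ p) (chartAt E p p) (hR p) L
  let W : M → Set M := fun p => (chartAt E p).source ∩
    (chartAt E p) ⁻¹'
      (Metric.ball (chartAt E p p) (R p / 2))
  have hW : ∀ p ∈ (Set.univ : Set M), W p ∈ nhds p := by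
    intro p _
    apply IsOpen.mem_nhds
    · exact (chartAt E p).isOpen_inter_preimage Metric.isOpen_ball
    · exact ⟨mem_chart_source _ p, Metric.mem_ball_self (half_pos (hR p))⟩
  obtain ⟨P, -, hP⟩ := isCompact_univ.elim_nhds_subcover W hW
  refine ⟨fun L => ∑ p ∈ P, B p (2 * L), fun N => ?_⟩
  have hsub : N.V ⊆ P.biUnion fun p => N.V.filter fun v => v ∈ W p := by
    intro v hv
    have h1 := hP (Set.mem_univ v)
    rw [Set.mem_iUnion₂] at h1
    obtain ⟨p, hp, hvp⟩ := h1
    exact Finset.mem_biUnion.2 ⟨p, hp, Finset.mem_filter.2 ⟨hv, hvp⟩⟩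
  refine (Finset.card_le_card hsub).trans (Finset.card_biUnion_le.trans (Finset.sum_le_sum ?_))
  intro p _
  obtain ⟨𝒩, h1, h2, h3⟩ := ClosedGeodesicNet.exists_local (hC p) (hR p) (hB p) N
    (hr₀ p (2 * N.length))
  refine le_trans ?_ (hmain p (2 * N.length) 𝒩 h1 h2)
  refine Finset.card_le_card_of_injOn (fun v => chartAt E p v) ?_ ?_
  · intro v hv
    have hv' := Finset.mem_filter.1 (Finset.mem_coe.1 hv)
    have hball : chartAt E p v ∈
        Metric.ball (chartAt E p p) (R p / 2) := hv'.2.2
    have hball8 : chartAt E p v ∈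
        Metric.ball (chartAt E p p) (8 * R p) :=
      Metric.ball_subset_ball (by have := hR p; linarith) hball
    obtain ⟨h4, h5⟩ := h3 v hv'.1 hv'.2.1 hball8
    exact Finset.mem_coe.2 (Finset.mem_filter.2 ⟨h4, hball, h5⟩)
  · intro v hv w hw hvw
    have hv' := Finset.mem_filter.1 (Finset.mem_coe.1 hv)
    have hw' := Finset.mem_filter.1 (Finset.mem_coe.1 hw)
    exact (chartAt E p).injOn hv'.2.1 hw'.2.1 hvw

end Pool.Agent.GNet
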